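import Mathlib

section

/-!
# Step (10): the analytic endgame

If the moment generating function of a law `μ` is bounded near `0` by
`cos (√(r² - a t - c t²)) / cos r` with agreement of the first two moments, then `μ = δ₀`.
-/

namespace Pool.Agent.MP_ac6554_pr

open MeasureTheory ProbabilityTheory Filter Topology Set Real

namespace EndgameAux

lemma nonneg_of_deriv {f f' : ℝ → ℝ} (hf : ∀ x, HasDerivAt f (f' x) x) (h0 : f 0 = 0)
    (h' : ∀ x, 0 ≤ x → 0 ≤ f' x) {x : ℝ} (hx : 0 ≤ x) : 0 ≤ f x := by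
  rcases hx.eq_or_lt with rfl | hx
  · exact h0.ge
  obtain ⟨c, hc, hc'⟩ := exists_hasDerivAt_eq_slope f f' hx
    (fun y _ => (hf y).continuousAt.continuousWithinAt) (fun y _ => hf y)
  have h1 := h' c hc.1.le
  rw [hc', h0, sub_zero, sub_zero] at h1
  by_contra hneg
  have : f x / x < 0 := div_neg_of_neg_of_pos (not_le.1 hneg) hx
  linarith

lemma cos_le4 {x : ℝ} (hx : 0 ≤ x) : cos x ≤ 1 - x ^ 2 / 2 + x ^ 4 / 24 := by
  have := nonneg_of_deriv (f := fun y => 1 - y ^ 2 / 2 + y ^ 4 / 24 - cos y)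
    (f' := fun y => sin y - (y - y ^ 3 / 6)) (fun y => by
      have h1 := (((hasDerivAt_const y (1 : ℝ)).sub ((hasDerivAt_pow 2 y).div_const 2)).add
        ((hasDerivAt_pow 4 y).div_const 24)).sub (hasDerivAt_cos y)
      refine h1.congr_deriv ?_
      push_cast
      ring) (by simp) (fun y hy => sub_nonneg.2 (sin_ge_sub_cube hy)) hx
  linarith

lemma sin_le5 {x : ℝ} (hx : 0 ≤ x) : sin x ≤ x - x ^ 3 / 6 + x ^ 5 / 120 := by
  have := nonneg_of_deriv (f := fun y => y - y ^ 3 / 6 + y ^ 5 / 120 - sin y)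
    (f' := fun y => 1 - y ^ 2 / 2 + y ^ 4 / 24 - cos y) (fun y => by
      have h1 := (((hasDerivAt_id y).sub ((hasDerivAt_pow 3 y).div_const 6)).add
        ((hasDerivAt_pow 5 y).div_const 120)).sub (hasDerivAt_sin y)
      refine h1.congr_deriv ?_
      push_cast
      ring) (by simp) (fun y hy => sub_nonneg.2 (cos_le4 hy)) hx
  linarith

lemma cos_ge6 {x : ℝ} (hx : 0 ≤ x) : 1 - x ^ 2 / 2 + x ^ 4 / 24 - x ^ 6 / 720 ≤ cos x := by
  have := nonneg_of_deriv (f := fun y => cos y - (1 - y ^ 2 / 2 + y ^ 4 / 24 - y ^ 6 / 720))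
    (f' := fun y => y - y ^ 3 / 6 + y ^ 5 / 120 - sin y) (fun y => by
      have h1 := (hasDerivAt_cos y).sub
        ((((hasDerivAt_const y (1 : ℝ)).sub ((hasDerivAt_pow 2 y).div_const 2)).add
        ((hasDerivAt_pow 4 y).div_const 24)).sub ((hasDerivAt_pow 6 y).div_const 720))
      refine h1.congr_deriv ?_
      push_cast
      ring) (by simp) (fun y hy => sub_nonneg.2 (sin_le5 hy)) hx
  linarith

lemma exp_add_exp_ge (x : ℝ) : 2 + x ^ 2 + x ^ 4 / 12 ≤ exp x + exp (-x) := by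
  have h := sum_le_hasSum (Finset.range 3) (fun n _ => by
    have : 0 ≤ x ^ (2 * n) := by rw [pow_mul]; positivity
    positivity) (Real.hasSum_cosh x)
  rw [Real.cosh_eq] at h
  simp only [Finset.sum_range_succ, Finset.sum_range_zero, Nat.factorial] at h
  norm_num at h
  linarith

/-- `cos √u` and its first four derivatives. -/
noncomputable def g0 (u : ℝ) : ℝ := cos √u
noncomputable def g1 (u : ℝ) : ℝ := -sin √u / (2 * √u)
noncomputable def g2 (u : ℝ) : ℝ := (-g0 u - 2 * g1 u) / (4 * u)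
noncomputable def g3 (u : ℝ) : ℝ := (-g1 u - 6 * g2 u) / (4 * u)
noncomputable def g4 (u : ℝ) : ℝ := (-g2 u - 10 * g3 u) / (4 * u)

lemma d0 {u : ℝ} (hu : 0 < u) : HasDerivAt g0 (g1 u) u := by
  have h := (hasDerivAt_sqrt hu.ne').cos
  refine h.congr_deriv ?_
  unfold g1
  ring

lemma d1 {u : ℝ} (hu : 0 < u) : HasDerivAt g1 (g2 u) u := by
  have hs : 0 < √u := sqrt_pos.2 hu
  have h := (hasDerivAt_sqrt hu.ne').sin.neg.div ((hasDerivAt_sqrt hu.ne').const_mul 2)
    (by positivity)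
  refine h.congr_deriv ?_
  unfold g2 g1 g0
  have e : u = √u ^ 2 := (sq_sqrt hu.le).symm
  simp only [Pi.neg_apply]
  clear h
  generalize √u = s at *
  subst e
  field_simp
  ring

lemma d2 {u : ℝ} (hu : 0 < u) : HasDerivAt g2 (g3 u) u := by
  have h := ((d0 hu).neg.sub ((d1 hu).const_mul 2)).div ((hasDerivAt_id u).const_mul 4)
    (by simp only [id]; positivity)
  refine h.congr_deriv ?_
  have e : -g0 u - 2 * g1 u = 4 * u * g2 u := by unfold g2; field_simp
  simp only [Pi.neg_apply, Pi.sub_apply, id, e]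
  unfold g3
  field_simp
  ring

lemma d3 {u : ℝ} (hu : 0 < u) : HasDerivAt g3 (g4 u) u := by
  have h := ((d1 hu).neg.sub ((d2 hu).const_mul 6)).div ((hasDerivAt_id u).const_mul 4)
    (by simp only [id]; positivity)
  refine h.congr_deriv ?_
  have e : -g1 u - 6 * g2 u = 4 * u * g3 u := by unfold g3; field_simp
  simp only [Pi.neg_apply, Pi.sub_apply, id, e]
  unfold g4
  field_simp
  ring

lemma neg_step {f f' : ℝ → ℝ} (hf : ∀ᶠ t in 𝓝 (0 : ℝ), HasDerivAt f (f' t) t) (h0 : f 0 = 0)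
    (h' : ∀ᶠ t in 𝓝[>] (0 : ℝ), f' t < 0) : ∀ᶠ t in 𝓝[>] (0 : ℝ), f t < 0 := by
  obtain ⟨δ, hδ, h1⟩ := Metric.eventually_nhds_iff.1 hf
  obtain ⟨ε, hε, h2⟩ := Metric.eventually_nhds_iff.1 (eventually_nhdsWithin_iff.1 h')
  have : Ioo (0 : ℝ) (min δ ε) ∈ 𝓝[>] (0 : ℝ) := Ioo_mem_nhdsGT (lt_min hδ hε)
  filter_upwards [this] with t ht
  have hd : ∀ y ∈ Icc 0 t, HasDerivAt f (f' y) y := fun y hy => h1 (by
    rw [Real.dist_eq, sub_zero, abs_of_nonneg hy.1]
    exact hy.2.trans_lt (ht.2.trans_le (min_le_left _ _)))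
  obtain ⟨c, hc, hc'⟩ := exists_hasDerivAt_eq_slope f f' ht.1
    (fun y hy => (hd y hy).continuousAt.continuousWithinAt)
    (fun y hy => hd y (Ioo_subset_Icc_self hy))
  have h3 : f' c < 0 := h2 (by
    rw [Real.dist_eq, sub_zero, abs_of_nonneg hc.1.le]
    exact hc.2.trans (ht.2.trans_le (min_le_right _ _))) hc.1
  rw [hc', h0, sub_zero, sub_zero] at h3
  by_contra hneg
  have : 0 ≤ f t / t := div_nonneg (not_lt.1 hneg) ht.1.le
  linarith

lemma fourth_nonneg {D0 D1 D2 D3 : ℝ → ℝ} {d : ℝ}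
    (h0 : ∀ᶠ t in 𝓝 (0 : ℝ), HasDerivAt D0 (D1 t) t)
    (h1 : ∀ᶠ t in 𝓝 (0 : ℝ), HasDerivAt D1 (D2 t) t)
    (h2 : ∀ᶠ t in 𝓝 (0 : ℝ), HasDerivAt D2 (D3 t) t)
    (h3 : HasDerivAt D3 d 0) (z0 : D0 0 = 0) (z1 : D1 0 = 0) (z2 : D2 0 = 0) (z3 : D3 0 = 0)
    (hpos : ∀ᶠ t in 𝓝 (0 : ℝ), 0 ≤ D0 t) : 0 ≤ d := by
  by_contra hd
  have hd : d < 0 := not_le.1 hd
  have e3 : ∀ᶠ t in 𝓝[>] (0 : ℝ), D3 t < 0 := by
    have h := (h3.tendsto_slope_zero_right).eventually (gt_mem_nhds hd)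
    filter_upwards [h, self_mem_nhdsWithin] with t ht ht0
    rw [zero_add, z3, sub_zero, smul_eq_mul] at ht
    by_contra hneg
    have : 0 ≤ t⁻¹ * D3 t := mul_nonneg (inv_nonneg.2 (le_of_lt ht0)) (not_lt.1 hneg)
    linarith
  have e0 := neg_step h0 z0 (neg_step h1 z1 (neg_step h2 z2 e3))
  obtain ⟨t, ht, ht'⟩ := (e0.and (hpos.filter_mono nhdsWithin_le_nhds)).exists
  linarith

lemma g0_sq {r : ℝ} (hr : 0 < r) : g0 (r ^ 2) = cos r := by
  unfold g0; rw [sqrt_sq hr.le]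

lemma g1_sq {r : ℝ} (hr : 0 < r) : g1 (r ^ 2) = -sin r / (2 * r) := by
  unfold g1; rw [sqrt_sq hr.le]

lemma g2_sq {r : ℝ} (hr : 0 < r) : g2 (r ^ 2) = (sin r - r * cos r) / (4 * r ^ 3) := by
  unfold g2; rw [g0_sq hr, g1_sq hr]; field_simp; ring

lemma g3_sq {r : ℝ} (hr : 0 < r) :
    g3 (r ^ 2) = -(((3 - r ^ 2) * sin r - 3 * r * cos r) / (8 * r ^ 5)) := by
  unfold g3; rw [g1_sq hr, g2_sq hr]; field_simp; ring

lemma g4_sq {r : ℝ} (hr : 0 < r) :
    g4 (r ^ 2) = ((15 - 6 * r ^ 2) * sin r - (15 * r - r ^ 3) * cos r) / (16 * r ^ 7) := by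
  unfold g4; rw [g2_sq hr, g3_sq hr]; field_simp; ring

lemma sq_le {r : ℝ} (hr : 0 < r) (hr' : r < π / 2) : r ^ 2 ≤ 5 / 2 := by
  have := pi_lt_d2
  nlinarith

lemma g3_le {r : ℝ} (hr : 0 < r) (hr' : r < π / 2) : g3 (r ^ 2) ≤ -(1 / 192) := by
  have h2 := sq_le hr hr'
  rw [g3_sq hr, neg_le_neg_iff, le_div_iff₀ (by positivity)]
  have a1 := mul_le_mul_of_nonneg_left (sin_ge_sub_cube hr.le) (show 0 ≤ 3 - r ^ 2 by linarith)
  have a2 := mul_le_mul_of_nonneg_left (cos_le4 hr.le) (show 0 ≤ 3 * r by positivity)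
  nlinarith

lemma g4_le {r : ℝ} (hr : 0 < r) (hr' : r < π / 2) : g4 (r ^ 2) ≤ 1 / 1280 := by
  have h2 := sq_le hr hr'
  rw [g4_sq hr, div_le_iff₀ (by positivity)]
  have a1 := mul_le_mul_of_nonneg_left (sin_le5 hr.le) (show 0 ≤ 15 - 6 * r ^ 2 by linarith)
  have a2 := mul_le_mul_of_nonneg_left (cos_ge6 hr.le)
    (show 0 ≤ 15 * r - r ^ 3 by nlinarith)
  have a3 : 0 ≤ r ^ 9 := by positivity
  nlinarith

/-- `g1² - g0 g2 ≥ 1/12` on the range. -/
lemma var_ge {r : ℝ} (hr : 0 < r) (hr' : r < π / 2) :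
    1 / 12 ≤ g1 (r ^ 2) ^ 2 - g0 (r ^ 2) * g2 (r ^ 2) := by
  have h2 := sq_le hr hr'
  have e : g1 (r ^ 2) ^ 2 - g0 (r ^ 2) * g2 (r ^ 2) = (2 * r - sin (2 * r)) / (8 * r ^ 3) := by
    rw [g0_sq hr, g1_sq hr, g2_sq hr, sin_two_mul]
    have := sin_sq_add_cos_sq r
    field_simp
    linear_combination (32 * r) * this
  rw [e, le_div_iff₀ (by positivity)]
  have a1 := sin_le5 (show 0 ≤ 2 * r by positivity)
  have a3 : 0 ≤ r ^ 3 * (5 / 2 - r ^ 2) := mul_nonneg (by positivity) (by linarith)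
  nlinarith

lemma g1_neg {r : ℝ} (hr : 0 < r) (hr' : r < π / 2) : g1 (r ^ 2) < 0 := by
  rw [g1_sq hr]
  have : 0 < sin r := sin_pos_of_pos_of_lt_pi hr (by linarith [pi_pos])
  exact div_neg_of_neg_of_pos (by linarith) (by positivity)

lemma g0_pos {r : ℝ} (hr : 0 < r) (hr' : r < π / 2) : 0 < g0 (r ^ 2) := by
  rw [g0_sq hr]
  exact cos_pos_of_mem_Ioo ⟨by linarith, hr'⟩

/-- The algebraic heart of the argument. -/
lemma alg {r a c m1 m2 m4 : ℝ} (hr : 0 < r) (hr' : r < π / 2)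
    (h1 : m1 * g0 (r ^ 2) = -g1 (r ^ 2) * a)
    (h2 : m2 * g0 (r ^ 2) = g2 (r ^ 2) * a ^ 2 - 2 * c * g1 (r ^ 2))
    (h4 : m4 * g0 (r ^ 2) ≤
      g4 (r ^ 2) * a ^ 4 - 12 * c * g3 (r ^ 2) * a ^ 2 + 12 * c ^ 2 * g2 (r ^ 2))
    (hv : m1 ^ 2 ≤ m2) (hq : 0 ≤ m4 - 2 * c * m2 + c ^ 2) : m2 = 0 := by
  have p0 := g0_pos hr hr'
  have p1 := g1_neg hr hr'
  have p3 := g3_le hr hr'
  have p4 := g4_le hr hr'
  have pv := var_ge hr hr'
  have hu : 0 < r ^ 2 := by positivity
  have o0 : g0 (r ^ 2) = -(4 * r ^ 2 * g2 (r ^ 2)) - 2 * g1 (r ^ 2) := by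
    rw [g2]; field_simp; ring
  have o1 : g1 (r ^ 2) = -(4 * r ^ 2 * g3 (r ^ 2)) - 6 * g2 (r ^ 2) := by
    rw [g3]; field_simp; ring
  have o2 : g2 (r ^ 2) = -(4 * r ^ 2 * g4 (r ^ 2)) - 10 * g3 (r ^ 2) := by
    rw [g4]; field_simp; ring
  have o3 : g0 (r ^ 2) ^ 2 + 4 * r ^ 2 * g1 (r ^ 2) ^ 2 = 1 := by
    rw [g0_sq hr, g1_sq hr]
    have := sin_sq_add_cos_sq r
    field_simp
    linear_combination 4 * this
  generalize g0 (r ^ 2) = G0 at *
  generalize g1 (r ^ 2) = G1 at *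
  generalize g2 (r ^ 2) = G2 at *
  generalize g3 (r ^ 2) = G3 at *
  generalize g4 (r ^ 2) = G4 at *
  generalize r ^ 2 = u at *
  -- variance inequality
  have hV : a ^ 2 * (G1 ^ 2 - G0 * G2) ≤ 2 * c * (-G1 * G0) := by
    have e1 : (m1 * G0) ^ 2 ≤ (m2 * G0) * G0 := by nlinarith [sq_nonneg G0]
    rw [h1, h2] at e1
    nlinarith
  have pp : 0 < -G1 * G0 := mul_pos (by linarith) p0
  have hc : 0 ≤ c := by
    by_contra hc
    have : 2 * c * (-G1 * G0) < 0 := mul_neg_of_neg_of_pos (by linarith) pp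
    have : 0 ≤ a ^ 2 * (G1 ^ 2 - G0 * G2) := mul_nonneg (sq_nonneg _) (by linarith)
    linarith
  rcases hc.eq_or_lt with rfl | hc
  · have ha : a ^ 2 = 0 := by
      refine le_antisymm ?_ (sq_nonneg a)
      by_contra ha
      have : 0 < a ^ 2 * (G1 ^ 2 - G0 * G2) := mul_pos (not_le.1 ha) (by linarith)
      linarith
    rw [ha] at h2
    have : m2 * G0 = 0 := by rw [h2]; ring
    exact (mul_eq_zero.1 this).resolve_right p0.ne'
  · exfalso
    obtain ⟨B, hB⟩ : ∃ B, a ^ 2 = 4 * c * (B - u) := ⟨a ^ 2 / (4 * c) + u, by field_simp; ring⟩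
    have hBu : u ≤ B := by
      by_contra h
      have : 4 * c * (B - u) < 0 := mul_neg_of_pos_of_neg (by positivity) (by linarith)
      nlinarith [sq_nonneg a]
    have hB0 : 0 < B := hu.trans_le hBu
    -- `B ≤ 3`
    have hV' : 4 * B * (G1 ^ 2 - G0 * G2) ≤ 1 := by
      rw [hB] at hV
      have e2 : 4 * (B - u) * (G1 ^ 2 - G0 * G2) ≤ 2 * (-G1 * G0) := by
        refine le_of_mul_le_mul_left ?_ hc
        nlinarith
      have e3 : 4 * u * (G0 * G2) = -G0 ^ 2 - 2 * (G1 * G0) := by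
        linear_combination G0 * o0
      nlinarith
    have hB3 : B ≤ 3 := by nlinarith
    -- fourth order
    have e4 : 0 ≤ (m4 - 2 * c * m2 + c ^ 2) * G0 := mul_nonneg hq p0.le
    have e5 : 0 ≤ c ^ 2 * (16 * B * (B * G4 + 2 * G3)) := by
      have e6 : a ^ 4 = (4 * c * (B - u)) ^ 2 := by rw [← hB]; ring
      have e7 : (m4 - 2 * c * m2 + c ^ 2) * G0 = m4 * G0 - 2 * c * (m2 * G0) + c ^ 2 * G0 := by
        ring
      rw [e7, h2] at e4
      rw [e6, hB] at h4
      rw [hB] at e4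
      have e8 : G4 * (4 * c * (B - u)) ^ 2 - 12 * c * G3 * (4 * c * (B - u)) + 12 * c ^ 2 * G2
          - 2 * c * (G2 * (4 * c * (B - u)) - 2 * c * G1) + c ^ 2 * G0
          = c ^ 2 * (16 * B * (B * G4 + 2 * G3)) := by
        rw [o0, o1, o2]; ring
      linarith
    have e9 : B * G4 + 2 * G3 < 0 := by nlinarith
    have : c ^ 2 * (16 * B * (B * G4 + 2 * G3)) < 0 :=
      mul_neg_of_pos_of_neg (by positivity) (mul_neg_of_pos_of_neg (by positivity) e9)
    linarith

/-- Finite exponential moments near `0`. -/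
lemma mem_interior {μ : Measure ℝ} {f : ℝ → ℝ}
    (h : ∀ᶠ t in 𝓝 (0 : ℝ), ∫⁻ x, ENNReal.ofReal (exp (t * x)) ∂μ ≤ ENNReal.ofReal (f t)) :
    (0 : ℝ) ∈ interior (integrableExpSet id μ) := by
  rw [mem_interior_iff_mem_nhds]
  filter_upwards [h] with t ht
  change Integrable (fun x => exp (t * x)) μ
  refine ⟨by fun_prop, ?_⟩
  rw [hasFiniteIntegral_iff_ofReal (Eventually.of_forall fun x => (exp_pos _).le)]
  exact ht.trans_lt ENNReal.ofReal_lt_top

lemma lintegral_eq_mgf {μ : Measure ℝ} {t : ℝ} (ht : t ∈ integrableExpSet id μ) :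
    ∫⁻ x, ENNReal.ofReal (exp (t * x)) ∂μ = ENNReal.ofReal (mgf id μ t) :=
  (ofReal_integral_eq_lintegral_ofReal ht (Eventually.of_forall fun _ => (exp_pos _).le)).symm

lemma eq_dirac {μ : Measure ℝ} [IsProbabilityMeasure μ] (hi : Integrable (fun x : ℝ => x ^ 2) μ)
    (h : ∫ x, x ^ 2 ∂μ = 0) : μ = Measure.dirac 0 := by
  have h1 : (fun x : ℝ => x ^ 2) =ᵐ[μ] 0 :=
    (integral_eq_zero_iff_of_nonneg (fun x => sq_nonneg x) hi).1 h
  have h2 : (id : ℝ → ℝ) =ᵐ[μ] fun _ => 0 := by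
    filter_upwards [h1] with x hx
    exact pow_eq_zero_iff (two_ne_zero) |>.1 hx
  have h3 : μ.map id = μ.map fun _ => (0 : ℝ) := Measure.map_congr h2
  rw [Measure.map_id, Measure.map_const] at h3
  simpa using h3

lemma int3 {μ : Measure ℝ} [IsProbabilityMeasure μ] {f g : ℝ → ℝ} (hf : Integrable f μ)
    (hg : Integrable g μ) (A B C : ℝ) :
    Integrable (fun x => A + B * f x + C * g x) μ ∧
      ∫ x, (A + B * f x + C * g x) ∂μ = A + B * ∫ x, f x ∂μ + C * ∫ x, g x ∂μ := by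
  have i1 : Integrable (fun x => A + B * f x) μ := (integrable_const A).add (hf.const_mul B)
  have i2 : Integrable (fun x => C * g x) μ := hg.const_mul C
  refine ⟨i1.add i2, ?_⟩
  rw [integral_add i1 i2, integral_add (integrable_const A) (hf.const_mul B), integral_const_mul,
    integral_const_mul]
  simp

theorem core {r a c : ℝ} (hr : 0 < r) (hr' : r < π / 2) (μ : Measure ℝ) [IsProbabilityMeasure μ]
    (hle : ∀ᶠ t in 𝓝 (0 : ℝ), ∫⁻ x, ENNReal.ofReal (exp (t * x)) ∂μ ≤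
      ENNReal.ofReal (g0 (r ^ 2 - a * t - c * t ^ 2) / g0 (r ^ 2)))
    (h1 : (∫ x, x ∂μ) * g0 (r ^ 2) = -g1 (r ^ 2) * a)
    (h2 : (∫ x, x ^ 2 ∂μ) * g0 (r ^ 2) = g2 (r ^ 2) * a ^ 2 - 2 * c * g1 (r ^ 2)) :
    μ = Measure.dirac 0 := by
  have hint := mem_interior hle
  have ip : ∀ n : ℕ, Integrable (fun x : ℝ => x ^ n) μ := fun n =>
    integrable_pow_of_mem_interior_integrableExpSet hint n
  have i1 : Integrable (fun x : ℝ => x) μ := by simpa using ip 1
  have p0 := g0_pos hr hr'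
  set m1 := ∫ x, x ∂μ with hm1
  set m2 := ∫ x, x ^ 2 ∂μ with hm2
  set m4 := ∫ x, x ^ 4 ∂μ with hm4
  refine eq_dirac (ip 2) (alg (m1 := m1) (m4 := m4) hr hr' h1 h2 ?_ ?_ ?_)
  · -- fourth order comparison
    set w : ℝ → ℝ := fun t => r ^ 2 - a * t - c * t ^ 2 with hw
    set w1 : ℝ → ℝ := fun t => -a - 2 * c * t with hw1
    have dw : ∀ t, HasDerivAt w (w1 t) t := fun t => by
      have h := ((hasDerivAt_const t (r ^ 2)).sub ((hasDerivAt_id t).const_mul a)).sub
        ((hasDerivAt_pow 2 t).const_mul c)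
      refine h.congr_deriv ?_
      simp only [hw1]
      push_cast
      ring
    have dw1 : ∀ t, HasDerivAt w1 (-(2 * c)) t := fun t => by
      have h := (hasDerivAt_const t (-a)).sub ((hasDerivAt_id t).const_mul (2 * c))
      refine h.congr_deriv ?_
      ring
    have w0 : w 0 = r ^ 2 := by simp [hw]
    have w10 : w1 0 = -a := by simp [hw1]
    have wpos : ∀ᶠ t in 𝓝 (0 : ℝ), 0 < w t :=
      (dw 0).continuousAt.eventually (lt_mem_nhds (by rw [w0]; positivity))
    set F0 : ℝ → ℝ := fun t => g0 (w t) with hF0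
    set F1 : ℝ → ℝ := fun t => g1 (w t) * w1 t with hF1
    set F2 : ℝ → ℝ := fun t => g2 (w t) * w1 t ^ 2 - 2 * c * g1 (w t) with hF2
    set F3 : ℝ → ℝ := fun t => g3 (w t) * w1 t ^ 3 - 6 * c * (g2 (w t) * w1 t) with hF3
    set F4 : ℝ → ℝ := fun t =>
      g4 (w t) * w1 t ^ 4 - 12 * c * g3 (w t) * w1 t ^ 2 + 12 * c ^ 2 * g2 (w t) with hF4
    have dF0 : ∀ t, 0 < w t → HasDerivAt F0 (F1 t) t := fun t ht => (d0 ht).comp t (dw t)
    have dF1 : ∀ t, 0 < w t → HasDerivAt F1 (F2 t) t := fun t ht => by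
      have h := ((d1 ht).comp t (dw t)).mul (dw1 t)
      refine h.congr_deriv ?_
      simp only [hF2, Function.comp]
      ring
    have dF2 : ∀ t, 0 < w t → HasDerivAt F2 (F3 t) t := fun t ht => by
      have h := (((d2 ht).comp t (dw t)).mul ((dw1 t).pow 2)).sub
        (((d1 ht).comp t (dw t)).const_mul (2 * c))
      refine h.congr_deriv ?_
      simp only [hF3, Function.comp, Pi.pow_apply]
      push_cast
      ring
    have dF3 : ∀ t, 0 < w t → HasDerivAt F3 (F4 t) t := fun t ht => by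
      have h := (((d3 ht).comp t (dw t)).mul ((dw1 t).pow 3)).sub
        ((((d2 ht).comp t (dw t)).mul (dw1 t)).const_mul (6 * c))
      refine h.congr_deriv ?_
      simp only [hF4, Function.comp, Pi.pow_apply]
      push_cast
      ring
    have tneg : Tendsto (fun t : ℝ => -t) (𝓝 0) (𝓝 0) := by
      simpa using (continuous_neg.tendsto (0 : ℝ))
    have wpos' : ∀ᶠ t in 𝓝 (0 : ℝ), 0 < w (-t) := tneg.eventually wpos
    have key := fourth_nonneg
      (D0 := fun t => F0 t + F0 (-t) - g0 (r ^ 2) * (2 + m2 * t ^ 2 + m4 / 12 * t ^ 4))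
      (D1 := fun t => F1 t - F1 (-t) - g0 (r ^ 2) * (2 * m2 * t + m4 / 3 * t ^ 3))
      (D2 := fun t => F2 t + F2 (-t) - g0 (r ^ 2) * (2 * m2 + m4 * t ^ 2))
      (D3 := fun t => F3 t - F3 (-t) - g0 (r ^ 2) * (2 * m4 * t))
      (d := 2 * F4 0 - 2 * (g0 (r ^ 2) * m4)) ?_ ?_ ?_ ?_ ?_ ?_ ?_ ?_ ?_
    · simp only [hF4, w0, w10] at key
      nlinarith
    · filter_upwards [wpos, wpos'] with t ht ht'
      have h := ((dF0 t ht).add ((dF0 (-t) ht').comp t (hasDerivAt_neg t))).sub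
        ((((hasDerivAt_const t (2 : ℝ)).add ((hasDerivAt_pow 2 t).const_mul m2)).add
          ((hasDerivAt_pow 4 t).const_mul (m4 / 12))).const_mul (g0 (r ^ 2)))
      refine h.congr_deriv ?_
      push_cast
      ring
    · filter_upwards [wpos, wpos'] with t ht ht'
      have h := ((dF1 t ht).sub ((dF1 (-t) ht').comp t (hasDerivAt_neg t))).sub
        ((((hasDerivAt_id t).const_mul (2 * m2)).add
          ((hasDerivAt_pow 3 t).const_mul (m4 / 3))).const_mul (g0 (r ^ 2)))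
      refine h.congr_deriv ?_
      push_cast
      ring
    · filter_upwards [wpos, wpos'] with t ht ht'
      have h := ((dF2 t ht).add ((dF2 (-t) ht').comp t (hasDerivAt_neg t))).sub
        (((hasDerivAt_const t (2 * m2)).add
          ((hasDerivAt_pow 2 t).const_mul m4)).const_mul (g0 (r ^ 2)))
      refine h.congr_deriv ?_
      push_cast
      ring
    · have ht : 0 < w 0 := by rw [w0]; positivity
      have ht' : 0 < w (-0) := by rwa [neg_zero]
      have h := ((dF3 0 ht).sub ((dF3 (-0) ht').comp 0 (hasDerivAt_neg 0))).sub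
        (((hasDerivAt_id (0 : ℝ)).const_mul (2 * m4)).const_mul (g0 (r ^ 2)))
      refine h.congr_deriv ?_
      rw [neg_zero]
      ring
    · simp only [neg_zero, hF0, w0]
      ring
    · simp
    · simp only [neg_zero, hF2, w0, w10]
      linear_combination (-2 : ℝ) * h2
    · simp
    · have hle' : ∀ᶠ t in 𝓝 (0 : ℝ), t ∈ integrableExpSet id μ ∧
          mgf id μ t * g0 (r ^ 2) ≤ F0 t := by
        filter_upwards [hle, mem_interior_iff_mem_nhds.1 hint] with t ht hti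
        refine ⟨hti, ?_⟩
        rw [lintegral_eq_mgf hti, ENNReal.ofReal_le_ofReal_iff'] at ht
        rcases ht with ht | ht
        · exact (le_div_iff₀ p0).1 ht
        · exact absurd ht (not_le.2 (mgf_pos hti))
      filter_upwards [hle', tneg.eventually hle'] with t ht ht'
      have e1 : 2 + m2 * t ^ 2 + m4 / 12 * t ^ 4 ≤ mgf id μ t + mgf id μ (-t) := by
        obtain ⟨e2, e3⟩ := int3 (ip 2) (ip 4) 2 (t ^ 2) (t ^ 4 / 12)
        have e4 : 2 + m2 * t ^ 2 + m4 / 12 * t ^ 4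
            = ∫ x, (2 + t ^ 2 * x ^ 2 + t ^ 4 / 12 * x ^ 4) ∂μ := by
          rw [e3]; ring
        rw [e4]
        unfold mgf
        rw [← integral_add ht.1 ht'.1]
        refine integral_mono e2 (ht.1.add ht'.1) fun x => ?_
        have := exp_add_exp_ge (t * x)
        simp only [id, neg_mul]
        nlinarith
      have := mul_le_mul_of_nonneg_left e1 p0.le
      nlinarith [ht.2, ht'.2]
  · have e := (int3 i1 (ip 2) (m1 ^ 2) (-2 * m1) 1).2
    have : 0 ≤ ∫ x, (m1 ^ 2 + -2 * m1 * x + 1 * x ^ 2) ∂μ :=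
      integral_nonneg fun x => by
        simp only [Pi.zero_apply]
        nlinarith [sq_nonneg (x - m1)]
    rw [e] at this
    nlinarith
  · have e := (int3 (ip 2) (ip 4) (c ^ 2) (-2 * c) 1).2
    have : 0 ≤ ∫ x, (c ^ 2 + -2 * c * x ^ 2 + 1 * x ^ 4) ∂μ :=
      integral_nonneg fun x => by
        simp only [Pi.zero_apply]
        nlinarith [sq_nonneg (x ^ 2 - c)]
    rw [e] at this
    nlinarith

lemma sqrt_form (κ ν l : ℝ) :
    cos (π * √(ν ^ 2 - 8 * l / κ)) = g0 ((π * |ν|) ^ 2 - 8 * π ^ 2 / κ * l) := by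
  have e : (π * |ν|) ^ 2 - 8 * π ^ 2 / κ * l = π ^ 2 * (ν ^ 2 - 8 * l / κ) := by
    rw [mul_pow, sq_abs]; ring
  rw [g0, e, sqrt_mul (sq_nonneg π), sqrt_sq pi_pos.le]

lemma cos_form (ν : ℝ) : cos (π * ν) = g0 ((π * |ν|) ^ 2) := by
  rw [g0, sqrt_sq (by positivity), ← cos_abs (π * ν), abs_mul, abs_of_pos pi_pos]

lemma beta_facts {r α : ℝ} (hr : 0 < r) (hr' : r < π / 2) (β : Measure ℝ)
    (hβ : ∀ᶠ l in 𝓝 (0 : ℝ), ∫⁻ b, ENNReal.ofReal (exp (-(l * b))) ∂β =
      ENNReal.ofReal (g0 (r ^ 2) / g0 (r ^ 2 - α * l))) :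
    (0 : ℝ) ∈ interior (integrableExpSet id β) ∧
      (∫ b, b ∂β) * g0 (r ^ 2) = -g1 (r ^ 2) * α ∧
      (∫ b, b ^ 2 ∂β) * g0 (r ^ 2) ^ 2 =
        α ^ 2 * (2 * g1 (r ^ 2) ^ 2 - g0 (r ^ 2) * g2 (r ^ 2)) := by
  have p0 := g0_pos hr hr'
  have tneg : Tendsto (fun t : ℝ => -t) (𝓝 0) (𝓝 0) := by
    simpa using (continuous_neg.tendsto (0 : ℝ))
  set w : ℝ → ℝ := fun t => r ^ 2 + α * t with hw
  have hβ' : ∀ᶠ t in 𝓝 (0 : ℝ), ∫⁻ b, ENNReal.ofReal (exp (t * b)) ∂β =
      ENNReal.ofReal (g0 (r ^ 2) / g0 (w t)) := by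
    filter_upwards [tneg.eventually hβ] with t ht
    simpa [hw] using ht
  have hint : (0 : ℝ) ∈ interior (integrableExpSet id β) :=
    mem_interior (f := fun t => g0 (r ^ 2) / g0 (w t)) (hβ'.mono fun t ht => ht.le)
  have dw : ∀ t, HasDerivAt w α t := fun t => by
    have h := (hasDerivAt_const t (r ^ 2)).add ((hasDerivAt_id t).const_mul α)
    refine h.congr_deriv ?_
    ring
  have w0 : w 0 = r ^ 2 := by simp [hw]
  have hw0 : 0 < w 0 := by rw [w0]; positivity
  have wpos : ∀ᶠ t in 𝓝 (0 : ℝ), 0 < w t :=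
    (dw 0).continuousAt.eventually (lt_mem_nhds hw0)
  have gpos : ∀ᶠ t in 𝓝 (0 : ℝ), 0 < g0 (w t) :=
    ((d0 hw0).comp 0 (dw 0)).continuousAt.eventually
      (lt_mem_nhds (show 0 < g0 (w 0) by rwa [w0]))
  have hI : ∀ᶠ t in 𝓝 (0 : ℝ), t ∈ interior (integrableExpSet id β) :=
    isOpen_interior.eventually_mem hint
  have e0 : ∀ᶠ t in 𝓝 (0 : ℝ), mgf id β t = g0 (r ^ 2) / g0 (w t) := by
    filter_upwards [hβ', gpos, hI] with t ht hg hi
    rwa [lintegral_eq_mgf (interior_subset hi),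
      ENNReal.ofReal_eq_ofReal_iff mgf_nonneg (by positivity)] at ht
  have e1 : ∀ᶠ t in 𝓝 (0 : ℝ), ∫ b, b ^ 1 * exp (t * b) ∂β =
      -(g0 (r ^ 2) * α) * (g1 (w t) / g0 (w t) ^ 2) := by
    filter_upwards [e0.eventually_nhds, wpos, gpos, hI] with t ht hp hg hi
    have a1 := hasDerivAt_mgf hi
    have a2 := (hasDerivAt_const t (g0 (r ^ 2))).div ((d0 hp).comp t (dw t)) hg.ne'
    have a3 := a1.unique (a2.congr_of_eventuallyEq ht)
    simp only [id, Function.comp] at a3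
    simp only [pow_one]
    rw [a3]
    field_simp
    ring
  have e2 : ∫ b, b ^ 2 ∂β = -(g0 (r ^ 2) * α) *
      ((g2 (r ^ 2) * α * g0 (r ^ 2) ^ 2 - g1 (r ^ 2) * (2 * g0 (r ^ 2) * (g1 (r ^ 2) * α)))
        / (g0 (r ^ 2) ^ 2) ^ 2) := by
    have a1 := hasDerivAt_integral_pow_mul_exp_real hint 1
    have hg : 0 < g0 (w 0) := by rwa [w0]
    have a2 := (((d1 hw0).comp 0 (dw 0)).div (((d0 hw0).comp 0 (dw 0)).pow 2)
      (pow_pos hg 2).ne').const_mul (-(g0 (r ^ 2) * α))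
    have a3 := a1.unique (a2.congr_of_eventuallyEq e1)
    simp only [id, Function.comp, Pi.pow_apply, w0] at a3
    simpa using a3
  refine ⟨hint, ?_, ?_⟩
  · have := e1.self_of_nhds
    simp only [pow_one, zero_mul, exp_zero, mul_one, w0] at this
    rw [this]
    field_simp
  · rw [e2]
    field_simp
    ring

end EndgameAux

open EndgameAux

section
variable {κ ν : ℝ}

/-- Moments of the law with the Schramm-Sheffield-Wilson Laplace transform. -/
theorem ssw_moments (hκ : 0 < κ) (hν0 : ν ≠ 0) (hν : |ν| < 1 / 2)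
    (β : Measure ℝ) [IsProbabilityMeasure β]
    (hβ : ∀ᶠ l in 𝓝 (0 : ℝ), ∫⁻ b, ENNReal.ofReal (exp (-(l * b))) ∂β =
      ENNReal.ofReal (cos (π * ν) / cos (π * √(ν ^ 2 - 8 * l / κ)))) :
    (0 : ℝ) ∈ interior (integrableExpSet id β) ∧ (∀ p : NNReal, MemLp id p β) ∧
      0 < ∫ b, b ∂β ∧ 0 < Var[id; β] := by
  have hr : 0 < π * |ν| := mul_pos pi_pos (abs_pos.2 hν0)
  have hr' : π * |ν| < π / 2 := by nlinarith [pi_pos]
  have hα : 0 < 8 * π ^ 2 / κ := by have := pi_pos; positivity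
  simp only [sqrt_form, cos_form ν] at hβ
  obtain ⟨hint, b1, b2⟩ := beta_facts hr hr' β hβ
  have p0 := g0_pos hr hr'
  have p1 := g1_neg hr hr'
  have pv := var_ge hr hr'
  have hL := memLp_of_mem_interior_integrableExpSet hint
  refine ⟨hint, hL, ?_, ?_⟩
  · refine pos_of_mul_pos_left (b := g0 ((π * |ν|) ^ 2)) ?_ p0.le
    rw [b1]
    exact mul_pos (by linarith) hα
  · rw [variance_eq_sub (by simpa using hL 2)]
    refine pos_of_mul_pos_left (b := g0 ((π * |ν|) ^ 2) ^ 2) ?_ (sq_nonneg _)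
    simp only [Pi.pow_apply, id]
    rw [sub_mul, b2, ← mul_pow, b1]
    nlinarith [sq_pos_of_pos hα]

/-- Step (10). -/
theorem endgame (hκ : 0 < κ) (hν0 : ν ≠ 0) (hν : |ν| < 1 / 2)
    (β μ : Measure ℝ) [IsProbabilityMeasure β] [IsProbabilityMeasure μ]
    (hβ : ∀ᶠ l in 𝓝 (0 : ℝ), ∫⁻ b, ENNReal.ofReal (exp (-(l * b))) ∂β =
      ENNReal.ofReal (cos (π * ν) / cos (π * √(ν ^ 2 - 8 * l / κ))))
    (hμ : ∀ᶠ p : ℝ × ℝ in 𝓝 (0, 0),
      (∫ x, x ∂μ) * p.1 / (∫ b, b ∂β) +
          (Var[id; μ] + (∫ x, x ∂μ) ^ 2 * Var[id; β] / (∫ b, b ∂β) ^ 2) / (∫ b, b ∂β)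
            * p.1 ^ 2 / 2 < p.2 →
        (∫⁻ x, ENNReal.ofReal (exp (p.1 * x)) ∂μ) *
          (∫⁻ b, ENNReal.ofReal (exp (-(p.2 * b))) ∂β) ≤ 1) :
    μ = Measure.dirac 0 := by
  obtain ⟨-, hL, hE, -⟩ := ssw_moments hκ hν0 hν β hβ
  have hr : 0 < π * |ν| := mul_pos pi_pos (abs_pos.2 hν0)
  have hr' : π * |ν| < π / 2 := by nlinarith [pi_pos]
  simp only [sqrt_form, cos_form ν] at hβ
  obtain ⟨-, b1, b2⟩ := beta_facts hr hr' β hβ
  have p0 := g0_pos hr hr'
  have hvβ : Var[id; β] = ∫ b, b ^ 2 ∂β - (∫ b, b ∂β) ^ 2 :=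
    variance_eq_sub (by simpa using hL 2)
  set r := π * |ν|
  set α := 8 * π ^ 2 / κ
  set m := ∫ x, x ∂μ with hm
  set E := ∫ b, b ∂β
  set s := (Var[id; μ] + m ^ 2 * Var[id; β] / E ^ 2) / E with hs
  set L : ℝ → ℝ := fun t => m * t / E + s * t ^ 2 / 2 with hLd
  have cL : Continuous L := by fun_prop
  have L0 : L 0 = 0 := by simp [hLd]
  have hu : 0 < r ^ 2 := by positivity
  have cw : Continuous fun l : ℝ => g0 (r ^ 2 - α * l) := by unfold g0; fun_prop
  have gpos : ∀ᶠ l in 𝓝 (0 : ℝ), 0 < g0 (r ^ 2 - α * l) :=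
    cw.continuousAt.eventually (lt_mem_nhds (by simpa using p0))
  have hle : ∀ᶠ t in 𝓝 (0 : ℝ), ∫⁻ x, ENNReal.ofReal (exp (t * x)) ∂μ ≤
      ENNReal.ofReal (g0 (r ^ 2 - α * m / E * t - α * s / 2 * t ^ 2) / g0 (r ^ 2)) := by
    have t2 : Tendsto (fun p : ℝ × ℝ => p.2) (𝓝 (0, 0)) (𝓝 0) := continuous_snd.tendsto _
    have h1 := (hμ.and (t2.eventually (hβ.and gpos))).eventually_nhds
    have t3 : Tendsto (fun t => (t, L t)) (𝓝 0) (𝓝 (0, 0)) := by
      have : Continuous fun t => (t, L t) := by fun_prop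
      simpa [L0] using this.tendsto 0
    filter_upwards [t3.eventually h1] with t ht
    have t4 : Tendsto (fun l : ℝ => (t, l)) (𝓝[>] (L t)) (𝓝 (t, L t)) :=
      ((continuous_const.prodMk continuous_id).tendsto _).mono_left nhdsWithin_le_nhds
    have t5 : Tendsto (fun l => ENNReal.ofReal (g0 (r ^ 2 - α * l) / g0 (r ^ 2))) (𝓝[>] (L t))
        (𝓝 (ENNReal.ofReal (g0 (r ^ 2 - α * L t) / g0 (r ^ 2)))) :=
      ((ENNReal.continuous_ofReal.comp (cw.div_const _)).tendsto _).mono_left nhdsWithin_le_nhds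
    have e : r ^ 2 - α * m / E * t - α * s / 2 * t ^ 2 = r ^ 2 - α * L t := by
      simp only [hLd]; ring
    rw [e]
    refine ge_of_tendsto t5 ?_
    filter_upwards [t4.eventually ht, self_mem_nhdsWithin] with l hl hl'
    obtain ⟨a1, a2, a3⟩ := hl
    have a4 := a1 hl'
    rw [a2] at a4
    have a5 : ENNReal.ofReal (g0 (r ^ 2) / g0 (r ^ 2 - α * l)) *
        ENNReal.ofReal (g0 (r ^ 2 - α * l) / g0 (r ^ 2)) = 1 := by
      rw [← ENNReal.ofReal_mul (by positivity), ← ENNReal.ofReal_one]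
      congr 1
      field_simp
    calc _ = _ * (ENNReal.ofReal (g0 (r ^ 2) / g0 (r ^ 2 - α * l)) *
          ENNReal.ofReal (g0 (r ^ 2 - α * l) / g0 (r ^ 2))) := by rw [a5, mul_one]
      _ ≤ 1 * ENNReal.ofReal (g0 (r ^ 2 - α * l) / g0 (r ^ 2)) := by
          rw [← mul_assoc]; gcongr
      _ = _ := one_mul _
  have hint := mem_interior hle
  have hvμ : Var[id; μ] = ∫ b, b ^ 2 ∂μ - m ^ 2 :=
    variance_eq_sub (by simpa using memLp_of_mem_interior_integrableExpSet hint 2)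
  refine core hr hr' μ hle ?_ ?_
  · rw [← hm]
    field_simp
    linear_combination m * b1
  · have e1 : s * E = Var[id; μ] + m ^ 2 * Var[id; β] / E ^ 2 := by
      rw [hs]; field_simp
    have e2 : -(2 * (α * s / 2) * g1 (r ^ 2)) = s * E * g0 (r ^ 2) := by
      linear_combination (-s) * b1
    rw [sub_eq_add_neg, e2, e1, hvμ, hvβ]
    have e3 : (∫ b, b ^ 2 ∂β) * g0 (r ^ 2) = 2 * E ^ 2 * g0 (r ^ 2) - α ^ 2 * g2 (r ^ 2) := by
      refine mul_right_cancel₀ p0.ne' ?_
      linear_combination b2 - 2 * (E * g0 (r ^ 2) - g1 (r ^ 2) * α) * b1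
    field_simp
    linear_combination (-m ^ 2) * e3

end

/-- Euler's product for the cosine. -/
theorem tendsto_cos_prod {x : ℝ} (hx0 : 0 ≤ x) (hx1 : x < 1) :
    Tendsto (fun n : ℕ => ∏ k ∈ Finset.range n, (1 - x ^ 2 / ((k : ℝ) + 1 / 2) ^ 2)) atTop
      (𝓝 (cos (π * x))) := by
  rcases hx0.eq_or_lt with rfl | hx0
  · simp
  have hs : 0 < sin (π * x) :=
    sin_pos_of_pos_of_lt_pi (mul_pos pi_pos hx0) (by nlinarith [pi_pos])
  have t2 : Tendsto (fun n : ℕ => 2 * n) atTop atTop :=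
    tendsto_id.const_mul_atTop' (by norm_num)
  have h1 := (Real.tendsto_euler_sin_prod (2 * x)).comp t2
  have h2 := (Real.tendsto_euler_sin_prod x).const_mul 2
  have h3 := h1.div h2 (by positivity)
  have e : sin (π * (2 * x)) / (2 * sin (π * x)) = cos (π * x) := by
    rw [show π * (2 * x) = 2 * (π * x) by ring, sin_two_mul]
    field_simp
  rw [e] at h3
  refine h3.congr fun n => ?_
  have hpos : ∀ n : ℕ, 0 < ∏ j ∈ Finset.range n, ((1 : ℝ) - x ^ 2 / ((j : ℝ) + 1) ^ 2) :=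
    fun n => Finset.prod_pos fun j _ => by
      have : (0 : ℝ) ≤ j := Nat.cast_nonneg j
      rw [sub_pos, div_lt_one (by positivity)]
      nlinarith
  have key : ∀ n : ℕ, ∏ j ∈ Finset.range (2 * n), ((1 : ℝ) - (2 * x) ^ 2 / ((j : ℝ) + 1) ^ 2) =
      (∏ j ∈ Finset.range n, ((1 : ℝ) - x ^ 2 / ((j : ℝ) + 1) ^ 2)) *
        ∏ k ∈ Finset.range n, (1 - x ^ 2 / ((k : ℝ) + 1 / 2) ^ 2) := by
    intro n
    induction n with
    | zero => simp
    | succ n ih =>
      rw [show 2 * (n + 1) = 2 * n + 1 + 1 by ring, Finset.prod_range_succ,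
        Finset.prod_range_succ, ih, Finset.prod_range_succ, Finset.prod_range_succ]
      have : (0 : ℝ) ≤ n := Nat.cast_nonneg n
      have a1 : (2 * x) ^ 2 / (((2 * n : ℕ) : ℝ) + 1) ^ 2 = x ^ 2 / ((n : ℝ) + 1 / 2) ^ 2 := by
        push_cast; field_simp
      have a2 : (2 * x) ^ 2 / (((2 * n + 1 : ℕ) : ℝ) + 1) ^ 2 = x ^ 2 / ((n : ℝ) + 1) ^ 2 := by
        push_cast; field_simp; ring
      rw [a1, a2]
      ring
  simp only [Pi.div_apply, Function.comp, key]
  have := (hpos n).ne'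
  have := pi_pos.ne'
  generalize ∏ j ∈ Finset.range n, ((1 : ℝ) - x ^ 2 / ((j : ℝ) + 1) ^ 2) = P at *
  generalize ∏ k ∈ Finset.range n, (1 - x ^ 2 / ((k : ℝ) + 1 / 2) ^ 2) = Q at *
  field_simp

/-- The Gauss product of step (4) in closed form. -/
theorem tendsto_prod_cos {ν p : ℝ} (hν : |ν| < 1 / 2) (hp : p ≤ ν ^ 2) (hp' : ν ^ 2 - p < 1) :
    Tendsto (fun n : ℕ => ∏ k ∈ Finset.range n, (1 + p / (((k : ℝ) + 1 / 2) ^ 2 - ν ^ 2))) atTop
      (𝓝 (cos (π * √(ν ^ 2 - p)) / cos (π * ν))) := by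
  have h1 := tendsto_cos_prod (sqrt_nonneg (ν ^ 2 - p)) ((sqrt_lt' one_pos).2 (by linarith))
  have h2 := tendsto_cos_prod (abs_nonneg ν) (by linarith)
  have e : cos (π * |ν|) = cos (π * ν) := by
    rw [← cos_abs (π * ν), abs_mul, abs_of_pos pi_pos]
  have hc : 0 < cos (π * |ν|) := cos_pos_of_mem_Ioo
    ⟨by nlinarith [pi_pos, abs_nonneg ν], by nlinarith [pi_pos]⟩
  have h3 := h1.div h2 hc.ne'
  rw [e] at h3
  refine h3.congr fun n => ?_
  simp only [Pi.div_apply, ← Finset.prod_div_distrib]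
  refine Finset.prod_congr rfl fun k _ => ?_
  have hk : (0 : ℝ) ≤ k := Nat.cast_nonneg k
  have hν2 : ν ^ 2 < 1 / 4 := by
    rw [← sq_abs]; nlinarith [abs_nonneg ν]
  have a1 : 0 < ((k : ℝ) + 1 / 2) ^ 2 - ν ^ 2 := by nlinarith
  have a2 : 0 < ((k : ℝ) + 1 / 2) ^ 2 := by positivity
  rw [sq_sqrt (by linarith), sq_abs]
  generalize ((k : ℝ) + 1 / 2) ^ 2 = A at *
  have a3 : 1 - ν ^ 2 / A = (A - ν ^ 2) / A := by field_simp
  rw [a3]
  field_simp
  ring

end Pool.Agent.MP_ac6554_pr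

end

section

/-!
# Renewal estimates for a walk with nonnegative i.i.d. steps having an exponential moment
-/

namespace Pool.Agent.MP_ac6554_pr

open MeasureTheory ProbabilityTheory Filter Topology Set Real
open scoped ENNReal

/-- Sum of the first `n` steps. -/
def psum {Ω : Type*} (B : ℕ → Ω → ℝ) (n : ℕ) (ω : Ω) : ℝ := ∑ i ∈ Finset.range n, B i ω

/-- Independent nonnegative steps of law `β`, with an exponential moment and positive mean. -/
structure Walk {Ω : Type*} [MeasurableSpace Ω] (P : Measure Ω) (β : Measure ℝ)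
    (B : ℕ → Ω → ℝ) : Prop where
  meas : ∀ i, Measurable (B i)
  indep : iIndepFun B P
  law : ∀ i, P.map (B i) = β
  nonneg : ∀ᵐ b ∂β, 0 ≤ b
  expm : (0 : ℝ) ∈ interior (integrableExpSet id β)
  mean : 0 < ∫ b, b ∂β

/-- The overshoot over the level `a` (at most one term is nonzero). -/
noncomputable def osh {Ω : Type*} (B : ℕ → Ω → ℝ) (a : ℝ) (ω : Ω) : ℝ≥0∞ :=
  ∑' n, ENNReal.ofReal (if psum B n ω < a then max (psum B n ω + B n ω - a) 0 else 0)

lemma psum_succ {Ω : Type*} (B : ℕ → Ω → ℝ) (n : ℕ) (ω : Ω) :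
    psum B (n + 1) ω = psum B n ω + B n ω := Finset.sum_range_succ _ _

@[simp] lemma psum_zero {Ω : Type*} (B : ℕ → Ω → ℝ) (ω : Ω) : psum B 0 ω = 0 := rfl

lemma measurable_psum {Ω : Type*} {m : MeasurableSpace Ω} {B : ℕ → Ω → ℝ} {n : ℕ}
    (h : ∀ i < n, Measurable (B i)) : Measurable (psum B n) :=
  Finset.measurable_sum _ fun i hi => h i (Finset.mem_range.1 hi)

namespace RenewalAux

variable {Ω : Type*} {B : ℕ → Ω → ℝ} {ω : Ω}

lemma det1 (hb : ∀ i, 0 ≤ B i ω) {l : ℝ} (hl : 0 < l) (a : ℝ) (M : ℕ) :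
    ∑ n ∈ Finset.range M, (if psum B n ω < a then exp (l * (psum B n ω - a)) else 0) *
      (exp (l * min (B n ω) 1) - 1) ≤ exp (l * (min (psum B M ω) (a + 1) - a)) := by
  induction M with
  | zero => simpa using (exp_pos _).le
  | succ M ih =>
    rw [Finset.sum_range_succ, psum_succ]
    have hb' := hb M
    split_ifs with h
    · rw [min_eq_left (by linarith : psum B M ω ≤ a + 1)] at ih
      have e : exp (l * (psum B M ω - a)) * exp (l * min (B M ω) 1)
          ≤ exp (l * (min (psum B M ω + B M ω) (a + 1) - a)) := by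
        rw [← exp_add, ← mul_add]
        refine exp_le_exp.2 (mul_le_mul_of_nonneg_left ?_ hl.le)
        have h1 := min_le_left (B M ω) 1
        have h2 := min_le_right (B M ω) 1
        have h3 : psum B M ω + min (B M ω) 1 ≤ min (psum B M ω + B M ω) (a + 1) :=
          le_min (by linarith) (by linarith)
        linarith
      nlinarith
    · rw [zero_mul, add_zero]
      refine ih.trans (exp_le_exp.2 (mul_le_mul_of_nonneg_left ?_ hl.le))
      have : min (psum B M ω) (a + 1) ≤ min (psum B M ω + B M ω) (a + 1) :=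
        min_le_min_right _ (by linarith)
      linarith

lemma det2 (hb : ∀ i, 0 ≤ B i ω) (a : ℝ) (M : ℕ) (h : psum B M ω < a) :
    ∑ n ∈ Finset.range M, (if psum B n ω < a then B n ω else 0) = psum B M ω := by
  induction M with
  | zero => simp
  | succ M ih =>
    rw [psum_succ] at h
    have h' : psum B M ω < a := by linarith [hb M]
    rw [Finset.sum_range_succ, ih h', if_pos h', psum_succ]

lemma det3 (hb : ∀ i, 0 ≤ B i ω) {a : ℝ} (ha : 0 ≤ a) (M : ℕ) :
    ∑ n ∈ Finset.range M, (if psum B n ω < a then B n ω else 0) ≤ a +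
      ∑ n ∈ Finset.range M, (if psum B n ω < a then max (psum B n ω + B n ω - a) 0 else 0) := by
  induction M with
  | zero => simpa using ha
  | succ M ih =>
    rw [Finset.sum_range_succ, Finset.sum_range_succ]
    split_ifs with h
    · rw [det2 hb a M h]
      have h1 : 0 ≤ ∑ n ∈ Finset.range M,
          (if psum B n ω < a then max (psum B n ω + B n ω - a) 0 else 0) :=
        Finset.sum_nonneg fun n _ => by split_ifs <;> simp
      linarith [le_max_left (psum B M ω + B M ω - a) 0]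
    · linarith

lemma det4 (hb : ∀ i, 0 ≤ B i ω) (a : ℝ) (M : ℕ) :
    min (psum B M ω) a ≤ ∑ n ∈ Finset.range M, (if psum B n ω < a then B n ω else 0) := by
  induction M with
  | zero => simp
  | succ M ih =>
    rw [Finset.sum_range_succ, psum_succ]
    split_ifs with h
    · rw [det2 hb a M h]
      exact min_le_left _ _
    · rw [min_eq_right (not_lt.1 h)] at ih
      linarith [min_le_right (psum B M ω + B M ω) a]

end RenewalAux

namespace Walk

open RenewalAux

variable {Ω : Type*} [MeasurableSpace Ω] {P : Measure Ω} {β : Measure ℝ} {B : ℕ → Ω → ℝ}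

lemma measurable_psum (h : Walk P β B) (n : ℕ) : Measurable (psum B n) :=
  MP_ac6554_pr.measurable_psum fun i _ => h.meas i

lemma prob (h : Walk P β B) : IsProbabilityMeasure β := by
  have := h.indep.isProbabilityMeasure
  rw [← h.law 0]
  exact Measure.isProbabilityMeasure_map (h.meas 0).aemeasurable

lemma ae_nonneg (h : Walk P β B) : ∀ᵐ ω ∂P, ∀ i, 0 ≤ B i ω := by
  rw [ae_all_iff]
  intro i
  have := h.nonneg
  rw [← h.law i] at this
  exact ae_of_ae_map (h.meas i).aemeasurable this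

lemma lintegral_mul (h : Walk P β B) (n : ℕ) {f g : ℝ → ℝ≥0∞} (hf : Measurable f)
    (hg : Measurable g) :
    ∫⁻ ω, f (psum B n ω) * g (B n ω) ∂P = (∫⁻ ω, f (psum B n ω) ∂P) * ∫⁻ b, g b ∂β := by
  have h1 : IndepFun (psum B n) (B n) P := by
    have := h.indep.indepFun_sum_range_succ h.meas n
    have e : psum B n = ∑ j ∈ Finset.range n, B j := by
      funext ω; simp [psum]
    rwa [e]
  rw [← h.law n, lintegral_map hg (h.meas n)]
  exact lintegral_mul_eq_lintegral_mul_lintegral_of_indepFun''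
    (hf.comp (h.measurable_psum n)).aemeasurable (hg.comp (h.meas n)).aemeasurable
    (h1.comp hf hg)

lemma lintegral_id (h : Walk P β B) :
    ∫⁻ b, ENNReal.ofReal b ∂β = ENNReal.ofReal (∫ b, b ∂β) :=
  (ofReal_integral_eq_lintegral_ofReal (integrable_of_mem_interior_integrableExpSet h.expm)
    h.nonneg).symm

/-- Exponentially weighted renewal measure. -/
lemma weight (h : Walk P β B) {l : ℝ} (hl : 0 < l) : ∃ K : ℝ≥0∞, K ≠ ∞ ∧ ∀ a : ℝ,
    ∑' n, ∫⁻ ω, ENNReal.ofReal (if psum B n ω < a then exp (l * (psum B n ω - a)) else 0) ∂P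
      ≤ K := by
  have := h.indep.isProbabilityMeasure
  set q := ∫⁻ b, ENNReal.ofReal (exp (l * min b 1) - 1) ∂β with hq
  have mg : Measurable fun b : ℝ => ENNReal.ofReal (exp (l * min b 1) - 1) := by fun_prop
  have q0 : q ≠ 0 := by
    intro h0
    rw [hq, lintegral_eq_zero_iff mg] at h0
    have : ∫ b, b ∂β ≤ 0 := by
      refine integral_nonpos_of_ae ?_
      filter_upwards [h0] with b hb
      simp only [Pi.zero_apply, ENNReal.ofReal_eq_zero, sub_nonpos, exp_le_one_iff] at hb ⊢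
      by_contra hb'
      have : 0 < l * min b 1 := mul_pos hl (lt_min (not_le.1 hb') one_pos)
      linarith
    linarith [h.mean]
  refine ⟨ENNReal.ofReal (exp l) / q, (ENNReal.div_lt_top ENNReal.ofReal_ne_top q0).ne,
    fun a => ?_⟩
  have mf : Measurable fun x : ℝ => ENNReal.ofReal (if x < a then exp (l * (x - a)) else 0) :=
    (Measurable.ite measurableSet_Iio (by fun_prop) measurable_const).ennreal_ofReal
  rw [ENNReal.le_div_iff_mul_le (Or.inl q0) (Or.inr ENNReal.ofReal_ne_top),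
    ← ENNReal.tsum_mul_right]
  refine ENNReal.tsum_le_of_sum_range_le fun M => ?_
  simp only [hq, ← h.lintegral_mul _ mf mg]
  rw [← lintegral_finsetSum]
  swap
  · exact fun n _ => (mf.comp (h.measurable_psum n)).mul (mg.comp (h.meas n))
  calc _ ≤ ∫⁻ _, ENNReal.ofReal (exp l) ∂P := by
        refine lintegral_mono_ae ?_
        filter_upwards [h.ae_nonneg] with ω hω
        have e0 : ∀ n, 0 ≤ (if psum B n ω < a then exp (l * (psum B n ω - a)) else 0) :=
          fun n => by split_ifs <;> positivity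
        have e1 : ∀ n, 0 ≤ exp (l * min (B n ω) 1) - 1 := fun n =>
          sub_nonneg.2 (one_le_exp (mul_nonneg hl.le (le_min (hω n) zero_le_one)))
        simp only [← ENNReal.ofReal_mul (e0 _)]
        rw [← ENNReal.ofReal_sum_of_nonneg fun n _ => mul_nonneg (e0 n) (e1 n)]
        refine ENNReal.ofReal_le_ofReal ((det1 hω hl a M).trans (exp_le_exp.2 ?_))
        nlinarith [min_le_right (psum B M ω) (a + 1)]
    _ = _ := by simp

lemma measurable_over_term (h : Walk P β B) (a : ℝ) (n : ℕ) : Measurable fun ω =>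
    ENNReal.ofReal (if psum B n ω < a then max (psum B n ω + B n ω - a) 0 else 0) := by
  have := h.measurable_psum n
  have := h.meas n
  exact (Measurable.ite (measurableSet_lt (by fun_prop) measurable_const) (by fun_prop)
    measurable_const).ennreal_ofReal

lemma measurable_over (h : Walk P β B) (a : ℝ) : Measurable (osh B a) :=
  Measurable.tsum fun n => h.measurable_over_term a n

/-- The overshoot has bounded mean. -/
theorem overshoot (h : Walk P β B) : ∃ K : ℝ, 0 ≤ K ∧ ∀ a : ℝ,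
    ∫⁻ ω, osh B a ω ∂P ≤ ENNReal.ofReal K := by
  obtain ⟨l, hl, hl0⟩ : ∃ l ∈ integrableExpSet id β, 0 < l := by
    have h1 : ∀ᶠ l in 𝓝[>] (0 : ℝ), l ∈ integrableExpSet id β :=
      mem_nhdsWithin_of_mem_nhds (mem_interior_iff_mem_nhds.1 h.expm)
    exact (h1.and self_mem_nhdsWithin).exists
  obtain ⟨K, hK, hw⟩ := h.weight hl0
  have mg : Measurable fun b : ℝ => ENNReal.ofReal (exp (l * b) / l) := by fun_prop
  have hfin : ∫⁻ b, ENNReal.ofReal (exp (l * b) / l) ∂β ≠ ∞ :=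
    (Integrable.lintegral_lt_top (Integrable.div_const hl l)).ne
  refine ⟨(K * ∫⁻ b, ENNReal.ofReal (exp (l * b) / l) ∂β).toReal, ENNReal.toReal_nonneg,
    fun a => ?_⟩
  have mf : Measurable fun x : ℝ => ENNReal.ofReal (if x < a then exp (l * (x - a)) else 0) :=
    (Measurable.ite measurableSet_Iio (by fun_prop) measurable_const).ennreal_ofReal
  rw [ENNReal.ofReal_toReal (ENNReal.mul_ne_top hK hfin)]
  refine le_trans ?_ (mul_le_mul_left (hw a) _)
  rw [← ENNReal.tsum_mul_right]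
  unfold osh
  rw [lintegral_tsum fun n => (h.measurable_over_term a n).aemeasurable]
  refine ENNReal.tsum_le_tsum fun n => ?_
  rw [← h.lintegral_mul _ mf mg]
  refine lintegral_mono fun ω => ?_
  simp only
  split_ifs with hn
  · rw [← ENNReal.ofReal_mul (exp_pos _).le]
    refine ENNReal.ofReal_le_ofReal (max_le ?_ (by positivity))
    rw [← mul_div_assoc, ← exp_add, le_div_iff₀ hl0]
    have := add_one_le_exp (l * (psum B n ω - a) + l * B n ω)
    nlinarith
  · simp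

lemma wald (h : Walk P β B) (a : ℝ) (M : ℕ) :
    (∑ n ∈ Finset.range M, P {ω | psum B n ω < a}) * ENNReal.ofReal (∫ b, b ∂β) =
      ∫⁻ ω, ENNReal.ofReal (∑ n ∈ Finset.range M, if psum B n ω < a then B n ω else 0) ∂P := by
  have mf : Measurable fun x : ℝ => (Iio a).indicator (fun _ => (1 : ℝ≥0∞)) x :=
    measurable_const.indicator measurableSet_Iio
  have e1 : ∀ n, P {ω | psum B n ω < a} =
      ∫⁻ ω, (Iio a).indicator (fun _ => (1 : ℝ≥0∞)) (psum B n ω) ∂P := fun n => by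
    have := lintegral_indicator_one (μ := P) (h.measurable_psum n (measurableSet_Iio (a := a)))
    exact this.symm
  simp only [Finset.sum_mul, e1, ← h.lintegral_id,
    ← h.lintegral_mul _ mf ENNReal.measurable_ofReal]
  rw [← lintegral_finsetSum]
  swap
  · exact fun n _ =>
      (mf.comp (h.measurable_psum n)).mul (ENNReal.measurable_ofReal.comp (h.meas n))
  refine lintegral_congr_ae ?_
  filter_upwards [h.ae_nonneg] with ω hω
  rw [ENNReal.ofReal_sum_of_nonneg fun n _ => by split_ifs; exacts [hω n, le_rfl]]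
  refine Finset.sum_congr rfl fun n _ => ?_
  by_cases hn : psum B n ω < a <;> simp [hn]

/-- Upper bound for the renewal function. -/
theorem count_le (h : Walk P β B) : ∃ K : ℝ, 0 ≤ K ∧ ∀ a : ℝ, 0 ≤ a →
    ∑' n, P {ω | psum B n ω < a} ≤ ENNReal.ofReal (a / (∫ b, b ∂β) + K) := by
  have := h.indep.isProbabilityMeasure
  obtain ⟨K, hK, ho⟩ := h.overshoot
  have hE := h.mean
  refine ⟨K / ∫ b, b ∂β, by positivity, fun a ha => ?_⟩
  rw [← add_div, ENNReal.ofReal_div_of_pos hE,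
    ENNReal.le_div_iff_mul_le (Or.inl (by simpa using hE)) (Or.inl ENNReal.ofReal_ne_top),
    ← ENNReal.tsum_mul_right]
  refine ENNReal.tsum_le_of_sum_range_le fun M => ?_
  rw [← Finset.sum_mul, h.wald]
  calc _ ≤ ∫⁻ ω, (ENNReal.ofReal a + osh B a ω) ∂P := by
        refine lintegral_mono_ae ?_
        filter_upwards [h.ae_nonneg] with ω hω
        have e0 : ∀ n, 0 ≤ (if psum B n ω < a then max (psum B n ω + B n ω - a) 0 else 0) :=
          fun n => by split_ifs <;> simp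
        refine (ENNReal.ofReal_le_ofReal (det3 hω ha M)).trans ?_
        rw [ENNReal.ofReal_add ha (Finset.sum_nonneg fun n _ => e0 n),
          ENNReal.ofReal_sum_of_nonneg fun n _ => e0 n]
        exact add_le_add_right (ENNReal.sum_le_tsum _) _
    _ ≤ _ := by
        rw [lintegral_add_left measurable_const, lintegral_const, measure_univ, mul_one,
          ENNReal.ofReal_add ha hK]
        exact add_le_add_right (ho a) _

lemma tendsto_lt (h : Walk P β B) (a : ℝ) :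
    Tendsto (fun n => P {ω | psum B n ω < a}) atTop (𝓝 0) := by
  obtain ⟨K, -, hK⟩ := h.count_le
  refine ENNReal.tendsto_atTop_zero_of_tsum_ne_top (ne_top_of_le_ne_top ENNReal.ofReal_ne_top
    (le_trans (ENNReal.tsum_le_tsum fun n => measure_mono fun ω hω => ?_)
      (hK (max a 0) (le_max_right _ _))))
  exact lt_max_of_lt_left (show psum B n ω < a from hω)

/-- Lower bound for the renewal function. -/
theorem le_count (h : Walk P β B) (a : ℝ) :
    ENNReal.ofReal (a / ∫ b, b ∂β) ≤ ∑' n, P {ω | psum B n ω < a} := by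
  have := h.indep.isProbabilityMeasure
  have hE := h.mean
  rw [ENNReal.ofReal_div_of_pos hE,
    ENNReal.div_le_iff (by simpa using hE) ENNReal.ofReal_ne_top]
  have t1 : Tendsto (fun M => (∑' n, P {ω | psum B n ω < a}) * ENNReal.ofReal (∫ b, b ∂β) +
      ENNReal.ofReal a * P {ω | psum B M ω < a}) atTop
      (𝓝 ((∑' n, P {ω | psum B n ω < a}) * ENNReal.ofReal (∫ b, b ∂β) + ENNReal.ofReal a * 0)) :=
    tendsto_const_nhds.add (ENNReal.Tendsto.const_mul (h.tendsto_lt a)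
      (Or.inr ENNReal.ofReal_ne_top))
  rw [mul_zero, add_zero] at t1
  refine ge_of_tendsto' t1 fun M => ?_
  have ms : MeasurableSet {ω | psum B M ω < a} := h.measurable_psum M measurableSet_Iio
  calc ENNReal.ofReal a = ∫⁻ _, ENNReal.ofReal a ∂P := by simp
    _ ≤ ∫⁻ ω, (ENNReal.ofReal (∑ n ∈ Finset.range M, if psum B n ω < a then B n ω else 0) +
          {ω | psum B M ω < a}.indicator (fun _ => ENNReal.ofReal a) ω) ∂P := by
        refine lintegral_mono_ae ?_
        filter_upwards [h.ae_nonneg] with ω hω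
        by_cases hM : psum B M ω < a
        · rw [indicator_of_mem (show ω ∈ {ω | psum B M ω < a} from hM)]
          exact le_add_self
        · have := det4 hω a M
          rw [min_eq_right (not_lt.1 hM)] at this
          exact (ENNReal.ofReal_le_ofReal this).trans le_self_add
    _ ≤ _ := by
        rw [lintegral_add_right _ (measurable_const.indicator ms), ← h.wald,
          lintegral_indicator_const ms]
        gcongr
        exact ENNReal.sum_le_tsum _

/-- The renewal measure of a window of length `d` is bounded. -/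
theorem window (h : Walk P β B) (d : ℝ) : ∃ K : ℝ, 0 ≤ K ∧ ∀ x : ℝ,
    ∑' n, P {ω | x ≤ psum B n ω ∧ psum B n ω ≤ x + d} ≤ ENNReal.ofReal K := by
  obtain ⟨K, hK, hw⟩ := h.weight one_pos
  refine ⟨(ENNReal.ofReal (exp (d + 1)) * K).toReal, ENNReal.toReal_nonneg, fun x => ?_⟩
  rw [ENNReal.ofReal_toReal (ENNReal.mul_ne_top ENNReal.ofReal_ne_top hK)]
  refine le_trans ?_ (mul_le_mul_right (hw (x + d + 1)) _)
  rw [← ENNReal.tsum_mul_left]
  refine ENNReal.tsum_le_tsum fun n => ?_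
  have ms : MeasurableSet {ω | x ≤ psum B n ω ∧ psum B n ω ≤ x + d} :=
    h.measurable_psum n measurableSet_Icc
  rw [← lintegral_const_mul' _ _ ENNReal.ofReal_ne_top, ← lintegral_indicator_one ms]
  refine lintegral_mono fun ω => ?_
  by_cases hω : ω ∈ {ω | x ≤ psum B n ω ∧ psum B n ω ≤ x + d}
  · rw [indicator_of_mem hω]
    simp only [Pi.one_apply]
    rw [if_pos (by linarith [hω.2]), ← ENNReal.ofReal_mul (exp_pos _).le, ← exp_add,
      ENNReal.one_le_ofReal]
    exact one_le_exp (by linarith [hω.1])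
  · rw [indicator_of_notMem hω]
    exact zero_le

/-- The renewal function is `a / E B + O(1)`. -/
theorem count_abs (h : Walk P β B) : ∃ K : ℝ, ∀ a : ℝ, 0 ≤ a →
    ∑' n, P {ω | psum B n ω < a} ≠ ∞ ∧
      |(∑' n, P {ω | psum B n ω < a}).toReal - a / ∫ b, b ∂β| ≤ K := by
  obtain ⟨K, hK0, hK⟩ := h.count_le
  refine ⟨K, fun a ha => ?_⟩
  have hE := h.mean
  have hfin := ne_top_of_le_ne_top ENNReal.ofReal_ne_top (hK a ha)
  have h1 := ENNReal.toReal_le_of_le_ofReal (by positivity) (hK a ha)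
  have h2 := (ENNReal.ofReal_le_iff_le_toReal hfin).1 (h.le_count a)
  exact ⟨hfin, abs_le.2 ⟨by linarith, by linarith⟩⟩

/-- The same count with closed inequalities, without the index `0`, for every real level. -/
theorem count_abs_le (h : Walk P β B) : ∃ K : ℝ, ∀ a : ℝ,
    ∑' n, P {ω | psum B (n + 1) ω ≤ a} ≠ ∞ ∧
      |(∑' n, P {ω | psum B (n + 1) ω ≤ a}).toReal - max a 0 / ∫ b, b ∂β| ≤ K := by
  have := h.indep.isProbabilityMeasure
  obtain ⟨K, hK0, hK⟩ := h.count_le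
  have hE := h.mean
  refine ⟨1 / (∫ b, b ∂β) + K + 1, fun a => ?_⟩
  have ha : 0 ≤ max a 0 := le_max_right _ _
  have hup : ∑' n, P {ω | psum B (n + 1) ω ≤ a} ≤
      ENNReal.ofReal ((max a 0 + 1) / (∫ b, b ∂β) + K) := by
    refine le_trans ?_ (hK _ (by positivity))
    refine le_trans (ENNReal.tsum_le_tsum fun n => measure_mono fun ω hω => ?_)
      (ENNReal.tsum_comp_le_tsum_of_injective Nat.succ_injective
        fun n => P {ω | psum B n ω < max a 0 + 1})
    have : psum B (n + 1) ω ≤ a := hω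
    change psum B (n + 1) ω < max a 0 + 1
    linarith [le_max_left a 0]
  have hfin := ne_top_of_le_ne_top ENNReal.ofReal_ne_top hup
  have h1 := ENNReal.toReal_le_of_le_ofReal (by positivity) hup
  rw [add_div] at h1
  have hE' : 0 < 1 / ∫ b, b ∂β := by positivity
  refine ⟨hfin, abs_le.2 ⟨?_, by linarith⟩⟩
  rcases le_total a 0 with ha0 | ha0
  · rw [max_eq_right ha0, zero_div]
    linarith [ENNReal.toReal_nonneg (a := ∑' n, P {ω | psum B (n + 1) ω ≤ a})]
  · rw [max_eq_left ha0]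
    have h2 : ENNReal.ofReal (a / ∫ b, b ∂β) ≤ 1 + ∑' n, P {ω | psum B (n + 1) ω ≤ a} := by
      refine (h.le_count a).trans ?_
      rw [tsum_eq_zero_add' ENNReal.summable]
      exact add_le_add prob_le_one
        (ENNReal.tsum_le_tsum fun n => measure_mono fun ω hω =>
          le_of_lt (show psum B (n + 1) ω < a from hω))
    rw [ENNReal.ofReal_le_iff_le_toReal (ENNReal.add_ne_top.2 ⟨ENNReal.one_ne_top, hfin⟩),
      ENNReal.toReal_add ENNReal.one_ne_top hfin, ENNReal.toReal_one] at h2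
    linarith

end Walk

end Pool.Agent.MP_ac6554_pr

end

section

/-!
# Steps (8) and (9): from the coupling with a renewal-reward walk to the bound on the transform
-/

namespace Pool.Agent.MP_ac6554_pr

open MeasureTheory ProbabilityTheory Filter Topology Set Real
open scoped ENNReal

namespace GaussAux

variable {Ω : Type*} [MeasurableSpace Ω] {P : Measure Ω}

lemma gauss_exp {X : Ω → ℝ} (hX : HasGaussianLaw X P) (t : ℝ) :
    Integrable (fun ω => exp (t * X ω)) P ∧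
      ∫ ω, exp (t * X ω) ∂P ≤
        exp (|t| * √(∫ ω, X ω ^ 2 ∂P) + (∫ ω, X ω ^ 2 ∂P) * t ^ 2 / 2) := by
  have := hX.isProbabilityMeasure
  have h1 := mgf_gaussianReal hX.map_eq_gaussianReal t
  refine ⟨mgf_pos_iff.1 (by rw [h1]; exact exp_pos _), ?_⟩
  change mgf X P t ≤ _
  rw [h1]
  have hv : Var[X; P] = ∫ ω, X ω ^ 2 ∂P - (∫ ω, X ω ∂P) ^ 2 := variance_eq_sub hX.memLp_two
  have h0 := variance_nonneg X P
  rw [Real.coe_toNNReal _ h0]
  refine exp_le_exp.2 (add_le_add ?_ ?_)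
  · have : |∫ ω, X ω ∂P| ≤ √(∫ ω, X ω ^ 2 ∂P) := abs_le_sqrt (by linarith)
    calc _ ≤ |(∫ ω, X ω ∂P) * t| := le_abs_self _
      _ = |t| * |∫ ω, X ω ∂P| := by rw [abs_mul, mul_comm]
      _ ≤ _ := by gcongr
  · have : Var[X; P] ≤ ∫ ω, X ω ^ 2 ∂P := by nlinarith [sq_nonneg (∫ ω, X ω ∂P)]
    gcongr

lemma gauss_pow {X : Ω → ℝ} (hX : HasGaussianLaw X P) (n : ℕ) :
    Integrable (fun ω => X ω ^ n) P := by
  refine integrable_pow_of_mem_interior_integrableExpSet ?_ n
  have : integrableExpSet X P = univ := eq_univ_of_forall fun t => (gauss_exp hX t).1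
  simp [this]

lemma gauss_fourth {X : Ω → ℝ} (hX : HasGaussianLaw X P) (hV : 0 < ∫ ω, X ω ^ 2 ∂P) :
    ∫ ω, X ω ^ 4 ∂P ≤ 24 * exp 2 * (∫ ω, X ω ^ 2 ∂P) ^ 2 := by
  set V := ∫ ω, X ω ^ 2 ∂P with hVd
  have hs : 0 < √V := sqrt_pos.2 hV
  have hs2 : √V ^ 2 = V := sq_sqrt hV.le
  have b : ∀ t : ℝ, |t| = (√V)⁻¹ → ∫ ω, exp (t * X ω) ∂P ≤ exp 2 := fun t ht => by
    refine (gauss_exp hX t).2.trans (exp_le_exp.2 ?_)
    rw [← hVd, ← sq_abs t, ht, inv_mul_cancel₀ hs.ne', inv_pow, hs2, mul_inv_cancel₀ hV.ne']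
    norm_num
  have b1 := b (√V)⁻¹ (abs_of_pos (by positivity))
  have b2 := b (-(√V)⁻¹) (by rw [abs_neg]; exact abs_of_pos (by positivity))
  have i1 := (gauss_exp hX (√V)⁻¹).1
  have i2 := (gauss_exp hX (-(√V)⁻¹)).1
  have e : ∫ ω, (V ^ 2)⁻¹ / 12 * X ω ^ 4 ∂P ≤
      ∫ ω, (exp ((√V)⁻¹ * X ω) + exp (-(√V)⁻¹ * X ω)) ∂P := by
    refine integral_mono ((gauss_pow hX 4).const_mul _) (i1.add i2) fun ω => ?_
    have h1 := EndgameAux.exp_add_exp_ge ((√V)⁻¹ * X ω)
    have h2 : ((√V)⁻¹ * X ω) ^ 4 = (V ^ 2)⁻¹ * X ω ^ 4 := by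
      rw [mul_pow, inv_pow, show √V ^ 4 = (√V ^ 2) ^ 2 by ring, hs2]
    simp only [neg_mul]
    nlinarith [sq_nonneg ((√V)⁻¹ * X ω)]
  rw [integral_const_mul, integral_add i1 i2] at e
  have e2 : (V ^ 2)⁻¹ / 12 * ∫ ω, X ω ^ 4 ∂P ≤ 2 * exp 2 := by linarith
  rw [div_mul_eq_mul_div, div_le_iff₀ (by norm_num), inv_mul_le_iff₀ (by positivity)] at e2
  linarith

lemma second_moment {X Z : Ω → ℝ} (hX : HasGaussianLaw X P) (hZ : MemLp Z 2 P) {Bad : Set Ω}
    (hB : MeasurableSet Bad) {θ C : ℝ} (hθ : 0 < θ) (hP : P.real Bad ≤ 3 * θ ^ 2)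
    (h : ∀ᵐ ω ∂P, ω ∉ Bad → |X ω - Z ω| ≤ C) :
    (1 - (24 * exp 2 + 1) * θ) * ∫ ω, X ω ^ 2 ∂P ≤
      (1 + θ) * ∫ ω, Z ω ^ 2 ∂P + (1 + θ⁻¹) * C ^ 2 := by
  have := hX.isProbabilityMeasure
  have z0 : 0 ≤ ∫ ω, Z ω ^ 2 ∂P := integral_nonneg fun ω => sq_nonneg _
  have v0 : 0 ≤ ∫ ω, X ω ^ 2 ∂P := integral_nonneg fun ω => sq_nonneg _
  rcases v0.eq_or_lt with v0 | v0
  · rw [← v0, mul_zero]; positivity
  have h4 := gauss_fourth hX v0
  set V := ∫ ω, X ω ^ 2 ∂P with hV
  have iZ : Integrable (fun ω => Z ω ^ 2) P := hZ.integrable_sq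
  have i1 : Integrable (fun ω => θ / V * X ω ^ 4) P := (gauss_pow hX 4).const_mul _
  have i2 : Integrable (fun ω => Bad.indicator (fun _ => V / (4 * θ)) ω) P :=
    (integrable_const _).indicator hB
  have i3 : Integrable (fun ω => (1 + θ) * Z ω ^ 2) P := iZ.const_mul _
  have i4 : Integrable (fun _ : Ω => (1 + θ⁻¹) * C ^ 2) P := integrable_const _
  have i12 : Integrable (fun ω => θ / V * X ω ^ 4 + Bad.indicator (fun _ => V / (4 * θ)) ω) P :=
    i1.add i2
  have i34 : Integrable (fun ω => (1 + θ) * Z ω ^ 2 + (1 + θ⁻¹) * C ^ 2) P := i3.add i4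
  have e : V ≤ ∫ ω, ((θ / V * X ω ^ 4 + Bad.indicator (fun _ => V / (4 * θ)) ω) +
      ((1 + θ) * Z ω ^ 2 + (1 + θ⁻¹) * C ^ 2)) ∂P := by
    refine integral_mono_ae (gauss_pow hX 2) (i12.add i34) ?_
    filter_upwards [h] with ω hω
    by_cases hb : ω ∈ Bad
    · rw [indicator_of_mem hb]
      have a1 : X ω ^ 2 ≤ θ / V * X ω ^ 4 + V / (4 * θ) := by
        have : θ / V * X ω ^ 4 + V / (4 * θ) - X ω ^ 2
            = (2 * θ * X ω ^ 2 - V) ^ 2 / (4 * θ * V) := by
          field_simp; ring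
        have h2 : 0 ≤ (2 * θ * X ω ^ 2 - V) ^ 2 / (4 * θ * V) := by positivity
        linarith
      have a2 : 0 ≤ (1 + θ) * Z ω ^ 2 + (1 + θ⁻¹) * C ^ 2 := by positivity
      linarith
    · rw [indicator_of_notMem hb]
      have a1 : (X ω - Z ω) ^ 2 ≤ C ^ 2 := by
        rw [← sq_abs]; exact pow_le_pow_left₀ (abs_nonneg _) (hω hb) 2
      have a2 : X ω ^ 2 ≤ (1 + θ) * Z ω ^ 2 + (1 + θ⁻¹) * (X ω - Z ω) ^ 2 := by
        have : (1 + θ) * Z ω ^ 2 + (1 + θ⁻¹) * (X ω - Z ω) ^ 2 - X ω ^ 2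
            = (θ * Z ω - (X ω - Z ω)) ^ 2 / θ := by
          field_simp; ring
        have h2 : 0 ≤ (θ * Z ω - (X ω - Z ω)) ^ 2 / θ := by positivity
        linarith
      have a3 : (1 + θ⁻¹) * (X ω - Z ω) ^ 2 ≤ (1 + θ⁻¹) * C ^ 2 := by gcongr
      have a4 : 0 ≤ θ / V * X ω ^ 4 := by positivity
      linarith
  rw [integral_add i12 i34, integral_add i1 i2, integral_add i3 i4, integral_const_mul,
    integral_const_mul, integral_indicator_const _ hB] at e
  simp only [integral_const, probReal_univ, smul_eq_mul, one_mul] at e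
  have a1 : θ / V * ∫ ω, X ω ^ 4 ∂P ≤ 24 * exp 2 * θ * V := by
    calc _ ≤ θ / V * (24 * exp 2 * V ^ 2) := by gcongr
      _ = _ := by field_simp
  have a2 : P.real Bad * (V / (4 * θ)) ≤ θ * V := by
    calc _ ≤ 3 * θ ^ 2 * (V / (4 * θ)) := by gcongr
      _ = 3 / 4 * (θ * V) := by field_simp
      _ ≤ _ := by nlinarith [mul_pos hθ v0]
  nlinarith

lemma indep_past {E : Type*} [MeasurableSpace E] [Inhabited E] {Y : ℕ → Ω → E}
    (hind : iIndepFun Y P) (hY : ∀ i, Measurable (Y i)) (M : ℕ) {F : (ℕ → E) → ℝ}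
    (hF : Measurable F) (hdep : ∀ x y : ℕ → E, (∀ i < M, x i = y i) → F x = F y) :
    IndepFun (fun ω => F fun i => Y i ω) (Y M) P := by
  have h := hind.indepFun_finset (Finset.range M) {M} (by simp) hY
  let ext : (Finset.range M → E) → ℕ → E := fun v i =>
    if hi : i ∈ Finset.range M then v ⟨i, hi⟩ else default
  have hext : Measurable ext := measurable_pi_lambda _ fun i => by
    by_cases hi : i ∈ Finset.range M
    · simp only [ext, dif_pos hi]; exact measurable_pi_apply _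
    · simp only [ext, dif_neg hi]; exact measurable_const
  have h2 := h.comp (hF.comp hext)
    (measurable_pi_apply (⟨M, Finset.mem_singleton_self M⟩ : ({M} : Finset ℕ)))
  have e : (fun ω => F fun i => Y i ω) =
      (F ∘ ext) ∘ fun a (i : Finset.range M) => Y i a := by
    funext ω
    refine hdep _ _ fun i hi => ?_
    simp only [ext, dif_pos (Finset.mem_range.2 hi)]
  rw [e]
  exact h2

/-- Stopped sum. -/
noncomputable def zs (B : ℕ → Ω → ℝ) (η : ℕ → Ω → ℝ) (a : ℝ) (M : ℕ) (ω : Ω) : ℝ :=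
  ∑ i ∈ Finset.range M, (if psum B i ω < a then 1 else 0) * η i ω

/-- Wald's second identity, for a truncated sum. -/
lemma wald2 [IsProbabilityMeasure P] {Y : ℕ → Ω → ℝ × ℝ} (hind : iIndepFun Y P)
    (hY : ∀ i, Measurable (Y i)) {ρ : Measure (ℝ × ℝ)} (hlaw : ∀ i, P.map (Y i) = ρ)
    {ζ : ℝ × ℝ → ℝ} (hζ : Measurable ζ) (hζ2 : MemLp ζ 2 ρ) (hζ0 : ∫ p, ζ p ∂ρ = 0) (a : ℝ)
    (M : ℕ) :
    MemLp (zs (fun i ω => (Y i ω).1) (fun i ω => ζ (Y i ω)) a M) 2 P ∧
      ∫ ω, zs (fun i ω => (Y i ω).1) (fun i ω => ζ (Y i ω)) a M ω ^ 2 ∂P =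
        (∫ p, ζ p ^ 2 ∂ρ) *
          ∑ i ∈ Finset.range M, P.real {ω | psum (fun i ω => (Y i ω).1) i ω < a} := by
  set B : ℕ → Ω → ℝ := fun i ω => (Y i ω).1 with hB
  set η : ℕ → Ω → ℝ := fun i ω => ζ (Y i ω) with hη
  have mB : ∀ n, Measurable (psum B n) := fun n => measurable_psum fun i _ => (hY i).fst
  have mη : ∀ i, Measurable (η i) := fun i => hζ.comp (hY i)
  have lη : ∀ i, MemLp (η i) 2 P := fun i =>
    MemLp.comp_of_map (f := Y i) (by rwa [hlaw i]) (hY i).aemeasurable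
  have η0 : ∀ i, ∫ ω, η i ω ∂P = 0 := fun i => by
    rw [← hζ0, ← hlaw i, integral_map (hY i).aemeasurable hζ.aestronglyMeasurable]
  have η2 : ∀ i, ∫ ω, η i ω ^ 2 ∂P = ∫ p, ζ p ^ 2 ∂ρ := fun i => by
    rw [← hlaw i, integral_map (hY i).aemeasurable (hζ.pow_const 2).aestronglyMeasurable]
  let I : ℕ → Ω → ℝ := fun i ω => if psum B i ω < a then 1 else 0
  have mI : ∀ i, Measurable (I i) := fun i =>
    Measurable.ite (mB i measurableSet_Iio) measurable_const measurable_const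
  have bI : ∀ i, MemLp (I i) ∞ P := fun i =>
    memLp_top_of_bound (mI i).aestronglyMeasurable 1 (Eventually.of_forall fun ω => by
      simp only [I]; split_ifs <;> simp)
  have iI : ∀ i, ∫ ω, I i ω ∂P = P.real {ω | psum B i ω < a} := fun i => by
    rw [← integral_indicator_one
      (show MeasurableSet {ω | psum B i ω < a} from mB i measurableSet_Iio)]
    rfl
  -- canonical versions
  let b : ℕ → (ℕ → ℝ × ℝ) → ℝ := fun i x => (x i).1
  have mb : ∀ n, Measurable (psum b n) := fun n =>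
    measurable_psum fun i _ => (measurable_pi_apply i).fst
  let J : ℕ → (ℕ → ℝ × ℝ) → ℝ := fun i x => if psum b i x < a then 1 else 0
  have mJ : ∀ i, Measurable (J i) := fun i =>
    Measurable.ite (mb i measurableSet_Iio) measurable_const measurable_const
  have dJ : ∀ (i M : ℕ), i ≤ M → ∀ x y : ℕ → ℝ × ℝ, (∀ j < M, x j = y j) → J i x = J i y := by
    intro i M hi x y hxy
    have : psum b i x = psum b i y :=
      Finset.sum_congr rfl fun j hj => by
        simp only [b, hxy j ((Finset.mem_range.1 hj).trans_le hi)]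
    simp only [J, this]
  induction M with
  | zero => exact ⟨by unfold zs; simp, by simp [zs]⟩
  | succ M ih =>
    obtain ⟨l1, l2⟩ := ih
    have es : ∀ ω, zs B η a (M + 1) ω = zs B η a M ω + I M ω * η M ω := fun ω =>
      Finset.sum_range_succ _ _
    have lI : MemLp (fun ω => I M ω * η M ω) 2 P := (lη M).mul' (bI M)
    refine ⟨(l1.add lI).congr_norm ?_ (Eventually.of_forall fun ω => by rw [es]; rfl), ?_⟩
    · have : zs B η a (M + 1) = zs B η a M + fun ω => I M ω * η M ω := funext es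
      rw [this]
      exact (l1.add lI).aestronglyMeasurable
    have c1 : ∫ ω, (zs B η a M ω * I M ω) * η M ω ∂P = 0 := by
      have hi := (indep_past hind hY M
        (F := fun x => (∑ i ∈ Finset.range M, J i x * ζ (x i)) * J M x)
        ((Finset.measurable_sum _ fun i _ =>
          (mJ i).mul (hζ.comp (measurable_pi_apply i))).mul (mJ M)) (fun x y hxy => by
          rw [dJ M M le_rfl x y hxy]
          congr 1
          refine Finset.sum_congr rfl fun i hi => ?_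
          rw [dJ i M (Finset.mem_range.1 hi).le x y hxy, hxy i (Finset.mem_range.1 hi)])).comp
        measurable_id hζ
      have := IndepFun.integral_fun_mul_eq_mul_integral
        (X := fun ω => zs B η a M ω * I M ω) (Y := η M) hi
        (l1.aestronglyMeasurable.mul (mI M).aestronglyMeasurable) (mη M).aestronglyMeasurable
      rw [this, η0, mul_zero]
    have c2 : ∫ ω, I M ω * η M ω ^ 2 ∂P = P.real {ω | psum B M ω < a} * ∫ p, ζ p ^ 2 ∂ρ := by
      have hi := (indep_past hind hY M (F := J M) (mJ M) (dJ M M le_rfl)).comp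
        measurable_id (hζ.pow_const 2)
      have := IndepFun.integral_fun_mul_eq_mul_integral
        (X := I M) (Y := fun ω => η M ω ^ 2) hi
        (mI M).aestronglyMeasurable ((mη M).pow_const 2).aestronglyMeasurable
      rw [this, iI, η2]
    have j1 : Integrable (fun ω => zs B η a M ω ^ 2) P := l1.integrable_sq
    have j2 : Integrable (fun ω => (zs B η a M ω * I M ω) * η M ω) P := by
      have := l1.integrable_mul lI
      refine this.congr (Eventually.of_forall fun ω => ?_)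
      simp only [Pi.mul_apply]; ring
    have j3 : Integrable (fun ω => I M ω * η M ω ^ 2) P := by
      refine lI.integrable_sq.congr (Eventually.of_forall fun ω => ?_)
      simp only [I]; split_ifs <;> simp
    have e : ∀ ω, zs B η a (M + 1) ω ^ 2 =
        zs B η a M ω ^ 2 + 2 * ((zs B η a M ω * I M ω) * η M ω) + I M ω * η M ω ^ 2 := by
      intro ω
      rw [es]
      simp only [I]; split_ifs <;> ring
    have j12 : Integrable
        (fun ω => zs B η a M ω ^ 2 + 2 * ((zs B η a M ω * I M ω) * η M ω)) P :=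
      j1.add (j2.const_mul 2)
    simp only [e]
    rw [integral_add j12 j3, integral_add j1 (j2.const_mul 2), integral_const_mul, c1, c2, l2,
      Finset.sum_range_succ]
    ring

/-- The standing hypotheses. -/
structure Setup (P : Measure Ω) (β μ : Measure ℝ) (B ξ X : ℕ → Ω → ℝ)
    (G : ℕ → MeasurableSpace Ω) (c0 : ℝ) : Prop where
  mB : ∀ i, Measurable (B i)
  mξ : ∀ i, Measurable (ξ i)
  mX : ∀ k, Measurable (X k)
  indep : iIndepFun (fun i ω => (B i ω, ξ i ω)) P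
  law : ∀ i, P.map (fun ω => (B i ω, ξ i ω)) = β.prod μ
  nonneg : ∀ᵐ b ∂β, 0 ≤ b
  expm : (0 : ℝ) ∈ interior (integrableExpSet id β)
  mean : 0 < ∫ b, b ∂β
  mom : MemLp id 2 μ
  gauss : ∀ k, HasGaussianLaw (X k) P
  adapted : ∀ n, ∀ i < n, Measurable[G n] (B i) ∧ Measurable[G n] (ξ i)
  coupling : ∀ A η : ℝ, 0 < η → ∃ C : ℝ, ∀ n k : ℕ, 1 ≤ n → c0 ≤ k → ∀ D : Set Ω,
    MeasurableSet[G n] D → (∀ ω ∈ D, k - A ≤ psum B n ω ∧ psum B n ω ≤ k - c0) →
      P (D ∩ {ω | C < |X k ω - psum ξ n ω + (∫ x, x ∂μ) * k / (∫ b, b ∂β)|}) ≤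
        ENNReal.ofReal η * P D

namespace Setup

variable {β μ : Measure ℝ} {B ξ X : ℕ → Ω → ℝ} {G : ℕ → MeasurableSpace Ω} {c0 : ℝ}
  [IsProbabilityMeasure β] [IsProbabilityMeasure μ]

omit [IsProbabilityMeasure β] in
lemma walk (h : Setup P β μ B ξ X G c0) : Walk P β B where
  meas := h.mB
  indep := h.indep.comp (fun _ => Prod.fst) fun _ => measurable_fst
  law i := by
    have : B i = Prod.fst ∘ fun ω => (B i ω, ξ i ω) := rfl
    rw [this, ← Measure.map_map measurable_fst ((h.mB i).prodMk (h.mξ i)), h.law i,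
      Measure.map_fst_prod]
    simp
  nonneg := h.nonneg
  expm := h.expm
  mean := h.mean

lemma wald (h : Setup P β μ B ξ X G c0) (a : ℝ) (M : ℕ) :
    MemLp (zs B (fun i ω => ξ i ω - (∫ x, x ∂μ) / (∫ b, b ∂β) * B i ω) a M) 2 P ∧
      ∫ ω, zs B (fun i ω => ξ i ω - (∫ x, x ∂μ) / (∫ b, b ∂β) * B i ω) a M ω ^ 2 ∂P =
        (Var[id; μ] + (∫ x, x ∂μ) ^ 2 * Var[id; β] / (∫ b, b ∂β) ^ 2) *
          ∑ i ∈ Finset.range M, P.real {ω | psum B i ω < a} := by
  have := h.indep.isProbabilityMeasure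
  set c := (∫ x, x ∂μ) / (∫ b, b ∂β) with hc
  have lβ : MemLp (fun b : ℝ => -c * b) 2 β :=
    MemLp.const_mul (f := id)
      (by simpa using memLp_of_mem_interior_integrableExpSet h.expm 2) _
  have l1 : MemLp (fun p : ℝ × ℝ => -c * p.1) 2 (β.prod μ) := lβ.comp_fst μ
  have l2 : MemLp (fun p : ℝ × ℝ => id p.2) 2 (β.prod μ) := h.mom.comp_snd β
  have e : (fun p : ℝ × ℝ => p.2 - c * p.1) = fun p : ℝ × ℝ => -c * p.1 + id p.2 := by
    funext p; simp only [id]; ring
  have l3 : MemLp (fun p : ℝ × ℝ => p.2 - c * p.1) 2 (β.prod μ) := by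
    rw [e]; exact l1.add l2
  have z0 : ∫ p : ℝ × ℝ, (p.2 - c * p.1) ∂β.prod μ = 0 := by
    rw [e, integral_add (l1.integrable one_le_two) (l2.integrable one_le_two),
      integral_fun_fst (fun b : ℝ => -c * b), integral_fun_snd (fun x : ℝ => id x),
      integral_const_mul]
    have := h.mean.ne'
    simp only [probReal_univ, smul_eq_mul, one_mul, id, hc]
    field_simp
    ring
  have z2 : ∫ p : ℝ × ℝ, (p.2 - c * p.1) ^ 2 ∂β.prod μ =
      Var[id; μ] + (∫ x, x ∂μ) ^ 2 * Var[id; β] / (∫ b, b ∂β) ^ 2 := by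
    rw [← variance_of_integral_eq_zero l3.aemeasurable z0, e, variance_add_prod lβ h.mom]
    have : Var[fun b : ℝ => -c * b; β] = (-c) ^ 2 * Var[id; β] := variance_const_mul _ id β
    rw [this, hc]
    ring
  have := wald2 h.indep (fun i => (h.mB i).prodMk (h.mξ i)) h.law
    (ζ := fun p => p.2 - c * p.1) (by fun_prop) l3 z0 a M
  rw [z2] at this
  exact this

omit [IsProbabilityMeasure β] in
/-- With high probability `X k` is close to a stopped centred sum. -/
lemma close (h : Setup P β μ B ξ X G c0) {η : ℝ} (hη : 0 < η) :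
    ∃ A C : ℝ, ∀ᶠ k : ℕ in atTop, 0 < (k : ℝ) - A ∧ ∃ (M : ℕ) (Bad : Set Ω), MeasurableSet Bad ∧
      P.real Bad ≤ 3 * η ∧ ∀ᵐ ω ∂P, ω ∉ Bad →
        |X k ω - zs B (fun i ω => ξ i ω - (∫ x, x ∂μ) / (∫ b, b ∂β) * B i ω) (k - A) M ω| ≤ C := by
  have := h.indep.isProbabilityMeasure
  obtain ⟨K, hK0, hK⟩ := h.walk.overshoot
  set L := K / η + 1 with hL
  have hL0 : 0 < L := by positivity
  set A := c0 + L with hA
  obtain ⟨C, hC⟩ := h.coupling A η hη
  set c := (∫ x, x ∂μ) / (∫ b, b ∂β) with hc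
  refine ⟨A, C + |c| * (|A| + |c0|), ?_⟩
  have t1 : Tendsto (fun k : ℕ => (k : ℝ)) atTop atTop := tendsto_natCast_atTop_atTop
  filter_upwards [t1.eventually_gt_atTop A, t1.eventually_ge_atTop c0] with k hk1 hk2
  refine ⟨by linarith, ?_⟩
  set a := (k : ℝ) - A with ha
  have ha0 : 0 < a := by linarith
  obtain ⟨M, hM⟩ := ((h.walk.tendsto_lt a).eventually
    (gt_mem_nhds (show (0 : ℝ≥0∞) < ENNReal.ofReal η by simpa using hη))).exists
  let D : ℕ → Set Ω := fun n => {ω | (∀ i ≤ n, psum B i ω < a) ∧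
    a ≤ psum B (n + 1) ω ∧ psum B (n + 1) ω ≤ k - c0}
  have mD : ∀ (m : MeasurableSpace Ω) (n : ℕ), (∀ i < n + 1, Measurable[m] (B i)) →
      MeasurableSet[m] (D n) := by
    intro m n hm
    have h1 : ∀ i ≤ n + 1, Measurable[m] (psum B i) := fun i hi =>
      measurable_psum fun j hj => hm j (hj.trans_le hi)
    have h2 : MeasurableSet[m] (⋂ i ∈ Iic n, psum B i ⁻¹' Iio a) :=
      MeasurableSet.biInter (to_countable _) fun i hi =>
        h1 i (le_trans hi (Nat.le_succ n)) measurableSet_Iio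
    have h3 : MeasurableSet[m] (psum B (n + 1) ⁻¹' Icc a (k - c0)) :=
      h1 _ le_rfl measurableSet_Icc
    convert h2.inter h3 using 1
    ext ω
    simp [D]
  let E : ℕ → Set Ω := fun n =>
    {ω | C < |X k ω - psum ξ n ω + (∫ x, x ∂μ) * k / (∫ b, b ∂β)|}
  have mE : ∀ n, MeasurableSet (E n) := fun n => by
    have h1 : Measurable (psum ξ n) := measurable_psum fun i _ => h.mξ i
    have h2 := h.mX k
    exact measurableSet_lt measurable_const (by fun_prop)
  have mD0 : ∀ n, MeasurableSet (D n) := fun n => mD _ n fun i _ => h.mB i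
  refine ⟨M, ({ω | psum B M ω < a} ∪ {ω | ENNReal.ofReal L ≤ osh B a ω}) ∪
    ⋃ n ∈ Finset.range M, D n ∩ E (n + 1), ?_, ?_, ?_⟩
  · exact ((h.walk.measurable_psum M measurableSet_Iio).union
      (h.walk.measurable_over a measurableSet_Ici)).union
      (Finset.measurableSet_biUnion _ fun n _ => (mD0 n).inter (mE _))
  · have b2 : P {ω | ENNReal.ofReal L ≤ osh B a ω} ≤ ENNReal.ofReal η := by
      refine (meas_ge_le_lintegral_div (h.walk.measurable_over a).aemeasurable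
        (by simpa using hL0) ENNReal.ofReal_ne_top).trans ?_
      refine (ENNReal.div_le_div_right (hK a) _).trans ?_
      rw [← ENNReal.ofReal_div_of_pos hL0]
      refine ENNReal.ofReal_le_ofReal ?_
      rw [div_le_iff₀ hL0, hL, mul_add, mul_div_cancel₀ _ hη.ne']
      linarith
    have b3 : P (⋃ n ∈ Finset.range M, D n ∩ E (n + 1)) ≤ ENNReal.ofReal η := by
      calc _ ≤ ∑ n ∈ Finset.range M, P (D n ∩ E (n + 1)) := measure_biUnion_finset_le _ _
        _ ≤ ∑ n ∈ Finset.range M, ENNReal.ofReal η * P (D n) :=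
            Finset.sum_le_sum fun n _ => hC (n + 1) k (by omega) hk2 (D n)
              (mD _ n fun i hi => (h.adapted _ i hi).1) fun ω hω => hω.2
        _ ≤ ENNReal.ofReal η * P univ := by
            rw [← Finset.mul_sum]
            gcongr
            refine sum_measure_le_measure_univ (fun n _ => (mD0 n).nullMeasurableSet) ?_
            intro n _ n' _ hne
            refine Disjoint.aedisjoint (disjoint_left.2 fun ω h1 h2 => ?_)
            rcases lt_or_gt_of_ne hne with hlt | hlt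
            · exact absurd (h2.1 (n + 1) hlt) (not_lt.2 h1.2.1)
            · exact absurd (h1.1 (n' + 1) hlt) (not_lt.2 h2.2.1)
        _ = _ := by simp
    refine ENNReal.toReal_le_of_le_ofReal (by positivity) ?_
    calc _ ≤ (ENNReal.ofReal η + ENNReal.ofReal η) + ENNReal.ofReal η :=
          (measure_union_le _ _).trans
            (add_le_add ((measure_union_le _ _).trans (add_le_add hM.le b2)) b3)
      _ = _ := by
          rw [← ENNReal.ofReal_add hη.le hη.le, ← ENNReal.ofReal_add (by positivity) hη.le]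
          congr 1; ring
  · filter_upwards [h.walk.ae_nonneg] with ω hω hb
    simp only [mem_union, mem_ofPred_eq, mem_iUnion, not_or, not_lt, not_le, not_exists] at hb
    obtain ⟨⟨b1, b2⟩, b3⟩ := hb
    have mono : Monotone fun n => psum B n ω :=
      monotone_nat_of_le_succ fun n => by rw [psum_succ]; linarith [hω n]
    have ex : ∃ n, a ≤ psum B (n + 1) ω := ⟨M, b1.trans (mono (Nat.le_succ M))⟩
    classical
    set n := Nat.find ex with hn
    have n1 : a ≤ psum B (n + 1) ω := Nat.find_spec ex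
    have n2 : ∀ i ≤ n, psum B i ω < a := by
      intro i hi
      rcases i with _ | i
      · simpa using ha0
      · exact not_le.1 (Nat.find_min ex (by omega))
    have n3 : n < M := by
      by_contra hM'
      exact absurd (n2 M (not_lt.1 hM')) (not_lt.2 b1)
    have n4 : psum B (n + 1) ω ≤ k - c0 := by
      have e1 := (ENNReal.le_tsum (f := fun n => ENNReal.ofReal
        (if psum B n ω < a then max (psum B n ω + B n ω - a) 0 else 0)) n).trans_lt b2
      rw [if_pos (n2 n le_rfl), ENNReal.ofReal_lt_ofReal_iff hL0, ← psum_succ] at e1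
      linarith [le_max_left (psum B (n + 1) ω - a) 0]
    have n5 : |X k ω - psum ξ (n + 1) ω + (∫ x, x ∂μ) * k / (∫ b, b ∂β)| ≤ C := by
      by_contra hC'
      exact b3 n (Finset.mem_range.2 n3) ⟨⟨n2, n1, n4⟩, not_le.1 hC'⟩
    have n6 : zs B (fun i ω => ξ i ω - c * B i ω) a M ω
        = psum ξ (n + 1) ω - c * psum B (n + 1) ω := by
      unfold zs
      rw [← Finset.sum_subset (Finset.range_mono (show n + 1 ≤ M from n3))]
      · unfold psum
        rw [Finset.mul_sum, ← Finset.sum_sub_distrib]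
        refine Finset.sum_congr rfl fun i hi => ?_
        have := n2 i (Nat.lt_succ_iff.1 (Finset.mem_range.1 hi))
        unfold psum at this
        rw [if_pos this, one_mul]
      · intro i _ hi
        have : a ≤ psum B i ω := n1.trans (mono (by simpa using hi))
        rw [if_neg (not_lt.2 this), zero_mul]
    rw [n6]
    have e : X k ω - (psum ξ (n + 1) ω - c * psum B (n + 1) ω) =
        (X k ω - psum ξ (n + 1) ω + (∫ x, x ∂μ) * k / (∫ b, b ∂β)) +
          c * (psum B (n + 1) ω - k) := by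
      rw [hc]; ring
    rw [e]
    refine (abs_add_le _ _).trans (add_le_add n5 ?_)
    rw [abs_mul]
    refine mul_le_mul_of_nonneg_left (abs_le.2 ⟨?_, ?_⟩) (abs_nonneg _)
    · linarith [le_abs_self A, abs_nonneg c0]
    · linarith [neg_abs_le c0, abs_nonneg A]

/-- Step (8). -/
lemma var_bound (h : Setup P β μ B ξ X G c0) {ε : ℝ} (hε : 0 < ε) :
    ∃ K : ℝ, ∀ᶠ k : ℕ in atTop, ∫ ω, X k ω ^ 2 ∂P ≤
      ((Var[id; μ] + (∫ x, x ∂μ) ^ 2 * Var[id; β] / (∫ b, b ∂β) ^ 2) / (∫ b, b ∂β) + ε) * k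
        + K := by
  have := h.indep.isProbabilityMeasure
  have hE := h.mean
  set v := Var[id; μ] + (∫ x, x ∂μ) ^ 2 * Var[id; β] / (∫ b, b ∂β) ^ 2 with hv
  have v0 : 0 ≤ v := by
    have := variance_nonneg id μ
    have := variance_nonneg id β
    positivity
  set E := ∫ b, b ∂β
  set s := v / E with hs
  have s0 : 0 ≤ s := by positivity
  obtain ⟨θ, hθ, h1, h2⟩ : ∃ θ : ℝ, 0 < θ ∧ 0 < 1 - (24 * exp 2 + 1) * θ ∧
      (1 + θ) * s < (s + ε) * (1 - (24 * exp 2 + 1) * θ) := by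
    have e1 : ∀ᶠ θ in 𝓝 (0 : ℝ), 0 < 1 - (24 * exp 2 + 1) * θ :=
      ContinuousAt.eventually_lt (by fun_prop) (by fun_prop) (by simp)
    have e2 : ∀ᶠ θ in 𝓝 (0 : ℝ), (1 + θ) * s < (s + ε) * (1 - (24 * exp 2 + 1) * θ) :=
      ContinuousAt.eventually_lt (by fun_prop) (by fun_prop) (by simpa using hε)
    exact (eventually_mem_nhdsWithin.and
      ((e1.and e2).filter_mono (nhdsWithin_le_nhds (s := Ioi 0)))).exists
  obtain ⟨A, C, hk⟩ := h.close (η := θ ^ 2) (by positivity)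
  obtain ⟨K, hK0, hK⟩ := h.walk.count_le
  set D := 1 - (24 * exp 2 + 1) * θ with hD
  refine ⟨((1 + θ) * (s * |A| + v * K) + (1 + θ⁻¹) * C ^ 2) / D, ?_⟩
  filter_upwards [hk] with k ⟨hk0, M, Bad, mBad, pBad, hcl⟩
  obtain ⟨w1, w2⟩ := h.wald (k - A) M
  have a1 := second_moment (h.gauss k) w1 mBad hθ pBad hcl
  rw [w2, ← hv, ← hD] at a1
  have a2 : ∑ i ∈ Finset.range M, P.real {ω | psum B i ω < k - A} ≤ (k - A) / E + K := by
    simp only [Measure.real]
    rw [← ENNReal.toReal_sum fun i _ => measure_ne_top _ _]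
    exact ENNReal.toReal_le_of_le_ofReal (by positivity)
      ((ENNReal.sum_le_tsum _).trans (hK _ hk0.le))
  have a3 : v * ∑ i ∈ Finset.range M, P.real {ω | psum B i ω < k - A}
      ≤ s * k + (s * |A| + v * K) := by
    calc _ ≤ v * ((k - A) / E + K) := by gcongr
      _ = s * k + (s * (-A) + v * K) := by rw [hs]; ring
      _ ≤ _ := by gcongr; exact neg_le_abs A
  have a4 : (1 + θ) * s * k ≤ (s + ε) * D * k :=
    mul_le_mul_of_nonneg_right h2.le (Nat.cast_nonneg k)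
  have a5 := mul_le_mul_of_nonneg_left a3 (show 0 ≤ 1 + θ by positivity)
  rw [← sub_le_iff_le_add', le_div_iff₀ h1]
  nlinarith

/-- The weighted sum of the Gaussian transforms converges. -/
lemma sum_ne_top (h : Setup P β μ B ξ X G c0) {t l : ℝ}
    (hl : (∫ x, x ∂μ) * t / (∫ b, b ∂β) +
      (Var[id; μ] + (∫ x, x ∂μ) ^ 2 * Var[id; β] / (∫ b, b ∂β) ^ 2) / (∫ b, b ∂β) * t ^ 2 / 2
        < l) :
    ∑' k : ℕ, ∫⁻ ω, ENNReal.ofReal
      (exp (t * X k ω + (t * (∫ x, x ∂μ) / (∫ b, b ∂β) - l) * k)) ∂P ≠ ∞ := by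
  set s := (Var[id; μ] + (∫ x, x ∂μ) ^ 2 * Var[id; β] / (∫ b, b ∂β) ^ 2) / (∫ b, b ∂β)
  set u := t * (∫ x, x ∂μ) / (∫ b, b ∂β) - l with hu
  obtain ⟨ε, hε, h1⟩ : ∃ ε : ℝ, 0 < ε ∧ u + (1 / 2 + ε) * t ^ 2 * (s + ε) < 0 := by
    have e1 : ∀ᶠ ε in 𝓝 (0 : ℝ), u + (1 / 2 + ε) * t ^ 2 * (s + ε) < 0 :=
      ContinuousAt.eventually_lt (by fun_prop) (by fun_prop) (by
        simp only [add_zero, hu]
        rw [mul_comm t]
        linarith)
    exact (eventually_mem_nhdsWithin.and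
      (e1.filter_mono (nhdsWithin_le_nhds (s := Ioi 0)))).exists
  obtain ⟨K, hK⟩ := h.var_bound hε
  have ik : ∀ k : ℕ, Integrable (fun ω => exp (t * X k ω + u * k)) P := fun k => by
    simp only [exp_add]
    exact (gauss_exp (h.gauss k) t).1.mul_const _
  have e : ∀ k : ℕ, ∫⁻ ω, ENNReal.ofReal (exp (t * X k ω + u * k)) ∂P =
      ENNReal.ofReal (∫ ω, exp (t * X k ω + u * k) ∂P) := fun k =>
    (ofReal_integral_eq_lintegral_ofReal (ik k)
      (Eventually.of_forall fun _ => (exp_pos _).le)).symm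
  have p0 : ∀ k : ℕ, 0 ≤ ∫ ω, exp (t * X k ω + u * k) ∂P := fun k =>
    integral_nonneg fun _ => (exp_pos _).le
  simp only [e]
  rw [← ENNReal.ofReal_tsum_of_nonneg p0]
  · exact ENNReal.ofReal_ne_top
  set γ := u + (1 / 2 + ε) * t ^ 2 * (s + ε) with hγ
  refine Summable.of_norm_bounded_eventually_nat
    (g := fun k : ℕ => exp (1 / (4 * ε) + (1 / 2 + ε) * t ^ 2 * K) * exp γ ^ k)
    ((summable_geometric_of_lt_one (exp_pos _).le (exp_lt_one_iff.2 h1)).mul_left _) ?_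
  filter_upwards [hK] with k hk
  rw [Real.norm_of_nonneg (p0 k)]
  simp only [exp_add (t * _)]
  rw [integral_mul_const]
  refine (mul_le_mul_of_nonneg_right (gauss_exp (h.gauss k) t).2 (exp_pos _).le).trans ?_
  rw [← exp_add, ← exp_nat_mul, ← exp_add]
  refine exp_le_exp.2 ?_
  have v0 : 0 ≤ ∫ ω, X k ω ^ 2 ∂P := integral_nonneg fun ω => sq_nonneg _
  set V := ∫ ω, X k ω ^ 2 ∂P
  have a1 : |t| * √V ≤ ε * t ^ 2 * V + 1 / (4 * ε) := by
    have : ε * (|t| * √V) ^ 2 + 1 / (4 * ε) - |t| * √V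
        = (2 * ε * (|t| * √V) - 1) ^ 2 / (4 * ε) := by
      field_simp; ring
    have h2 : 0 ≤ (2 * ε * (|t| * √V) - 1) ^ 2 / (4 * ε) := by positivity
    rw [mul_pow, sq_abs, sq_sqrt v0] at this
    linarith
  have a2 : (1 / 2 + ε) * t ^ 2 * V ≤ (1 / 2 + ε) * t ^ 2 * ((s + ε) * k + K) := by gcongr
  rw [hγ]
  linarith

omit [IsProbabilityMeasure β] in
lemma lintegral_exp (h : Setup P β μ B ξ X G c0) (t l : ℝ) (n : ℕ) :
    ∫⁻ ω, ENNReal.ofReal (exp (t * psum ξ n ω - l * psum B n ω)) ∂P =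
      ((∫⁻ x, ENNReal.ofReal (exp (t * x)) ∂μ) *
        ∫⁻ b, ENNReal.ofReal (exp (-(l * b))) ∂β) ^ n := by
  have mf : Measurable fun p : ℝ × ℝ =>
      ENNReal.ofReal (exp (-(l * p.1))) * ENNReal.ofReal (exp (t * p.2)) := by fun_prop
  have h1 := lintegral_prod_eq_prod_lintegral_of_indepFun (Finset.range n) _
    (h.indep.comp _ fun _ => mf) fun i => mf.comp ((h.mB i).prodMk (h.mξ i))
  have h2 : ∀ i, ∫⁻ ω, ((fun p : ℝ × ℝ =>
      ENNReal.ofReal (exp (-(l * p.1))) * ENNReal.ofReal (exp (t * p.2))) ∘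
        fun ω => (B i ω, ξ i ω)) ω ∂P = (∫⁻ x, ENNReal.ofReal (exp (t * x)) ∂μ) *
        ∫⁻ b, ENNReal.ofReal (exp (-(l * b))) ∂β := fun i => by
    rw [lintegral_comp mf ((h.mB i).prodMk (h.mξ i)), h.law i,
      lintegral_prod_mul (f := fun b => ENNReal.ofReal (exp (-(l * b))))
        (g := fun x => ENNReal.ofReal (exp (t * x))) (by fun_prop) (by fun_prop), mul_comm]
  simp only [h2, Finset.prod_const, Finset.card_range] at h1
  rw [← h1]
  refine lintegral_congr fun ω => ?_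
  simp only [Function.comp, ← ENNReal.ofReal_mul (exp_pos _).le, ← exp_add]
  rw [← ENNReal.ofReal_prod_of_nonneg fun _ _ => (exp_pos _).le, ← exp_sum]
  congr 2
  unfold psum
  rw [Finset.sum_add_distrib, Finset.sum_neg_distrib, Finset.mul_sum, Finset.mul_sum]
  ring

/-- Step (9). -/
theorem mgf_bound (h : Setup P β μ B ξ X G c0) {t l : ℝ}
    (hl : (∫ x, x ∂μ) * t / (∫ b, b ∂β) +
      (Var[id; μ] + (∫ x, x ∂μ) ^ 2 * Var[id; β] / (∫ b, b ∂β) ^ 2) / (∫ b, b ∂β) * t ^ 2 / 2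
        < l) :
    (∫⁻ x, ENNReal.ofReal (exp (t * x)) ∂μ) * ∫⁻ b, ENNReal.ofReal (exp (-(l * b))) ∂β ≤ 1 := by
  have := h.indep.isProbabilityMeasure
  have hfin := h.sum_ne_top hl
  obtain ⟨C, hC⟩ := h.coupling (|c0| + 1) (1 / 2) (by norm_num)
  set c' := |t| * C + |l| * (|c0| + 1) with hc'
  set R := ∑' k : ℕ, ∫⁻ ω, ENNReal.ofReal
      (exp (t * X k ω + (t * (∫ x, x ∂μ) / (∫ b, b ∂β) - l) * k)) ∂P with hR
  have key : ∀ n : ℕ, 1 ≤ n → ((∫⁻ x, ENNReal.ofReal (exp (t * x)) ∂μ) *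
      ∫⁻ b, ENNReal.ofReal (exp (-(l * b))) ∂β) ^ n ≤ 2 * ENNReal.ofReal (exp c') * R := by
    intro n hn
    rw [← h.lintegral_exp]
    let E : ℕ → Set Ω := fun k =>
      {ω | c0 ≤ k ∧ k - (|c0| + 1) ≤ psum B n ω ∧ psum B n ω ≤ k - c0}
    let Y : Ω → ℝ × ℝ := fun ω => (psum B n ω, psum ξ n ω)
    have mY : ∀ m : MeasurableSpace Ω, (∀ i < n, Measurable[m] (B i) ∧ Measurable[m] (ξ i)) →
        Measurable[m] Y := fun m hm =>
      (measurable_psum fun i hi => (hm i hi).1).prodMk (measurable_psum fun i hi => (hm i hi).2)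
    have mE : ∀ (m : MeasurableSpace Ω), (∀ i < n, Measurable[m] (B i)) → ∀ k,
        MeasurableSet[m] (E k) := fun m hm k =>
      (MeasurableSet.const _).inter (measurable_psum hm measurableSet_Icc)
    have mY0 : Measurable Y := mY _ fun i _ => ⟨h.mB i, h.mξ i⟩
    have mE0 : ∀ k, MeasurableSet (E k) := mE _ fun i _ => h.mB i
    let W : ℝ × ℝ → ℝ≥0∞ := fun p => ENNReal.ofReal (exp (t * p.2 - l * p.1))
    have mW : Measurable W := by fun_prop
    have cover : ∀ᵐ ω ∂P, ω ∈ ⋃ k, E k := by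
      filter_upwards [h.walk.ae_nonneg] with ω hω
      have t0 : 0 ≤ psum B n ω := Finset.sum_nonneg fun i _ => hω i
      have a1 := Nat.le_ceil (psum B n ω + |c0|)
      have a2 := Nat.ceil_lt_add_one (show 0 ≤ psum B n ω + |c0| by positivity)
      have a3 := le_abs_self c0
      exact mem_iUnion.2 ⟨⌈psum B n ω + |c0|⌉₊, by linarith, by linarith, by linarith⟩
    have step : ∀ k : ℕ, ∫⁻ ω in E k, W (Y ω) ∂P ≤ 2 * ENNReal.ofReal (exp c') *
        ∫⁻ ω, ENNReal.ofReal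
          (exp (t * X k ω + (t * (∫ x, x ∂μ) / (∫ b, b ∂β) - l) * k)) ∂P := by
      intro k
      set Bd := {ω | C < |X k ω - psum ξ n ω + (∫ x, x ∂μ) * k / (∫ b, b ∂β)|} with hBd
      have mBd : MeasurableSet Bd := by
        have h1 : Measurable (psum ξ n) := measurable_psum fun i _ => h.mξ i
        have h2 := h.mX k
        exact measurableSet_lt measurable_const (by fun_prop)
      have hle : (P.restrict (E k)).map Y ≤ (2 : ℝ≥0∞) • (P.restrict (E k \ Bd)).map Y := by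
        refine Measure.le_iff.2 fun s hs => ?_
        rw [Measure.smul_apply, Measure.map_apply mY0 hs, Measure.map_apply mY0 hs,
          Measure.restrict_apply (mY0 hs), Measure.restrict_apply (mY0 hs), smul_eq_mul,
          ← inter_sdiff_assoc]
        set D := Y ⁻¹' s ∩ E k with hD
        rcases D.eq_empty_or_nonempty with h0 | ⟨ω0, h0⟩
        · simp [h0]
        have h1 := hC n k hn h0.2.1 D
          ((mY _ (h.adapted n) hs).inter (mE _ (fun i hi => (h.adapted n i hi).1) k))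
          fun ω hω => hω.2.2
        have h2 : P D ≤ P (D ∩ Bd) + P (D \ Bd) := measure_le_inter_add_sdiff _ _ _
        have h3 : 2 * P (D ∩ Bd) ≤ P D := by
          refine (mul_le_mul_right h1 2).trans_eq ?_
          rw [← mul_assoc, ← ENNReal.ofReal_ofNat 2, ← ENNReal.ofReal_mul (by norm_num)]
          norm_num
        have h4 : P D + P D ≤ P D + 2 * P (D \ Bd) := by
          calc P D + P D = 2 * P D := (two_mul _).symm
            _ ≤ 2 * (P (D ∩ Bd) + P (D \ Bd)) := by gcongr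
            _ ≤ _ := by rw [mul_add]; gcongr
        exact (ENNReal.add_le_add_iff_left (measure_ne_top _ _)).1 h4
      have h5 := lintegral_mono' hle (le_refl W)
      rw [lintegral_smul_measure, lintegral_map mW mY0, lintegral_map mW mY0, smul_eq_mul] at h5
      refine h5.trans ?_
      rw [mul_assoc, ← lintegral_const_mul' _ _ ENNReal.ofReal_ne_top]
      gcongr 2 * ?_
      refine (setLIntegral_mono' ((mE0 k).diff mBd) fun ω hω => ?_).trans
        (setLIntegral_le_lintegral _ _)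
      rw [← ENNReal.ofReal_mul (exp_pos _).le, ← exp_add]
      refine ENNReal.ofReal_le_ofReal (exp_le_exp.2 ?_)
      obtain ⟨⟨-, e1, e2⟩, e3⟩ := hω
      have e4 : |X k ω - psum ξ n ω + (∫ x, x ∂μ) * k / (∫ b, b ∂β)| ≤ C := not_lt.1 e3
      have e5 : |psum B n ω - k| ≤ |c0| + 1 :=
        abs_le.2 ⟨by linarith, by linarith [neg_abs_le c0]⟩
      have e6 := (neg_le_abs _).trans ((abs_mul t _).trans_le
        (mul_le_mul_of_nonneg_left e4 (abs_nonneg t)))
      have e7 := (neg_le_abs _).trans ((abs_mul l _).trans_le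
        (mul_le_mul_of_nonneg_left e5 (abs_nonneg l)))
      simp only [Y, hc']
      have e8 : (t * (∫ x, x ∂μ) / (∫ b, b ∂β) - l) * k
          = t * ((∫ x, x ∂μ) * k / (∫ b, b ∂β)) - l * k := by ring
      rw [e8]
      linarith
    calc _ = ∫⁻ ω in ⋃ k, E k, W (Y ω) ∂P := by rw [Measure.restrict_eq_self_of_ae_mem cover]
      _ ≤ ∑' k, ∫⁻ ω in E k, W (Y ω) ∂P := lintegral_iUnion_le _ _
      _ ≤ _ := by
          rw [hR, ← ENNReal.tsum_mul_left]
          exact ENNReal.tsum_le_tsum step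
  by_contra hlt
  have t1 := ENNReal.tendsto_pow_atTop_nhds_top_iff.2 (not_le.1 hlt)
  have hK : 2 * ENNReal.ofReal (exp c') * R < ∞ :=
    ENNReal.mul_lt_top (ENNReal.mul_lt_top (by simp) ENNReal.ofReal_lt_top) hfin.lt_top
  obtain ⟨n, h1, h2⟩ := ((t1.eventually (lt_mem_nhds hK)).and (eventually_ge_atTop 1)).exists
  exact absurd (key n h2) (not_le.2 h1)

end Setup

end GaussAux

open GaussAux in
/-- Steps (8), (9), (10): Gaussian variables coupled to the renewal-reward walk force the weights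
to vanish. -/
theorem dirac_of_coupling {Ω : Type*} [MeasurableSpace Ω] {P : Measure Ω} {κ ν : ℝ}
    (hκ : 0 < κ) (hν0 : ν ≠ 0) (hν : |ν| < 1 / 2) {β μ : Measure ℝ}
    [IsProbabilityMeasure β] [IsProbabilityMeasure μ] {B ξ X : ℕ → Ω → ℝ}
    (hB : ∀ i, Measurable (B i)) (hξ : ∀ i, Measurable (ξ i))
    (hind : iIndepFun (fun i ω => (B i ω, ξ i ω)) P)
    (hlaw : ∀ i, P.map (fun ω => (B i ω, ξ i ω)) = β.prod μ)
    (hpos : ∀ᵐ b ∂β, 0 ≤ b)
    (hβ : ∀ᶠ l in 𝓝 (0 : ℝ), ∫⁻ b, ENNReal.ofReal (exp (-(l * b))) ∂β =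
      ENNReal.ofReal (cos (π * ν) / cos (π * √(ν ^ 2 - 8 * l / κ))))
    (hμ : MemLp id 2 μ) (hX : ∀ k, HasGaussianLaw (X k) P)
    (G : ℕ → MeasurableSpace Ω)
    (hG : ∀ n, ∀ i < n, Measurable[G n] (B i) ∧ Measurable[G n] (ξ i)) (c0 : ℝ)
    (hc : ∀ A η : ℝ, 0 < η → ∃ C : ℝ, ∀ n k : ℕ, 1 ≤ n → c0 ≤ k → ∀ D : Set Ω,
      MeasurableSet[G n] D → (∀ ω ∈ D, k - A ≤ psum B n ω ∧ psum B n ω ≤ k - c0) →
        P (D ∩ {ω | C < |X k ω - psum ξ n ω + (∫ x, x ∂μ) * k / (∫ b, b ∂β)|}) ≤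
          ENNReal.ofReal η * P D) :
    μ = Measure.dirac 0 := by
  obtain ⟨h1, -, h2, -⟩ := ssw_moments hκ hν0 hν β hβ
  have hS : Setup P β μ B ξ (fun k => (hX k).aemeasurable.mk _) G c0 :=
    { mB := hB
      mξ := hξ
      mX := fun k => (hX k).aemeasurable.measurable_mk
      indep := hind
      law := hlaw
      nonneg := hpos
      expm := h1
      mean := h2
      mom := hμ
      gauss := fun k => (hX k).congr (hX k).aemeasurable.ae_eq_mk
      adapted := hG
      coupling := fun A η hη => by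
        obtain ⟨C, hC⟩ := hc A η hη
        refine ⟨C, fun n k hn hk D hD hD' => le_trans (measure_mono_ae ?_) (hC n k hn hk D hD hD')⟩
        filter_upwards [(hX k).aemeasurable.ae_eq_mk] with ω hω hm
        refine ⟨hm.1, ?_⟩
        have := hm.2
        simp only [mem_ofPred_eq] at this ⊢
        rwa [hω] }
  exact endgame hκ hν0 hν β μ hβ (Eventually.of_forall fun p hp => hS.mgf_bound hp)

end Pool.Agent.MP_ac6554_pr

end
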