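import Pool.Agent.MP_ac6554_pr.Defs

section

set_option autoImplicit false

open MeasureTheory ProbabilityTheory TopologicalSpace Metric Set Filter Topology
open scoped NNReal ENNReal

namespace Pool.Agent.MP_ac6554_pr

/-- Univalent on the unit disc. -/
def Univ (j : ℂ → ℂ) : Prop := DifferentiableOn ℂ j (ball 0 1) ∧ InjOn j (ball 0 1)

theorem Conf.univ {f : ℂ → ℂ} {U : Set ℂ} (h : Conf f U) : Univ f := ⟨h.1, h.2.injOn⟩

/-- Labelled ensembles. -/
abbrev Ens := ℕ → Opens ℂ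

/-- Nonempty regions in the disc, locally finite. -/
def Good (v : Ens) : Prop :=
  (∀ k, (v k : Set ℂ).Nonempty ∧ (v k : Set ℂ) ⊆ ball 0 1) ∧
    ∀ (z : ℂ) (r : ℝ), 0 < r → {k | ball z r ⊆ v k}.Finite

/-- Number of loops surrounding a disc. -/
noncomputable def cnt (F : ℂ → ℂ) (v : Ens) (z : ℂ) (ε : ℝ) : ℝ≥0∞ :=
  ∑' k, {k | ball z ε ⊆ F '' (ball 0 1 ∩ v k)}.indicator 1 k

/-- Total absolute weight of the loops surrounding `B(z,a)` but not `B(z,b)`. -/
noncomputable def err (F : ℂ → ℂ) (v : Ens) (ξ : ℕ → ℝ) (z : ℂ) (a b : ℝ) : ℝ≥0∞ :=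
  ∑' k, {k | ball z a ⊆ F '' (ball 0 1 ∩ v k) ∧ ¬ ball z b ⊆ F '' (ball 0 1 ∩ v k)}.indicator
    (fun k => ‖ξ k‖ₑ) k

/-- Loops and weights. -/
noncomputable abbrev PP {Ω : Type} [MeasurableSpace Ω] (P : Measure Ω) (μ : Measure ℝ) :
    Measure (Ω × (ℕ → ℝ)) := P.prod (Measure.infinitePi fun _ : ℕ => μ)

/-- Minus the logarithm of the conformal radius of the `n`-th domain. -/
noncomputable def Tt {Ω : Type} (f : ℕ → Ω → ℂ → ℂ) (n : ℕ) (ω : Ω) : ℝ :=
  -Real.log ‖deriv (f n ω) 0‖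

/-- Its increments. -/
noncomputable def Bb {Ω : Type} (f : ℕ → Ω → ℂ → ℂ) : ℕ → Ω → ℝ
  | 0 => Tt f 0
  | n + 1 => fun ω => Tt f (n + 1) ω - Tt f n ω

theorem sum_Bb {Ω : Type} (f : ℕ → Ω → ℂ → ℂ) (n : ℕ) (ω : Ω) :
    ∑ j ∈ Finset.range (n + 1), Bb f j ω = Tt f n ω := by
  induction n with
  | zero => simp [Bb]
  | succ n ih => rw [Finset.sum_range_succ, ih]; simp [Bb]

/-- The sigma-algebra generated by the first `n + 1` conformal maps. -/
@[reducible] noncomputable def mY {Ω : Type} (f : ℕ → Ω → ℂ → ℂ) (n : ℕ) : MeasurableSpace Ω :=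
  MeasurableSpace.comap (fun ω (m : Iic n) => f m ω) inferInstance

/-- The Laplace transform of Schramm, Sheffield and Wilson, near the origin. -/
def SSW (κ : ℝ) (β : Measure ℝ) : Prop :=
  ∀ᶠ l in 𝓝 (0 : ℝ), ∫⁻ b, ENNReal.ofReal (Real.exp (-(l * b))) ∂β =
    ENNReal.ofReal (Real.cos (Real.pi * (1 - 4 / κ)) /
      Real.cos (Real.pi * √((1 - 4 / κ) ^ 2 - 8 * l / κ)))

/-- The working form of `IsCLE`: sure statements, canonical labels. -/
structure Sk (κ : ℝ) {Ω : Type} [MeasurableSpace Ω] (P : Measure Ω) (V : ℕ → Ω → Opens ℂ)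
    (i : ℕ → Ω → ℕ) (f : ℕ → Ω → ℂ → ℂ) (e : ℕ → ℕ → Ω → ℕ) : Prop where
  meas : ∀ k, Measurable (V k)
  imeas : ∀ n, Measurable (i n)
  fmeas : ∀ n z, Measurable fun ω => f n ω z
  emeas : ∀ n k, Measurable (e n k)
  good : ∀ ω, Good fun k => V k ω
  nested : ∀ ω j k, j ≠ k → Disjoint (V j ω : Set ℂ) (V k ω) ∨
    (∃ z, (V j ω : Set ℂ) ⊆ connectedComponentIn (V k ω : Set ℂ) z) ∨
    (∃ z, (V k ω : Set ℂ) ⊆ connectedComponentIn (V j ω : Set ℂ) z)
  moebius : ∀ w ∈ ball (0 : ℂ) 1, ∃ φ : ℂ → ℂ, Conf φ (ball 0 1) ∧ φ 0 = w ∧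
    IdentDistrib (fun ω => Quotient.mk relabel fun k => pull φ (V k ω))
      (fun ω => Quotient.mk relabel fun k => V k ω) P P
  iinj : ∀ ω, Function.Injective fun n => i n ω
  irange : ∀ ω, range (fun n => i n ω) = {k | (0 : ℂ) ∈ V k ω}
  isub : ∀ ω n, V (i (n + 1) ω) ω ≤ comp0 (V (i n ω) ω)
  f0 : ∀ ω n, f n ω 0 = 0
  fconf : ∀ ω n, Conf (f n ω) (comp0 (V (i n ω) ω))
  einj : ∀ ω n, Function.Injective fun k => e n k ω
  erange : ∀ ω n, range (fun k => e n k ω) =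
    {k | V k ω ≤ comp0 (V (i n ω) ω) ∧ ∀ m ≤ n, k ≠ i m ω}
  indep : ∀ n, IndepFun (fun ω (m : Iic n) => f m ω)
    (fun ω k => pull (f n ω) (V (e n k ω) ω)) P
  law : ∀ n, IdentDistrib (fun ω k => pull (f n ω) (V (e n k ω) ω)) (fun ω k => V k ω) P P
  sle : ∃ (Ω' : Type) (m : MeasurableSpace Ω') (Q : Measure Ω') (𝓕 : Filtration ℝ≥0 m)
    (θ : ℝ → Ω' → ℝ) (W : ℝ → Ω' → ℂ), IsSLE κ Q 𝓕 θ W ∧
    IdentDistrib (fun ω => comp0 (V (i 0 ω) ω))
      (fun ω => loewner (fun t => W t ω) (hit fun t => θ t ω)) P Q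

theorem coe_comp0 (U : Opens ℂ) : (comp0 U : Set ℂ) = connectedComponentIn (U : Set ℂ) 0 :=
  U.isOpen.connectedComponentIn.interior_eq

theorem comp0_le (U : Opens ℂ) : (comp0 U : Set ℂ) ⊆ U := by
  rw [coe_comp0]; exact connectedComponentIn_subset _ _

theorem coe_pull {f : ℂ → ℂ} (hf : ContinuousOn f (ball 0 1)) (U : Opens ℂ) :
    (pull f U : Set ℂ) = ball 0 1 ∩ f ⁻¹' U :=
  (hf.isOpen_inter_preimage isOpen_ball U.isOpen).interior_eq

end Pool.Agent.MP_ac6554_pr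

end

section

set_option autoImplicit false

open MeasureTheory ProbabilityTheory TopologicalSpace Metric Set Filter Topology
open scoped NNReal ENNReal

namespace Pool.Agent.MP_ac6554_pr

namespace KoebeAux

lemma not_const {U : Set ℂ} (hU : IsOpen U) {f : ℂ → ℂ} (hi : InjOn f U)
    {z₀ : ℂ} (hz₀ : z₀ ∈ U) : ¬ ∀ᶠ z in 𝓝 z₀, f z = f z₀ := by
  intro h
  have h1 : ∀ᶠ z in 𝓝[≠] z₀, z = z₀ := by
    apply Eventually.filter_mono nhdsWithin_le_nhds
    filter_upwards [h, hU.mem_nhds hz₀] with z hz hzU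
    exact hi hzU hz₀ hz
  obtain ⟨z, hz1, hz2⟩ := (h1.and self_mem_nhdsWithin).exists
  exact hz2 hz1

lemma nhds_le_map {U : Set ℂ} (hU : IsOpen U) {f : ℂ → ℂ} (hf : DifferentiableOn ℂ f U)
    (hi : InjOn f U) {z₀ : ℂ} (hz₀ : z₀ ∈ U) : 𝓝 (f z₀) ≤ map f (𝓝 z₀) :=
  ((hf.analyticAt (hU.mem_nhds hz₀)).eventually_constant_or_nhds_le_map_nhds).resolve_left
    (not_const hU hi hz₀)

lemma isOpen_image {U : Set ℂ} (hU : IsOpen U) {f : ℂ → ℂ} (hf : DifferentiableOn ℂ f U)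
    (hi : InjOn f U) : IsOpen (f '' U) := by
  rw [isOpen_iff_mem_nhds]
  rintro _ ⟨z, hz, rfl⟩
  exact nhds_le_map hU hf hi hz (image_mem_map (hU.mem_nhds hz))

lemma inv_diff {U : Set ℂ} (hU : IsOpen U) {f : ℂ → ℂ} (hf : DifferentiableOn ℂ f U)
    (hi : InjOn f U) : DifferentiableOn ℂ (Function.invFunOn f U) (f '' U) := by
  set g := Function.invFunOn f U with hg
  have hgf : ∀ z ∈ U, g (f z) = z := fun z hz => hi.leftInvOn_invFunOn hz
  have hV := isOpen_image hU hf hi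
  have hcont : ∀ z ∈ U, ContinuousAt g (f z) := by
    intro z hz
    rw [ContinuousAt, hgf z hz]
    refine Tendsto.mono_left ?_ (nhds_le_map hU hf hi hz)
    rw [tendsto_map'_iff]
    apply tendsto_id.congr'
    filter_upwards [hU.mem_nhds hz] with w hw
    exact (hgf w hw).symm
  have hfg : ∀ w ∈ f '' U, f (g w) = w := by
    rintro _ ⟨z, hz, rfl⟩; rw [hgf z hz]
  rintro _ ⟨z, hz, rfl⟩
  apply DifferentiableAt.differentiableWithinAt
  apply AnalyticAt.differentiableAt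
  apply Complex.analyticAt_of_differentiable_on_punctured_nhds_of_continuousAt _ (hcont z hz)
  have han : AnalyticAt ℂ (deriv f) z := (hf.analyticAt (hU.mem_nhds hz)).deriv
  have hne : ∀ᶠ u in 𝓝[≠] z, deriv f u ≠ 0 := by
    refine han.eventually_eq_zero_or_eventually_ne_zero.resolve_left fun h => ?_
    apply not_const hU hi hz
    obtain ⟨r, hr, hsub⟩ := Metric.nhds_basis_ball.mem_iff.1 (inter_mem h (hU.mem_nhds hz))
    filter_upwards [ball_mem_nhds z hr] with u hu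
    exact isOpen_ball.is_const_of_deriv_eq_zero (convex_ball z r).isPreconnected
      (hf.mono fun v hv => (hsub hv).2) (fun v hv => (hsub hv).1) hu (mem_ball_self hr)
  rw [eventually_nhdsWithin_iff] at hne ⊢
  have ht : Tendsto g (𝓝 (f z)) (𝓝 z) := by simpa [ContinuousAt, hgf z hz] using hcont z hz
  filter_upwards [ht.eventually hne, hV.mem_nhds (mem_image_of_mem f hz)] with w hw hwV hwne
  obtain ⟨u, hu, rfl⟩ := hwV
  have hu' : u ≠ z := fun h => hwne (by simp [h])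
  rw [hgf u hu] at hw
  refine (HasDerivAt.of_local_left_inverse (f := f) (f' := deriv f u) (hcont u hu) ?_ (hw hu')
    ?_).differentiableAt
  · rw [hgf u hu]
    exact (hf.differentiableAt (hU.mem_nhds hu)).hasDerivAt
  · filter_upwards [hV.mem_nhds (mem_image_of_mem f hu)] with y hy using hfg y hy

lemma deriv_inv_mul {U : Set ℂ} (hU : IsOpen U) {f : ℂ → ℂ}
    (hf : DifferentiableOn ℂ f U) (hi : InjOn f U) {z : ℂ} (hz : z ∈ U) :
    deriv (Function.invFunOn f U) (f z) * deriv f z = 1 := by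
  have hg := inv_diff hU hf hi
  have hV := isOpen_image hU hf hi
  have h1 := (hg.differentiableAt (hV.mem_nhds (mem_image_of_mem f hz))).hasDerivAt.comp z
    (hf.differentiableAt (hU.mem_nhds hz)).hasDerivAt
  have h2 : HasDerivAt (Function.invFunOn f U ∘ f) 1 z := by
    apply (hasDerivAt_id z).congr_of_eventuallyEq
    filter_upwards [hU.mem_nhds hz] with w hw using hi.leftInvOn_invFunOn hw
  exact h1.unique h2

/-- The Bloch-Landau theorem with a crude constant. -/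
lemma bloch {L : ℂ → ℂ} {z : ℂ} {R : ℝ} (hR : 0 < R) (hd : DifferentiableOn ℂ L (ball z R)) :
    ∃ b, ball b (R * ‖deriv L z‖ / 96) ⊆ L '' ball z R := by
  by_cases h0 : deriv L z = 0
  · exact ⟨0, by simp [h0]⟩
  have hd' : DifferentiableOn ℂ (deriv L) (ball z R) := hd.deriv isOpen_ball
  have hsub : closedBall z (R / 2) ⊆ ball z R := closedBall_subset_ball (by linarith)
  have hc : ContinuousOn (fun x => (R / 2 - ‖x - z‖) * ‖deriv L x‖) (closedBall z (R / 2)) :=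
    ContinuousOn.mul (by fun_prop) (hd'.continuousOn.mono hsub).norm
  obtain ⟨a, ha, hmax⟩ := (isCompact_closedBall z (R / 2)).exists_isMaxOn
    ⟨z, mem_closedBall_self (by linarith)⟩ hc
  set d := R / 2 - ‖a - z‖ with hdd
  set M := ‖deriv L a‖ with hM
  have hz : R / 2 * ‖deriv L z‖ ≤ d * M := by
    have := hmax (mem_closedBall_self (by linarith : (0 : ℝ) ≤ R / 2))
    simpa using this
  have hp : 0 < ‖deriv L z‖ := norm_pos_iff.2 h0
  have hdM : 0 < d * M := lt_of_lt_of_le (by positivity) hz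
  have hd0 : 0 ≤ d := by
    have := mem_closedBall_iff_norm.1 ha
    linarith
  have hM0 : 0 ≤ M := norm_nonneg _
  have hdp : 0 < d := lt_of_le_of_ne hd0 fun h => by simp [← h] at hdM
  have hMp : 0 < M := lt_of_le_of_ne hM0 fun h => by simp [← h] at hdM
  have hin : ∀ x ∈ ball a (d / 2), ‖x - z‖ < ‖a - z‖ + d / 2 := by
    intro x hx
    have h1 := mem_ball_iff_norm.1 hx
    have h2 : ‖x - z‖ ≤ ‖x - a‖ + ‖a - z‖ := norm_sub_le_norm_sub_add_norm_sub x a z
    linarith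
  have hb : ball a (d / 2) ⊆ closedBall z (R / 2) := fun x hx => by
    have := hin x hx
    rw [mem_closedBall_iff_norm]; linarith
  have hbd : ∀ x ∈ ball a (d / 2), ‖deriv L x‖ ≤ 2 * M := by
    intro x hx
    have h1 := hin x hx
    have h2 : (R / 2 - ‖x - z‖) * ‖deriv L x‖ ≤ d * M := hmax (hb hx)
    have h3 : d / 2 * ‖deriv L x‖ ≤ (R / 2 - ‖x - z‖) * ‖deriv L x‖ :=
      mul_le_mul_of_nonneg_right (by linarith) (norm_nonneg _)
    have h4 : d / 2 * ‖deriv L x‖ ≤ d / 2 * (2 * M) := by linarith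
    exact le_of_mul_le_mul_left h4 (by linarith)
  have hmaps : MapsTo (deriv L) (ball a (d / 2)) (closedBall (deriv L a) (3 * M)) := by
    intro x hx
    rw [mem_closedBall_iff_norm]
    have := norm_sub_le (deriv L x) (deriv L a)
    have := hbd x hx
    linarith
  have hs : closedBall a (d / 12) ⊆ ball a (d / 2) := closedBall_subset_ball (by linarith)
  have hsR : closedBall a (d / 12) ⊆ ball z R := hs.trans (hb.trans hsub)
  have hnear : ∀ x ∈ closedBall a (d / 12), ‖deriv L x - deriv L a‖ ≤ M / 2 := by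
    intro x hx
    have h1 := Complex.dist_le_div_mul_dist_of_mapsTo_ball (hd'.mono (hb.trans hsub)) hmaps (hs hx)
    rw [dist_eq_norm] at h1
    have h2 : dist x a ≤ d / 12 := hx
    calc _ ≤ _ := h1
      _ ≤ 3 * M / (d / 2) * (d / 12) := mul_le_mul_of_nonneg_left h2 (by positivity)
      _ = M / 2 := by field_simp; ring
  have hlow : ∀ x ∈ closedBall a (d / 12), M / 2 * ‖x - a‖ ≤ ‖L x - L a‖ := by
    intro x hx
    have h1 : ‖(L x - deriv L a * x) - (L a - deriv L a * a)‖ ≤ M / 2 * ‖x - a‖ := by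
      refine (convex_closedBall a (d / 12)).norm_image_sub_le_of_norm_hasDerivWithin_le
        (f := fun x => L x - deriv L a * x) (f' := fun x => deriv L x - deriv L a) ?_ hnear
        (mem_closedBall_self (by linarith)) hx
      intro y hy
      have h2 := (hd.differentiableAt (isOpen_ball.mem_nhds (hsR hy))).hasDerivAt
      have h3 := (hasDerivAt_id y).const_mul (deriv L a)
      simpa using (h2.fun_sub h3).hasDerivWithinAt
    have h2 : deriv L a * (x - a) =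
        (L x - L a) - ((L x - deriv L a * x) - (L a - deriv L a * a)) := by ring
    have h3 : M * ‖x - a‖ = ‖deriv L a * (x - a)‖ := by rw [norm_mul]
    have h4 := norm_sub_le (L x - L a) ((L x - deriv L a * x) - (L a - deriv L a * a))
    rw [← h2, ← h3] at h4
    linarith
  have hdc : DiffContOnCl ℂ L (ball a (d / 12)) := by
    apply DifferentiableOn.diffContOnCl
    rw [closure_ball a (by positivity)]
    exact hd.mono hsR
  have hfin := hdc.ball_subset_image_closedBall (ε := M / 2 * (d / 12)) (by positivity)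
    (fun x hx => by
      have h1 := hlow x (sphere_subset_closedBall hx)
      rwa [mem_sphere_iff_norm.1 hx] at h1)
    (by
      apply Eventually.frequently (f := 𝓝[≠] a) ?_ |>.filter_mono nhdsWithin_le_nhds
      filter_upwards [self_mem_nhdsWithin,
        mem_nhdsWithin_of_mem_nhds (closedBall_mem_nhds a (by positivity : 0 < d / 12))] with x hx hx'
      intro e
      have h1 := hlow x hx'
      rw [e, sub_self, norm_zero] at h1
      have h2 : 0 < ‖x - a‖ := norm_pos_iff.2 (sub_ne_zero.2 hx)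
      nlinarith)
  refine ⟨L a, (ball_subset_ball ?_).trans (hfin.trans (image_mono hsR))⟩
  linarith

lemma omit_bound {j : ℂ → ℂ} {z w : ℂ} {R : ℝ} (hR : 0 < R)
    (hd : DifferentiableOn ℂ j (ball z R)) (hi : InjOn j (ball z R)) (hw : w ∉ j '' ball z R) :
    1 / 384 * R * ‖deriv j z‖ ≤ ‖j z - w‖ := by
  have hne : ∀ x ∈ ball z R, j x - w ≠ 0 := fun x hx h => hw ⟨x, hx, sub_eq_zero.1 h⟩
  have hq : DifferentiableOn ℂ (fun x => deriv j x / (j x - w)) (ball z R) :=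
    (hd.deriv isOpen_ball).div (hd.sub_const w) hne
  obtain ⟨L, hL0, hL⟩ := hq.isExactOn_ball.with_val_at z (Complex.log (j z - w))
  have hLd : DifferentiableOn ℂ L (ball z R) := fun x hx =>
    (hL x hx).differentiableAt.differentiableWithinAt
  have hexp : ∀ x ∈ ball z R, Complex.exp (L x) = j x - w := by
    have h1 : ∀ x ∈ ball z R, HasDerivAt (fun x => (j x - w) * Complex.exp (-L x)) 0 x := by
      intro x hx
      have h2 := ((hd.differentiableAt (isOpen_ball.mem_nhds hx)).hasDerivAt.sub_const w).fun_mul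
        (hL x hx).fun_neg.cexp
      refine h2.congr_deriv ?_
      have := hne x hx
      field_simp
      ring
    intro x hx
    have h2 := isOpen_ball.is_const_of_deriv_eq_zero (convex_ball z R).isPreconnected
      (fun x hx => (h1 x hx).differentiableAt.differentiableWithinAt)
      (fun x hx => (h1 x hx).deriv) hx (mem_ball_self hR)
    simp only [hL0, Complex.exp_neg, Complex.exp_log (hne z (mem_ball_self hR))] at h2
    rw [mul_inv_cancel₀ (hne z (mem_ball_self hR)),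
      mul_inv_eq_one₀ (Complex.exp_ne_zero _)] at h2
    exact h2.symm
  obtain ⟨b, hb⟩ := bloch hR hLd
  rw [(hL z (mem_ball_self hR)).deriv, norm_div] at hb
  have hp : 0 < ‖j z - w‖ := norm_pos_iff.2 (hne z (mem_ball_self hR))
  have hle : R * (‖deriv j z‖ / ‖j z - w‖) / 96 ≤ 4 := by
    by_contra hlt
    push Not at hlt
    have hpi : ‖(Real.pi : ℂ) * Complex.I‖ < 4 := by
      simpa [abs_of_pos Real.pi_pos] using Real.pi_lt_four
    obtain ⟨x, hx, ex⟩ := hb (show b + Real.pi * Complex.I ∈ _ by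
      rw [mem_ball_iff_norm, add_sub_cancel_left]; linarith)
    obtain ⟨y, hy, ey⟩ := hb (show b - Real.pi * Complex.I ∈ _ by
      rw [mem_ball_iff_norm, sub_sub_cancel_left, norm_neg]; linarith)
    have h1 : j x - w = j y - w := by
      rw [← hexp x hx, ← hexp y hy, ex, ey, Complex.exp_add, Complex.exp_sub, Complex.exp_pi_mul_I]
      ring
    have h2 : x = y := hi hx hy (sub_left_injective h1)
    rw [h2, ey] at ex
    have h3 : (Real.pi : ℂ) * Complex.I = 0 := by linear_combination (-1 / 2 : ℂ) * ex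
    simp [Real.pi_ne_zero] at h3
  rw [← mul_div_assoc, div_div, div_le_iff₀ (by positivity)] at hle
  linarith

end KoebeAux

theorem univ_deriv_ne_zero {j : ℂ → ℂ} {U : Set ℂ} (hU : IsOpen U) (hd : DifferentiableOn ℂ j U)
    (hi : InjOn j U) {z : ℂ} (hz : z ∈ U) : deriv j z ≠ 0 := by
  intro h
  simpa [h] using KoebeAux.deriv_inv_mul hU hd hi hz

theorem univ_isOpen_image {j : ℂ → ℂ} {U : Set ℂ} (hU : IsOpen U) (hd : DifferentiableOn ℂ j U)
    (hi : InjOn j U) {A : Set ℂ} (hA : IsOpen A) (hAU : A ⊆ U) : IsOpen (j '' A) :=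
  KoebeAux.isOpen_image hA (hd.mono hAU) (hi.mono hAU)

theorem univ_inv_diff {j : ℂ → ℂ} {U : Set ℂ} (hU : IsOpen U) (hd : DifferentiableOn ℂ j U)
    (hi : InjOn j U) : DifferentiableOn ℂ (Function.invFunOn j U) (j '' U) :=
  KoebeAux.inv_diff hU hd hi

theorem schwarz_cover {j : ℂ → ℂ} {z : ℂ} {R ρ : ℝ} (hR : 0 < R)
    (hd : DifferentiableOn ℂ j (ball z R)) (hi : InjOn j (ball z R))
    (h : ball (j z) ρ ⊆ j '' ball z R) : ρ ≤ R * ‖deriv j z‖ := by
  rcases le_or_gt ρ 0 with hρ | hρ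
  · exact hρ.trans (by positivity)
  have hz : z ∈ ball z R := mem_ball_self hR
  have hg := (KoebeAux.inv_diff isOpen_ball hd hi).mono h
  have h1 := Complex.norm_deriv_le_div_of_mapsTo_ball (R₂ := R) hg (by
    intro w hw
    obtain ⟨x, hx, rfl⟩ := h hw
    rw [hi.leftInvOn_invFunOn hz, hi.leftInvOn_invFunOn hx]
    exact ball_subset_closedBall hx) hρ
  have h2 := congrArg norm (KoebeAux.deriv_inv_mul isOpen_ball hd hi hz)
  rw [norm_mul, norm_one] at h2
  have h3 := mul_le_mul_of_nonneg_right h1 (norm_nonneg (deriv j z))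
  rw [h2, div_mul_eq_mul_div, le_div_iff₀ hρ, one_mul] at h3
  exact h3

theorem koebe : ∃ c : ℝ, 0 < c ∧ c ≤ 1 ∧ ∀ (j : ℂ → ℂ) (z : ℂ) (R : ℝ), 0 < R →
    DifferentiableOn ℂ j (ball z R) → InjOn j (ball z R) →
    ball (j z) (c * R * ‖deriv j z‖) ⊆ j '' ball z R := by
  refine ⟨1 / 384, by norm_num, by norm_num, fun j z R hR hd hi w hw => ?_⟩
  by_contra hn
  have h1 := KoebeAux.omit_bound hR hd hi hn
  rw [mem_ball_iff_norm, norm_sub_rev] at hw
  linarith

theorem distort : ∃ C : ℝ, 1 ≤ C ∧ ∀ (j : ℂ → ℂ) (z : ℂ) (R : ℝ), 0 < R →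
    DifferentiableOn ℂ j (ball z R) → InjOn j (ball z R) →
    ∀ ζ, ‖ζ - z‖ ≤ 3 / 4 * R → ‖deriv j ζ‖ ≤ C * ‖deriv j z‖ := by
  refine ⟨3072 * Real.exp 1152, ?_, fun j z R hR hd hi ζ hζ => ?_⟩
  · have := Real.add_one_le_exp 1152
    linarith
  have hp : 0 < ‖deriv j z‖ :=
    norm_pos_iff.2 (univ_deriv_ne_zero isOpen_ball hd hi (mem_ball_self hR))
  obtain ⟨w, hw, hwn⟩ : ∃ w ∈ ball (j z) (2 * R * ‖deriv j z‖), w ∉ j '' ball z R := by
    by_contra hn
    push Not at hn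
    have := schwarz_cover hR hd hi hn
    nlinarith [mul_pos hR hp]
  have hloc : ∀ x, ‖x - z‖ ≤ 3 / 4 * R → R * ‖deriv j x‖ ≤ 1536 * ‖j x - w‖ := by
    intro x hx
    have hs : ball x (R / 4) ⊆ ball z R := by
      apply ball_subset_ball'
      rw [dist_eq_norm]; linarith
    have := KoebeAux.omit_bound (by positivity) (hd.mono hs) (hi.mono hs)
      (fun h => hwn (image_mono hs h))
    linarith
  have hseg : ∀ t ∈ Icc (0 : ℝ) 1, ‖(z + t * (ζ - z)) - z‖ ≤ 3 / 4 * R := by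
    intro t ht
    rw [add_sub_cancel_left, norm_mul, Complex.norm_real, Real.norm_of_nonneg ht.1]
    nlinarith [norm_nonneg (ζ - z), ht.1, ht.2]
  have hder : ∀ t ∈ Icc (0 : ℝ) 1, HasDerivAt (fun s : ℝ => j (z + s * (ζ - z)) - w)
      (deriv j (z + t * (ζ - z)) * (ζ - z)) t := by
    intro t ht
    have hm : z + t * (ζ - z) ∈ ball z R := by
      rw [mem_ball_iff_norm]; linarith [hseg t ht]
    have h1 := (hd.differentiableAt (isOpen_ball.mem_nhds hm)).hasDerivAt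
    have h2 : HasDerivAt (fun s : ℂ => z + s * (ζ - z)) (ζ - z) t := by
      simpa using ((hasDerivAt_id (t : ℂ)).mul_const (ζ - z)).const_add z
    exact ((h1.comp (t : ℂ) h2).comp_ofReal).sub_const w
  have hg := norm_le_gronwallBound_of_norm_deriv_right_le (δ := 2 * R * ‖deriv j z‖) (K := 1152)
    (ε := 0) (a := 0) (b := 1) (f := fun s : ℝ => j (z + s * (ζ - z)) - w)
    (f' := fun t => deriv j (z + t * (ζ - z)) * (ζ - z))
    (fun t ht => (hder t ht).continuousAt.continuousWithinAt)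
    (fun t ht => (hder t (Ico_subset_Icc_self ht)).hasDerivWithinAt)
    (by
      rw [mem_ball_iff_norm, norm_sub_rev] at hw
      simpa using hw.le)
    (fun t ht => by
      have h1 := hloc _ (hseg t (Ico_subset_Icc_self ht))
      rw [norm_mul]
      have h2 := mul_le_mul_of_nonneg_left hζ (norm_nonneg (deriv j (z + t * (ζ - z))))
      linarith) 1 (right_mem_Icc.2 zero_le_one)
  rw [gronwallBound_ε0] at hg
  simp only [Complex.ofReal_one, one_mul, add_sub_cancel, sub_zero, mul_one] at hg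
  have h1 := hloc ζ hζ
  have h2 : R * ‖deriv j ζ‖ ≤ R * (3072 * Real.exp 1152 * ‖deriv j z‖) := by linarith
  exact le_of_mul_le_mul_left h2 hR

end Pool.Agent.MP_ac6554_pr

end

section

set_option autoImplicit false

open MeasureTheory ProbabilityTheory TopologicalSpace Metric Set Filter Topology
open scoped NNReal ENNReal

namespace Pool.Agent.MP_ac6554_pr

theorem measurableSet_supset {K : Set ℂ} (hK : IsCompact K) :
    MeasurableSet {U : Opens ℂ | K ⊆ U} :=
  MeasurableSpace.measurableSet_generateFrom ⟨K, hK, rfl⟩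

theorem measurable_opens_iff {Ω : Type} [MeasurableSpace Ω] {U : Ω → Opens ℂ} :
    Measurable U ↔ ∀ K : Set ℂ, IsCompact K → MeasurableSet {ω | K ⊆ U ω} := by
  refine ⟨fun h K hK => h (measurableSet_supset hK), fun h => measurable_generateFrom ?_⟩
  rintro _ ⟨K, hK, rfl⟩
  exact h K hK

namespace MeasAux

lemma measurableSet_closedBall {r : ℝ} (hr : 0 ≤ r) :
    MeasurableSet {q : Opens ℂ × ℂ | closedBall q.2 r ⊆ q.1} := by
  have h : {q : Opens ℂ × ℂ | closedBall q.2 r ⊆ q.1} = ⋃ n : ℕ, ⋃ ρ : ℚ,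
      {U : Opens ℂ | closedBall (denseSeq ℂ n) ρ ⊆ U} ×ˢ {z | dist z (denseSeq ℂ n) + r ≤ ρ} := by
    ext ⟨U, z⟩
    simp only [mem_ofPred_eq, mem_iUnion, mem_prod]
    constructor
    · intro h
      obtain ⟨δ, hδ, h1⟩ := (isCompact_closedBall z r).exists_cthickening_subset_open U.isOpen h
      rw [cthickening_closedBall hδ.le hr] at h1
      obtain ⟨n, hn⟩ := (denseRange_denseSeq ℂ).exists_dist_lt z (by positivity : 0 < δ / 3)
      obtain ⟨ρ, h2, h3⟩ := exists_rat_btwn (by linarith : r + δ / 3 < r + 2 * δ / 3)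
      refine ⟨n, ρ, Subset.trans (closedBall_subset_closedBall' ?_) h1, by linarith⟩
      rw [dist_comm]
      linarith
    · rintro ⟨n, ρ, h1, h2⟩
      exact Subset.trans (closedBall_subset_closedBall' (by linarith)) h1
  rw [h]
  refine MeasurableSet.iUnion fun n => MeasurableSet.iUnion fun ρ =>
    (measurableSet_supset (isCompact_closedBall _ _)).prod ?_
  exact (isClosed_le (by fun_prop) continuous_const).measurableSet

lemma measurableSet_ball (ε : ℝ) : MeasurableSet {q : Opens ℂ × ℂ | ball q.2 ε ⊆ q.1} := by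
  have h : {q : Opens ℂ × ℂ | ball q.2 ε ⊆ q.1} = ⋂ ρ : {ρ : ℚ // (0 : ℝ) ≤ ρ ∧ (ρ : ℝ) < ε},
      {q : Opens ℂ × ℂ | closedBall q.2 ρ.1 ⊆ q.1} := by
    ext ⟨U, z⟩
    simp only [mem_ofPred_eq, mem_iInter]
    constructor
    · intro h ρ
      exact (closedBall_subset_ball ρ.2.2).trans h
    · intro h w hw
      obtain ⟨ρ, h1, h2⟩ := exists_rat_btwn (mem_ball.1 hw)
      exact h ⟨ρ, dist_nonneg.trans h1.le, h2⟩ (mem_closedBall.2 h1.le)
  rw [h]
  exact MeasurableSet.iInter fun ρ => measurableSet_closedBall ρ.2.1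

/-- The image of an open set under a univalent map. -/
def push {F : ℂ → ℂ} (hF : Univ F) (U : Opens ℂ) : Opens ℂ :=
  ⟨F '' (ball 0 1 ∩ U), univ_isOpen_image isOpen_ball hF.1 hF.2 (isOpen_ball.inter U.isOpen)
    inter_subset_left⟩

lemma measurable_push {F : ℂ → ℂ} (hF : Univ F) : Measurable (push hF) := by
  refine measurable_opens_iff.2 fun K hK => ?_
  by_cases h : K ⊆ F '' ball 0 1
  · have hc : IsCompact (Function.invFunOn F (ball 0 1) '' K) :=
      hK.image_of_continuousOn ((univ_inv_diff isOpen_ball hF.1 hF.2).continuousOn.mono h)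
    convert measurableSet_supset hc using 1
    ext U
    change K ⊆ F '' (ball 0 1 ∩ U) ↔ Function.invFunOn F (ball 0 1) '' K ⊆ U
    constructor
    · rintro h1 _ ⟨x, hx, rfl⟩
      obtain ⟨w, hw, rfl⟩ := h1 hx
      rw [hF.2.leftInvOn_invFunOn hw.1]
      exact hw.2
    · intro h1 x hx
      obtain ⟨w, hw, rfl⟩ := h hx
      refine ⟨w, ⟨hw, ?_⟩, rfl⟩
      have := h1 ⟨_, hx, rfl⟩
      rwa [hF.2.leftInvOn_invFunOn hw] at this
  · convert MeasurableSet.empty using 1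
    refine eq_empty_of_forall_notMem fun U hU => h ?_
    exact Subset.trans hU (image_mono inter_subset_left)

lemma measurable_indicator {Ω : Type} [MeasurableSpace Ω] {g : Ω → ℂ → ℂ}
    (hc : ∀ ω, ContinuousOn (g ω) (ball 0 1))
    (hm : ∀ z ∈ ball (0 : ℂ) 1, Measurable fun ω => g ω z) :
    Measurable fun q : Ω × ℂ => (ball (0 : ℂ) 1).indicator (g q.1) q.2 := by
  classical
  have h1 : Measurable (Function.uncurry fun (z : ball (0 : ℂ) 1) (ω : Ω) => g ω z) :=
    measurable_uncurry_of_continuous_of_measurable (fun ω => (hc ω).domRestrict) fun z => hm z z.2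
  have hs : MeasurableSet {q : Ω × ℂ | q.2 ∈ ball (0 : ℂ) 1} :=
    measurable_snd isOpen_ball.measurableSet
  have h2 : Measurable fun q : {q : Ω × ℂ | q.2 ∈ ball (0 : ℂ) 1} => g q.1.1 q.1.2 :=
    h1.comp (f := fun q : {q : Ω × ℂ | q.2 ∈ ball (0 : ℂ) 1} =>
      ((⟨q.1.2, q.2⟩ : ball (0 : ℂ) 1), q.1.1))
      (((measurable_snd.comp measurable_subtype_coe).subtype_mk).prodMk
        (measurable_fst.comp measurable_subtype_coe))
  have h3 := Measurable.dite h2 (g := fun _ => (0 : ℂ)) measurable_const hs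
  convert h3 using 1
  funext q
  by_cases h : q.2 ∈ ball (0 : ℂ) 1
  · rw [indicator_of_mem h, dif_pos (show q ∈ {q : Ω × ℂ | q.2 ∈ ball (0 : ℂ) 1} from h)]
  · rw [indicator_of_notMem h, dif_neg (show q ∉ {q : Ω × ℂ | q.2 ∈ ball (0 : ℂ) 1} from h)]

lemma measurable_deriv_pt {Ω : Type} [MeasurableSpace Ω] {g : Ω → ℂ → ℂ}
    (hd : ∀ ω, DifferentiableOn ℂ (g ω) (ball 0 1))
    (hm : ∀ z ∈ ball (0 : ℂ) 1, Measurable fun ω => g ω z) {z : ℂ} (hz : z ∈ ball (0 : ℂ) 1) :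
    Measurable fun ω => deriv (g ω) z := by
  obtain ⟨δ, hδ, hb⟩ := Metric.isOpen_iff.1 isOpen_ball z hz
  obtain ⟨u, -, hu, hu0⟩ := exists_seq_strictAnti_tendsto' hδ
  have h1 : Tendsto (fun n => (u n : ℂ)) atTop (𝓝[≠] 0) := by
    refine tendsto_nhdsWithin_iff.2 ⟨?_, Eventually.of_forall fun n => ?_⟩
    · exact (Complex.continuous_ofReal.tendsto 0).comp hu0
    · simpa using (hu n).1.ne'
  refine measurable_of_tendsto_metrizable
    (f := fun n ω => (u n : ℂ)⁻¹ • (g ω (z + u n) - g ω z)) (fun n => ?_) ?_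
  · refine ((hm (z + u n) (hb ?_)).sub (hm z hz)).const_smul (u n : ℂ)⁻¹
    rw [mem_ball, dist_self_add_left, Complex.norm_real, Real.norm_of_nonneg (hu n).1.le]
    exact (hu n).2
  · refine tendsto_pi_nhds.2 fun ω => ?_
    exact (hasDerivAt_iff_tendsto_slope_zero.1
      ((hd ω).differentiableAt (isOpen_ball.mem_nhds hz)).hasDerivAt).comp h1

end MeasAux

theorem measurable_pull {Ω : Type} [MeasurableSpace Ω] {g : Ω → ℂ → ℂ}
    (hc : ∀ ω, ContinuousOn (g ω) (ball 0 1)) (hm : ∀ z ∈ ball (0 : ℂ) 1, Measurable fun ω => g ω z)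
    {U : Ω → Opens ℂ} (hU : Measurable U) : Measurable fun ω => pull (g ω) (U ω) := by
  refine measurable_opens_iff.2 fun K hK => ?_
  by_cases h : K ⊆ ball 0 1
  · obtain ⟨D, hDK, hDc, hD⟩ := hK.isSeparable.exists_countable_dense_subset
    have e : {ω | K ⊆ (pull (g ω) (U ω) : Set ℂ)} = ⋃ n : ℕ, ⋂ q ∈ D,
        {ω | closedBall (g ω q) (1 / ((n : ℝ) + 1)) ⊆ U ω} := by
      ext ω
      simp only [mem_ofPred_eq, mem_iUnion, mem_iInter, coe_pull (hc ω)]
      constructor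
      · intro h1
        have h2 : g ω '' K ⊆ U ω := by
          rintro _ ⟨x, hx, rfl⟩
          exact (h1 hx).2
        obtain ⟨δ, hδ, h3⟩ := (hK.image_of_continuousOn ((hc ω).mono h)).exists_cthickening_subset_open
          (U ω).isOpen h2
        obtain ⟨n, hn⟩ := exists_nat_one_div_lt hδ
        exact ⟨n, fun q hq => ((closedBall_subset_closedBall hn.le).trans
          (closedBall_subset_cthickening (mem_image_of_mem _ (hDK hq)) δ)).trans h3⟩
      · rintro ⟨n, hn⟩ x hx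
        refine ⟨h hx, ?_⟩
        have h1 : ContinuousAt (g ω) x := (hc ω).continuousAt (isOpen_ball.mem_nhds (h hx))
        have h2 : g ω ⁻¹' ball (g ω x) (1 / ((n : ℝ) + 1)) ∈ 𝓝 x :=
          h1 (ball_mem_nhds _ (by positivity))
        obtain ⟨q, hq1, hq2⟩ := mem_closure_iff_nhds.1 (hD hx) _ h2
        exact hn q hq2 (mem_closedBall'.2 (mem_ball.1 hq1).le)
    rw [e]
    refine MeasurableSet.iUnion fun n => MeasurableSet.biInter hDc fun q hq => ?_
    exact (hU.prodMk (hm q (h (hDK hq)))) (MeasAux.measurableSet_closedBall (by positivity))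
  · convert MeasurableSet.empty using 1
    refine eq_empty_of_forall_notMem fun ω hω => h ?_
    rw [mem_ofPred_eq, coe_pull (hc ω)] at hω
    exact hω.trans inter_subset_left

theorem measurableSet_surr {F : ℂ → ℂ} (hF : Univ F) (ε : ℝ) :
    MeasurableSet {q : Opens ℂ × ℂ | ball q.2 ε ⊆ F '' (ball 0 1 ∩ q.1)} :=
  (((MeasAux.measurable_push hF).comp measurable_fst).prodMk measurable_snd)
    (MeasAux.measurableSet_ball ε)

theorem measurable_nestSum {F : ℂ → ℂ} (hF : Univ F) (ε : ℝ) :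
    Measurable fun q : (Ens × (ℕ → ℝ)) × ℂ => nestSum F q.1.1 q.1.2 q.2 ε := by
  unfold nestSum
  refine Measurable.tsum fun k => ?_
  have h1 : Measurable fun q : (Ens × (ℕ → ℝ)) × ℂ => (q.1.1 k, q.2) := by fun_prop
  have h2 : Measurable fun q : (Ens × (ℕ → ℝ)) × ℂ => q.1.2 k := by fun_prop
  exact h2.indicator (h1 (measurableSet_surr hF ε))

theorem measurable_cnt {F : ℂ → ℂ} (hF : Univ F) (ε : ℝ) :
    Measurable fun q : Ens × ℂ => cnt F q.1 q.2 ε := by
  unfold cnt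
  refine Measurable.tsum fun k => ?_
  have h1 : Measurable fun q : Ens × ℂ => (q.1 k, q.2) := by fun_prop
  have h2 : Measurable fun _ : Ens × ℂ => (1 : ℝ≥0∞) := measurable_const
  exact h2.indicator (h1 (measurableSet_surr hF ε))

theorem measurable_err {F : ℂ → ℂ} (hF : Univ F) (a b : ℝ) :
    Measurable fun q : (Ens × (ℕ → ℝ)) × ℂ => err F q.1.1 q.1.2 q.2 a b := by
  unfold err
  refine Measurable.tsum fun k => ?_
  have h1 : Measurable fun q : (Ens × (ℕ → ℝ)) × ℂ => (q.1.1 k, q.2) := by fun_prop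
  have h2 : Measurable fun q : (Ens × (ℕ → ℝ)) × ℂ => ‖q.1.2 k‖ₑ := by fun_prop
  exact h2.indicator ((h1 (measurableSet_surr hF a)).inter (h1 (measurableSet_surr hF b)).compl)

theorem measurable_eval {Ω : Type} [MeasurableSpace Ω] {g : Ω → ℂ → ℂ}
    (hd : ∀ ω, DifferentiableOn ℂ (g ω) (ball 0 1))
    (hm : ∀ z ∈ ball (0 : ℂ) 1, Measurable fun ω => g ω z) :
    (Measurable fun q : Ω × ℂ => (ball (0 : ℂ) 1).indicator (g q.1) q.2) ∧
    (Measurable fun q : Ω × ℂ => (ball (0 : ℂ) 1).indicator (deriv (g q.1)) q.2) :=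
  ⟨MeasAux.measurable_indicator (fun ω => (hd ω).continuousOn) hm,
    MeasAux.measurable_indicator (g := fun ω => deriv (g ω))
      (fun ω => ((hd ω).deriv isOpen_ball).continuousOn)
      fun _ hz => MeasAux.measurable_deriv_pt hd hm hz⟩

theorem Good.finite_surr {v : Ens} (hv : Good v) {F : ℂ → ℂ} (hF : Univ F) {ε R : ℝ} (hε : 0 < ε)
    (hR : R < 1) :
    {k | ∃ ζ ∈ closedBall (0 : ℂ) R, ball (F ζ) ε ⊆ F '' (ball 0 1 ∩ v k)}.Finite := by
  refine (isCompact_closedBall (0 : ℂ) R).induction_on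
    (p := fun s => {k | ∃ ζ ∈ s, ball (F ζ) ε ⊆ F '' (ball 0 1 ∩ v k)}.Finite) (by simp)
    (fun s t hst ht => ht.subset fun k ⟨ζ, h1, h2⟩ => ⟨ζ, hst h1, h2⟩)
    (fun s t hs ht => (hs.union ht).subset fun k ⟨ζ, h1, h2⟩ =>
      h1.elim (fun h => Or.inl ⟨ζ, h, h2⟩) fun h => Or.inr ⟨ζ, h, h2⟩) fun x hx => ?_
  have hx1 : x ∈ ball (0 : ℂ) 1 := closedBall_subset_ball hR hx
  have h1 : ContinuousAt F x := hF.1.continuousOn.continuousAt (isOpen_ball.mem_nhds hx1)
  have h2 : ball (0 : ℂ) 1 ∩ F ⁻¹' ball (F x) (ε / 2) ∈ 𝓝 x :=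
    inter_mem (isOpen_ball.mem_nhds hx1) (h1 (ball_mem_nhds _ (by positivity)))
  obtain ⟨ρ, hρ, h3⟩ := Metric.mem_nhds_iff.1 h2
  refine ⟨ball x ρ, mem_nhdsWithin_of_mem_nhds (ball_mem_nhds _ hρ), (hv.2 x ρ hρ).subset ?_⟩
  rintro k ⟨ζ, hζ, hk⟩ w hw
  have h4 : F w ∈ ball (F ζ) ε := by
    have a := mem_ball.1 (h3 hw).2
    have b := mem_ball'.1 (h3 hζ).2
    have := dist_triangle (F w) (F x) (F ζ)
    rw [mem_ball]
    linarith
  obtain ⟨w', hw', e⟩ := hk h4
  rw [← hF.2 hw'.1 (h3 hw).1 e]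
  exact hw'.2

theorem Good.pull {v : Ens} (hv : Good v) {g : ℂ → ℂ} (hg : Univ g) {e : ℕ → ℕ}
    (he : Function.Injective e) (h : ∀ k, (v (e k) : Set ℂ) ⊆ g '' ball 0 1) :
    Good fun k => pull g (v (e k)) := by
  have hc := hg.1.continuousOn
  refine ⟨fun k => ?_, fun z r hr => ?_⟩
  · simp only [coe_pull hc]
    obtain ⟨x, hx⟩ := (hv.1 (e k)).1
    obtain ⟨w, hw, rfl⟩ := h k hx
    exact ⟨⟨w, hw, hx⟩, inter_subset_left⟩
  · simp only [coe_pull hc]
    by_cases hb : ball z r ⊆ ball (0 : ℂ) 1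
    · obtain ⟨ρ, hρ, h1⟩ := Metric.isOpen_iff.1
        (univ_isOpen_image isOpen_ball hg.1 hg.2 isOpen_ball hb) (g z)
        (mem_image_of_mem _ (mem_ball_self hr))
      refine ((hv.2 (g z) ρ hρ).preimage he.injOn).subset fun k hk x hx => ?_
      obtain ⟨w, hw, rfl⟩ := h1 hx
      exact (hk hw).2
    · convert finite_empty
      exact eq_empty_of_forall_notMem fun k hk => hb (Subset.trans hk inter_subset_left)

theorem image_pull {g : ℂ → ℂ} (hg : Univ g) {U : Opens ℂ} (h : (U : Set ℂ) ⊆ g '' ball 0 1) :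
    g '' (ball 0 1 ∩ pull g U) = U := by
  rw [coe_pull hg.1.continuousOn]
  apply Subset.antisymm
  · rintro _ ⟨w, hw, rfl⟩
    exact hw.2.2
  · intro x hx
    obtain ⟨w, hw, rfl⟩ := h hx
    exact ⟨w, ⟨hw, hw, hx⟩, rfl⟩

theorem relabel_mp {Ω : Type} [MeasurableSpace Ω] (P : Measure Ω) [IsProbabilityMeasure P]
    (μ : Measure ℝ) [IsProbabilityMeasure μ] {ι : Type} [Countable ι] (a : ι → Ω → ℕ)
    (ha : ∀ k, Measurable (a k)) (hinj : ∀ ω, Function.Injective fun k => a k ω) :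
    MeasurePreserving (fun p : Ω × (ℕ → ℝ) => (p.1, fun k => p.2 (a k p.1))) (PP P μ)
      (P.prod (Measure.infinitePi fun _ : ι => μ)) := by
  have h1 : Measurable fun p : (ℕ → ℝ) × ℕ => p.1 p.2 :=
    measurable_from_prod_countable_left fun n => measurable_pi_apply n
  refine (MeasurePreserving.id P).skew_product (g := fun ω (ξ : ℕ → ℝ) k => ξ (a k ω))
    (measurable_pi_lambda _ fun k => h1.comp (measurable_snd.prodMk ((ha k).comp measurable_fst)))
    (Eventually.of_forall fun ω => ?_)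
  exact Measure.map_infinitePi_infinitePi_of_inj (P := fun _ : ℕ => μ) (hinj ω)

end Pool.Agent.MP_ac6554_pr

end

section

set_option autoImplicit false

open MeasureTheory ProbabilityTheory TopologicalSpace Metric Set Filter Topology
open scoped NNReal ENNReal

namespace Pool.Agent.MP_ac6554_pr

namespace TightAux

theorem bdd {D : Opens ℂ} (T : Distribution D ℝ ⊤) (K : Compacts ℂ) (hK : (K : Set ℂ) ⊆ D)
    (M : ℕ → ℝ) : ∃ B : ℝ, ∀ φ : TestFunction D ℝ ⊤, Function.support φ ⊆ K →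
      (∀ m z, ‖iteratedFDeriv ℝ m φ z‖ ≤ M m) → |T φ| ≤ B := by
  let S : Set (ContDiffMapSupportedIn ℂ ℝ ⊤ K) := {f | ∀ m z, ‖iteratedFDeriv ℝ m f z‖ ≤ M m}
  have hS : Bornology.IsVonNBounded ℝ S := by
    rw [(ContDiffMapSupportedIn.withSeminorms ℝ ℂ ℝ ⊤ K).isVonNBounded_iff_seminorm_bounded]
    intro i
    refine ⟨|M i| + 1, by positivity, fun f hf => ?_⟩
    have : ContDiffMapSupportedIn.seminorm ℝ ℂ ℝ ⊤ K i f ≤ |M i| :=
      (ContDiffMapSupportedIn.seminorm_top_le_iff ℝ (abs_nonneg _) i f).2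
        fun x _ => (hf i x).trans (le_abs_self _)
    linarith
  let L : ContDiffMapSupportedIn ℂ ℝ ⊤ K →L[ℝ] ℝ :=
    (show TestFunction D ℝ ⊤ →L[ℝ] ℝ from T).comp (TestFunction.ofSupportedInCLM ℝ hK)
  obtain ⟨B, hB⟩ := (NormedSpace.isVonNBounded_iff' ℝ).1 (hS.image L)
  refine ⟨B, fun φ h1 h2 => ?_⟩
  exact hB _ ⟨ContDiffMapSupportedIn.of_support_subset φ.contDiff h1, h2, rfl⟩

theorem bounds {C : ℝ} (hC : ∀ (j : ℂ → ℂ) (z : ℂ) (R : ℝ), 0 < R →
    DifferentiableOn ℂ j (ball z R) → InjOn j (ball z R) →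
    ∀ ζ, ‖ζ - z‖ ≤ 3 / 4 * R → ‖deriv j ζ‖ ≤ C * ‖deriv j z‖) {g : ℂ → ℂ} (hg : Univ g) :
    (∀ w ∈ closedBall (0 : ℂ) (3 / 4), ‖deriv g w‖ ≤ C * ‖deriv g 0‖) ∧
      ∀ ζ ∈ ball (0 : ℂ) (1 / 4), ‖deriv g 0‖ ≤ C * ‖deriv g ζ‖ := by
  refine ⟨fun w hw => hC g 0 1 one_pos hg.1 hg.2 w (by simpa using hw), fun ζ hζ => ?_⟩
  have hz : ‖ζ‖ < 1 / 4 := by simpa using hζ
  have hs : ball ζ (3 / 4) ⊆ ball (0 : ℂ) 1 :=
    ball_subset_ball' (by rw [dist_zero_right]; linarith)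
  exact hC g ζ (3 / 4) (by norm_num) (hg.1.mono hs) (hg.2.mono hs) 0
    (by rw [zero_sub, norm_neg]; linarith)

theorem transfer {c : ℝ} (hc0 : 0 < c) (hc : ∀ (j : ℂ → ℂ) (z : ℂ) (R : ℝ), 0 < R →
    DifferentiableOn ℂ j (ball z R) → InjOn j (ball z R) →
    ball (j z) (c * R * ‖deriv j z‖) ⊆ j '' ball z R) {F j : ℂ → ℂ} (hF : Univ F) (hj : Univ j)
    {ζ : ℂ} (hζ : ζ ∈ ball (0 : ℂ) (1 / 4)) {l u ρ r₁ r₂ : ℝ} (hu0 : 0 < u)
    (hl : l ≤ ‖deriv j ζ‖) (hu : ∀ w ∈ closedBall (0 : ℂ) (3 / 4), ‖deriv F w‖ ≤ u)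
    (hρ : 0 < ρ) (hρ' : ρ ≤ 1 / 2) (h1 : u * ρ ≤ r₁) (h2 : r₂ ≤ c * ρ * l) {A : Set ℂ}
    (hA : A ⊆ ball (0 : ℂ) 1) (h : ball (F ζ) r₁ ⊆ F '' A) : ball (j ζ) r₂ ⊆ j '' A := by
  have hz : ‖ζ‖ < 1 / 4 := by simpa using hζ
  have hs : ball ζ ρ ⊆ closedBall (0 : ℂ) (3 / 4) :=
    (ball_subset_ball' (by rw [dist_zero_right]; linarith)).trans ball_subset_closedBall
  have hs1 : ball ζ ρ ⊆ ball (0 : ℂ) 1 := hs.trans (closedBall_subset_ball (by norm_num))
  have key : ball ζ ρ ⊆ A := by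
    intro w hw
    have hm : ‖F w - F ζ‖ ≤ u * ‖w - ζ‖ :=
      (convex_ball ζ ρ).norm_image_sub_le_of_norm_deriv_le
        (fun x hx => hF.1.differentiableAt (isOpen_ball.mem_nhds (hs1 hx)))
        (fun x hx => hu x (hs hx)) (mem_ball_self hρ) hw
    have hw' : ‖w - ζ‖ < ρ := by simpa [dist_eq_norm] using hw
    obtain ⟨w', hw1, hw2⟩ := h (show F w ∈ ball (F ζ) r₁ by
      rw [mem_ball, dist_eq_norm]
      exact hm.trans_lt ((mul_lt_mul_of_pos_left hw' hu0).trans_le h1))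
    rw [← hF.2 (hA hw1) (hs1 hw) hw2]; exact hw1
  refine (ball_subset_ball (h2.trans ?_)).trans
    ((hc j ζ ρ hρ (hj.1.mono hs1) (hj.2.mono hs1)).trans (image_mono key))
  exact mul_le_mul_of_nonneg_left hl (by positivity)

end TightAux

theorem tight {Ω : Type} [MeasurableSpace Ω] (P : Measure Ω) [IsProbabilityMeasure P]
    {D : Opens ℂ} (h : Ω → Distribution D ℝ ⊤)
    (hm : ∀ φ : TestFunction D ℝ ⊤, AEMeasurable (fun p => h p φ) P) (K : Compacts ℂ)
    (hK : (K : Set ℂ) ⊆ D) (M : ℕ → ℝ) {η : ℝ} (hη : 0 < η) :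
    ∃ C : ℝ, ∀ φ : TestFunction D ℝ ⊤, Function.support φ ⊆ K →
      (∀ m z, ‖iteratedFDeriv ℝ m φ z‖ ≤ M m) → P {p | C < |h p φ|} ≤ ENNReal.ofReal η := by
  by_contra hcon
  push Not at hcon
  choose φ h1 h2 h3 using fun n : ℕ => hcon n
  let s : ℕ → Set Ω := fun n => ⋃ k, ⋃ _ : n ≤ k, {p | (k : ℝ) < |h p (φ k)|}
  have hs : ∀ n, NullMeasurableSet (s n) P := fun n =>
    NullMeasurableSet.iUnion fun k => NullMeasurableSet.iUnion fun _ =>
      nullMeasurableSet_lt aemeasurable_const (continuous_abs.measurable.comp_aemeasurable (hm _))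
  have hanti : Antitone s := fun n m hnm =>
    iUnion₂_mono' fun k hk => ⟨k, hnm.trans hk, subset_rfl⟩
  have hlim := tendsto_measure_iInter_atTop hs hanti ⟨0, measure_ne_top _ _⟩
  have hempty : ⋂ n, s n = ∅ := by
    refine eq_empty_of_forall_notMem fun p hp => ?_
    obtain ⟨B, hB⟩ := TightAux.bdd (h p) K hK M
    obtain ⟨n, hn⟩ := exists_nat_ge B
    have := mem_iInter.1 hp n
    simp only [s, mem_iUnion] at this
    obtain ⟨k, hk, hp'⟩ := this
    have h4 := hB _ (h1 k) (h2 k)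
    have h5 : (n : ℝ) ≤ k := by exact_mod_cast hk
    have h6 : (k : ℝ) < |h p (φ k)| := hp'
    linarith
  rw [hempty, measure_empty] at hlim
  have : ENNReal.ofReal η ≤ 0 := ge_of_tendsto' hlim fun n =>
    (h3 n).le.trans (measure_mono (subset_iUnion₂_of_subset n le_rfl subset_rfl))
  exact absurd this (not_le.2 (ENNReal.ofReal_pos.2 hη))

theorem sandwich {F : ℂ → ℂ} (hF : Univ F) {a : ℝ} (ha : 0 < a) (a₂ : ℝ) :
    ∃ c C δ₀ : ℝ, 0 < c ∧ c ≤ 1 ∧ 1 ≤ C ∧ 0 < δ₀ ∧ C * δ₀ ≤ 1 ∧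
      ∀ j, Univ j → a ≤ ‖deriv j 0‖ → ‖deriv j 0‖ ≤ a₂ → ∀ ζ ∈ ball (0 : ℂ) (1 / 4),
        ∀ δ : ℝ, 0 < δ → δ ≤ δ₀ → ∀ A ⊆ ball (0 : ℂ) 1,
          (ball (F ζ) (C * δ) ⊆ F '' A → ball (j ζ) δ ⊆ j '' A) ∧
          (ball (j ζ) δ ⊆ j '' A → ball (F ζ) (c * δ) ⊆ F '' A) := by
  obtain ⟨c0, hc0, -, hc⟩ := koebe
  obtain ⟨C1, hC1, hC⟩ := distort
  have hC0 : 0 < C1 := by linarith
  have hb : 0 < ‖deriv F 0‖ := norm_pos_iff.2
    (univ_deriv_ne_zero isOpen_ball hF.1 hF.2 (mem_ball_self one_pos))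
  set b := ‖deriv F 0‖ with hbdef
  have hu : 0 < C1 * max a a₂ := mul_pos hC0 (lt_max_of_lt_left ha)
  set u := C1 * max a a₂ with hudef
  have hCC : 0 < max 1 (C1 * b * (C1 / (c0 * a))) := lt_max_of_lt_left one_pos
  refine ⟨min 1 (c0 / u * (b / C1)), max 1 (C1 * b * (C1 / (c0 * a))),
    min (min (c0 * a / (2 * C1)) (u / 2)) (1 / max 1 (C1 * b * (C1 / (c0 * a)))),
    by positivity, min_le_left _ _, le_max_left _ _, by positivity, ?_, ?_⟩
  · exact (mul_le_mul_of_nonneg_left (min_le_right _ _) hCC.le).trans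
      (by rw [mul_one_div_cancel hCC.ne'])
  intro j hj hj1 hj2 ζ hζ δ hδ hδ' A hA
  have d1 : δ ≤ c0 * a / (2 * C1) := hδ'.trans ((min_le_left _ _).trans (min_le_left _ _))
  have d2 : δ ≤ u / 2 := hδ'.trans ((min_le_left _ _).trans (min_le_right _ _))
  obtain ⟨F1, F2⟩ := TightAux.bounds hC hF
  obtain ⟨j1, j2⟩ := TightAux.bounds hC hj
  constructor
  · refine TightAux.transfer hc0 hc hF hj hζ (l := a / C1) (u := C1 * b)
      (ρ := C1 / (c0 * a) * δ) (by positivity) ?_ F1 (by positivity) ?_ ?_ ?_ hA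
    · rw [div_le_iff₀ hC0, mul_comm]; exact hj1.trans (j2 ζ hζ)
    · calc C1 / (c0 * a) * δ ≤ C1 / (c0 * a) * (c0 * a / (2 * C1)) := by gcongr
        _ = 1 / 2 := by field_simp
    · rw [← mul_assoc]; exact mul_le_mul_of_nonneg_right (le_max_right _ _) hδ.le
    · apply le_of_eq; field_simp
  · refine TightAux.transfer hc0 hc hj hF hζ (l := b / C1) (u := u)
      (ρ := δ / u) hu ?_ ?_ (by positivity) ?_ ?_ ?_ hA
    · rw [div_le_iff₀ hC0, mul_comm]; exact F2 ζ hζ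
    · exact fun w hw => (j1 w hw).trans
        (mul_le_mul_of_nonneg_left (hj2.trans (le_max_right _ _)) hC0.le)
    · rw [div_le_iff₀ hu]; linarith
    · apply le_of_eq; field_simp
    · refine (mul_le_mul_of_nonneg_right (min_le_right _ _) hδ.le).trans (le_of_eq ?_)
      field_simp

theorem integral_conf {j : ℂ → ℂ} (hj : Univ j) (g : ℂ → ℝ) :
    ∫ z in j '' ball 0 1, g z = ∫ ζ in ball (0 : ℂ) 1, ‖deriv j ζ‖ ^ 2 * g (j ζ) := by
  have hd : ∀ x ∈ ball (0 : ℂ) 1, HasFDerivWithinAt j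
      ((ContinuousLinearMap.toSpanSingleton ℂ (deriv j x)).restrictScalars ℝ) (ball 0 1) x :=
    fun x hx => ((hj.1.differentiableAt (isOpen_ball.mem_nhds hx)).hasDerivAt.hasFDerivAt.restrictScalars
      ℝ).hasFDerivWithinAt
  rw [integral_image_eq_integral_abs_det_fderiv_smul volume measurableSet_ball hd hj.2]
  refine setIntegral_congr_fun measurableSet_ball fun x _ => ?_
  have : ((ContinuousLinearMap.toSpanSingleton ℂ (deriv j x)).restrictScalars ℝ).det =
      ‖deriv j x‖ ^ 2 := by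
    rw [ContinuousLinearMap.det, ← LinearMap.det_toMatrix Complex.basisOneI, Matrix.det_fin_two]
    simp only [LinearMap.toMatrix_apply, ContinuousLinearMap.coe_coe, Complex.coe_basisOneI,
      Complex.coe_basisOneI_repr, Complex.sq_norm, Complex.normSq_apply]
    simp
  simp only [this, smul_eq_mul, abs_pow, abs_norm]

theorem nest_diff_le {v : Ens} (hv : Good v) (ξ : ℕ → ℝ) {F j : ℂ → ℂ} (hF : Univ F) {ζ : ℂ}
    (hζ : ζ ∈ ball (0 : ℂ) 1) {a b c d : ℝ} (ha : 0 < a) (hab : a ≤ b) (hbc : b ≤ c)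
    (h : ∀ A ⊆ ball (0 : ℂ) 1, (ball (F ζ) c ⊆ F '' A → ball (j ζ) d ⊆ j '' A) ∧
      (ball (j ζ) d ⊆ j '' A → ball (F ζ) a ⊆ F '' A)) :
    ‖nestSum j v ξ (j ζ) d - nestSum F v ξ (F ζ) b‖ₑ ≤ err F v ξ (F ζ) a c := by
  have hfin : {k | ball (F ζ) a ⊆ F '' (ball 0 1 ∩ v k)}.Finite :=
    (hv.finite_surr hF ha (show ‖ζ‖ < 1 by simpa using hζ)).subset
      fun k hk => ⟨ζ, by simp, hk⟩
  have hJ : ∀ k, ball (j ζ) d ⊆ j '' (ball 0 1 ∩ v k) → ball (F ζ) a ⊆ F '' (ball 0 1 ∩ v k) :=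
    fun k => (h _ inter_subset_left).2
  have hJ' : ∀ k, ball (F ζ) c ⊆ F '' (ball 0 1 ∩ v k) → ball (j ζ) d ⊆ j '' (ball 0 1 ∩ v k) :=
    fun k => (h _ inter_subset_left).1
  have hB : ∀ k, ball (F ζ) b ⊆ F '' (ball 0 1 ∩ v k) → ball (F ζ) a ⊆ F '' (ball 0 1 ∩ v k) :=
    fun k hk => (ball_subset_ball hab).trans hk
  have hB' : ∀ k, ball (F ζ) c ⊆ F '' (ball 0 1 ∩ v k) → ball (F ζ) b ⊆ F '' (ball 0 1 ∩ v k) :=
    fun k hk => (ball_subset_ball hbc).trans hk
  have s1 : Summable ({k | ball (j ζ) d ⊆ j '' (ball 0 1 ∩ v k)}.indicator ξ) :=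
    summable_of_hasFiniteSupport (hfin.subset (support_indicator_subset.trans hJ))
  have s2 : Summable ({k | ball (F ζ) b ⊆ F '' (ball 0 1 ∩ v k)}.indicator ξ) :=
    summable_of_hasFiniteSupport (hfin.subset (support_indicator_subset.trans hB))
  unfold nestSum err
  rw [← s1.tsum_sub s2]
  refine enorm_tsum_le_tsum_enorm.trans (ENNReal.tsum_le_tsum fun k => ?_)
  by_cases e1 : ball (j ζ) d ⊆ j '' (ball 0 1 ∩ v k) <;>
    by_cases e2 : ball (F ζ) b ⊆ F '' (ball 0 1 ∩ v k)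
  · simp [indicator, e1, e2]
  · have e3 : ¬ ball (F ζ) c ⊆ F '' (ball 0 1 ∩ v k) := fun e => e2 (hB' k e)
    simp [indicator, e1, e2, e3, hJ k e1]
  · have e3 : ¬ ball (F ζ) c ⊆ F '' (ball 0 1 ∩ v k) := fun e => e1 (hJ' k e)
    simp [indicator, e1, e2, e3, hB k e2]
  · simp [indicator, e1, e2]

end Pool.Agent.MP_ac6554_pr

end

section

set_option autoImplicit false

open MeasureTheory ProbabilityTheory TopologicalSpace Metric Set Filter Topology
open scoped NNReal ENNReal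

namespace Pool.Agent.MP_ac6554_pr

theorem exists_bump {a : ℝ} (ha : 0 < a) : ∃ (r : ℝ) (φ₀ : ℂ → ℝ), 0 < r ∧
    ContDiff ℝ (⊤ : ℕ∞) φ₀ ∧ (∀ z, 0 ≤ φ₀ z) ∧ (∀ z, r ≤ ‖z‖ → φ₀ z = 0) ∧ ∫ z, φ₀ z = 1 ∧
    ∀ j, Univ j → j 0 = 0 → a ≤ ‖deriv j 0‖ → ball 0 (2 * r) ⊆ j '' ball 0 (1 / 4) := by
  obtain ⟨c, hc, -, hk⟩ := koebe
  have hr : 0 < c * a / 8 := by positivity
  let b : ContDiffBump (0 : ℂ) := ⟨c * a / 16, c * a / 8, by positivity, by linarith⟩
  refine ⟨c * a / 8, b.normed volume, hr, b.contDiff_normed, b.nonneg_normed, ?_,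
    b.integral_normed, ?_⟩
  · intro z hz
    by_contra h
    have h1 : z ∈ Function.support (b.normed volume) := h
    rw [b.support_normed_eq, mem_ball_zero_iff] at h1
    exact absurd hz (not_le.2 h1)
  · intro j hj h0 hd
    have hsub : ball (0 : ℂ) (1 / 4) ⊆ ball 0 1 := ball_subset_ball (by norm_num)
    have h1 := hk j 0 (1 / 4) (by norm_num) (hj.1.mono hsub) (hj.2.mono hsub)
    rw [h0] at h1
    refine subset_trans (ball_subset_ball ?_) h1
    nlinarith [mul_le_mul_of_nonneg_left hd hc.le]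

namespace TestAux

/-- Cauchy estimates for the real iterated derivatives of a holomorphic map. -/
theorem cauchy_real {γ : ℂ → ℂ × ℂ} {U : Set ℂ} (hU : IsOpen U) (hγ : DifferentiableOn ℂ γ U)
    {x : ℂ} {ρ C : ℝ} (hρ : 0 < ρ) (hx : closedBall x ρ ⊆ U)
    (hC : ∀ z ∈ closedBall x ρ, ‖γ z‖ ≤ C) (m : ℕ) :
    ‖iteratedFDerivWithin ℝ m γ U x‖ ≤ m.factorial * C / ρ ^ m := by
  have hxU : x ∈ U := hx (mem_closedBall_self hρ.le)
  have h1 : ContDiffAt ℂ m γ x := (hγ.contDiffOn hU).contDiffAt (hU.mem_nhds hxU)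
  rw [iteratedFDerivWithin_of_isOpen m hU hxU, ← h1.restrictScalars_iteratedFDeriv (𝕜 := ℝ),
    Function.comp_apply, ContinuousMultilinearMap.norm_restrictScalars,
    norm_iteratedFDeriv_eq_norm_iteratedDeriv]
  refine Complex.norm_iteratedDeriv_le_of_forall_mem_sphere_norm_le m hρ ?_
    fun z hz => hC z (sphere_subset_closedBall hz)
  exact (hγ.mono hx).diffContOnCl_ball subset_rfl

/-- Uniform bounds for a fixed smooth function composed with a bounded family of holomorphic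
maps. -/
theorem comp_bound {H : ℂ × ℂ → ℝ} (hH : ContDiff ℝ (⊤ : ℕ∞) H) {ρ : ℝ} (hρ : 0 < ρ) (C : ℝ) :
    ∃ M : ℕ → ℝ, (∀ m, 0 ≤ M m) ∧ ∀ (γ : ℂ → ℂ × ℂ) (U : Set ℂ) (x : ℂ), IsOpen U →
      DifferentiableOn ℂ γ U → closedBall x ρ ⊆ U → (∀ z ∈ closedBall x ρ, ‖γ z‖ ≤ C) →
      ∀ m, ‖iteratedFDerivWithin ℝ m (H ∘ γ) U x‖ ≤ M m := by
  have h1 : ∀ i : ℕ, ∃ B : ℝ, ∀ y ∈ closedBall (0 : ℂ × ℂ) C, ‖iteratedFDeriv ℝ i H y‖ ≤ B := by
    intro i
    exact (isCompact_closedBall _ _).exists_bound_of_continuousOn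
      (hH.continuous_iteratedFDeriv (by exact_mod_cast le_top)).continuousOn
  choose B hB using h1
  let B' : ℕ → ℝ := fun m => ∑ i ∈ Finset.range (m + 1), |B i|
  let A' : ℕ → ℝ := fun m => 1 + ∑ i ∈ Finset.range (m + 1), |(i.factorial : ℝ) * C / ρ ^ i|
  have hB' : ∀ m, 0 ≤ B' m := fun m => Finset.sum_nonneg fun i _ => abs_nonneg _
  have hA' : ∀ m, 1 ≤ A' m := fun m =>
    le_add_of_nonneg_right (Finset.sum_nonneg fun i _ => abs_nonneg _)
  refine ⟨fun m => m.factorial * B' m * A' m ^ m, fun m => ?_, ?_⟩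
  · have := hB' m
    have := (hA' m).trans' zero_le_one
    positivity
  intro γ U x hU hγ hx hC m
  have hxU : x ∈ U := hx (mem_closedBall_self hρ.le)
  have hγ' : ContDiffOn ℝ (⊤ : ℕ∞) γ U := (hγ.contDiffOn hU).restrict_scalars ℝ
  refine norm_iteratedFDerivWithin_comp_le (t := univ) hH.contDiffOn hγ' (by exact_mod_cast le_top)
    uniqueDiffOn_univ hU.uniqueDiffOn (mapsTo_univ _ _) hxU ?_ ?_
  · intro i hi
    rw [iteratedFDerivWithin_univ]
    refine (hB i _ (mem_closedBall_zero_iff.2 (hC x (mem_closedBall_self hρ.le)))).trans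
      ((le_abs_self _).trans ?_)
    exact Finset.single_le_sum (f := fun i => |B i|) (fun i _ => abs_nonneg _)
      (Finset.mem_range.2 (Nat.lt_succ_of_le hi))
  · intro i hi1 hi
    refine (cauchy_real hU hγ hρ hx hC i).trans ((le_abs_self _).trans ?_)
    refine le_trans ?_ (le_self_pow₀ (hA' m) (by omega))
    refine le_trans ?_ (le_add_of_nonneg_left zero_le_one)
    exact Finset.single_le_sum (f := fun i => |(i.factorial : ℝ) * C / ρ ^ i|)
      (fun i _ => abs_nonneg _) (Finset.mem_range.2 (Nat.lt_succ_of_le hi))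

/-- Bounds for a univalent map and its derivative on the disc of radius one half. -/
theorem univ_bound (a₂ : ℝ) : ∃ C : ℝ, ∀ j, Univ j → j 0 = 0 → ‖deriv j 0‖ ≤ a₂ →
    ∀ ζ ∈ ball (0 : ℂ) (1 / 2), ‖j ζ‖ ≤ C ∧ ‖deriv j ζ‖ ≤ C := by
  obtain ⟨C, hC, hd⟩ := distort
  refine ⟨C * a₂, fun j hj h0 ha => ?_⟩
  have h1 : ∀ ζ ∈ ball (0 : ℂ) (1 / 2), ‖deriv j ζ‖ ≤ C * a₂ := by
    intro ζ hζ
    rw [mem_ball_zero_iff] at hζ
    refine (hd j 0 1 one_pos hj.1 hj.2 ζ (by rw [sub_zero]; linarith)).trans ?_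
    exact mul_le_mul_of_nonneg_left ha (by linarith)
  have hsub : ball (0 : ℂ) (1 / 2) ⊆ ball 0 1 := ball_subset_ball (by norm_num)
  intro ζ hζ
  refine ⟨?_, h1 ζ hζ⟩
  have h2 := (convex_ball (0 : ℂ) (1 / 2)).norm_image_sub_le_of_norm_deriv_le
    (fun z hz => hj.1.differentiableAt (isOpen_ball.mem_nhds (hsub hz))) h1
    (mem_ball_self (by norm_num)) hζ
  rw [h0, sub_zero, sub_zero] at h2
  have h3 : 0 ≤ C * a₂ := (norm_nonneg _).trans (h1 ζ hζ)
  rw [mem_ball_zero_iff] at hζ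
  nlinarith

end TestAux

open TestAux in
theorem test_family {F : ℂ → ℂ} {D : Opens ℂ} (hF : Conf F D) {a r : ℝ} (hr : 0 < r) {φ₀ : ℂ → ℝ}
    (hφ : ContDiff ℝ (⊤ : ℕ∞) φ₀) (hs : ∀ z, r ≤ ‖z‖ → φ₀ z = 0)
    (hK : ∀ j, Univ j → j 0 = 0 → a ≤ ‖deriv j 0‖ → ball 0 (2 * r) ⊆ j '' ball 0 (1 / 4))
    (a₂ : ℝ) : ∃ (K : Compacts ℂ) (M : ℕ → ℝ), (K : Set ℂ) ⊆ D ∧
      ∀ j, Univ j → j 0 = 0 → a ≤ ‖deriv j 0‖ → ‖deriv j 0‖ ≤ a₂ →
        ∃ φ : TestFunction D ℝ ⊤, Function.support φ ⊆ K ∧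
          (∀ m z, ‖iteratedFDeriv ℝ m φ z‖ ≤ M m) ∧
          ∀ ζ ∈ ball (0 : ℂ) 1, φ (F ζ) * ‖deriv F ζ‖ ^ 2 = φ₀ (j ζ) * ‖deriv j ζ‖ ^ 2 := by
  have hD : F '' ball 0 1 = D := hF.2.image_eq
  have hDo : IsOpen (D : Set ℂ) := D.isOpen
  set G := Function.invFunOn F (ball 0 1) with hG
  have hGd : DifferentiableOn ℂ G D := hD ▸ univ_inv_diff isOpen_ball hF.1 hF.2.injOn
  have hGF : ∀ ζ ∈ ball (0 : ℂ) 1, G (F ζ) = ζ := fun ζ hζ => hF.2.injOn.leftInvOn_invFunOn hζ
  have hGm : MapsTo G D (ball 0 1) := by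
    intro w hw
    rw [← hD] at hw
    obtain ⟨ζ, hζ, rfl⟩ := hw
    rw [hGF ζ hζ]
    exact hζ
  have hs4 : closedBall (0 : ℂ) (1 / 4) ⊆ ball 0 1 := closedBall_subset_ball (by norm_num)
  have hs2 : ball (0 : ℂ) (1 / 2) ⊆ ball 0 1 := ball_subset_ball (by norm_num)
  have hKc : IsCompact (F '' closedBall 0 (1 / 4)) :=
    (isCompact_closedBall _ _).image_of_continuousOn (hF.1.continuousOn.mono hs4)
  have hKD : F '' closedBall 0 (1 / 4) ⊆ D := hD ▸ image_mono hs4
  have hW : IsOpen (F '' ball 0 (1 / 2)) :=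
    univ_isOpen_image isOpen_ball hF.1 hF.2.injOn isOpen_ball hs2
  have hWD : F '' ball 0 (1 / 2) ⊆ D := hD ▸ image_mono hs2
  obtain ⟨ρ, hρ, hρK⟩ := hKc.exists_cthickening_subset_open hW
    (image_mono (closedBall_subset_ball (by norm_num)))
  obtain ⟨CG, hCG⟩ := (hKc.cthickening (r := ρ)).exists_bound_of_continuousOn
    ((hGd.deriv hDo).continuousOn.mono (hρK.trans hWD))
  obtain ⟨C, hC⟩ := univ_bound a₂
  let H : ℂ × ℂ → ℝ := fun p => φ₀ p.1 * ‖p.2‖ ^ 2
  have hH : ContDiff ℝ (⊤ : ℕ∞) H :=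
    (hφ.comp contDiff_fst).mul ((contDiff_norm_sq ℝ).comp contDiff_snd)
  obtain ⟨M, hM0, hM⟩ := comp_bound hH hρ (max C (C * CG))
  refine ⟨⟨_, hKc⟩, M, hKD, fun j hj h0 ha ha₂ => ?_⟩
  have hgd : DifferentiableOn ℂ (j ∘ G) D := hj.1.comp hGd hGm
  let γ : ℂ → ℂ × ℂ := fun w => ((j ∘ G) w, deriv (j ∘ G) w)
  have hγ : DifferentiableOn ℂ γ D := hgd.prodMk (hgd.deriv hDo)
  have hder : ∀ w ∈ (D : Set ℂ), deriv (j ∘ G) w = deriv j (G w) * deriv G w := fun w hw =>
    deriv_comp w (hj.1.differentiableAt (isOpen_ball.mem_nhds (hGm hw)))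
      (hGd.differentiableAt (hDo.mem_nhds hw))
  let φ : ℂ → ℝ := (D : Set ℂ).indicator (H ∘ γ)
  have hsupp : Function.support φ ⊆ F '' closedBall 0 (1 / 4) := by
    intro w hw
    have hwD : w ∈ (D : Set ℂ) := by
      by_contra h
      exact hw (indicator_of_notMem h _)
    have h1 : H (γ w) ≠ 0 := by
      have : φ w = H (γ w) := indicator_of_mem hwD _
      rw [← this]
      exact hw
    have h2 : φ₀ (j (G w)) ≠ 0 := left_ne_zero_of_mul h1
    have h3 : ‖j (G w)‖ < r := by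
      by_contra h
      exact h2 (hs _ (not_lt.1 h))
    obtain ⟨ζ, hζ, hζe⟩ := hK j hj h0 ha (mem_ball_zero_iff.2 (h3.trans (by linarith)))
    have hζ1 : ζ ∈ ball (0 : ℂ) 1 := hs4 (ball_subset_closedBall hζ)
    have h4 : ζ = G w := hj.2 hζ1 (hGm hwD) hζe
    refine ⟨ζ, ball_subset_closedBall hζ, ?_⟩
    rw [h4, hG]
    exact Function.invFunOn_eq (by rw [← hD] at hwD; exact hwD)
  have hts : tsupport φ ⊆ F '' closedBall 0 (1 / 4) := closure_minimal hsupp hKc.isClosed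
  have heq : EqOn φ (H ∘ γ) D := fun w hw => indicator_of_mem hw _
  have hγ' : ContDiffOn ℝ (⊤ : ℕ∞) γ D := (hγ.contDiffOn hDo).restrict_scalars ℝ
  have hφD : ContDiffOn ℝ (⊤ : ℕ∞) φ D := (hH.comp_contDiffOn hγ').congr heq
  have hsm : ContDiff ℝ (⊤ : ℕ∞) φ := by
    rw [contDiff_iff_contDiffAt]
    intro w
    by_cases hw : w ∈ tsupport φ
    · exact hφD.contDiffAt (hDo.mem_nhds (hKD (hts hw)))
    · exact contDiffAt_const.congr_of_eventuallyEq (notMem_tsupport_iff_eventuallyEq.1 hw)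
  refine ⟨⟨φ, hsm, hKc.of_isClosed_subset (isClosed_tsupport _) hts, hts.trans hKD⟩, hsupp,
    fun m z => ?_, fun ζ hζ => ?_⟩
  · change ‖iteratedFDeriv ℝ m φ z‖ ≤ M m
    by_cases hz : z ∈ F '' closedBall 0 (1 / 4)
    · have hb : closedBall z ρ ⊆ cthickening ρ (F '' closedBall 0 (1 / 4)) :=
        closedBall_subset_cthickening hz ρ
      rw [← iteratedFDerivWithin_of_isOpen m hDo (hKD hz),
        iteratedFDerivWithin_congr heq (hKD hz)]
      refine hM γ D z hDo hγ (hb.trans (hρK.trans hWD)) (fun w hw => ?_) m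
      obtain ⟨ζ, hζ, rfl⟩ := hρK (hb hw)
      obtain ⟨h1, h2⟩ := hC j hj h0 ha₂ ζ hζ
      rw [Prod.norm_def]
      refine max_le_max ?_ ?_
      · change ‖j (G (F ζ))‖ ≤ C
        rwa [hGF ζ (hs2 hζ)]
      · change ‖deriv (j ∘ G) (F ζ)‖ ≤ C * CG
        rw [hder _ (hWD ⟨ζ, hζ, rfl⟩), norm_mul, hGF ζ (hs2 hζ)]
        exact mul_le_mul h2 (hCG _ (hb hw)) (norm_nonneg _) ((norm_nonneg _).trans h2)
    · have : iteratedFDeriv ℝ m φ z = 0 := by
        by_contra h
        exact hz (hts (support_iteratedFDeriv_subset m h))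
      rw [this, norm_zero]
      exact hM0 m
  · have hw : F ζ ∈ (D : Set ℂ) := hF.2.mapsTo hζ
    change φ (F ζ) * _ = _
    have h1 : (j ∘ G) ∘ F =ᶠ[𝓝 ζ] j := by
      filter_upwards [isOpen_ball.mem_nhds hζ] with x hx
      simp only [Function.comp_apply, hGF x hx]
    have h2 : deriv j ζ = deriv (j ∘ G) (F ζ) * deriv F ζ := by
      rw [← h1.deriv_eq]
      exact deriv_comp ζ (hgd.differentiableAt (hDo.mem_nhds hw))
        (hF.1.differentiableAt (isOpen_ball.mem_nhds hζ))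
    rw [heq hw, h2, norm_mul, mul_pow]
    change φ₀ (j (G (F ζ))) * ‖deriv (j ∘ G) (F ζ)‖ ^ 2 * _ = _
    rw [hGF ζ hζ]
    ring

end Pool.Agent.MP_ac6554_pr

end

section

set_option autoImplicit false

open MeasureTheory ProbabilityTheory TopologicalSpace Metric Set Filter Topology
open scoped NNReal ENNReal

namespace Pool.Agent.MP_ac6554_pr

namespace CoupleAux

/-- Rescaled map. -/
noncomputable def resc (s : ℝ) (z₀ : ℂ) (j : ℂ → ℂ) : ℂ → ℂ := fun w => (s : ℂ) * (j w - z₀)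

/-- The density on the disc. -/
noncomputable def psi (φ₀ : ℂ → ℝ) (j : ℂ → ℂ) (ζ : ℂ) : ℝ := φ₀ (j ζ) * ‖deriv j ζ‖ ^ 2

theorem deriv_resc (s : ℝ) (z₀ : ℂ) (j : ℂ → ℂ) (ζ : ℂ) :
    deriv (resc s z₀ j) ζ = (s : ℂ) * deriv j ζ := by
  unfold resc
  rw [deriv_const_mul_field, deriv_sub_const]

theorem univ_resc {s : ℝ} (hs : 0 < s) (z₀ : ℂ) {j : ℂ → ℂ} (hj : Univ j) :
    Univ (resc s z₀ j) := by
  refine ⟨(hj.1.sub_const z₀).const_mul _, fun a ha b hb hab => hj.2 ha hb ?_⟩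
  have h0 : (s : ℂ) ≠ 0 := by exact_mod_cast hs.ne'
  have := mul_left_cancel₀ h0 hab
  exact sub_left_inj.mp this

theorem surr_resc {s : ℝ} (hs : 0 < s) (z₀ : ℂ) (j : ℂ → ℂ) (A : Set ℂ) (z : ℂ) (δ : ℝ) :
    ball z (s⁻¹ * δ) ⊆ j '' A ↔ ball ((s : ℂ) * (z - z₀)) δ ⊆ resc s z₀ j '' A := by
  have h0 : (s : ℂ) ≠ 0 := by exact_mod_cast hs.ne'
  constructor
  · intro h u hu
    have : z₀ + (s : ℂ)⁻¹ * u ∈ ball z (s⁻¹ * δ) := by
      rw [mem_ball, dist_eq_norm] at hu ⊢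
      have e : z₀ + (s : ℂ)⁻¹ * u - z = (s : ℂ)⁻¹ * (u - (s : ℂ) * (z - z₀)) := by
        field_simp; ring
      rw [e, norm_mul, norm_inv, Complex.norm_real, Real.norm_of_nonneg hs.le]
      exact mul_lt_mul_of_pos_left hu (inv_pos.mpr hs)
    obtain ⟨w, hw, hw'⟩ := h this
    refine ⟨w, hw, ?_⟩
    unfold resc
    rw [hw']; field_simp; ring
  · intro h u hu
    have : (s : ℂ) * (u - z₀) ∈ ball ((s : ℂ) * (z - z₀)) δ := by
      rw [mem_ball, dist_eq_norm] at hu ⊢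
      have e : (s : ℂ) * (u - z₀) - (s : ℂ) * (z - z₀) = (s : ℂ) * (u - z) := by ring
      rw [e, norm_mul, Complex.norm_real, Real.norm_of_nonneg hs.le]
      have := mul_lt_mul_of_pos_left hu hs
      rwa [← mul_assoc, mul_inv_cancel₀ hs.ne', one_mul] at this
    obtain ⟨w, hw, hw'⟩ := h this
    refine ⟨w, hw, ?_⟩
    unfold resc at hw'
    exact sub_left_inj.mp (mul_left_cancel₀ h0 hw')

theorem nestSum_resc {s : ℝ} (hs : 0 < s) (z₀ : ℂ) (j : ℂ → ℂ) (v : Ens) (ξ : ℕ → ℝ) (ζ : ℂ)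
    (δ : ℝ) : nestSum j v ξ (j ζ) (s⁻¹ * δ) = nestSum (resc s z₀ j) v ξ (resc s z₀ j ζ) δ := by
  unfold nestSum
  simp only [surr_resc hs z₀ j]
  rfl

theorem mem_quarter {r : ℝ} (hr : 0 < r) {φ₀ : ℂ → ℝ} (hs : ∀ z, r ≤ ‖z‖ → φ₀ z = 0)
    {j : ℂ → ℂ} (hj : Univ j) (hK : ball 0 (2 * r) ⊆ j '' ball 0 (1 / 4)) {ζ : ℂ}
    (hζ : ζ ∈ ball (0 : ℂ) 1) (h : psi φ₀ j ζ ≠ 0) : ζ ∈ ball (0 : ℂ) (1 / 4) ∧ ‖j ζ‖ < r := by
  have h1 : ‖j ζ‖ < r := by
    by_contra hh
    exact h (by unfold psi; rw [hs _ (not_lt.mp hh), zero_mul])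
  obtain ⟨w, hw, hw'⟩ := hK (mem_ball_zero_iff.mpr (by linarith : ‖j ζ‖ < 2 * r))
  have := hj.2 (ball_subset_ball (by norm_num) hw) hζ hw'
  exact ⟨this ▸ hw, h1⟩

theorem psi_int {r : ℝ} (hr : 0 < r) {φ₀ : ℂ → ℝ} (hs : ∀ z, r ≤ ‖z‖ → φ₀ z = 0)
    (h1 : ∫ z, φ₀ z = 1) {j : ℂ → ℂ} (hj : Univ j) (hK : ball 0 (2 * r) ⊆ j '' ball 0 (1 / 4)) :
    ∫ ζ in ball (0 : ℂ) 1, psi φ₀ j ζ = 1 := by
  refine Eq.trans ?_ h1
  rw [← setIntegral_eq_integral_of_forall_compl_eq_zero (f := φ₀) (s := j '' ball 0 1),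
    integral_conf hj]
  · exact setIntegral_congr_fun measurableSet_ball fun ζ _ => mul_comm _ _
  · intro z hz
    refine hs z (not_lt.mp fun hh => hz ?_)
    exact image_mono (ball_subset_ball (by norm_num))
      (hK (mem_ball_zero_iff.mpr (by linarith : ‖z‖ < 2 * r)))

theorem pair_scaled {r s : ℝ} (hr : 0 < r) (hs0 : 0 < s) {φ₀ : ℂ → ℝ}
    (hs : ∀ z, r ≤ ‖z‖ → φ₀ z = 0) (z₀ : ℂ) {j : ℂ → ℂ} (hj : Univ j)
    (hK : ball 0 (2 * r) ⊆ resc s z₀ j '' ball 0 (1 / 4)) (g : ℂ → ℝ) :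
    ∫ z, g z * (s ^ 2 * φ₀ ((s : ℂ) * (z - z₀))) =
      ∫ ζ in ball (0 : ℂ) 1, g (j ζ) * psi φ₀ (resc s z₀ j) ζ := by
  have h0 : (s : ℂ) ≠ 0 := by exact_mod_cast hs0.ne'
  rw [← setIntegral_eq_integral_of_forall_compl_eq_zero (s := j '' ball 0 1), integral_conf hj]
  · refine setIntegral_congr_fun measurableSet_ball fun ζ _ => ?_
    simp only [psi, deriv_resc, norm_mul, Complex.norm_real, Real.norm_of_nonneg hs0.le]
    unfold resc
    ring
  · intro z hz
    rw [hs, mul_zero, mul_zero]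
    refine not_lt.mp fun hh => hz ?_
    obtain ⟨w, hw, hw'⟩ := hK (mem_ball_zero_iff.mpr
      (by linarith : ‖(s : ℂ) * (z - z₀)‖ < 2 * r))
    refine ⟨w, ball_subset_ball (by norm_num) hw, ?_⟩
    unfold resc at hw'
    exact sub_left_inj.mp (mul_left_cancel₀ h0 hw')

theorem pair_test {F : ℂ → ℂ} {D : Opens ℂ} (hF : Conf F D) (φ : TestFunction D ℝ ⊤)
    {ψ : ℂ → ℝ} (h : ∀ ζ ∈ ball (0 : ℂ) 1, φ (F ζ) * ‖deriv F ζ‖ ^ 2 = ψ ζ) (g : ℂ → ℝ) :
    ∫ z, g z * φ z = ∫ ζ in ball (0 : ℂ) 1, g (F ζ) * ψ ζ := by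
  rw [← setIntegral_eq_integral_of_forall_compl_eq_zero (s := F '' ball 0 1),
    integral_conf hF.univ]
  · refine setIntegral_congr_fun measurableSet_ball fun ζ hζ => ?_
    rw [← h ζ hζ]; ring
  · intro z hz
    rw [hF.2.image_eq] at hz
    rw [image_eq_zero_of_notMem_tsupport fun hh => hz (φ.tsupport_subset hh), mul_zero]

theorem exists_test {F : ℂ → ℂ} {D : Opens ℂ} (hF : Conf F D) {r s : ℝ} (hr : 0 < r) (hs1 : 1 ≤ s)
    {φ₀ : ℂ → ℝ} (hφ : ContDiff ℝ (⊤ : ℕ∞) φ₀) (hs : ∀ z, r ≤ ‖z‖ → φ₀ z = 0)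
    (hK : ball (F 0) (2 * r) ⊆ F '' ball 0 (1 / 4)) :
    ∃ φ : TestFunction D ℝ ⊤, ∀ z, φ z = s ^ 2 * φ₀ ((s : ℂ) * (z - F 0)) := by
  have hsup : Function.support (fun z => s ^ 2 * φ₀ ((s : ℂ) * (z - F 0))) ⊆
      closedBall (F 0) r := by
    intro z hz
    by_contra hh
    refine hz ?_
    rw [mem_closedBall, dist_eq_norm, not_le] at hh
    simp only
    rw [hs, mul_zero]
    rw [norm_mul, Complex.norm_real, Real.norm_of_nonneg (by linarith)]
    nlinarith
  refine ⟨⟨fun z => s ^ 2 * φ₀ ((s : ℂ) * (z - F 0)), ?_, ?_, ?_⟩, fun z => rfl⟩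
  · exact contDiff_const.mul (hφ.comp (contDiff_const.mul (contDiff_id.sub contDiff_const)))
  · exact HasCompactSupport.of_support_subset_isCompact (isCompact_closedBall _ _) hsup
  · refine (closure_minimal hsup isClosed_closedBall).trans ?_
    refine (closedBall_subset_ball (by linarith)).trans (hK.trans ?_)
    rw [← hF.2.image_eq]
    exact image_mono (ball_subset_ball (by norm_num))

theorem aem_psi {φ₀ : ℂ → ℝ} (hφ : Continuous φ₀) {j : ℂ → ℂ} (hj : Univ j) :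
    AEMeasurable (psi φ₀ j) (volume.restrict (ball (0 : ℂ) 1)) := by
  have h1 : ContinuousOn j (ball 0 1) := hj.1.continuousOn
  have h2 : ContinuousOn (deriv j) (ball 0 1) := (hj.1.deriv isOpen_ball).continuousOn
  exact ((hφ.comp_continuousOn h1).mul (h2.norm.pow 2)).aemeasurable measurableSet_ball

theorem nestSum_bdd {v : Ens} (hv : Good v) (ξ : ℕ → ℝ) {F : ℂ → ℂ} (hF : Univ F) {δ : ℝ}
    (hδ : 0 < δ) : ∃ B : ℝ, ∀ ζ ∈ closedBall (0 : ℂ) (1 / 2), |nestSum F v ξ (F ζ) δ| ≤ B := by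
  have hfin := hv.finite_surr hF hδ (by norm_num : (1 / 2 : ℝ) < 1)
  refine ⟨∑ k ∈ hfin.toFinset, |ξ k|, fun ζ hζ => ?_⟩
  unfold nestSum
  rw [tsum_eq_sum (s := hfin.toFinset)]
  · refine (Finset.abs_sum_le_sum_abs _ _).trans (Finset.sum_le_sum fun k _ => ?_)
    exact norm_indicator_le_norm_self ξ k
  · intro k hk
    refine indicator_of_notMem (fun hh => hk ?_) _
    exact hfin.mem_toFinset.mpr ⟨ζ, hζ, hh⟩

/-- The elementary estimate. -/
theorem pair_bound {ψ a b : ℂ → ℝ} {er : ℂ → ℝ≥0∞} {s C₁ M₀ C₃ : ℝ} (hC₁ : 0 ≤ C₁) (hM : 0 ≤ M₀)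
    (hC₃ : 0 ≤ C₃) (ψm : AEMeasurable ψ (volume.restrict (ball (0 : ℂ) 1)))
    (ψ0 : ∀ ζ, 0 ≤ ψ ζ) (ψ1 : ∫ ζ in ball (0 : ℂ) 1, ψ ζ = 1)
    (ψM : ∀ ζ ∈ ball (0 : ℂ) 1, ψ ζ ≤ M₀)
    (ψs : ∀ ζ ∈ ball (0 : ℂ) 1, ψ ζ ≠ 0 → ζ ∈ ball (0 : ℂ) (1 / 4))
    (am : AEMeasurable a (volume.restrict (ball (0 : ℂ) 1)))
    (bm : AEMeasurable b (volume.restrict (ball (0 : ℂ) 1))) {B : ℝ}
    (bb : ∀ ζ ∈ ball (0 : ℂ) (1 / 4), |b ζ| ≤ B)
    (h : ∀ ζ ∈ ball (0 : ℂ) 1, ψ ζ ≠ 0 → ‖a ζ - s - b ζ‖ₑ ≤ ENNReal.ofReal C₁ + er ζ)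
    (he : ∫⁻ ζ in ball (0 : ℂ) (1 / 4), er ζ ≤ ENNReal.ofReal C₃) :
    |(∫ ζ in ball (0 : ℂ) 1, a ζ * ψ ζ) - s - ∫ ζ in ball (0 : ℂ) 1, b ζ * ψ ζ| ≤
      C₁ + M₀ * C₃ := by
  have ψi : Integrable ψ (volume.restrict (ball (0 : ℂ) 1)) :=
    Integrable.of_integral_ne_zero (by rw [ψ1]; exact one_ne_zero)
  have bi : Integrable (fun ζ => b ζ * ψ ζ) (volume.restrict (ball (0 : ℂ) 1)) := by
    refine Integrable.mono' (ψi.const_mul |B|) (bm.mul ψm).aestronglyMeasurable ?_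
    filter_upwards [ae_restrict_mem measurableSet_ball] with ζ hζ
    rcases eq_or_ne (ψ ζ) 0 with h0 | h0
    · simp [h0]
    · rw [Real.norm_eq_abs, abs_mul, abs_of_nonneg (ψ0 ζ)]
      exact mul_le_mul_of_nonneg_right ((bb ζ (ψs ζ hζ h0)).trans (le_abs_self _)) (ψ0 ζ)
  have key : ∫⁻ ζ in ball (0 : ℂ) 1, ‖(a ζ - s - b ζ) * ψ ζ‖ₑ ≤ ENNReal.ofReal (C₁ + M₀ * C₃) := by
    calc ∫⁻ ζ in ball (0 : ℂ) 1, ‖(a ζ - s - b ζ) * ψ ζ‖ₑ
        ≤ ∫⁻ ζ in ball (0 : ℂ) 1, (ENNReal.ofReal C₁ * ENNReal.ofReal (ψ ζ) +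
            ENNReal.ofReal M₀ * (ball (0 : ℂ) (1 / 4)).indicator er ζ) := by
          refine lintegral_mono_ae ?_
          filter_upwards [ae_restrict_mem measurableSet_ball] with ζ hζ
          rcases eq_or_ne (ψ ζ) 0 with h0 | h0
          · simp [h0]
          · rw [enorm_mul, Real.enorm_of_nonneg (ψ0 ζ), indicator_of_mem (ψs ζ hζ h0)]
            refine (mul_le_mul_left (h ζ hζ h0) _).trans ?_
            rw [add_mul, mul_comm (er ζ)]
            exact add_le_add le_rfl (mul_le_mul_left (ENNReal.ofReal_le_ofReal (ψM ζ hζ)) _)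
      _ = ENNReal.ofReal C₁ * ENNReal.ofReal 1 + ENNReal.ofReal M₀ *
            ∫⁻ ζ in ball (0 : ℂ) 1, (ball (0 : ℂ) (1 / 4)).indicator er ζ := by
          rw [lintegral_add_left' (ψm.ennreal_ofReal.const_mul _),
            lintegral_const_mul' _ _ ENNReal.ofReal_ne_top,
            lintegral_const_mul' _ _ ENNReal.ofReal_ne_top,
            ← ofReal_integral_eq_lintegral_ofReal ψi (ae_of_all _ ψ0), ψ1]
      _ ≤ ENNReal.ofReal C₁ * ENNReal.ofReal 1 + ENNReal.ofReal M₀ * ENNReal.ofReal C₃ := by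
          refine add_le_add le_rfl (mul_le_mul_right ?_ _)
          refine (setLIntegral_le_lintegral _ _).trans ?_
          rwa [lintegral_indicator measurableSet_ball]
      _ = ENNReal.ofReal (C₁ + M₀ * C₃) := by
          rw [ENNReal.ofReal_one, mul_one, ← ENNReal.ofReal_mul hM,
            ← ENNReal.ofReal_add hC₁ (mul_nonneg hM hC₃)]
  have di : Integrable (fun ζ => (a ζ - s - b ζ) * ψ ζ) (volume.restrict (ball (0 : ℂ) 1)) :=
    ⟨(((am.sub_const s).sub bm).mul ψm).aestronglyMeasurable,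
      key.trans_lt ENNReal.ofReal_lt_top⟩
  have e : ∫ ζ in ball (0 : ℂ) 1, a ζ * ψ ζ = (∫ ζ in ball (0 : ℂ) 1, (a ζ - s - b ζ) * ψ ζ) +
      s + ∫ ζ in ball (0 : ℂ) 1, b ζ * ψ ζ := by
    have h1 : ∫ ζ in ball (0 : ℂ) 1, s * ψ ζ = s := by rw [integral_const_mul, ψ1, mul_one]
    have h2 := integral_add di (ψi.const_mul s)
    have h3 := integral_add (di.add (ψi.const_mul s)) bi
    simp only [Pi.add_apply] at h3
    rw [h2, h1] at h3
    rw [← h3]
    refine integral_congr_ae (ae_of_all _ fun ζ => ?_)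
    ring
  rw [e]
  have h2 := (enorm_integral_le_lintegral_enorm _).trans key
  rw [Real.enorm_eq_ofReal_abs, ENNReal.ofReal_le_ofReal_iff (by positivity)] at h2
  convert h2 using 2; ring

end CoupleAux

end Pool.Agent.MP_ac6554_pr

end

section

set_option autoImplicit false

open MeasureTheory ProbabilityTheory TopologicalSpace Metric Set Filter Topology
open scoped NNReal ENNReal

namespace Pool.Agent.MP_ac6554_pr

namespace FreezeAux

theorem glue_mp (μ : Measure ℝ) [IsProbabilityMeasure μ] (α β : Type) :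
    MeasurePreserving (fun p : (α → ℝ) × (β → ℝ) => (Sum.elim p.1 p.2 : α ⊕ β → ℝ))
      ((Measure.infinitePi fun _ : α => μ).prod (Measure.infinitePi fun _ : β => μ))
      (Measure.infinitePi fun _ : α ⊕ β => μ) := by
  classical
  have hm : Measurable (fun p : (α → ℝ) × (β → ℝ) => (Sum.elim p.1 p.2 : α ⊕ β → ℝ)) := by
    refine measurable_pi_lambda _ fun k => ?_
    rcases k with a | b
    · exact (measurable_pi_apply a).comp measurable_fst
    · exact (measurable_pi_apply b).comp measurable_snd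
  refine ⟨hm, Measure.eq_infinitePi _ fun s t ht => ?_⟩
  rw [Measure.map_apply hm (MeasurableSet.pi s.countable_toSet fun k _ => ht k)]
  have : (fun p : (α → ℝ) × (β → ℝ) => (Sum.elim p.1 p.2 : α ⊕ β → ℝ)) ⁻¹' Set.pi s t =
      Set.pi s.toLeft (fun a => t (Sum.inl a)) ×ˢ Set.pi s.toRight (fun b => t (Sum.inr b)) := by
    ext p
    simp only [mem_preimage, Set.mem_pi, Finset.mem_coe, mem_prod, Finset.mem_toLeft,
      Finset.mem_toRight]
    constructor
    · exact fun h => ⟨fun a ha => h _ ha, fun b hb => h _ hb⟩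
    · rintro ⟨h1, h2⟩ (a | b) hk
      · exact h1 a hk
      · exact h2 b hk
  rw [this, Measure.prod_prod, Measure.infinitePi_pi _ fun a _ => ht _,
    Measure.infinitePi_pi _ fun b _ => ht _, Finset.prod_sum_eq_prod_toLeft_mul_prod_toRight]

theorem core {Ω S E : Type} [MeasurableSpace Ω] {mS : MeasurableSpace S} [MeasurableSpace E]
    (P : Measure Ω) [IsProbabilityMeasure P] {Y : Ω → S} {A : Ω → E} (hY : Measurable Y)
    (hA : Measurable A) (hind : IndepFun Y A P) {g : S × E → ℝ≥0∞} (hg : Measurable g) :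
    ∫⁻ ω, g (Y ω, A ω) ∂P = ∫⁻ ω, ∫⁻ v, g (Y ω, v) ∂(P.map A) ∂P := by
  have h1 := (indepFun_iff_map_prod_eq_prod_map_map hY.aemeasurable hA.aemeasurable).1 hind
  rw [← lintegral_map hg (hY.prodMk hA), h1, lintegral_prod _ hg.aemeasurable,
    lintegral_map hg.lintegral_prod_right' hY]

end FreezeAux

variable {κ : ℝ} {Ω : Type} [MeasurableSpace Ω] {P : Measure Ω} {V : ℕ → Ω → Opens ℂ}
  {i : ℕ → Ω → ℕ} {f : ℕ → Ω → ℂ → ℂ} {e : ℕ → ℕ → Ω → ℕ}

namespace FreezeAux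

theorem meas_label (h : Sk κ P V i f e) {a : Ω → ℕ} (ha : Measurable a) :
    Measurable fun ω => V (a ω) ω :=
  (measurable_from_prod_countable_right (f := fun p : ℕ × Ω => V p.1 p.2) h.meas).comp
    (ha.prodMk measurable_id)

theorem mY_le (h : Sk κ P V i f e) (n : ℕ) : mY f n ≤ ‹MeasurableSpace Ω› :=
  Measurable.comap_le
    (measurable_pi_lambda _ fun m => measurable_pi_lambda _ fun z => h.fmeas m z)

theorem chain (h : Sk κ P V i f e) (ω : Ω) {m n : ℕ} (hmn : m < n) :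
    (V (i n ω) ω : Set ℂ) ⊆ comp0 (V (i m ω) ω) := by
  induction n, hmn using Nat.le_induction with
  | base => exact h.isub ω m
  | succ k _ ih =>
    have h1 : (V (i (k + 1) ω) ω : Set ℂ) ⊆ comp0 (V (i k ω) ω) := h.isub ω k
    exact h1.trans ((comp0_le _).trans ih)

theorem chain' (h : Sk κ P V i f e) (ω : Ω) {m n : ℕ} (hmn : m ≤ n) :
    (V (i n ω) ω : Set ℂ) ⊆ V (i m ω) ω := by
  rcases hmn.eq_or_lt with rfl | hlt
  · exact subset_rfl
  · exact (chain h ω hlt).trans (comp0_le _)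

theorem e_sub (h : Sk κ P V i f e) (ω : Ω) (n k : ℕ) :
    (V (e n k ω) ω : Set ℂ) ⊆ f n ω '' ball 0 1 := by
  have : e n k ω ∈ range fun k => e n k ω := ⟨k, rfl⟩
  rw [h.erange] at this
  rw [(h.fconf ω n).2.image_eq]
  exact this.1

theorem e_ne (h : Sk κ P V i f e) (ω : Ω) (n k : ℕ) {m : ℕ} (hm : m ≤ n) : e n k ω ≠ i m ω := by
  have : e n k ω ∈ range fun k => e n k ω := ⟨k, rfl⟩
  rw [h.erange] at this
  exact this.2 m hm

theorem dom_sub (h : Sk κ P V i f e) (ω : Ω) (n : ℕ) :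
    (comp0 (V (i n ω) ω) : Set ℂ) ⊆ ball 0 1 :=
  (comp0_le _).trans ((h.good ω).1 (i n ω)).2

end FreezeAux

open FreezeAux

theorem Sk.measurable_inner (h : Sk κ P V i f e) (n : ℕ) :
    Measurable fun ω k => pull (f n ω) (V (e n k ω) ω) :=
  measurable_pi_lambda _ fun k => measurable_pull (fun ω => (h.fconf ω n).1.continuousOn)
    (fun z _ => h.fmeas n z) (meas_label h (h.emeas n k))

theorem Sk.freeze [IsProbabilityMeasure P] (h : Sk κ P V i f e) (μ : Measure ℝ)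
    [IsProbabilityMeasure μ] (n : ℕ) (Θ : (Ω × (Iic n → ℝ)) × (Ens × (ℕ → ℝ)) → ℝ≥0∞)
    (hΘ : Measurable[((mY f n).prod MeasurableSpace.pi).prod inferInstance] Θ) :
    ∫⁻ p, Θ ((p.1, fun m : Iic n => p.2 (i m p.1)),
        (fun k => pull (f n p.1) (V (e n k p.1) p.1), fun k => p.2 (e n k p.1))) ∂(PP P μ) =
      ∫⁻ p, ∫⁻ q, Θ ((p.1, fun m : Iic n => p.2 (i m p.1)), (fun k => V k q.1, q.2))
        ∂(PP P μ) ∂(PP P μ) := by
  set ν1 : Measure (Iic n → ℝ) := Measure.infinitePi fun _ : Iic n => μ with hν1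
  set ν2 : Measure (ℕ → ℝ) := Measure.infinitePi fun _ : ℕ => μ with hν2
  set A : Ω → Ens := fun ω k => pull (f n ω) (V (e n k ω) ω) with hAdef
  have hA : Measurable A := h.measurable_inner n
  have hV : Measurable fun ω k => V k ω := measurable_pi_lambda _ h.meas
  have hid : @Measurable Ω Ω _ (mY f n) id := measurable_id'' (mY_le h n)
  have hΘ0 : Measurable Θ := by
    have : @Measurable _ _ _ (((mY f n).prod MeasurableSpace.pi).prod inferInstance)
        (fun x : (Ω × (Iic n → ℝ)) × (Ens × (ℕ → ℝ)) => ((id x.1.1, x.1.2), x.2)) :=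
      @Measurable.prodMk _ _ _ _ ((mY f n).prod MeasurableSpace.pi) _ _ _
        (@Measurable.prodMk _ _ _ _ (mY f n) _ _ _ (hid.comp measurable_fst.fst)
          measurable_fst.snd) measurable_snd
    exact hΘ.comp this
  -- the averaged integrand
  set g : Ω × Ens → ℝ≥0∞ := fun x => ∫⁻ r, Θ ((x.1, r.1), (x.2, r.2)) ∂(ν1.prod ν2) with hg
  have hgm : @Measurable _ _ ((mY f n).prod inferInstance) _ g := by
    let _ : MeasurableSpace Ω := mY f n
    have : Measurable fun y : (Ω × Ens) × ((Iic n → ℝ) × (ℕ → ℝ)) =>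
        Θ ((y.1.1, y.2.1), (y.1.2, y.2.2)) := hΘ.comp (by fun_prop)
    exact this.lintegral_prod_right'
  -- left side
  let a : Iic n ⊕ ℕ → Ω → ℕ := Sum.elim (fun m => i m) (fun k => e n k)
  have ha : ∀ k, Measurable (a k) := by
    rintro (m | k)
    · exact h.imeas m
    · exact h.emeas n k
  have hainj : ∀ ω, Function.Injective fun k => a k ω := by
    rintro ω (m | k) (m' | k') hk
    · exact congrArg _ (Subtype.ext (h.iinj ω hk))
    · exact absurd (Eq.symm hk) (e_ne h ω n k' m.2)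
    · exact absurd hk (e_ne h ω n k m'.2)
    · exact congrArg _ (h.einj ω n hk)
  have hmp := relabel_mp P μ a ha hainj
  have hH : Measurable fun y : Ω × (Iic n ⊕ ℕ → ℝ) =>
      Θ ((y.1, fun m : Iic n => y.2 (Sum.inl m)), (A y.1, fun k => y.2 (Sum.inr k))) :=
    hΘ0.comp (by fun_prop)
  have L1 := hmp.lintegral_comp hH
  have L2 := ((MeasurePreserving.id P).prod (glue_mp μ (Iic n) ℕ)).lintegral_comp hH
  have hK : Measurable fun y : Ω × ((Iic n → ℝ) × (ℕ → ℝ)) => Θ ((y.1, y.2.1), (A y.1, y.2.2)) :=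
    hΘ0.comp (by fun_prop)
  have L3 : ∫⁻ y, Θ ((y.1, y.2.1), (A y.1, y.2.2)) ∂(P.prod (ν1.prod ν2)) =
      ∫⁻ ω, g (ω, A ω) ∂P := lintegral_prod _ hK.aemeasurable
  have hind : @IndepFun Ω Ω Ens _ (mY f n) _ id A P := by
    have := h.indep n
    rw [IndepFun_iff_Indep] at this
    rw [@IndepFun_iff_Indep Ω Ω Ens _ (mY f n) _ id A P, MeasurableSpace.comap_id]
    exact this
  have L4 := core (mS := mY f n) P hid hA hind hgm
  have hlaw : P.map A = P.map fun ω k => V k ω := (h.law n).map_eq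
  -- right side
  have hmp' := relabel_mp P μ (fun m : Iic n => i m) (fun m => h.imeas m)
    (fun ω m m' hk => Subtype.ext (h.iinj ω hk))
  have hG0 : Measurable fun y : (Ω × (Iic n → ℝ)) × (Ω × (ℕ → ℝ)) =>
      Θ (y.1, (fun k => V k y.2.1, y.2.2)) :=
    hΘ0.comp (measurable_fst.prodMk ((hV.comp measurable_snd.fst).prodMk measurable_snd.snd))
  have hG : Measurable fun x : Ω × (Iic n → ℝ) =>
      ∫⁻ q, Θ (x, (fun k => V k q.1, q.2)) ∂(PP P μ) := hG0.lintegral_prod_right'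
  have R1 := hmp'.lintegral_comp hG
  refine L1.trans (L2.symm.trans (L3.trans (L4.trans (Eq.symm (R1.trans ?_)))))
  rw [lintegral_prod _ hG.aemeasurable]
  refine lintegral_congr fun ω => ?_
  have hgω : Measurable fun v : Ens => g (ω, v) := by
    have : Measurable fun y : Ens × ((Iic n → ℝ) × (ℕ → ℝ)) => Θ ((ω, y.2.1), (y.1, y.2.2)) :=
      hΘ0.comp (by fun_prop)
    exact this.lintegral_prod_right'
  rw [hlaw]
  refine Eq.trans ?_ (lintegral_map hgω hV).symm
  have hT : Measurable fun y : (Iic n → ℝ) × (Ω × (ℕ → ℝ)) =>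
      Θ ((ω, y.1), (fun k => V k y.2.1, y.2.2)) := hG0.comp
        ((measurable_const.prodMk measurable_fst).prodMk measurable_snd)
  have hT' : Measurable fun y : ((Iic n → ℝ) × Ω) × (ℕ → ℝ) =>
      Θ ((ω, y.1.1), (fun k => V k y.1.2, y.2)) :=
    hT.comp (measurable_fst.fst.prodMk (measurable_fst.snd.prodMk measurable_snd))
  calc ∫⁻ η, ∫⁻ q, Θ ((ω, η), (fun k => V k q.1, q.2)) ∂(PP P μ) ∂ν1
      = ∫⁻ η, ∫⁻ ω', ∫⁻ ξ, Θ ((ω, η), (fun k => V k ω', ξ)) ∂ν2 ∂P ∂ν1 := by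
        refine lintegral_congr fun η => ?_
        exact lintegral_prod _ (hT.comp (measurable_const.prodMk measurable_id)).aemeasurable
    _ = ∫⁻ ω', ∫⁻ η, ∫⁻ ξ, Θ ((ω, η), (fun k => V k ω', ξ)) ∂ν2 ∂ν1 ∂P :=
        lintegral_lintegral_swap hT'.lintegral_prod_right'.aemeasurable
    _ = _ := by
        refine lintegral_congr fun ω' => ?_
        have : Measurable fun r : (Iic n → ℝ) × (ℕ → ℝ) =>
            Θ ((ω, r.1), (fun k => V k ω', r.2)) := hΘ0.comp (by fun_prop)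
        exact (lintegral_prod _ this.aemeasurable).symm

theorem Sk.nest_split (h : Sk κ P V i f e) {F : ℂ → ℂ} (hF : Univ F) (n : ℕ) (ω : Ω)
    (ξ : ℕ → ℝ) {z : ℂ} {ε : ℝ} (hε : 0 < ε) (hz : ball z ε ⊆ (fun w => F (f n ω w)) '' ball 0 1) :
    nestSum F (fun k => V k ω) ξ z ε = ∑ m ∈ Finset.range (n + 1), ξ (i m ω) +
      nestSum (fun w => F (f n ω w)) (fun k => pull (f n ω) (V (e n k ω) ω))
        (fun k => ξ (e n k ω)) z ε := by
  classical
  have hc := h.fconf ω n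
  have hVb : ∀ k, (V k ω : Set ℂ) ⊆ ball 0 1 := fun k => ((h.good ω).1 k).2
  obtain ⟨u, hu, huz⟩ := hz (mem_ball_self hε)
  have hw : f n ω u ∈ (comp0 (V (i n ω) ω) : Set ℂ) := hc.2.mapsTo hu
  have hwb : f n ω u ∈ ball (0 : ℂ) 1 := dom_sub h ω n hw
  set S : Set ℕ := {k | ball z ε ⊆ F '' (ball 0 1 ∩ V k ω)} with hS
  have hfin : S.Finite := by
    refine ((h.good ω).finite_surr hF hε (R := ‖f n ω u‖) (by simpa using hwb)).subset ?_
    intro k hk
    refine ⟨f n ω u, by simp, ?_⟩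
    have : F (f n ω u) = z := huz
    rw [this]; exact hk
  have h1 : ∀ m ≤ n, i m ω ∈ S := by
    intro m hm y hy
    obtain ⟨x, hx, rfl⟩ := hz hy
    have hx' := hc.2.mapsTo hx
    exact ⟨f n ω x, ⟨dom_sub h ω n hx', chain' h ω hm (comp0_le _ hx')⟩, rfl⟩
  have h2 : ∀ k, (fun w => F (f n ω w)) '' (ball 0 1 ∩ pull (f n ω) (V (e n k ω) ω)) =
      F '' (ball 0 1 ∩ V (e n k ω) ω) := by
    intro k
    rw [← image_image, image_pull hc.univ (e_sub h ω n k), inter_eq_right.2 (hVb _)]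
  have h3 : ∀ k ∈ S, (∀ m ≤ n, k ≠ i m ω) → k ∈ range fun j => e n j ω := by
    intro k hk hne
    rw [h.erange]
    refine ⟨?_, hne⟩
    obtain ⟨w, hw', hwz⟩ := hk (mem_ball_self hε)
    have hww : w = f n ω u := hF.2 hw'.1 hwb (hwz.trans huz.symm)
    have hwk : f n ω u ∈ (V k ω : Set ℂ) := hww ▸ hw'.2
    show (V k ω : Set ℂ) ⊆ comp0 (V (i n ω) ω)
    rcases h.nested ω k (i n ω) (hne n le_rfl) with hd | ⟨x, hx⟩ | ⟨x, hx⟩
    · exact absurd (comp0_le _ hw) (disjoint_left.1 hd hwk)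
    · rw [coe_comp0] at hw ⊢
      rw [connectedComponentIn_eq hw, ← connectedComponentIn_eq (hx hwk)]
      exact hx
    · have h0 : i n ω ∈ range fun n => i n ω := ⟨n, rfl⟩
      rw [h.irange] at h0
      have h0' : k ∈ {k | (0 : ℂ) ∈ V k ω} :=
        connectedComponentIn_subset (V k ω : Set ℂ) x (hx h0)
      rw [← h.irange] at h0'
      obtain ⟨m, rfl⟩ := h0'
      have hm : n < m := by
        by_contra hcon
        exact hne m (not_lt.1 hcon) rfl
      exact chain h ω hm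
  set T : Finset ℕ := (Finset.range (n + 1)).image fun m => i m ω with hT
  have hmemT : ∀ k, k ∈ T ↔ ∃ m ≤ n, i m ω = k := by
    intro k; simp [hT]
  have hsplit : S.indicator ξ = fun k => (T : Set ℕ).indicator ξ k + (S \ T).indicator ξ k := by
    funext k
    by_cases hk : k ∈ T
    · obtain ⟨m, hm, rfl⟩ := (hmemT k).1 hk
      rw [indicator_of_mem (h1 m hm), indicator_of_mem (Finset.mem_coe.2 hk),
        indicator_of_notMem (fun h => h.2 hk), add_zero]
    · rw [indicator_of_notMem (s := (T : Set ℕ)) hk, zero_add]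
      by_cases hk' : k ∈ S
      · rw [indicator_of_mem hk', indicator_of_mem (show k ∈ S \ T from ⟨hk', hk⟩)]
      · rw [indicator_of_notMem hk', indicator_of_notMem (fun h => hk' h.1)]
  have s1 : Summable ((T : Set ℕ).indicator ξ) :=
    summable_of_hasFiniteSupport (T.finite_toSet.subset support_indicator_subset)
  have s2 : Summable ((S \ T).indicator ξ) :=
    summable_of_hasFiniteSupport ((hfin.subset sdiff_subset).subset support_indicator_subset)
  have e1 : ∑' k, (T : Set ℕ).indicator ξ k = ∑ m ∈ Finset.range (n + 1), ξ (i m ω) := by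
    rw [tsum_eq_sum (s := T) fun k hk => indicator_of_notMem hk _, hT,
      Finset.sum_image fun a _ b _ hab => h.iinj ω hab]
    refine Finset.sum_congr rfl fun m hm => indicator_of_mem ?_ _
    exact Finset.mem_coe.2 (Finset.mem_image_of_mem _ hm)
  have e2 : ∑' k, (S \ T).indicator ξ (e n k ω) = ∑' k, (S \ T).indicator ξ k := by
    refine (h.einj ω n).tsum_eq (f := (S \ T).indicator ξ) fun k hk => ?_
    have hk' := support_indicator_subset hk
    exact h3 k hk'.1 fun m hm hkm => hk'.2 ((hmemT k).2 ⟨m, hm, hkm.symm⟩)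
  unfold nestSum
  change ∑' k, S.indicator ξ k = _
  rw [hsplit, s1.tsum_add s2, e1, ← e2]
  congr 1
  refine tsum_congr fun k => ?_
  have hkT : e n k ω ∉ T := fun hk => by
    obtain ⟨m, hm, hmk⟩ := (hmemT _).1 hk
    exact e_ne h ω n k hm hmk.symm
  by_cases hk : e n k ω ∈ S
  · rw [indicator_of_mem (show e n k ω ∈ S \ T from ⟨hk, hkT⟩), indicator_of_mem]
    rw [mem_ofPred_eq, h2]; exact hk
  · rw [indicator_of_notMem (fun h => hk h.1), indicator_of_notMem]
    rw [mem_ofPred_eq, h2]; exact hk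

theorem Sk.good_inner (h : Sk κ P V i f e) (n : ℕ) (ω : Ω) :
    Good fun k => pull (f n ω) (V (e n k ω) ω) :=
  (h.good ω).pull (h.fconf ω n).univ (h.einj ω n) (e_sub h ω n)

theorem Sk.univ_comp (h : Sk κ P V i f e) {F : ℂ → ℂ} (hF : Univ F) (n : ℕ) (ω : Ω) :
    Univ (fun w => F (f n ω w)) ∧
      ‖deriv (fun w => F (f n ω w)) 0‖ = ‖deriv F 0‖ * Real.exp (-Tt f n ω) := by
  have hc := h.fconf ω n
  have hm : MapsTo (f n ω) (ball 0 1) (ball 0 1) := hc.2.mapsTo.mono_right (dom_sub h ω n)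
  have h0 : (0 : ℂ) ∈ ball (0 : ℂ) 1 := mem_ball_self one_pos
  refine ⟨⟨hF.1.comp hc.1 hm, hF.2.comp hc.2.injOn hm⟩, ?_⟩
  have d1 : DifferentiableAt ℂ (f n ω) 0 := hc.1.differentiableAt (isOpen_ball.mem_nhds h0)
  have d2 : DifferentiableAt ℂ F (f n ω 0) := by
    rw [h.f0]; exact hF.1.differentiableAt (isOpen_ball.mem_nhds h0)
  have d3 := (d2.hasDerivAt.comp 0 d1.hasDerivAt).deriv
  have hne := univ_deriv_ne_zero isOpen_ball hc.1 hc.2.injOn h0
  rw [h.f0] at d3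
  change ‖deriv (F ∘ f n ω) 0‖ = _
  rw [d3, norm_mul, Tt, neg_neg, Real.exp_log (norm_pos_iff.2 hne)]

end Pool.Agent.MP_ac6554_pr

end

section

set_option autoImplicit false

open MeasureTheory ProbabilityTheory TopologicalSpace Metric Set Filter Topology
open scoped NNReal ENNReal

namespace Pool.Agent.MP_ac6554_pr

namespace CRAux

/-- A polynomial vanishing at the origin. -/
noncomputable def pol {n : ℕ} (a : Fin (n + 1) → ℂ) (z : ℂ) : ℂ := ∑ i, a i * z ^ ((i : ℕ) + 1)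

lemma pol_zero {n : ℕ} (a : Fin (n + 1) → ℂ) : pol a 0 = 0 := by simp [pol]

lemma differentiable_pol {n : ℕ} (a : Fin (n + 1) → ℂ) : Differentiable ℂ (pol a) := by
  unfold pol; fun_prop

lemma deriv_pol {n : ℕ} (a : Fin (n + 1) → ℂ) : deriv (pol a) 0 = a 0 := by
  have : HasDerivAt (pol a)
      (∑ i : Fin (n + 1), a i * ((((i : ℕ) + 1 : ℕ) : ℂ) * (0 : ℂ) ^ ((i : ℕ) + 1 - 1))) 0 :=
    HasDerivAt.fun_sum fun i _ => (hasDerivAt_pow _ _).const_mul _
  rw [this.deriv, Fin.sum_univ_succ]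
  simp

lemma norm_pol_sub {n : ℕ} (a b : Fin (n + 1) → ℂ) {z : ℂ} (hz : ‖z‖ ≤ 1) :
    ‖pol a z - pol b z‖ ≤ (n + 1) * dist a b := by
  rw [pol, pol, ← Finset.sum_sub_distrib]
  refine (norm_sum_le _ _).trans ((Finset.sum_le_card_nsmul _ _ (dist a b) fun i _ => ?_).trans ?_)
  · rw [← sub_mul, norm_mul, norm_pow, ← dist_eq_norm]
    exact (mul_le_of_le_one_right dist_nonneg (pow_le_one₀ (norm_nonneg _) hz)).trans
      (dist_le_pi_dist a b i)
  · simp

/-- The conformal radius at the origin. -/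
noncomputable def cr (U : Opens ℂ) : ℝ≥0∞ := ⨆ n : ℕ, ⨆ k : ℕ,
  {V : Opens ℂ | pol (denseSeq (Fin (n + 1) → ℂ) k) '' closedBall 0 1 ⊆ V}.indicator
    (fun _ => ‖denseSeq (Fin (n + 1) → ℂ) k 0‖ₑ) U

lemma norm_le {U : Opens ℂ} {j : ℂ → ℂ} (hj : Conf j (comp0 U)) (h0 : j 0 = 0) {g : ℂ → ℂ}
    (hg : Differentiable ℂ g) (hg0 : g 0 = 0) (hU : g '' closedBall 0 1 ⊆ U) :
    ‖deriv g 0‖ ≤ ‖deriv j 0‖ := by
  have hb : (0 : ℂ) ∈ ball (0 : ℂ) 1 := mem_ball_self one_pos
  have hsub : g '' ball 0 1 ⊆ j '' ball 0 1 := by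
    rw [hj.2.image_eq, coe_comp0]
    exact ((convex_ball (0 : ℂ) 1).isPreconnected.image g
      hg.continuous.continuousOn).subset_connectedComponentIn ⟨0, hb, hg0⟩
      ((image_mono ball_subset_closedBall).trans hU)
  have hmem : ∀ z ∈ ball (0 : ℂ) 1, ∃ a ∈ ball (0 : ℂ) 1, j a = g z := fun z hz =>
    hsub ⟨z, hz, rfl⟩
  set φ : ℂ → ℂ := fun z => Function.invFunOn j (ball 0 1) (g z) with hφ
  have hφd : DifferentiableOn ℂ φ (ball 0 1) :=
    (univ_inv_diff isOpen_ball hj.1 hj.2.injOn).comp hg.differentiableOn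
      fun z hz => hsub ⟨z, hz, rfl⟩
  have hφm : ∀ z ∈ ball (0 : ℂ) 1, φ z ∈ ball (0 : ℂ) 1 := fun z hz =>
    Function.invFunOn_mem (hmem z hz)
  have hφe : ∀ z ∈ ball (0 : ℂ) 1, j (φ z) = g z := fun z hz => Function.invFunOn_eq (hmem z hz)
  have hφ0 : φ 0 = 0 := hj.2.injOn (hφm 0 hb) hb (by rw [hφe 0 hb, hg0, h0])
  have h1 : ‖deriv φ 0‖ ≤ 1 := by
    have := Complex.norm_deriv_le_div_of_mapsTo_ball (R₂ := 1) hφd
      (fun z hz => by rw [hφ0]; exact ball_subset_closedBall (hφm z hz)) one_pos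
    simpa using this
  have h2 : deriv g 0 = deriv j 0 * deriv φ 0 := by
    have e : g =ᶠ[𝓝 0] j ∘ φ := by
      filter_upwards [isOpen_ball.mem_nhds hb] with z hz
      exact (hφe z hz).symm
    rw [e.deriv_eq, deriv_comp 0 (by rw [hφ0]; exact hj.1.differentiableAt (isOpen_ball.mem_nhds hb))
      (hφd.differentiableAt (isOpen_ball.mem_nhds hb)), hφ0]
  rw [h2, norm_mul]
  exact mul_le_of_le_one_right (norm_nonneg _) h1

lemma exists_pol {j : ℂ → ℂ} (hj : DifferentiableOn ℂ j (ball 0 1)) (h0 : j 0 = 0) {s δ : ℝ}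
    (hs0 : 0 < s) (hs : s < 1) (hδ : 0 < δ) : ∃ (n : ℕ) (b : Fin (n + 1) → ℂ),
      b 0 = s * deriv j 0 ∧ ∀ z : ℂ, ‖z‖ ≤ 1 → dist (pol b z) (j (s * z)) < δ := by
  obtain ⟨R, hsR, hR1⟩ := exists_between hs
  obtain ⟨r, hsr, hrR⟩ := exists_between hsR
  lift R to ℝ≥0 using by linarith
  lift r to ℝ≥0 using by linarith
  have hR0 : 0 < R := by exact_mod_cast hs0.trans hsR
  have hp := (hj.mono (closedBall_subset_ball hR1)).hasFPowerSeriesOnBall hR0
  set p := cauchyPowerSeries j 0 R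
  have hu := hp.tendstoUniformlyOn (r' := r) (by exact_mod_cast hrR)
  obtain ⟨N, hN⟩ := eventually_atTop.1 (Metric.tendstoUniformlyOn_iff.1 hu δ hδ)
  refine ⟨N, fun i => p.coeff (i + 1) * s ^ ((i : ℕ) + 1), ?_, fun z hz => ?_⟩
  · rw [hp.hasFPowerSeriesAt.deriv]
    simp [mul_comm]
  · have hz' : (s : ℂ) * z ∈ ball (0 : ℂ) r := by
      rw [mem_ball_zero_iff, norm_mul, Complex.norm_real, Real.norm_eq_abs, abs_of_pos hs0]
      nlinarith
    have := hN (N + 1 + 1) (by omega) _ hz'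
    rw [zero_add, dist_comm] at this
    convert this using 2
    rw [FormalMultilinearSeries.partialSum, Finset.sum_range_succ', hp.coeff_zero, h0, add_zero,
      pol, Finset.sum_range]
    refine Finset.sum_congr rfl fun i _ => ?_
    rw [FormalMultilinearSeries.apply_eq_pow_smul_coeff, smul_eq_mul, mul_pow]
    ring

end CRAux

open CRAux in
theorem exists_cr : ∃ cr : Opens ℂ → ℝ≥0∞, Measurable cr ∧ Monotone cr ∧
    (∀ U : Opens ℂ, (0 : ℂ) ∉ U → cr U = 0) ∧
    ∀ (U : Opens ℂ) (j : ℂ → ℂ), Conf j (comp0 U) → j 0 = 0 → cr U = ‖deriv j 0‖ₑ := by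
  refine ⟨cr, ?_, fun U V h => ?_, fun U h => ?_, fun U j hj h0 => le_antisymm ?_ ?_⟩
  · refine Measurable.iSup fun n => Measurable.iSup fun k => measurable_const.indicator ?_
    exact MeasurableSpace.measurableSet_generateFrom ⟨_, (isCompact_closedBall 0 1).image
      (differentiable_pol _).continuous, rfl⟩
  · refine iSup_mono fun n => iSup_mono fun k => ?_
    by_cases hU : pol (denseSeq (Fin (n + 1) → ℂ) k) '' closedBall 0 1 ⊆ U
    · rw [indicator_of_mem (by exact hU), indicator_of_mem (by exact hU.trans h)]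
    · rw [indicator_of_notMem (by exact hU)]; exact zero_le
  · refine le_antisymm (iSup_le fun n => iSup_le fun k => ?_) zero_le
    rw [indicator_of_notMem]
    exact fun hU => h (hU ⟨0, mem_closedBall_self zero_le_one, pol_zero _⟩)
  · refine iSup_le fun n => iSup_le fun k => ?_
    by_cases hU : pol (denseSeq (Fin (n + 1) → ℂ) k) '' closedBall 0 1 ⊆ U
    · rw [indicator_of_mem (by exact hU), ← deriv_pol (denseSeq (Fin (n + 1) → ℂ) k),
        ← ofReal_norm, ← ofReal_norm]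
      exact ENNReal.ofReal_le_ofReal (norm_le hj h0 (differentiable_pol _) (pol_zero _) hU)
    · rw [indicator_of_notMem (by exact hU)]; exact zero_le
  · refine le_of_forall_lt fun c hc => ?_
    have hct : c ≠ ⊤ := hc.ne_top
    rw [← ofReal_norm, ENNReal.lt_ofReal_iff_toReal_lt hct] at hc
    have h1 : ∀ᶠ s in 𝓝[<] (1 : ℝ), c.toReal < s * ‖deriv j 0‖ := by
      refine nhdsWithin_le_nhds (continuousAt_const.eventually_lt (by fun_prop) ?_)
      simpa using hc
    obtain ⟨s, hs1, hs2⟩ := (h1.and (Ioo_mem_nhdsLT one_pos)).exists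
    have hK : IsCompact (j '' closedBall 0 s) := (isCompact_closedBall 0 s).image_of_continuousOn
      (hj.1.continuousOn.mono (closedBall_subset_ball hs2.2))
    have hKU : j '' closedBall 0 s ⊆ U :=
      ((image_mono (closedBall_subset_ball hs2.2)).trans hj.2.image_eq.subset).trans (comp0_le U)
    obtain ⟨δ, hδ, hth⟩ := hK.exists_thickening_subset_open U.isOpen hKU
    obtain ⟨n, b, hb0, hb⟩ := exists_pol hj.1 h0 hs2.1 hs2.2 (half_pos hδ)
    have hη : 0 < min (s * ‖deriv j 0‖ - c.toReal) (δ / 2 / (n + 1)) :=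
      lt_min (by linarith) (by positivity)
    obtain ⟨k, hk⟩ := (denseRange_denseSeq (Fin (n + 1) → ℂ)).exists_dist_lt b hη
    set a := denseSeq (Fin (n + 1) → ℂ) k with ha
    have hU : pol a '' closedBall 0 1 ⊆ U := by
      rintro _ ⟨z, hz, rfl⟩
      have hz' := mem_closedBall_zero_iff.1 hz
      refine hth (mem_thickening_iff.2 ⟨j (s * z), ⟨s * z, ?_, rfl⟩, ?_⟩)
      · rw [mem_closedBall_zero_iff, norm_mul, Complex.norm_real, Real.norm_eq_abs,
          abs_of_pos hs2.1]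
        nlinarith [hs2.1]
      · have h2 := norm_pol_sub a b hz'
        have h3 : dist a b ≤ δ / 2 / (n + 1) := by
          rw [dist_comm]; exact (hk.trans_le (min_le_right _ _)).le
        rw [le_div_iff₀ (by positivity)] at h3
        have h4 := dist_triangle (pol a z) (pol b z) (j (s * z))
        rw [← dist_eq_norm] at h2
        have := hb z hz'
        linarith
    refine lt_of_lt_of_le ?_ (le_iSup₂_of_le n k le_rfl)
    rw [indicator_of_mem (by exact hU), ← ofReal_norm,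
      ENNReal.lt_ofReal_iff_toReal_lt hct]
    have h5 : dist (b 0) (a 0) < s * ‖deriv j 0‖ - c.toReal :=
      (dist_le_pi_dist b a 0).trans_lt (hk.trans_le (min_le_left _ _))
    have h6 : ‖b 0‖ = s * ‖deriv j 0‖ := by
      rw [hb0, norm_mul, Complex.norm_real, Real.norm_eq_abs, abs_of_pos hs2.1]
    have h7 := norm_sub_norm_le (b 0) (a 0)
    rw [dist_eq_norm] at h5
    linarith

end Pool.Agent.MP_ac6554_pr

end

section

/-! The radial Loewner domain is the conformal image of the disc, with derivative `exp (-T)`. -/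

set_option autoImplicit false

open MeasureTheory TopologicalSpace Metric Set Filter Topology
open scoped NNReal

namespace Pool.Agent.MP_ac6554_pr

namespace LoewnerAux

/-- A solution of the radial Loewner equation that lives in the disc on `[0,T]`. -/
def Sol (W : ℝ → ℂ) (T : ℝ) (g : ℝ → ℂ) : Prop :=
  ∀ s ∈ Icc 0 T, g s ∈ ball (0 : ℂ) 1 ∧
    HasDerivWithinAt g (g s * (W s + g s) / (W s - g s)) (Icc 0 T) s

/-- The linear equation. -/
lemma lin_ode {T : ℝ} {y q : ℝ → ℂ} (hq : ContinuousOn q (Icc 0 T))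
    (hy : ∀ s ∈ Icc 0 T, HasDerivWithinAt y (y s * q s) (Icc 0 T) s) :
    ∀ s ∈ Icc 0 T, y s = y 0 * Complex.exp (∫ u in (0 : ℝ)..s, q u) := by
  have h1 : ∀ s ∈ Icc 0 T, HasDerivWithinAt (fun s => ∫ u in (0 : ℝ)..s, q u) (q s) (Icc 0 T) s := by
    intro s hs
    have : Fact (s ∈ Icc 0 T) := ⟨hs⟩
    refine intervalIntegral.integral_hasDerivWithinAt_right ?_
      (hq.stronglyMeasurableAtFilter_nhdsWithin measurableSet_Icc s) (hq s hs)
    exact (hq.mono (uIcc_subset_Icc ⟨le_rfl, hs.1.trans hs.2⟩ hs)).intervalIntegrable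
  have h2 : ∀ s ∈ Icc 0 T, HasDerivWithinAt
      (fun s => y s * Complex.exp (-∫ u in (0 : ℝ)..s, q u)) 0 (Icc 0 T) s := by
    intro s hs
    have := (hy s hs).mul ((h1 s hs).neg.cexp)
    exact this.congr_deriv (by simp only [Pi.neg_apply]; ring)
  have h3 := constant_of_has_deriv_right_zero (a := 0) (b := T)
    (f := fun s => y s * Complex.exp (-∫ u in (0 : ℝ)..s, q u))
    (fun s hs => (h2 s hs).continuousWithinAt)
    (fun s hs => (h2 s (Ico_subset_Icc_self hs)).mono_of_mem_nhdsWithin (Icc_mem_nhdsGE_of_mem hs))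
  intro s hs
  have h4 := h3 s hs
  simp only [intervalIntegral.integral_same, neg_zero, Complex.exp_zero, mul_one] at h4
  rw [← h4, mul_assoc, ← Complex.exp_add, neg_add_cancel, Complex.exp_zero, mul_one]

lemma norm_sub_ge {V a : ℂ} (hV : ‖V‖ = 1) {r : ℝ} (ha : ‖a‖ ≤ r) : 1 - r ≤ ‖V - a‖ := by
  have := norm_sub_norm_le V a
  linarith

lemma sub_ne {V a : ℂ} (hV : ‖V‖ = 1) (ha : ‖a‖ < 1) : V - a ≠ 0 := by
  have := norm_sub_ge hV (le_refl ‖a‖)
  exact norm_pos_iff.1 (by linarith)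

/-- The divided difference of the vector field. -/
noncomputable def dq (V a b : ℂ) : ℂ := -1 + 2 * V ^ 2 / ((V - a) * (V - b))

lemma field_sub {V a b : ℂ} (ha : V - a ≠ 0) (hb : V - b ≠ 0) :
    a * (V + a) / (V - a) - b * (V + b) / (V - b) = (a - b) * dq V a b := by
  unfold dq
  field_simp
  ring

lemma norm_dq {V a b : ℂ} (hV : ‖V‖ = 1) {r : ℝ} (hr : r < 1) (ha : ‖a‖ ≤ r) (hb : ‖b‖ ≤ r) :
    ‖dq V a b‖ ≤ 1 + 2 / (1 - r) ^ 2 := by
  unfold dq
  refine (norm_add_le _ _).trans ?_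
  rw [norm_neg, norm_one, norm_div, norm_mul, norm_mul, norm_pow, hV, Complex.norm_two, one_pow,
    mul_one]
  have h0 : 0 < 1 - r := by linarith
  have h1 : (1 - r) ^ 2 ≤ ‖V - a‖ * ‖V - b‖ := by
    rw [sq]
    exact mul_le_mul (norm_sub_ge hV ha) (norm_sub_ge hV hb) h0.le (norm_nonneg _)
  have := div_le_div_of_nonneg_left (by norm_num : (0 : ℝ) ≤ 2) (by positivity) h1
  linarith

variable {W : ℝ → ℂ} {T : ℝ}

lemma Sol.cont {g : ℝ → ℂ} (hg : Sol W T g) : ContinuousOn g (Icc 0 T) :=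
  fun s hs => (hg s hs).2.continuousWithinAt

lemma cont_dq (hW : Continuous W) (h1 : ∀ t, ‖W t‖ = 1) {g k : ℝ → ℂ} (hg : Sol W T g)
    (hk : Sol W T k) : ContinuousOn (fun s => dq (W s) (g s) (k s)) (Icc 0 T) := by
  unfold dq
  refine continuousOn_const.add (ContinuousOn.div (by fun_prop)
    ((hW.continuousOn.sub hg.cont).mul (hW.continuousOn.sub hk.cont)) fun s hs => ?_)
  exact mul_ne_zero (sub_ne (h1 s) (mem_ball_zero_iff.1 (hg s hs).1))
    (sub_ne (h1 s) (mem_ball_zero_iff.1 (hk s hs).1))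

lemma sol_sub (hW : Continuous W) (h1 : ∀ t, ‖W t‖ = 1) {g k : ℝ → ℂ} (hg : Sol W T g)
    (hk : Sol W T k) : ∀ s ∈ Icc 0 T,
      g s - k s = (g 0 - k 0) * Complex.exp (∫ u in (0 : ℝ)..s, dq (W u) (g u) (k u)) := by
  refine lin_ode (y := fun s => g s - k s) (cont_dq hW h1 hg hk) fun s hs => ?_
  have := (hg s hs).2.sub (hk s hs).2
  rwa [field_sub (sub_ne (h1 s) (mem_ball_zero_iff.1 (hg s hs).1))
    (sub_ne (h1 s) (mem_ball_zero_iff.1 (hk s hs).1))] at this

lemma sol_zero (hW : Continuous W) (h1 : ∀ t, ‖W t‖ = 1) (hT : 0 ≤ T) {g k : ℝ → ℂ}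
    (hg : Sol W T g) (hk : Sol W T k) :
    g 0 - k 0 = (g T - k T) * Complex.exp (-∫ u in (0 : ℝ)..T, dq (W u) (g u) (k u)) := by
  rw [sol_sub hW h1 hg hk T ⟨hT, le_rfl⟩, mul_assoc, ← Complex.exp_add, add_neg_cancel,
    Complex.exp_zero, mul_one]

lemma norm_int_le (h1 : ∀ t, ‖W t‖ = 1) {g k : ℝ → ℂ} {r : ℝ} (hr : r < 1)
    (hg : ∀ s ∈ Icc 0 T, ‖g s‖ ≤ r) (hk : ∀ s ∈ Icc 0 T, ‖k s‖ ≤ r) {s : ℝ} (hs : s ∈ Icc 0 T) :
    ‖∫ u in (0 : ℝ)..s, dq (W u) (g u) (k u)‖ ≤ (1 + 2 / (1 - r) ^ 2) * T := by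
  have h := intervalIntegral.norm_integral_le_of_norm_le_const (a := 0) (b := s)
    (f := fun u => dq (W u) (g u) (k u)) (C := 1 + 2 / (1 - r) ^ 2) fun u hu => by
      rw [uIoc_of_le hs.1] at hu
      exact norm_dq (h1 u) hr (hg u ⟨hu.1.le, hu.2.trans hs.2⟩) (hk u ⟨hu.1.le, hu.2.trans hs.2⟩)
  rw [sub_zero, abs_of_nonneg hs.1] at h
  exact h.trans (mul_le_mul_of_nonneg_left hs.2 (by positivity))

lemma sol_lip (hW : Continuous W) (h1 : ∀ t, ‖W t‖ = 1) (hT : 0 ≤ T) {g k : ℝ → ℂ}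
    (hg : Sol W T g) (hk : Sol W T k) {r : ℝ} (hr : r < 1)
    (hg' : ∀ s ∈ Icc 0 T, ‖g s‖ ≤ r) (hk' : ∀ s ∈ Icc 0 T, ‖k s‖ ≤ r) {s : ℝ} (hs : s ∈ Icc 0 T) :
    ‖g s - k s‖ ≤ ‖g T - k T‖ * Real.exp ((1 + 2 / (1 - r) ^ 2) * T) *
      Real.exp ((1 + 2 / (1 - r) ^ 2) * T) := by
  rw [sol_sub hW h1 hg hk s hs, sol_zero hW h1 hT hg hk, norm_mul, norm_mul]
  have e1 := norm_int_le h1 hr hg' hk' hs
  have e2 := norm_int_le h1 hr hg' hk' ⟨hT, le_rfl⟩
  refine mul_le_mul (mul_le_mul_of_nonneg_left ?_ (norm_nonneg _)) ?_ (norm_nonneg _) (by positivity)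
  · refine (Complex.norm_exp_le_exp_norm _).trans (Real.exp_le_exp.2 ?_)
    rwa [norm_neg]
  · exact (Complex.norm_exp_le_exp_norm _).trans (Real.exp_le_exp.2 e1)

/-- The radial retraction onto the closed disc of radius `r`. -/
noncomputable def ret (r : ℝ) (z : ℂ) : ℂ := (r / max r ‖z‖ : ℝ) * z

lemma ret_eq {r : ℝ} (hr : 0 < r) {z : ℂ} (hz : ‖z‖ ≤ r) : ret r z = z := by
  unfold ret
  rw [max_eq_left hz, div_self hr.ne']
  simp

lemma norm_ret {r : ℝ} (hr : 0 < r) (z : ℂ) : ‖ret r z‖ ≤ r := by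
  unfold ret
  have h0 : 0 < max r ‖z‖ := lt_max_of_lt_left hr
  rw [norm_mul, Complex.norm_real, Real.norm_of_nonneg (by positivity), div_mul_eq_mul_div,
    div_le_iff₀ h0]
  exact mul_le_mul_of_nonneg_left (le_max_right _ _) hr.le

lemma ret_lip {r : ℝ} (hr : 0 < r) (z w : ℂ) : ‖ret r z - ret r w‖ ≤ 2 * ‖z - w‖ := by
  have hz : 0 < max r ‖z‖ := lt_max_of_lt_left hr
  have hw : 0 < max r ‖w‖ := lt_max_of_lt_left hr
  have h1 : ret r z - ret r w = (r / max r ‖z‖ : ℝ) * (z - w) +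
      ((r / max r ‖z‖ - r / max r ‖w‖ : ℝ) : ℂ) * w := by
    unfold ret
    push_cast
    ring
  have h2 : r / max r ‖z‖ ≤ 1 := (div_le_one hz).2 (le_max_left _ _)
  have h3 : |max r ‖w‖ - max r ‖z‖| ≤ ‖z - w‖ := by
    refine (abs_max_sub_max_le_max _ _ _ _).trans (max_le (by simp) ?_)
    rw [norm_sub_rev]
    exact abs_norm_sub_norm_le w z
  have h4 : |r / max r ‖z‖ - r / max r ‖w‖| * ‖w‖ ≤ ‖z - w‖ := by
    have e : r / max r ‖z‖ - r / max r ‖w‖ =
        (max r ‖w‖ - max r ‖z‖) * (r / max r ‖z‖) / max r ‖w‖ := by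
      field_simp
    rw [e, abs_div, abs_mul, abs_of_pos hw, abs_of_pos (div_pos hr hz), div_mul_eq_mul_div,
      div_le_iff₀ hw]
    refine mul_le_mul ?_ (le_max_right _ _) (norm_nonneg _) (norm_nonneg _)
    exact (mul_le_of_le_one_right (abs_nonneg _) h2).trans h3
  rw [h1]
  refine (norm_add_le _ _).trans ?_
  rw [norm_mul, norm_mul, Complex.norm_real, Complex.norm_real, Real.norm_eq_abs, Real.norm_eq_abs,
    abs_of_pos (div_pos hr hz)]
  have := mul_le_of_le_one_left (norm_nonneg (z - w)) h2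
  linarith

lemma re_nonneg {V p : ℂ} (hV : ‖V‖ = 1) (hp : ‖p‖ < 1) : 0 ≤ ((V + p) / (V - p)).re := by
  rw [Complex.div_re, ← add_div]
  refine div_nonneg ?_ (Complex.normSq_nonneg _)
  have h1 : V.re ^ 2 + V.im ^ 2 = 1 := by
    have := Complex.sq_norm V
    rw [hV, Complex.normSq_apply] at this
    linarith
  have h2 : p.re ^ 2 + p.im ^ 2 ≤ 1 := by
    have := Complex.sq_norm p
    rw [Complex.normSq_apply] at this
    nlinarith [norm_nonneg p]
  simp only [Complex.add_re, Complex.sub_re, Complex.add_im, Complex.sub_im]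
  nlinarith

lemma exists_sol (hW : Continuous W) (h1 : ∀ t, ‖W t‖ = 1) (hT : 0 ≤ T) {w : ℂ} (hw : ‖w‖ < 1) :
    ∃ g, Sol W T g ∧ g T = w ∧ ∀ s ∈ Icc 0 T, ‖g s‖ ≤ ‖w‖ := by
  obtain ⟨r, hwr, hr1⟩ := exists_between hw
  have hr : 0 < r := (norm_nonneg w).trans_lt hwr
  have hne : ∀ t z, W t - ret r z ≠ 0 := fun t z => sub_ne (h1 t) ((norm_ret hr z).trans_lt hr1)
  set C : ℝ := 1 + 2 / (1 - r) ^ 2 with hC
  have hC0 : 0 ≤ C := by positivity
  have hpl : IsPicardLindelof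
      (fun t z => ret r z * (W t + ret r z) / (W t - ret r z)) (⟨T, hT, le_rfl⟩ : Icc 0 T) w
      ⟨C * T, mul_nonneg hC0 hT⟩ 0 ⟨C, hC0⟩ ⟨2 * C, by positivity⟩ := by
    refine ⟨fun t _ => ?_, fun z _ => ?_, fun t _ z _ => ?_, ?_⟩
    · refine LipschitzWith.lipschitzOnWith (LipschitzWith.of_dist_le_mul fun a b => ?_)
      rw [dist_eq_norm, dist_eq_norm, field_sub (hne t a) (hne t b), norm_mul]
      refine (mul_le_mul (ret_lip hr a b) (norm_dq (h1 t) hr1 (norm_ret hr a) (norm_ret hr b))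
        (norm_nonneg _) (by positivity)).trans (le_of_eq ?_)
      change _ = 2 * C * _
      ring
    · exact (Continuous.div (by fun_prop) (by fun_prop) fun t => hne t z).continuousOn
    · have h := field_sub (hne t z) (b := 0) (sub_ne (h1 t) (by simp))
      simp only [zero_mul, zero_div, sub_zero] at h
      rw [h, norm_mul]
      refine (mul_le_mul ((norm_ret hr z).trans hr1.le)
        (norm_dq (h1 t) hr1 (norm_ret hr z) (b := 0) (by simpa using hr.le))
        (norm_nonneg _) zero_le_one).trans (le_of_eq ?_)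
      rw [one_mul]
      rfl
    · change C * max (T - T) (T - 0) ≤ C * T - 0
      rw [sub_self, sub_zero, sub_zero, max_eq_right hT]
  obtain ⟨g, hgT, hg⟩ := hpl.exists_eq_forall_mem_Icc_hasDerivWithinAt₀
  have hmono : MonotoneOn (fun s => ‖g s‖ ^ 2) (Icc 0 T) := by
    refine monotoneOn_of_hasDerivWithinAt_nonneg (convex_Icc 0 T)
      (f' := fun s => 2 * inner ℝ (g s) (ret r (g s) * (W s + ret r (g s)) / (W s - ret r (g s))))
      (fun s hs => (hg s hs).norm_sq.continuousWithinAt)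
      (fun s hs => ((hg s (interior_subset hs)).norm_sq).mono interior_subset) fun s _ => ?_
    have e1 := re_nonneg (h1 s) ((norm_ret hr (g s)).trans_lt hr1)
    have e2 : 0 ≤ r / max r ‖g s‖ := by positivity
    rw [mul_div_assoc]
    generalize (W s + ret r (g s)) / (W s - ret r (g s)) = ζ at e1 ⊢
    unfold ret
    generalize r / max r ‖g s‖ = a at e2 ⊢
    have e3 : inner ℝ (g s) ((a : ℂ) * g s * ζ) = a * ((g s).re ^ 2 + (g s).im ^ 2) * ζ.re := by
      rw [Complex.inner]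
      simp only [Complex.mul_re, Complex.mul_im, Complex.ofReal_re, Complex.ofReal_im,
        Complex.conj_re, Complex.conj_im]
      ring
    rw [e3]
    positivity
  have hle : ∀ s ∈ Icc 0 T, ‖g s‖ ≤ ‖w‖ := by
    intro s hs
    have := hmono hs ⟨hT, le_rfl⟩ hs.2
    simp only at this hgT
    rw [hgT] at this
    exact (pow_le_pow_iff_left₀ (norm_nonneg _) (norm_nonneg _) two_ne_zero).1 this
  refine ⟨g, fun s hs => ⟨mem_ball_zero_iff.2 ((hle s hs).trans_lt hw), ?_⟩, hgT, hle⟩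
  have := hg s hs
  rwa [ret_eq hr ((hle s hs).trans hwr.le)] at this

end LoewnerAux

open LoewnerAux in
/-- The Loewner domain at time `T` is the conformal image of the disc under a map that fixes the
origin and has derivative `exp (-T)` there. -/
theorem loewner_conf' {W : ℝ → ℂ} (hW : Continuous W) (h1 : ∀ t, ‖W t‖ = 1) {T : ℝ} (hT : 0 ≤ T) :
    ∃ h : ℂ → ℂ, Conf h (loewner W T) ∧ h 0 = 0 ∧ HasDerivAt h (Real.exp (-T) : ℂ) 0 := by
  have hex : ∀ w : ℂ, ∃ g : ℝ → ℂ, ‖w‖ < 1 → Sol W T g ∧ g T = w ∧ ∀ s ∈ Icc 0 T, ‖g s‖ ≤ ‖w‖ := by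
    intro w
    by_cases hw : ‖w‖ < 1
    · obtain ⟨g, hg⟩ := exists_sol hW h1 hT hw
      exact ⟨g, fun _ => hg⟩
    · exact ⟨fun _ => 0, fun h => absurd h hw⟩
  choose G hG using hex
  have hder : ∀ w : ℂ, ‖w‖ < 1 → HasDerivAt (fun z => G z 0)
      (Complex.exp (-∫ u in (0 : ℝ)..T, dq (W u) (G w u) (G w u))) w := by
    intro w hw
    obtain ⟨r, hwr, hr1⟩ := exists_between hw
    have hev : ∀ᶠ z in 𝓝 w, ‖z‖ < r := continuous_norm.continuousAt.eventually_lt
      continuousAt_const hwr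
    have hb : ∀ z : ℂ, ‖z‖ < r → ∀ s ∈ Icc 0 T, ‖G z s‖ ≤ r := fun z hz s hs =>
      ((hG z (hz.trans hr1)).2.2 s hs).trans hz.le
    have hpt : ∀ s ∈ Icc 0 T, Tendsto (fun z => G z s) (𝓝 w) (𝓝 (G w s)) := by
      intro s hs
      rw [tendsto_iff_norm_sub_tendsto_zero]
      refine squeeze_zero' (g := fun z => ‖z - w‖ * Real.exp ((1 + 2 / (1 - r) ^ 2) * T) *
        Real.exp ((1 + 2 / (1 - r) ^ 2) * T)) (Eventually.of_forall fun _ => norm_nonneg _) ?_ ?_
      · filter_upwards [hev] with z hz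
        have := sol_lip hW h1 hT (hG z (hz.trans hr1)).1 (hG w hw).1 hr1 (hb z hz) (hb w hwr) hs
        rwa [(hG z (hz.trans hr1)).2.1, (hG w hw).2.1] at this
      · have : Continuous fun z : ℂ => ‖z - w‖ * Real.exp ((1 + 2 / (1 - r) ^ 2) * T) *
          Real.exp ((1 + 2 / (1 - r) ^ 2) * T) := by fun_prop
        simpa using this.tendsto w
    have hint : Tendsto (fun z => ∫ u in (0 : ℝ)..T, dq (W u) (G z u) (G w u)) (𝓝 w)
        (𝓝 (∫ u in (0 : ℝ)..T, dq (W u) (G w u) (G w u))) := by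
      have hsub : ∀ u ∈ uIoc 0 T, u ∈ Icc 0 T := fun u hu => by
        rw [uIoc_of_le hT] at hu
        exact Ioc_subset_Icc_self hu
      refine intervalIntegral.tendsto_integral_filter_of_dominated_convergence
        (fun _ => 1 + 2 / (1 - r) ^ 2) ?_ ?_ intervalIntegrable_const ?_
      · filter_upwards [hev] with z hz
        exact ((cont_dq hW h1 (hG z (hz.trans hr1)).1 (hG w hw).1).mono hsub).aestronglyMeasurable
          measurableSet_uIoc
      · filter_upwards [hev] with z hz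
        exact Eventually.of_forall fun u hu =>
          norm_dq (h1 u) hr1 (hb z hz u (hsub u hu)) (hb w hwr u (hsub u hu))
      · refine Eventually.of_forall fun u hu => ?_
        have hne := sub_ne (h1 u) ((hb w hwr u (hsub u hu)).trans_lt hr1)
        unfold dq
        exact tendsto_const_nhds.add (tendsto_const_nhds.div
          ((tendsto_const_nhds.sub (hpt u (hsub u hu))).mul tendsto_const_nhds)
          (mul_ne_zero hne hne))
    rw [hasDerivAt_iff_tendsto_slope]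
    refine ((hint.neg.cexp).mono_left nhdsWithin_le_nhds).congr' ?_
    filter_upwards [nhdsWithin_le_nhds hev, self_mem_nhdsWithin] with z hz hzw
    have := sol_zero hW h1 hT (hG z (hz.trans hr1)).1 (hG w hw).1
    rw [(hG z (hz.trans hr1)).2.1, (hG w hw).2.1] at this
    rw [slope_def_field, this, mul_div_cancel_left₀ _ (sub_ne_zero.2 hzw)]
  have hdiff : DifferentiableOn ℂ (fun z => G z 0) (ball 0 1) := fun w hw =>
    (hder w (mem_ball_zero_iff.1 hw)).differentiableAt.differentiableWithinAt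
  have hinj : InjOn (fun z => G z 0) (ball 0 1) := by
    intro z hz w hw h
    have hz' := mem_ball_zero_iff.1 hz
    have hw' := mem_ball_zero_iff.1 hw
    have := sol_zero hW h1 hT (hG z hz').1 (hG w hw').1
    rw [(hG z hz').2.1, (hG w hw').2.1, sub_eq_zero.2 h] at this
    exact sub_eq_zero.1 ((mul_eq_zero.1 this.symm).resolve_right (Complex.exp_ne_zero _))
  have himg : (fun z => G z 0) '' ball 0 1 = {z | ∃ g : ℝ → ℂ, g 0 = z ∧ Sol W T g} := by
    ext z
    constructor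
    · rintro ⟨w, hw, rfl⟩
      exact ⟨G w, rfl, (hG w (mem_ball_zero_iff.1 hw)).1⟩
    · rintro ⟨g, rfl, hg⟩
      have hw := (hg T ⟨hT, le_rfl⟩).1
      have hw' := mem_ball_zero_iff.1 hw
      refine ⟨g T, hw, ?_⟩
      have := sol_zero hW h1 hT (hG _ hw').1 hg
      rw [(hG _ hw').2.1, sub_self, zero_mul] at this
      exact sub_eq_zero.1 this
  have hopen : IsOpen ((fun z => G z 0) '' ball 0 1) := by
    rcases (hdiff.analyticOnNhd isOpen_ball).is_constant_or_isOpen (convex_ball 0 1).isPreconnected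
      with ⟨c, hc⟩ | h
    · have a0 : (0 : ℂ) ∈ ball (0 : ℂ) 1 := by simp
      have a1 : (1 / 2 : ℂ) ∈ ball (0 : ℂ) 1 := by
        rw [mem_ball_zero_iff]
        norm_num
      have := hinj a0 a1 ((hc _ a0).trans (hc _ a1).symm)
      norm_num at this
    · exact h _ Subset.rfl isOpen_ball
  have hL : (loewner W T : Set ℂ) = (fun z => G z 0) '' ball 0 1 := by
    rw [← hopen.interior_eq, himg]
    rfl
  have h0 : ∀ s ∈ Icc 0 T, G 0 s = 0 := fun s hs => by
    simpa using (hG 0 (by simp)).2.2 s hs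
  refine ⟨fun z => G z 0, ⟨hdiff, ?_⟩, h0 0 ⟨le_rfl, hT⟩, ?_⟩
  · rw [hL]
    exact hinj.bijOn_image
  · have := hder 0 (by simp)
    have e : ∫ u in (0 : ℝ)..T, dq (W u) (G 0 u) (G 0 u) = ∫ u in (0 : ℝ)..T, (1 : ℂ) := by
      refine intervalIntegral.integral_congr fun u hu => ?_
      rw [uIcc_of_le hT] at hu
      have hne : W u ≠ 0 := norm_ne_zero_iff.1 (by rw [h1 u]; exact one_ne_zero)
      simp only [h0 u hu, dq, sub_zero]
      field_simp
      ring
    rw [e] at this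
    simpa using this

theorem loewner_conf (W : ℝ → ℂ) (hW : Continuous W) (h1 : ∀ t, ‖W t‖ = 1) {t : ℝ} (ht : 0 ≤ t) :
    ∃ j : ℂ → ℂ, Conf j (loewner W t) ∧ j 0 = 0 ∧ ‖deriv j 0‖ = Real.exp (-t) := by
  obtain ⟨j, a, b, c⟩ := loewner_conf' hW h1 ht
  exact ⟨j, a, b, by rw [c.deriv, Complex.norm_real, Real.norm_of_nonneg (Real.exp_pos _).le]⟩

end Pool.Agent.MP_ac6554_pr

end

section

set_option autoImplicit false

open MeasureTheory ProbabilityTheory TopologicalSpace Metric Set Filter Topology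
open scoped NNReal ENNReal

namespace Pool.Agent.MP_ac6554_pr

namespace CanonAux

theorem exists_le_of_injective {π : ℕ → ℕ} (h : Function.Injective π) (n : ℕ) :
    ∃ i ≤ n, n ≤ π i := by
  by_contra hn
  push Not at hn
  have := Finset.card_le_card_of_injOn (s := Finset.range (n + 1)) (t := Finset.range n) π
    (fun i hi => by
      simp only [Finset.coe_range, mem_Iio] at hi ⊢
      exact hn i (by omega)) h.injOn
  simp at this

theorem monotone_perm {a : ℕ → ℝ} (π : Equiv.Perm ℕ) (h1 : Monotone a) (h2 : Monotone (a ∘ π))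
    (n : ℕ) : a (π n) = a n := by
  apply le_antisymm
  · obtain ⟨j, hj, hn⟩ := exists_le_of_injective π.symm.injective n
    have := h2 hn
    simp only [Function.comp, Equiv.apply_symm_apply] at this
    exact this.trans (h1 hj)
  · obtain ⟨i, hi, hn⟩ := exists_le_of_injective π.injective n
    exact (h1 hn).trans (h2 hi)

/-- The labels preceding `k`. -/
def below (a : ℕ → ℝ) (k : ℕ) : Set ℕ := {j | a j < a k ∨ (a j = a k ∧ j < k)}

/-- Finite sublevel sets. -/
def Fin' (a : ℕ → ℝ) : Prop := ∀ j, {k | a k ≤ a j}.Finite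

theorem below_finite {a : ℕ → ℝ} (h : Fin' a) (k : ℕ) : (below a k).Finite :=
  (h k).subset fun _ hj => hj.elim le_of_lt fun h => h.1.le

theorem rank_lt {a : ℕ → ℝ} (h : Fin' a) {j k : ℕ} (hj : j ∈ below a k) :
    (below a j).ncard < (below a k).ncard := by
  refine ncard_lt_ncard ⟨fun i hi => ?_, fun hs => ?_⟩ (below_finite h k)
  · rcases hi with hi | ⟨hi, hi'⟩ <;> rcases hj with hj | ⟨hj, hj'⟩
    · exact Or.inl (hi.trans hj)
    · exact Or.inl (hj ▸ hi)
    · exact Or.inl (hi ▸ hj)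
    · exact Or.inr ⟨hi.trans hj, hi'.trans hj'⟩
  · rcases hs hj with h1 | ⟨-, h1⟩
    · exact lt_irrefl _ h1
    · exact lt_irrefl _ h1

theorem below_total (a : ℕ → ℝ) (j k : ℕ) : j ∈ below a k ∨ j = k ∨ k ∈ below a j := by
  rcases lt_trichotomy (a j) (a k) with h | h | h
  · exact Or.inl (Or.inl h)
  · rcases lt_trichotomy j k with h' | h' | h'
    · exact Or.inl (Or.inr ⟨h, h'⟩)
    · exact Or.inr (Or.inl h')
    · exact Or.inr (Or.inr (Or.inr ⟨h.symm, h'⟩))
  · exact Or.inr (Or.inr (Or.inl h))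

theorem rank_bij {a : ℕ → ℝ} (h : Fin' a) : Function.Bijective fun k => (below a k).ncard := by
  have hinj : Function.Injective fun k => (below a k).ncard := by
    intro j k hjk
    rcases below_total a j k with h1 | h1 | h1
    · exact absurd hjk (rank_lt h h1).ne
    · exact h1
    · exact absurd hjk (rank_lt h h1).ne'
  refine ⟨hinj, fun m => ?_⟩
  obtain ⟨_, ⟨k, rfl⟩, hk⟩ := (infinite_range_of_injective hinj).exists_gt m
  obtain ⟨j, -, hj⟩ := surj_on_of_inj_on_of_ncard_le (s := below a k)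
    (t := Iio (below a k).ncard) (fun j _ => (below a j).ncard) (fun j hj => rank_lt h hj)
    (fun _ _ _ _ e => hinj e) (by simp) (finite_Iio _) m hk
  exact ⟨j, hj.symm⟩

open Classical in
/-- The rank of a label. -/
noncomputable def rk (a : ℕ → ℝ) (k : ℕ) : ℕ := if Fin' a then (below a k).ncard else k

theorem rk_bij (a : ℕ → ℝ) : Function.Bijective (rk a) := by
  by_cases h : Fin' a
  · have : rk a = fun k => (below a k).ncard := funext fun k => if_pos h
    rw [this]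
    exact rank_bij h
  · have : rk a = id := funext fun k => if_neg h
    rw [this]
    exact Function.bijective_id

/-- The increasing enumeration. -/
noncomputable def srt (a : ℕ → ℝ) : Equiv.Perm ℕ := (Equiv.ofBijective _ (rk_bij a)).symm

theorem srt_symm (a : ℕ → ℝ) (k : ℕ) : (srt a).symm k = rk a k := rfl

theorem monotone_srt {a : ℕ → ℝ} (h : Fin' a) : Monotone (a ∘ srt a) := by
  intro m n hmn
  by_contra hlt
  have h1 := rank_lt h (j := srt a n) (k := srt a m) (Or.inl (not_le.1 hlt))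
  have h2 : ∀ k, (below a (srt a k)).ncard = k := by
    intro k
    have := (srt a).symm_apply_apply k
    rwa [srt_symm, rk, if_pos h] at this
  rw [h2, h2] at h1
  omega

theorem fin'_comp {a : ℕ → ℝ} (h : Fin' a) (τ : Equiv.Perm ℕ) : Fin' (a ∘ τ) := fun j =>
  (h (τ j)).preimage τ.injective.injOn

theorem fin'_comp_iff {a : ℕ → ℝ} (τ : Equiv.Perm ℕ) : Fin' (a ∘ τ) ↔ Fin' a := by
  refine ⟨fun h => ?_, fun h => fin'_comp h τ⟩
  have := fin'_comp h τ.symm
  rwa [Function.comp_assoc, Equiv.self_comp_symm, Function.comp_id] at this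

theorem srt_comp {a : ℕ → ℝ} (h : Fin' a) (τ : Equiv.Perm ℕ) (n : ℕ) :
    a (τ (srt (a ∘ τ) n)) = a (srt a n) := by
  have h1 := monotone_srt h
  have h2 := monotone_srt (fin'_comp h τ)
  have := monotone_perm (a := a ∘ srt a) ((srt (a ∘ τ)).trans (τ.trans (srt a).symm)) h1 (by
    convert h2 using 1
    funext k
    simp) n
  simpa using this

theorem measurableSet_fin' : MeasurableSet {a : ℕ → ℝ | Fin' a} := by
  have : {a : ℕ → ℝ | Fin' a} = ⋂ j, (fun a : ℕ → ℝ => {k | a k ≤ a j}) ⁻¹' {s | s.Finite} := by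
    ext a
    simp [Fin']
  rw [this]
  refine MeasurableSet.iInter fun j => ?_
  refine measurable_set_iff.2 (fun k => ?_) MeasurableSet.setOfPred_finite
  exact measurableSet_setOfPred.1 (measurableSet_le (measurable_pi_apply k) (measurable_pi_apply j))

theorem measurable_rk (k : ℕ) : Measurable fun a : ℕ → ℝ => rk a k := by
  unfold rk
  refine Measurable.ite measurableSet_fin' (measurable_ncard.comp ?_) measurable_const
  refine measurable_set_iff.2 fun j => ?_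
  refine Measurable.or ?_ (Measurable.and ?_ measurable_const)
  · exact measurableSet_setOfPred.1
      (measurableSet_lt (measurable_pi_apply j) (measurable_pi_apply k))
  · exact measurableSet_setOfPred.1
      (measurableSet_eq_fun (measurable_pi_apply j) (measurable_pi_apply k))

theorem measurable_srt (n : ℕ) : Measurable fun a : ℕ → ℝ => srt a n := by
  refine measurable_to_countable' fun k => ?_
  have : (fun a : ℕ → ℝ => srt a n) ⁻¹' {k} = (fun a => rk a k) ⁻¹' {n} := by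
    ext a
    simp only [mem_preimage, mem_singleton_iff, ← srt_symm]
    rw [Equiv.symm_apply_eq, eq_comm]
  rw [this]
  exact measurable_rk k (measurableSet_singleton n)

theorem meas_idx {Ω β : Type*} [MeasurableSpace Ω] [MeasurableSpace β] {X : ℕ → Ω → β}
    (hX : ∀ k, Measurable (X k)) {N : Ω → ℕ} (hN : Measurable N) :
    Measurable fun ω => X (N ω) ω := by
  have : Measurable fun p : Ω × ℕ => X p.2 p.1 := measurable_from_prod_countable_left hX
  exact this.comp (measurable_id.prodMk hN)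

/-- A sequence of closed discs generating the topology. -/
noncomputable def disc (m : ℕ) : Set ℂ :=
  closedBall (denseSeq ℂ m.unpair.1) (1 / ((m.unpair.2 : ℝ) + 1))

theorem exists_disc {U : Set ℂ} (hU : IsOpen U) {z : ℂ} (hz : z ∈ U) :
    ∃ m, z ∈ disc m ∧ disc m ⊆ U := by
  obtain ⟨r, hr, hs⟩ := Metric.isOpen_iff.1 hU z hz
  obtain ⟨n, hn⟩ := exists_nat_one_div_lt (half_pos hr)
  obtain ⟨a, ha⟩ := (denseRange_denseSeq ℂ).exists_dist_lt z
    (show (0 : ℝ) < 1 / ((n : ℝ) + 1) by positivity)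
  refine ⟨Nat.pair a n, ?_, fun w hw => hs ?_⟩
  · simp only [disc, Nat.unpair_pair, mem_closedBall]
    exact ha.le
  · simp only [disc, Nat.unpair_pair, mem_closedBall] at hw
    rw [mem_ball]
    have := dist_triangle_right w z (denseSeq ℂ a)
    linarith

open Classical in
/-- The code of an open set. -/
noncomputable def code (U : Opens ℂ) (m : ℕ) : Bool := decide (disc m ⊆ U)

/-- A real number determining an open set. -/
noncomputable def key (U : Opens ℂ) : ℝ := -Cardinal.cantorFunction (1 / 3) (code U)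

theorem key_injective : Function.Injective key := by
  intro U U' h
  have h1 := Cardinal.cantorFunction_injective (c := 1 / 3) (by norm_num) (by norm_num)
    (neg_injective h)
  have h2 : ∀ m, disc m ⊆ U ↔ disc m ⊆ U' := fun m => by
    simpa [code] using congrFun h1 m
  ext z
  constructor
  · intro hz
    obtain ⟨m, h3, h4⟩ := exists_disc U.isOpen hz
    exact (h2 m).1 h4 h3
  · intro hz
    obtain ⟨m, h3, h4⟩ := exists_disc U'.isOpen hz
    exact (h2 m).2 h4 h3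

theorem measurable_key : Measurable key := by
  refine Measurable.neg (Measurable.tsum fun m => ?_)
  have h1 : Measurable fun U : Opens ℂ => code U m := by
    refine measurable_to_bool ?_
    have : (fun U : Opens ℂ => code U m) ⁻¹' {true} = {U : Opens ℂ | disc m ⊆ U} := by
      ext U
      simp [code]
    rw [this]
    exact measurableSet_supset (isCompact_closedBall _ _)
  exact (Measurable.of_discrete (f := fun b : Bool => cond b ((1 / 3 : ℝ) ^ m) 0)).comp h1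

theorem fin'_of_good {v : Ens} (hv : Good v) : Fin' (key ∘ v) := by
  classical
  intro j
  obtain ⟨z, hz⟩ := (hv.1 j).1
  have hex : ∃ m, disc m ⊆ v j := (exists_disc (v j).isOpen hz).imp fun _ h => h.2
  have hfin : ∀ m, {k | disc m ⊆ v k}.Finite := fun m =>
    (hv.2 (denseSeq ℂ m.unpair.1) (1 / ((m.unpair.2 : ℝ) + 1)) (by positivity)).subset
      fun k hk => ball_subset_closedBall.trans hk
  refine ((finite_Iic (Nat.find hex)).biUnion fun m _ => hfin m).subset fun k hk => ?_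
  by_contra hn
  simp only [mem_iUnion, mem_Iic, mem_ofPred_eq, not_exists] at hn
  have := Cardinal.increasing_cantorFunction (c := 1 / 3) (by norm_num) (by norm_num)
    (n := Nat.find hex) (f := code (v k)) (g := code (v j)) (fun m hm => by
      simp [code, hn m hm.le, Nat.find_min hex hm]) (by simp [code, hn _ le_rfl])
    (by simp [code, Nat.find_spec hex])
  simp only [Function.comp, key, mem_ofPred_eq] at hk
  linarith

end CanonAux

open CanonAux in
theorem exists_can : ∃ (σ : Ens → Equiv.Perm ℕ) (can : Quotient relabel → Ens),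
    (∀ n, Measurable fun v => σ v n) ∧ (∀ n, Measurable fun v => (σ v).symm n) ∧
    Measurable can ∧ ∀ v, Good v → can (Quotient.mk relabel v) = v ∘ σ v := by
  classical
  have hk : Measurable fun v : Ens => key ∘ v :=
    measurable_pi_lambda _ fun k => measurable_key.comp (measurable_pi_apply k)
  refine ⟨fun v => srt (key ∘ v), Quotient.lift
    (fun v : Ens => if Fin' (key ∘ v) then v ∘ srt (key ∘ v) else fun _ => ⊥) ?_,
    fun n => (measurable_srt n).comp hk, fun n => (measurable_rk n).comp hk, ?_, ?_⟩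
  · rintro v w ⟨τ, rfl⟩
    have h1 : Fin' (key ∘ v ∘ τ) ↔ Fin' (key ∘ v) := fin'_comp_iff (a := key ∘ v) τ
    by_cases h : Fin' (key ∘ v)
    · rw [if_pos h, if_pos (h1.2 h)]
      funext n
      exact key_injective (srt_comp h τ n).symm
    · rw [if_neg h, if_neg (mt h1.1 h)]
  · refine measurable_from_quotient.2 ?_
    refine Measurable.ite (hk measurableSet_fin') ?_ measurable_const
    exact measurable_pi_lambda _ fun n =>
      meas_idx (X := fun k (v : Ens) => v k) measurable_pi_apply ((measurable_srt n).comp hk)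
  · intro v hv
    exact if_pos (fin'_of_good hv)

end Pool.Agent.MP_ac6554_pr

end

section

set_option autoImplicit false

open MeasureTheory ProbabilityTheory TopologicalSpace Metric Set Filter Topology
open scoped NNReal ENNReal

namespace Pool.Agent.MP_ac6554_pr

namespace ReduceAux

variable {Ω : Type} [MeasurableSpace Ω] {P : Measure Ω} {S : Set Ω}

theorem mp_val (hS : MeasurableSet S) (hP : ∀ᵐ ω ∂P, ω ∈ S) :
    MeasurePreserving (Subtype.val : S → Ω) (P.comap Subtype.val) P := by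
  have := measurePreserving_subtype_coe (μa := P) hS
  rwa [Measure.restrict_eq_self_of_ae_mem hP] at this

theorem meas_val (hS : MeasurableSet S) (hP : ∀ᵐ ω ∂P, ω ∈ S) (A : Set Ω) :
    P.comap (Subtype.val : S → Ω) (Subtype.val ⁻¹' A) = P A := by
  rw [comap_subtype_coe_apply hS, Subtype.image_preimage_coe, Measure.measure_inter_eq_of_ae hP]

theorem ident_val (hS : MeasurableSet S) (hP : ∀ᵐ ω ∂P, ω ∈ S) {β : Type*} [MeasurableSpace β]
    {X : Ω → β} (hX : AEMeasurable X P) :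
    IdentDistrib (fun ω : S => X ω) X (P.comap Subtype.val) P := by
  have h := mp_val hS hP
  refine ⟨hX.comp_quasiMeasurePreserving h.quasiMeasurePreserving, hX, ?_⟩
  have h1 : AEMeasurable X ((P.comap (Subtype.val : S → Ω)).map Subtype.val) := by
    rwa [h.map_eq]
  have h2 := h1.map_map_of_aemeasurable h.measurable.aemeasurable
  rw [h.map_eq] at h2
  exact h2.symm

theorem ident_val2 (hS : MeasurableSet S) (hP : ∀ᵐ ω ∂P, ω ∈ S) {β : Type*} [MeasurableSpace β]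
    {X Y : Ω → β} (h : IdentDistrib X Y P P) :
    IdentDistrib (fun ω : S => X ω) (fun ω : S => Y ω) (P.comap Subtype.val)
      (P.comap Subtype.val) :=
  ((ident_val hS hP h.aemeasurable_fst).trans h).trans (ident_val hS hP h.aemeasurable_snd).symm

theorem indep_val (hS : MeasurableSet S) (hP : ∀ᵐ ω ∂P, ω ∈ S) {β γ : Type*} [MeasurableSpace β]
    [MeasurableSpace γ] {X : Ω → β} {Y : Ω → γ} (h : IndepFun X Y P) :
    IndepFun (fun ω : S => X ω) (fun ω : S => Y ω) (P.comap Subtype.val) := by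
  rw [indepFun_iff_measure_inter_preimage_eq_mul] at h ⊢
  intro s t hs ht
  have := h s t hs ht
  rw [← meas_val hS hP, ← meas_val hS hP (X ⁻¹' s), ← meas_val hS hP (Y ⁻¹' t)] at this
  exact this

end ReduceAux

open ReduceAux CanonAux in
theorem reduce {κ : ℝ} {Ω : Type} [MeasurableSpace Ω] {P : Measure Ω} [IsProbabilityMeasure P]
    {V : ℕ → Ω → Opens ℂ} (hV : IsCLE κ P V) (μ : Measure ℝ) [IsProbabilityMeasure μ] :
    ∃ (Ω₀ : Type) (_ : MeasurableSpace Ω₀) (P₀ : Measure Ω₀) (_ : IsProbabilityMeasure P₀)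
      (V₀ : ℕ → Ω₀ → Opens ℂ) (i : ℕ → Ω₀ → ℕ) (f : ℕ → Ω₀ → ℂ → ℂ) (e : ℕ → ℕ → Ω₀ → ℕ)
      (T : Ω₀ × (ℕ → ℝ) → Ω × (ℕ → ℝ)), Sk κ P₀ V₀ i f e ∧
      MeasurePreserving T (PP P₀ μ) (PP P μ) ∧
      ∀ (F : ℂ → ℂ) (p : Ω₀ × (ℕ → ℝ)) (z : ℂ) (ε : ℝ),
        nestSum F (fun k => V₀ k p.1) p.2 z ε = nestSum F (fun k => V k (T p).1) (T p).2 z ε := by
  obtain ⟨σ, can, hσ, hσ', hcan, hgood⟩ := exists_can
  obtain ⟨i, f, hi, hf, hae, he, hsle⟩ := hV.chain
  choose e hem heae hind hid using he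
  obtain ⟨S, hP, hS, hA⟩ := (hV.basic.and (hV.locFin.and (hV.nested.and
    (hae.and (ae_all_iff.2 heae))))).exists_measurable_mem
  have hmp := mp_val hS hP
  have hprob : IsProbabilityMeasure (P.comap (Subtype.val : S → Ω)) :=
    ⟨by simpa using meas_val hS hP univ⟩
  have hval : Measurable (Subtype.val : S → Ω) := measurable_subtype_coe
  have hVm : ∀ k, Measurable fun ω : S => V k ω := fun k => (hV.meas k).comp hval
  have hVp : Measurable fun (ω : S) k => V k ω := measurable_pi_lambda _ hVm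
  have hG : ∀ ω : S, Good fun k => V k ω := fun ω => ⟨(hA ω ω.2).1, (hA ω ω.2).2.1⟩
  have hconf : ∀ (ω : S) n, Conf (f n ω) (comp0 (V (i n ω) ω)) := fun ω n =>
    ((hA ω ω.2).2.2.2.1.2.2 n).2.2
  set s : S → Equiv.Perm ℕ := fun ω => σ fun k => V k ω with hs
  set w : ℕ → S → Ens := fun n ω k => pull (f n ω) (V (e n k ω) ω) with hw
  have hsm : ∀ k, Measurable fun ω => s ω k := fun k => (hσ k).comp hVp
  have hsm' : ∀ k, Measurable fun ω => (s ω).symm k := fun k => (hσ' k).comp hVp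
  have hwm : ∀ n, Measurable (w n) := fun n => measurable_pi_lambda _ fun k =>
    measurable_pull (g := fun ω : S => f n ω) (fun ω => (hconf ω n).1.continuousOn)
      (fun z _ => (hf n z).comp hval)
      (meas_idx (X := fun k (ω : S) => V k ω) hVm ((hem n k).comp hval))
  have hwG : ∀ n ω, Good (w n ω) := fun n ω => by
    refine (hG ω).pull (hconf ω n).univ ((hA ω ω.2).2.2.2.2 n).1 fun k => ?_
    rw [(hconf ω n).2.image_eq]
    have : e n k ω ∈ range fun k => e n k ω := mem_range_self k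
    rw [((hA ω ω.2).2.2.2.2 n).2] at this
    exact this.1
  have hinner : ∀ n, (fun (ω : S) k => pull (f n ω)
      (V (s ω ((s ω).symm (e n (σ (w n ω) k) ω))) ω)) =
      can ∘ fun ω : S => Quotient.mk relabel fun k => pull (f n ω) (V (e n k ω) ω) := by
    intro n
    funext ω
    simp only [Equiv.apply_symm_apply, Function.comp]
    exact (hgood _ (hwG n ω)).symm
  have houter : (fun (ω : S) k => V (s ω k) ω) =
      can ∘ fun ω : S => Quotient.mk relabel fun k => V k ω := by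
    funext ω
    exact (hgood _ (hG ω)).symm
  refine ⟨S, inferInstance, P.comap Subtype.val, hprob, fun k ω => V (s ω k) ω,
    fun n ω => (s ω).symm (i n ω), fun n ω => f n ω,
    fun n k ω => (s ω).symm (e n (σ (w n ω) k) ω),
    fun p => (p.1.val, fun k => p.2 ((s p.1).symm k)), ?_, ?_, ?_⟩
  · refine
      { meas := fun k => meas_idx (X := fun k (ω : S) => V k ω) hVm (hsm k)
        imeas := fun n => meas_idx hsm' ((hi n).comp hval)
        fmeas := fun n z => (hf n z).comp hval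
        emeas := fun n k => meas_idx hsm' (meas_idx (X := fun k (ω : S) => e n k ω)
          (fun k => (hem n k).comp hval) ((hσ k).comp (hwm n)))
        good := fun ω => ⟨fun k => (hG ω).1 _, fun z r hr =>
          ((hG ω).2 z r hr).preimage (s ω).injective.injOn⟩
        nested := fun ω j k hjk => (hA ω ω.2).2.2.1 _ _ ((s ω).injective.ne hjk)
        moebius := fun w hw => ?_
        iinj := fun ω => (s ω).symm.injective.comp (hA ω ω.2).2.2.2.1.1
        irange := fun ω => ?_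
        isub := fun ω n => ?_
        f0 := fun ω n => ((hA ω ω.2).2.2.2.1.2.2 n).2.1
        fconf := fun ω n => ?_
        einj := fun ω n => (s ω).symm.injective.comp
          (((hA ω ω.2).2.2.2.2 n).1.comp (σ (w n ω)).injective)
        erange := fun ω n => ?_
        indep := fun n => ?_
        law := fun n => ?_
        sle := ?_ }
    · obtain ⟨φ, h1, h2, h3⟩ := hV.moebius w hw
      refine ⟨φ, h1, h2, ?_⟩
      have h4 := ident_val2 hS hP h3
      convert h4 using 2 with ω ω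
      · exact (Quotient.sound (s := relabel) (a := fun k => pull φ (V k ω)) ⟨s ω, rfl⟩).symm
      · exact (Quotient.sound (s := relabel) (a := fun k => V k ω) ⟨s ω, rfl⟩).symm
    · ext k
      have := Set.ext_iff.1 (hA ω ω.2).2.2.2.1.2.1 (s ω k)
      simp only [mem_range, mem_ofPred_eq] at this ⊢
      simp only [Equiv.symm_apply_eq]
      exact this
    · simp only [Equiv.apply_symm_apply]
      exact ((hA ω ω.2).2.2.2.1.2.2 n).1
    · simp only [Equiv.apply_symm_apply]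
      exact hconf ω n
    · ext k
      have := Set.ext_iff.1 ((hA ω ω.2).2.2.2.2 n).2 (s ω k)
      simp only [mem_range, mem_ofPred_eq] at this ⊢
      simp only [Equiv.symm_apply_eq, Equiv.apply_symm_apply, ne_eq, Equiv.eq_symm_apply]
      rw [← this]
      exact ⟨fun ⟨y, hy⟩ => ⟨_, hy⟩, fun ⟨y, hy⟩ => ⟨(σ (w n ω)).symm y, by simpa using hy⟩⟩
    · rw [hinner n]
      exact (indep_val hS hP (hind n)).comp measurable_id hcan
    · rw [hinner n, houter]
      exact (ident_val2 hS hP (hid n)).comp hcan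
    · obtain ⟨Ω', m, Q, 𝓕, θ, W, h1, h2⟩ := hsle
      refine ⟨Ω', m, Q, 𝓕, θ, W, h1, ?_⟩
      simp only [Equiv.apply_symm_apply]
      exact (ident_val hS hP h2.aemeasurable_fst).trans h2
  · exact (hmp.prod (MeasurePreserving.id _)).comp
      (relabel_mp _ μ (fun k ω => (s ω).symm k) hsm' fun ω => (s ω).symm.injective)
  · intro F p z ε
    simp only [nestSum]
    refine Eq.trans (tsum_congr fun k => ?_) ((s p.1).tsum_eq _)
    simp [indicator]

end Pool.Agent.MP_ac6554_pr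

end
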