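import Mathlib
import Pool.Agent.MP_ac6554_pr.Defs
import Pool.Agent.Mg.Fac6554.Gfd1eef

section

set_option autoImplicit false

open Filter Topology Set Finset Real

namespace Pool.Agent.MP_ac6554_pr.Lap

/-- Coefficients of the hypergeometric series with `a + a' = b`, `a a' = p`. -/
noncomputable def co (b p c : ℝ) : ℕ → ℝ
  | 0 => 1
  | n + 1 => co b p c n * (((n : ℝ) ^ 2 + b * n + p) / ((n + c) * (n + 1)))

lemma co_zero (b p c : ℝ) : co b p c 0 = 1 := rfl

lemma co_succ (b p c : ℝ) (n : ℕ) :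
    co b p c (n + 1) = co b p c n * (((n : ℝ) ^ 2 + b * n + p) / ((n + c) * (n + 1))) := rfl

lemma co_rec {b p c : ℝ} (hc : 0 < c) (n : ℕ) :
    co b p c (n + 1) * ((n + c) * (n + 1)) = co b p c n * ((n : ℝ) ^ 2 + b * n + p) := by
  have h1 : ((n : ℝ) + c) * (n + 1) ≠ 0 := by positivity
  rw [co_succ]; field_simp

lemma co_step {b p c : ℝ} (hc : 0 < c) (hb : b < c) :
    ∃ n0 : ℕ, ∀ n ≥ n0, ((n + 1 : ℕ) : ℝ) * |co b p c (n + 1)| + (c - b) / 2 * |co b p c n|
      ≤ n * |co b p c n| := by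
  obtain ⟨n0, hn0⟩ := exists_nat_ge (|b| + |p| + 1 + (2 * |p| + (c - b) * c) / (c - b))
  refine ⟨n0, fun n hn => ?_⟩
  have hg : 0 < c - b := by linarith
  have hn' : (n0 : ℝ) ≤ n := by exact_mod_cast hn
  have hq : 0 ≤ (2 * |p| + (c - b) * c) / (c - b) := by positivity
  have ha := abs_nonneg b
  have hp := abs_nonneg p
  have h1 : |b| + |p| + 1 ≤ n := by linarith
  have h2 : (2 * |p| + (c - b) * c) / (c - b) ≤ n := by linarith
  rw [div_le_iff₀ hg] at h2
  have hpos : 0 ≤ (n : ℝ) ^ 2 + b * n + p := by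
    have := neg_abs_le b
    have := neg_abs_le p
    nlinarith
  have hnc : 0 < (n : ℝ) + c := by positivity
  have hn1 : 0 < (n : ℝ) + 1 := by positivity
  rw [co_succ, abs_mul, abs_of_nonneg (div_nonneg hpos (by positivity))]
  push_cast
  have e : ((n : ℝ) + 1) * (|co b p c n| * (((n : ℝ) ^ 2 + b * n + p) / ((n + c) * (n + 1))))
      = |co b p c n| * (((n : ℝ) ^ 2 + b * n + p) / (n + c)) := by
    field_simp
  rw [e]
  have h3 : ((n : ℝ) ^ 2 + b * n + p) / (n + c) + (c - b) / 2 ≤ n := by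
    rw [div_add' _ _ _ hnc.ne', div_le_iff₀ hnc]
    have := le_abs_self p
    nlinarith
  have := abs_nonneg (co b p c n)
  nlinarith

lemma summable_abs_co {b p c : ℝ} (hc : 0 < c) (hb : b < c) :
    Summable fun n => |co b p c n| := by
  obtain ⟨n0, h⟩ := co_step (p := p) hc hb
  have hg : 0 < (c - b) / 2 := by linarith
  rw [← summable_nat_add_iff n0]
  refine summable_of_sum_range_le (c := n0 * |co b p c n0| / ((c - b) / 2))
    (fun n => abs_nonneg _) fun N => ?_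
  have key : ∀ N : ℕ, (c - b) / 2 * ∑ i ∈ range N, |co b p c (i + n0)|
      + ((N + n0 : ℕ) : ℝ) * |co b p c (N + n0)| ≤ n0 * |co b p c n0| := by
    intro N
    induction N with
    | zero => simp
    | succ N ih =>
      have := h (N + n0) (by omega)
      rw [sum_range_succ, show N + 1 + n0 = N + n0 + 1 by omega]
      linarith
  rw [le_div_iff₀ hg]
  have := key N
  have h2 : 0 ≤ ((N + n0 : ℕ) : ℝ) * |co b p c (N + n0)| := by positivity
  linarith

lemma summable_co {b p c : ℝ} (hc : 0 < c) (hb : b < c) : Summable (co b p c) :=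
  (summable_abs_co hc hb).of_abs

lemma tendsto_mul_co {b p c : ℝ} (hc : 0 < c) (hb : b < c) :
    Tendsto (fun n : ℕ => (n : ℝ) * |co b p c n|) atTop (𝓝 0) := by
  obtain ⟨n0, h⟩ := co_step (p := p) hc hb
  have hg : 0 < (c - b) / 2 := by linarith
  have hanti : Antitone fun n : ℕ => ((n + n0 : ℕ) : ℝ) * |co b p c (n + n0)| := by
    refine antitone_nat_of_succ_le fun n => ?_
    have := h (n + n0) (by omega)
    rw [show n + 1 + n0 = n + n0 + 1 by omega]
    have h2 : 0 ≤ (c - b) / 2 * |co b p c (n + n0)| := by positivity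
    linarith
  have hbd : BddBelow (range fun n : ℕ => ((n + n0 : ℕ) : ℝ) * |co b p c (n + n0)|) :=
    ⟨0, by rintro _ ⟨n, rfl⟩; positivity⟩
  have hlim := tendsto_atTop_ciInf hanti hbd
  set σ := ⨅ n : ℕ, ((n + n0 : ℕ) : ℝ) * |co b p c (n + n0)| with hσ
  have hσ0 : 0 ≤ σ := le_ciInf fun n => by positivity
  have hσle : ∀ n : ℕ, σ ≤ ((n + n0 : ℕ) : ℝ) * |co b p c (n + n0)| := fun n => ciInf_le hbd n
  have : σ = 0 := by
    by_contra hne
    have hpos : 0 < σ := lt_of_le_of_ne hσ0 (Ne.symm hne)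
    apply Real.not_summable_natCast_inv
    rw [← summable_nat_add_iff n0]
    have hs := ((summable_nat_add_iff n0).2 (summable_abs_co (p := p) hc hb)).mul_left σ⁻¹
    refine Summable.of_nonneg_of_le (fun n => by positivity) (fun n => ?_) hs
    have h1 := hσle n
    have hn : 0 < ((n + n0 : ℕ) : ℝ) := by
      by_contra h0
      have h0' : ((n + n0 : ℕ) : ℝ) = 0 := le_antisymm (not_lt.1 h0) (by positivity)
      rw [h0'] at h1; linarith
    rw [inv_le_iff_one_le_mul₀ hn]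
    have : σ⁻¹ * |co b p c (n + n0)| * ((n + n0 : ℕ) : ℝ)
        = σ⁻¹ * (((n + n0 : ℕ) : ℝ) * |co b p c (n + n0)|) := by ring
    rw [this, ← inv_mul_cancel₀ hpos.ne']
    gcongr
  rw [this] at hlim
  exact (tendsto_add_atTop_iff_nat n0).1 hlim

lemma co_add_one {b p c : ℝ} (hc : 0 < c) (n : ℕ) :
    co b p (c + 1) n * (c + n) = co b p c n * c := by
  induction n with
  | zero => simp [co_zero]
  | succ n ih =>
    have h1 : (0 : ℝ) < n + c := by positivity
    have h2 : (0 : ℝ) < n + 1 := by positivity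
    have h3 : (0 : ℝ) < n + (c + 1) := by positivity
    have e : co b p (c + 1) n = co b p c n * c / (n + c) := by
      rw [eq_div_iff h1.ne', ← ih]; ring
    rw [co_succ, co_succ, e]
    push_cast
    field_simp
    ring

lemma gauss_partial {b p c : ℝ} (hc : 0 < c) (N : ℕ) :
    c * (c - b) * ∑ n ∈ range N, co b p c n
      - (c ^ 2 - b * c + p) * ∑ n ∈ range N, co b p (c + 1) n = -(c * (N * co b p c N)) := by
  induction N with
  | zero => simp
  | succ N ih =>
    rw [sum_range_succ, sum_range_succ]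
    have h1 : (0 : ℝ) < N + c := by positivity
    have h2 : (0 : ℝ) < N + 1 := by positivity
    have e : co b p (c + 1) N = co b p c N * c / (N + c) := by
      rw [eq_div_iff h1.ne', ← co_add_one hc]; ring
    have e2 : ((N + 1 : ℕ) : ℝ) * co b p c (N + 1)
        = co b p c N * ((N : ℝ) ^ 2 + b * N + p) / (N + c) := by
      rw [eq_div_iff h1.ne', ← co_rec hc]; push_cast; ring
    rw [e2, mul_add, mul_add, e]
    have : c * (c - b) * co b p c N - (c ^ 2 - b * c + p) * (co b p c N * c / (N + c))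
        = -(c * (co b p c N * ((N : ℝ) ^ 2 + b * N + p) / (N + c))) + c * (N * co b p c N) := by
      field_simp
      ring
    linarith

lemma gauss_step {b p c : ℝ} (hc : 0 < c) (hb : b < c) :
    c * (c - b) * ∑' n, co b p c n = (c ^ 2 - b * c + p) * ∑' n, co b p (c + 1) n := by
  have h1 := (summable_co (p := p) hc hb).hasSum.tendsto_sum_nat
  have h2 := (summable_co (p := p) (c := c + 1) (by linarith) (by linarith : b < c + 1)).hasSum.tendsto_sum_nat
  have h3 := ((h1.const_mul (c * (c - b))).sub (h2.const_mul (c ^ 2 - b * c + p)))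
  simp only [gauss_partial hc] at h3
  have h4 : Tendsto (fun N : ℕ => (N : ℝ) * co b p c N) atTop (𝓝 0) := by
    rw [tendsto_zero_iff_abs_tendsto_zero]
    refine (tendsto_mul_co (p := p) hc hb).congr fun n => ?_
    simp [abs_mul]
  have h5 := (h4.const_mul c).neg
  have := tendsto_nhds_unique h3 h5
  simp only [mul_zero, neg_zero] at this
  linarith

lemma abs_co_add {b p c : ℝ} (hc : 0 < c) (k n : ℕ) :
    |co b p (c + k) (n + 1)| ≤ c / (c + k) * |co b p c (n + 1)| := by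
  have hk : (0 : ℝ) ≤ k := by positivity
  induction n with
  | zero =>
    simp only [co_succ, co_zero, Nat.cast_zero, zero_add, one_mul, mul_one, abs_div]
    rw [abs_of_pos hc, abs_of_pos (by positivity : 0 < c + k)]
    apply le_of_eq
    field_simp
  | succ n ih =>
    rw [co_succ b p (c + k), co_succ b p c (n + 1), abs_mul, abs_mul, ← mul_assoc]
    refine mul_le_mul ih ?_ (abs_nonneg _) (by positivity)
    rw [abs_div, abs_div]
    refine div_le_div_of_nonneg_left (abs_nonneg _) (by positivity) ?_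
    rw [abs_of_pos (by positivity), abs_of_pos (by positivity)]
    gcongr
    linarith

lemma tendsto_tsum_co {b p c : ℝ} (hc : 0 < c) (hb : b < c) :
    Tendsto (fun k : ℕ => ∑' n, co b p (c + k) n) atTop (𝓝 1) := by
  have hS := (summable_nat_add_iff 1).2 (summable_abs_co (p := p) hc hb)
  have hlim : Tendsto (fun k : ℕ => c / (c + k) * ∑' n, |co b p c (n + 1)|) atTop (𝓝 0) := by
    have : Tendsto (fun k : ℕ => c / (c + k)) atTop (𝓝 0) :=
      tendsto_const_nhds.div_atTop (tendsto_atTop_add_const_left _ _ tendsto_natCast_atTop_atTop)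
    simpa using this.mul_const (∑' n, |co b p c (n + 1)|)
  rw [← tendsto_sub_nhds_zero_iff]
  refine squeeze_zero_norm (fun k => ?_) hlim
  have hk : (0 : ℝ) ≤ k := by positivity
  have hs := summable_co (p := p) (c := c + k) (by positivity) (by linarith : b < c + k)
  rw [hs.tsum_eq_zero_add, co_zero, add_sub_cancel_left, ← tsum_mul_left]
  refine tsum_of_norm_bounded (hS.mul_left _).hasSum fun n => ?_
  exact abs_co_add hc k n

lemma tsum_co_prod {b p c : ℝ} (hc : 0 < c) (hb : b < c) (k : ℕ) :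
    ∑' n, co b p c n = (∏ j ∈ range k, ((c + j) ^ 2 - b * (c + j) + p) / ((c + j) * (c + j - b)))
      * ∑' n, co b p (c + k) n := by
  induction k with
  | zero => simp
  | succ k ih =>
    have hk : (0 : ℝ) ≤ k := by positivity
    have h1 : 0 < c + k := by positivity
    have h2 : 0 < c + k - b := by linarith
    have := gauss_step (p := p) h1 (by linarith : b < c + k)
    rw [ih, prod_range_succ, mul_assoc]
    congr 1
    push_cast
    rw [← add_assoc, div_mul_eq_mul_div, ← this]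
    field_simp

lemma tendsto_prod_gamma {ν s : ℝ} (hν : |ν| < 1 / 2) (hs : |s| < 1 / 2) :
    Tendsto (fun k : ℕ => ∏ j ∈ range k, ((1 / 2 - s + j) * (1 / 2 + s + j)) /
      ((1 / 2 - ν + j) * (1 / 2 + ν + j))) atTop (𝓝 (cos (π * s) / cos (π * ν))) := by
  have key : ∀ r : ℝ, |r| < 1 / 2 → Tendsto (fun n : ℕ =>
      Real.GammaSeq (1 / 2 - r) n * Real.GammaSeq (1 / 2 + r) n) atTop (𝓝 (π / cos (π * r))) := by
    intro r hr
    have := (Real.GammaSeq_tendsto_Gamma (1 / 2 - r)).mul (Real.GammaSeq_tendsto_Gamma (1 / 2 + r))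
    have e : Gamma (1 / 2 - r) * Gamma (1 / 2 + r) = π / cos (π * r) := by
      have h := Real.Gamma_mul_Gamma_one_sub (1 / 2 - r)
      rw [show 1 - (1 / 2 - r) = 1 / 2 + r by ring, show π * (1 / 2 - r) = π / 2 - π * r by ring,
        Real.sin_pi_div_two_sub] at h
      exact h
    rwa [e] at this
  have cpos : ∀ r : ℝ, |r| < 1 / 2 → 0 < cos (π * r) := by
    intro r hr
    rw [abs_lt] at hr
    apply Real.cos_pos_of_mem_Ioo
    constructor <;> nlinarith [Real.pi_pos]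
  have h1 := (key ν hν).div (key s hs) (div_pos Real.pi_pos (cpos s hs)).ne'
  have e : π / cos (π * ν) / (π / cos (π * s)) = cos (π * s) / cos (π * ν) := by
    have := cpos s hs
    have := cpos ν hν
    have := Real.pi_pos
    field_simp
  rw [e] at h1
  rw [← tendsto_add_atTop_iff_nat 1]
  refine h1.congr' ?_
  filter_upwards [eventually_ge_atTop 1] with n hn
  have hn0 : (0 : ℝ) < n := by exact_mod_cast hn
  have ppos : ∀ r : ℝ, 0 < r → 0 < ∏ j ∈ range (n + 1), (r + j) := fun r hr =>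
    prod_pos fun j _ => by positivity
  rw [abs_lt] at hν hs
  have p1 := ppos (1 / 2 - ν) (by linarith)
  have p2 := ppos (1 / 2 + ν) (by linarith)
  have p3 := ppos (1 / 2 - s) (by linarith)
  have p4 := ppos (1 / 2 + s) (by linarith)
  have q : ∀ r : ℝ, (n : ℝ) ^ (1 / 2 - r) * (n : ℝ) ^ (1 / 2 + r) = n := by
    intro r
    rw [← Real.rpow_add hn0]; norm_num
  have hf : (0 : ℝ) < n.factorial := by positivity
  simp only [Pi.div_apply, Real.GammaSeq, prod_div_distrib, prod_mul_distrib]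
  rw [div_mul_div_comm, div_mul_div_comm, mul_mul_mul_comm, q, mul_mul_mul_comm ((n : ℝ) ^ _), q]
  field_simp

/-- Gauss summation in the symmetric case. -/
theorem tsum_co {ν p : ℝ} (hν : |ν| < 1 / 2) (hp : p ≤ ν ^ 2) (hp' : ν ^ 2 - p < 1 / 4) :
    ∑' n, co (2 * ν) p (ν + 1 / 2) n = cos (π * √(ν ^ 2 - p)) / cos (π * ν) := by
  have hν' := abs_lt.1 hν
  have hc : 0 < ν + 1 / 2 := by linarith
  have hb : 2 * ν < ν + 1 / 2 := by linarith
  set s := √(ν ^ 2 - p) with hs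
  have hs2 : s ^ 2 = ν ^ 2 - p := Real.sq_sqrt (by linarith)
  have hs0 : 0 ≤ s := Real.sqrt_nonneg _
  have hs1 : |s| < 1 / 2 := by
    rw [abs_of_nonneg hs0]; nlinarith
  have h1 := (tendsto_prod_gamma hν hs1).mul (tendsto_tsum_co (p := p) hc hb)
  rw [mul_one] at h1
  refine tendsto_nhds_unique (tendsto_const_nhds.congr fun k => ?_) h1
  rw [tsum_co_prod hc hb k]
  congr 1
  refine prod_congr rfl fun j _ => ?_
  congr 1
  · nlinarith
  · ring

lemma co_nonpos {ν p : ℝ} (hν : |ν| < 1 / 2) (hp : p ≤ 0) (hp' : ν ^ 2 - p < 1 / 4) (n : ℕ) :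
    co (2 * ν) p (ν + 1 / 2) (n + 1) ≤ 0 := by
  have hν' := abs_lt.1 hν
  have hc : 0 < ν + 1 / 2 := by linarith
  induction n with
  | zero =>
    simp only [co_succ, co_zero, Nat.cast_zero, zero_add, one_mul, mul_one]
    apply div_nonpos_of_nonpos_of_nonneg <;> nlinarith
  | succ n ih =>
    rw [co_succ]
    refine mul_nonpos_of_nonpos_of_nonneg ih (div_nonneg ?_ (by positivity))
    have : (0 : ℝ) ≤ n := by positivity
    push_cast
    nlinarith

/-- The eigenfunction. -/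
noncomputable def uu (b p c z : ℝ) : ℝ := ∑' n, co b p c n * ((1 - z) / 2) ^ n

lemma abs_term_le (b p c : ℝ) {z : ℝ} (hz : |z| ≤ 1) (n : ℕ) :
    ‖co b p c n * ((1 - z) / 2) ^ n‖ ≤ |co b p c n| := by
  have := abs_le.1 hz
  rw [Real.norm_eq_abs, abs_mul, abs_pow]
  refine mul_le_of_le_one_right (abs_nonneg _) (pow_le_one₀ (abs_nonneg _) ?_)
  rw [abs_le]; constructor <;> linarith

lemma continuousOn_uu {b p c : ℝ} (hc : 0 < c) (hb : b < c) :
    ContinuousOn (uu b p c) {z | |z| ≤ 1} :=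
  continuousOn_tsum (fun n => by fun_prop) (summable_abs_co hc hb)
    fun n z hz => abs_term_le b p c hz n

lemma abs_uu_le {b p c : ℝ} (hc : 0 < c) (hb : b < c) {z : ℝ} (hz : |z| ≤ 1) :
    |uu b p c z| ≤ ∑' n, |co b p c n| :=
  tsum_of_norm_bounded (summable_abs_co hc hb).hasSum (abs_term_le b p c hz)

lemma uu_neg_one (b p c : ℝ) : uu b p c (-1) = ∑' n, co b p c n := by
  simp [uu]

lemma le_uu {ν p : ℝ} (hν : |ν| < 1 / 2) (hp : p ≤ 0) (hp' : ν ^ 2 - p < 1 / 4) {z : ℝ}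
    (hz : |z| ≤ 1) : ∑' n, co (2 * ν) p (ν + 1 / 2) n ≤ uu (2 * ν) p (ν + 1 / 2) z := by
  have hν' := abs_lt.1 hν
  have hc : 0 < ν + 1 / 2 := by linarith
  have hb : 2 * ν < ν + 1 / 2 := by linarith
  have hz' := abs_le.1 hz
  refine (summable_co hc hb).tsum_le_tsum (fun n => ?_)
    (Summable.of_norm_bounded (summable_abs_co hc hb) (abs_term_le _ _ _ hz))
  cases n with
  | zero => simp
  | succ n =>
    have h1 := co_nonpos hν hp hp' n
    have h2 : ((1 - z) / 2) ^ (n + 1) ≤ 1 := pow_le_one₀ (by linarith) (by linarith)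
    nlinarith

/-- Partial sums. -/
noncomputable def ff (b p c : ℝ) (N : ℕ) (z : ℝ) : ℝ :=
  ∑ n ∈ range (N + 1), co b p c n * ((1 - z) / 2) ^ n

lemma contDiff_ff (b p c : ℝ) (N : ℕ) : ContDiff ℝ 2 (ff b p c N) := by
  unfold ff; fun_prop

lemma ff_one (b p c : ℝ) (N : ℕ) : ff b p c N 1 = 1 := by
  simp [ff, sum_range_succ', co_zero]

lemma tendsto_ff {b p c : ℝ} (hc : 0 < c) (hb : b < c) {z : ℝ} (hz : |z| ≤ 1) :
    Tendsto (fun N => ff b p c N z) atTop (𝓝 (uu b p c z)) :=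
  (tendsto_add_atTop_iff_nat 1).2
    (Summable.of_norm_bounded (summable_abs_co hc hb) (abs_term_le _ _ _ hz)).hasSum.tendsto_sum_nat

lemma abs_ff_le {b p c : ℝ} (hc : 0 < c) (hb : b < c) {z : ℝ} (hz : |z| ≤ 1) (N : ℕ) :
    |ff b p c N z| ≤ ∑' n, |co b p c n| := by
  refine (abs_sum_le_sum_abs _ _).trans ((sum_le_sum fun n _ => abs_term_le b p c hz n).trans ?_)
  exact (summable_abs_co hc hb).sum_le_tsum _ fun n _ => abs_nonneg _

lemma hasDerivAt_y (n : ℕ) (z : ℝ) :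
    HasDerivAt (fun z : ℝ => ((1 - z) / 2) ^ n) (n * ((1 - z) / 2) ^ (n - 1) * (-1 / 2)) z := by
  have h : HasDerivAt (fun z : ℝ => (1 - z) / 2) (-1 / 2) z :=
    ((hasDerivAt_id z).const_sub 1).div_const 2
  exact h.pow n

lemma deriv_ff (b p c : ℝ) (N : ℕ) : deriv (ff b p c N) = fun z =>
    ∑ n ∈ range (N + 1), co b p c n * (n * ((1 - z) / 2) ^ (n - 1) * (-1 / 2)) := by
  funext z
  exact (HasDerivAt.fun_sum fun n _ => (hasDerivAt_y n z).const_mul _).deriv

lemma deriv2_ff (b p c : ℝ) (N : ℕ) (z : ℝ) : deriv (deriv (ff b p c N)) z =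
    ∑ n ∈ range (N + 1), co b p c n *
      (n * ((n - 1 : ℕ) * ((1 - z) / 2) ^ (n - 1 - 1) * (-1 / 2)) * (-1 / 2)) := by
  rw [deriv_ff]
  exact (HasDerivAt.fun_sum fun n _ =>
    (((hasDerivAt_y (n - 1) z).const_mul (n : ℝ)).mul_const (-1 / 2 : ℝ)).const_mul _).deriv

lemma ode_ff {p c : ℝ} (hc : 0 < c) (N : ℕ) (z : ℝ) :
    (1 - z ^ 2) * deriv (deriv (ff (2 * c - 1) p c N)) z
      - 2 * c * z * deriv (ff (2 * c - 1) p c N) z - p * ff (2 * c - 1) p c N z
      = -(co (2 * c - 1) p c N * ((N : ℝ) ^ 2 + (2 * c - 1) * N + p) * ((1 - z) / 2) ^ N) := by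
  rw [deriv2_ff, deriv_ff]
  simp only [ff]
  obtain ⟨y, rfl⟩ : ∃ y, z = 1 - 2 * y := ⟨(1 - z) / 2, by ring⟩
  have hy : (1 - (1 - 2 * y)) / 2 = y := by ring
  rw [hy]
  induction N with
  | zero => simp [co_zero]
  | succ N ih =>
    rw [sum_range_succ _ (N + 1), sum_range_succ _ (N + 1), sum_range_succ _ (N + 1)]
    have hr := co_rec (b := 2 * c - 1) (p := p) hc N
    have e : ∀ A B C A' B' C' : ℝ, (1 - (1 - 2 * y) ^ 2) * (A + A')
        - 2 * c * (1 - 2 * y) * (B + B') - p * (C + C')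
        = ((1 - (1 - 2 * y) ^ 2) * A - 2 * c * (1 - 2 * y) * B - p * C)
          + ((1 - (1 - 2 * y) ^ 2) * A' - 2 * c * (1 - 2 * y) * B' - p * C') := by
      intros; ring
    rw [e, ih, ← hr]
    cases N with
    | zero => simp; ring
    | succ N =>
      simp only [Nat.add_sub_cancel]
      push_cast
      ring

lemma tendsto_rem {b p c : ℝ} (hc : 0 < c) (hb : b < c) {y : ℝ} (hy0 : 0 ≤ y) (hy : y < 1) :
    Tendsto (fun N : ℕ => |co b p c N * ((N : ℝ) ^ 2 + b * N + p)| * y ^ N) atTop (𝓝 0) := by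
  have hB : ∀ n, |co b p c n| ≤ ∑' n, |co b p c n| := fun n =>
    (summable_abs_co hc hb).le_tsum n fun _ _ => abs_nonneg _
  have hy' : |y| < 1 := by rwa [abs_of_nonneg hy0]
  have h2 := tendsto_pow_const_mul_const_pow_of_abs_lt_one 2 hy'
  have h1 := tendsto_pow_const_mul_const_pow_of_abs_lt_one 1 hy'
  have h0 := tendsto_pow_const_mul_const_pow_of_abs_lt_one 0 hy'
  have h := ((h2.add (h1.const_mul |b|)).add (h0.const_mul |p|)).const_mul (∑' n, |co b p c n|)
  simp only [mul_zero, add_zero] at h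
  refine squeeze_zero (fun N => by positivity) (fun N => ?_) h
  have e : (N : ℝ) ^ 2 * y ^ N + |b| * ((N : ℝ) ^ 1 * y ^ N) + |p| * ((N : ℝ) ^ 0 * y ^ N)
      = ((N : ℝ) ^ 2 + |b| * N + |p|) * y ^ N := by ring
  rw [e, ← mul_assoc, abs_mul]
  have h3 : |(N : ℝ) ^ 2 + b * N + p| ≤ (N : ℝ) ^ 2 + |b| * N + |p| := by
    refine (abs_add_le _ _).trans ?_
    gcongr
    refine (abs_add_le _ _).trans (le_of_eq ?_)
    simp [abs_mul]
  have := hB N
  gcongr

end Pool.Agent.MP_ac6554_pr.Lap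

end

section

set_option autoImplicit false

open Filter Topology Set Real MeasureTheory
open scoped NNReal ENNReal

namespace Pool.Agent.MP_ac6554_pr

/-- The minimum of `t` and the first time at which `y` is at most `a`. -/
noncomputable def stopAt (y : ℝ≥0 → ℝ) (a : ℝ) (t : ℝ≥0) : ℝ≥0 := sInf {s | s = t ∨ y s ≤ a}

namespace Lap

section path

variable {y : ℝ≥0 → ℝ} {a : ℝ}

lemma stop_le (t : ℝ≥0) : stopAt y a t ≤ t := csInf_le' (Or.inl rfl)

lemma stop_le_of {r : ℝ≥0} (h : y r ≤ a) (t : ℝ≥0) : stopAt y a t ≤ r := csInf_le' (Or.inr h)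

lemma stop_mem (hy : Continuous y) (t : ℝ≥0) : stopAt y a t = t ∨ y (stopAt y a t) ≤ a := by
  have hc : IsClosed {s : ℝ≥0 | s = t ∨ y s ≤ a} :=
    (isClosed_eq continuous_id continuous_const).union (isClosed_le hy continuous_const)
  exact hc.csInf_mem ⟨t, Or.inl rfl⟩ (OrderBot.bddBelow _)

lemma hit_mem (hy : Continuous y) (h : ∃ r, y r ≤ a) : y (sInf {r | y r ≤ a}) ≤ a :=
  (isClosed_le hy continuous_const).csInf_mem h (OrderBot.bddBelow _)

lemma stop_eq_min (hy : Continuous y) (h : ∃ r, y r ≤ a) (t : ℝ≥0) :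
    stopAt y a t = min t (sInf {r | y r ≤ a}) := by
  refine le_antisymm (le_min (stop_le t) (stop_le_of (hit_mem hy h) t)) ?_
  rcases stop_mem (a := a) hy t with h1 | h1
  · rw [h1]; exact min_le_left _ _
  · exact (min_le_right _ _).trans (csInf_le' h1)

lemma stop_eq_self (hy : Continuous y) (h : ¬∃ r, y r ≤ a) (t : ℝ≥0) : stopAt y a t = t :=
  (stop_mem hy t).resolve_right fun h1 => h ⟨_, h1⟩

lemma continuous_stop (hy : Continuous y) : Continuous (stopAt y a) := by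
  by_cases h : ∃ r, y r ≤ a
  · rw [show stopAt y a = fun t => min t (sInf {r | y r ≤ a}) from funext (stop_eq_min hy h)]
    fun_prop
  · rw [show stopAt y a = fun t => t from funext (stop_eq_self hy h)]
    fun_prop

lemma stop_of_le (hy : Continuous y) {s t : ℝ≥0} (h : s ≤ stopAt y a t) : stopAt y a s = s := by
  rcases stop_mem (a := a) hy s with h1 | h1
  · exact h1
  · exact le_antisymm (stop_le s) (h.trans (stop_le_of h1 t))

lemma stop_of_ge (hy : Continuous y) {s t : ℝ≥0} (h : stopAt y a t ≤ s) (hst : s ≤ t) :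
    stopAt y a s = stopAt y a t := by
  by_cases h0 : ∃ r, y r ≤ a
  · rw [stop_eq_min hy h0] at h ⊢
    rw [stop_eq_min hy h0]
    refine le_antisymm (min_le_min_right _ hst) (le_min h (min_le_right _ _))
  · rw [stop_eq_self hy h0] at h ⊢
    rw [stop_eq_self hy h0]
    exact le_antisymm hst h

lemma le_of_le_stop (hy : Continuous y) (h0 : a ≤ y 0) {r t : ℝ≥0} (h : r ≤ stopAt y a t) :
    a ≤ y r := by
  by_contra hlt
  push Not at hlt
  obtain ⟨r', hr', he⟩ := intermediate_value_Icc' (zero_le (a := r)) hy.continuousOn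
    (show a ∈ Icc (y r) (y 0) from ⟨hlt.le, h0⟩)
  have h1 : stopAt y a t ≤ r' := stop_le_of he.le t
  have h2 : r' = r := le_antisymm hr'.2 (h.trans h1)
  rw [h2] at he
  exact hlt.ne he

lemma lt_stop_iff (hy : Continuous y) {s t : ℝ≥0} :
    s < stopAt y a t ↔ s < t ∧ ¬∃ r ≤ s, y r ≤ a := by
  constructor
  · intro h
    refine ⟨h.trans_le (stop_le t), ?_⟩
    rintro ⟨r, hr, h1⟩
    exact absurd (h.trans_le ((stop_le_of h1 t).trans hr)) (lt_irrefl _)
  · rintro ⟨h1, h2⟩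
    rcases stop_mem (a := a) hy t with h | h
    · rwa [h]
    · by_contra h3
      exact h2 ⟨_, not_lt.1 h3, h⟩

lemma tendsto_stop (hy : Continuous y) (t : ℝ≥0) :
    Tendsto (fun k : ℕ => stopAt y (a + 1 / ((k : ℝ) + 1)) t) atTop (𝓝 (stopAt y a t)) := by
  refine tendsto_order.2 ⟨fun b hb => ?_, fun b hb => Eventually.of_forall fun k => ?_⟩
  · rw [lt_stop_iff hy] at hb
    obtain ⟨r0, hr0, hmin⟩ := (isCompact_Icc (a := (0 : ℝ≥0)) (b := b)).exists_isMinOn
      ⟨0, le_rfl, zero_le⟩ hy.continuousOn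
    have h1 : a < y r0 := by
      by_contra h
      exact hb.2 ⟨r0, hr0.2, not_lt.1 h⟩
    have h2 : Tendsto (fun k : ℕ => a + 1 / ((k : ℝ) + 1)) atTop (𝓝 (a + 0)) :=
      tendsto_one_div_add_atTop_nhds_zero_nat.const_add a
    rw [add_zero] at h2
    filter_upwards [h2.eventually (gt_mem_nhds h1)] with k hk
    rw [lt_stop_iff hy]
    refine ⟨hb.1, ?_⟩
    rintro ⟨r, hr, h3⟩
    have : y r0 ≤ y r := hmin ⟨zero_le, hr⟩
    linarith
  · refine lt_of_le_of_lt ?_ hb
    rcases stop_mem (a := a) hy t with h | h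
    · rw [h]; exact stop_le t
    · refine stop_le_of (h.trans ?_) t
      have : (0 : ℝ) ≤ 1 / ((k : ℝ) + 1) := by positivity
      linarith

/-- Pathwise integration by parts. -/
lemma discount (hy : Continuous y) {f h : ℝ → ℝ} (hf : Continuous f) (hh : Continuous h)
    (l : ℝ) (t : ℝ≥0) (M : ℝ≥0 → ℝ)
    (hM : M = fun t => f (y (stopAt y a t)) - ∫ s in (0 : ℝ)..(stopAt y a t), h (y s.toNNReal)) :
    exp (-(l * t)) * M t + ∫ s in (0 : ℝ)..t, l * exp (-(l * s)) * M s.toNNReal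
      = exp (-(l * stopAt y a t)) * f (y (stopAt y a t))
        - ∫ s in (0 : ℝ)..(stopAt y a t),
          exp (-(l * s)) * (h (y s.toNNReal) - l * f (y s.toNNReal)) := by
  have hX : Continuous fun s : ℝ => y s.toNNReal := hy.comp continuous_real_toNNReal
  have hhX : Continuous fun s : ℝ => h (y s.toNNReal) := hh.comp hX
  have hfX : Continuous fun s : ℝ => f (y s.toNNReal) := hf.comp hX
  set H : ℝ → ℝ := fun r => ∫ s in (0 : ℝ)..r, h (y s.toNNReal) with hH
  have hHd : ∀ r, HasDerivAt H (h (y r.toNNReal)) r := fun r =>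
    intervalIntegral.integral_hasDerivAt_right (hhX.intervalIntegrable _ _)
      (hhX.stronglyMeasurableAtFilter _ _) hhX.continuousAt
  have hHc : Continuous H := continuous_iff_continuousAt.2 fun r => (hHd r).continuousAt
  have hσc := continuous_stop (a := a) hy
  have hMc : Continuous M := by
    rw [hM]
    exact (hf.comp (hy.comp hσc)).sub (hHc.comp (NNReal.continuous_coe.comp hσc))
  have hg : Continuous fun s : ℝ => l * exp (-(l * s)) * M s.toNNReal := by
    have := hMc.comp continuous_real_toNNReal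
    fun_prop
  set σ := stopAt y a t with hσ
  have hσt : (σ : ℝ) ≤ t := by exact_mod_cast stop_le t
  have hσ0 : (0 : ℝ) ≤ σ := σ.2
  rw [← intervalIntegral.integral_add_adjacent_intervals (b := (σ : ℝ))
    (hg.intervalIntegrable _ _) (hg.intervalIntegrable _ _)]
  have hE : ∀ s : ℝ, HasDerivAt (fun s : ℝ => exp (-(l * s))) (-(l * exp (-(l * s)))) s := by
    intro s
    have := (((hasDerivAt_id s).const_mul l).neg).exp
    simpa [mul_comm] using this
  have e2 : ∫ s in (σ : ℝ)..t, l * exp (-(l * s)) * M s.toNNReal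
      = (exp (-(l * σ)) - exp (-(l * t))) * M t := by
    rw [intervalIntegral.integral_congr (g := fun s => l * exp (-(l * s)) * M t)]
    · rw [intervalIntegral.integral_mul_const,
        intervalIntegral.integral_eq_sub_of_hasDerivAt (f := fun s => -exp (-(l * s)))]
      · ring
      · intro s _
        simpa using (hE s).fun_neg
      · exact Continuous.intervalIntegrable (by fun_prop) _ _
    · intro s hs
      rw [uIcc_of_le hσt] at hs
      have h1 : σ ≤ s.toNNReal := Real.le_toNNReal_iff_coe_le (hσ0.trans hs.1) |>.2 hs.1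
      have h2 : s.toNNReal ≤ t := Real.toNNReal_le_iff_le_coe.2 hs.2
      simp only [hM, stop_of_ge hy h1 h2]
  have e1 : ∫ s in (0 : ℝ)..σ, l * exp (-(l * s)) * M s.toNNReal
      = exp (-(l * σ)) * H σ - ∫ s in (0 : ℝ)..σ,
          exp (-(l * s)) * (h (y s.toNNReal) - l * f (y s.toNNReal)) := by
    rw [eq_sub_iff_add_eq, ← intervalIntegral.integral_add (hg.intervalIntegrable _ _)
      (Continuous.intervalIntegrable (by fun_prop) _ _),
      intervalIntegral.integral_congr (g := fun s =>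
        -(l * exp (-(l * s))) * H s + exp (-(l * s)) * h (y s.toNNReal)),
      intervalIntegral.integral_eq_sub_of_hasDerivAt (f := fun s => exp (-(l * s)) * H s)]
    · simp [hH]
    · intro s _
      exact (hE s).mul (hHd s)
    · exact Continuous.intervalIntegrable (by fun_prop) _ _
    · intro s hs
      rw [uIcc_of_le hσ0] at hs
      have h2 : s.toNNReal ≤ σ := Real.toNNReal_le_iff_le_coe.2 hs.2
      simp only [hM, stop_of_le hy h2, Real.coe_toNNReal s hs.1]
      ring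
  rw [e1, e2]
  have : M t = f (y σ) - H σ := by rw [hM]
  rw [this]
  ring

end path

variable {Ω : Type*} [MeasurableSpace Ω] {P : Measure Ω} [IsProbabilityMeasure P]

lemma fubini {M : ℝ≥0 → Ω → ℝ} (hc : ∀ ω, Continuous fun t => M t ω)
    (hm : ∀ t, Measurable (M t)) (t : ℝ≥0) {B c0 : ℝ} (hB : ∀ s ≤ t, ∀ ω, |M s ω| ≤ B)
    (hE : ∀ s, ∫ ω, M s ω ∂P = c0) (l : ℝ) :
    Integrable (fun ω => exp (-(l * t)) * M t ω
      + ∫ s in (0 : ℝ)..t, l * exp (-(l * s)) * M s.toNNReal ω) P ∧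
    ∫ ω, (exp (-(l * t)) * M t ω
      + ∫ s in (0 : ℝ)..t, l * exp (-(l * s)) * M s.toNNReal ω) ∂P = c0 := by
  have ht : (0 : ℝ) ≤ t := t.2
  have hmeas : Measurable (Function.uncurry fun (s : ℝ) (ω : Ω) =>
      l * exp (-(l * s)) * M s.toNNReal ω) := by
    refine measurable_uncurry_of_continuous_of_measurable (fun ω => ?_) fun s => ?_
    · have := (hc ω).comp continuous_real_toNNReal
      fun_prop
    · exact (hm _).const_mul _
  have hint : Integrable (Function.uncurry fun (s : ℝ) (ω : Ω) =>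
      l * exp (-(l * s)) * M s.toNNReal ω) ((volume.restrict (uIoc (0 : ℝ) t)).prod P) := by
    have : IsFiniteMeasure (volume.restrict (uIoc (0 : ℝ) t)) := by
      rw [uIoc_of_le ht]; infer_instance
    refine Integrable.of_bound hmeas.aestronglyMeasurable (|l| * exp (|l| * t) * B) ?_
    filter_upwards [Measure.quasiMeasurePreserving_fst.ae (ae_restrict_mem measurableSet_uIoc)]
      with q hq
    rw [uIoc_of_le ht] at hq
    have h2 : q.1.toNNReal ≤ t := Real.toNNReal_le_iff_le_coe.2 hq.2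
    have h3 := hB _ h2 q.2
    have h4 : -(l * q.1) ≤ |l| * t := by
      have := neg_abs_le l
      have := abs_nonneg l
      have := hq.1
      have := hq.2
      nlinarith
    simp only [Function.uncurry, Real.norm_eq_abs, abs_mul, abs_exp]
    gcongr
  have h1 : Integrable (fun ω => exp (-(l * t)) * M t ω) P :=
    (Integrable.of_bound (hm t).aestronglyMeasurable B
      (Eventually.of_forall fun ω => hB t le_rfl ω)).const_mul _
  have h2 : Integrable (fun ω => ∫ s in (0 : ℝ)..t, l * exp (-(l * s)) * M s.toNNReal ω) P := by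
    have := hint.integral_prod_right
    simp only [intervalIntegral.integral_of_le ht]
    rw [uIoc_of_le ht] at this
    exact this
  refine ⟨h1.add h2, ?_⟩
  rw [integral_add h1 h2, ← intervalIntegral_integral_swap hint]
  simp only [integral_const_mul, hE]
  rw [intervalIntegral.integral_mul_const,
    intervalIntegral.integral_eq_sub_of_hasDerivAt (f := fun s => -exp (-(l * s)))]
  · simp; ring
  · intro s _
    have := (((hasDerivAt_id s).const_mul l).neg).exp.fun_neg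
    simpa [mul_comm] using this
  · exact Continuous.intervalIntegrable (by fun_prop) _ _

variable {x : ℝ≥0 → Ω → ℝ}

lemma measurableSet_hit (hc : ∀ ω, Continuous fun t => x t ω) (hm : ∀ t, Measurable (x t))
    (a : ℝ) (s : ℝ≥0) : MeasurableSet {ω | ∃ r ≤ s, x r ω ≤ a} := by
  have e : {ω | ∃ r ≤ s, x r ω ≤ a} = ⋂ n : ℕ, ⋃ k : ℕ,
      {ω | x (min (TopologicalSpace.denseSeq ℝ≥0 k) s) ω < a + 1 / ((n : ℝ) + 1)} := by
    ext ω
    simp only [mem_ofPred_eq, mem_iInter, mem_iUnion]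
    constructor
    · rintro ⟨r, hr, h⟩ n
      have ho : IsOpen {r : ℝ≥0 | x (min r s) ω < a + 1 / ((n : ℝ) + 1)} :=
        isOpen_lt ((hc ω).comp (by fun_prop)) continuous_const
      have hn : (0 : ℝ) < 1 / ((n : ℝ) + 1) := by positivity
      exact (TopologicalSpace.denseRange_denseSeq ℝ≥0).exists_mem_open ho
        ⟨r, by simp only [mem_ofPred_eq, min_eq_left hr]; linarith⟩
    · intro h
      obtain ⟨r0, hr0, hmin⟩ := (isCompact_Icc (a := (0 : ℝ≥0)) (b := s)).exists_isMinOn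
        ⟨0, le_rfl, zero_le⟩ (hc ω).continuousOn
      refine ⟨r0, hr0.2, ?_⟩
      have h2 : Tendsto (fun k : ℕ => a + 1 / ((k : ℝ) + 1)) atTop (𝓝 (a + 0)) :=
        tendsto_one_div_add_atTop_nhds_zero_nat.const_add a
      rw [add_zero] at h2
      refine ge_of_tendsto' h2 fun n => ?_
      obtain ⟨k, hk⟩ := h n
      have : x r0 ω ≤ x (min (TopologicalSpace.denseSeq ℝ≥0 k) s) ω :=
        hmin ⟨zero_le, min_le_right _ _⟩
      linarith
  rw [e]
  exact MeasurableSet.iInter fun n => MeasurableSet.iUnion fun k =>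
    measurableSet_lt (hm _) measurable_const

lemma measurable_stop (hc : ∀ ω, Continuous fun t => x t ω) (hm : ∀ t, Measurable (x t))
    (a : ℝ) (t : ℝ≥0) : Measurable fun ω => stopAt (x · ω) a t := by
  refine measurable_of_Ioi fun s => ?_
  have e : (fun ω => stopAt (x · ω) a t) ⁻¹' Ioi s
      = {_ω | s < t} ∩ {ω | ∃ r ≤ s, x r ω ≤ a}ᶜ := by
    ext ω
    exact lt_stop_iff (hc ω)
  rw [e]
  exact (MeasurableSet.const _).inter (measurableSet_hit hc hm a s).compl

lemma measurable_hitT (hc : ∀ ω, Continuous fun t => x t ω) (hm : ∀ t, Measurable (x t))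
    (a : ℝ) : Measurable fun ω => sInf {t | x t ω ≤ a} := by
  refine measurable_of_Iic fun s => ?_
  have e : (fun ω => sInf {t | x t ω ≤ a}) ⁻¹' Iic s
      = {ω | ∃ r ≤ s, x r ω ≤ a} ∪ ⋂ n : ℕ, {ω | ∃ r ≤ (n : ℝ≥0), x r ω ≤ a}ᶜ := by
    ext ω
    simp only [mem_preimage, mem_Iic, mem_union, mem_ofPred_eq, mem_iInter, mem_compl_iff]
    by_cases h : ∃ r, x r ω ≤ a
    · constructor
      · intro h1
        exact Or.inl ⟨_, h1, hit_mem (hc ω) h⟩
      · rintro (⟨r, hr, h1⟩ | h1)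
        · exact (csInf_le' (s := {t | x t ω ≤ a}) h1).trans hr
        · obtain ⟨r, hr⟩ := h
          obtain ⟨n, hn⟩ := exists_nat_ge r
          exact absurd ⟨r, hn, hr⟩ (h1 n)
    · have : {t | x t ω ≤ a} = ∅ := eq_empty_of_forall_notMem fun r hr => h ⟨r, hr⟩
      rw [this]
      refine ⟨fun _ => Or.inr fun n ⟨r, _, hr⟩ => h ⟨r, hr⟩, fun _ => ?_⟩
      simp
  rw [e]
  exact (measurableSet_hit hc hm a s).union
    (MeasurableSet.iInter fun n => (measurableSet_hit hc hm a n).compl)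

/-- The stopped Dynkin process. -/
noncomputable def dyn (κ : ℝ) (x : ℝ≥0 → Ω → ℝ) (a : ℝ) (f : ℝ → ℝ) (t : ℝ≥0) (ω : Ω) : ℝ :=
  f (x (stopAt (x · ω) a t) ω)
    - ∫ s in (0 : ℝ)..(stopAt (x · ω) a t), gen κ f (x s.toNNReal ω)

lemma continuous_gen (κ : ℝ) {f : ℝ → ℝ} (hf : ContDiff ℝ 2 f) : Continuous (gen κ f) := by
  have h1 : ContDiff ℝ 1 (deriv f) := hf.deriv'
  have h2 : Continuous (deriv (deriv f)) := h1.continuous_deriv le_rfl
  have h3 := h1.continuous
  unfold gen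
  fun_prop

lemma exp_le {l : ℝ} {s t : ℝ} (hs : 0 ≤ s) (hst : s ≤ t) : exp (-(l * s)) ≤ exp (|l| * t) := by
  have := neg_abs_le l
  have := abs_nonneg l
  exact exp_le_exp.2 (by nlinarith)

lemma dynkin {κ : ℝ} (hc : ∀ ω, Continuous fun t => x t ω) (hb : ∀ t ω, |x t ω| ≤ 1)
    {a : ℝ} {f : ℝ → ℝ} (hf : ContDiff ℝ 2 f) (hm : ∀ t, Measurable (dyn κ x a f t))
    (hE : ∀ t, ∫ ω, dyn κ x a f t ω ∂P = f 1) (l : ℝ) (t : ℝ≥0) (W : Ω → ℝ)
    (hW : W = fun ω => exp (-(l * stopAt (x · ω) a t)) * f (x (stopAt (x · ω) a t) ω)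
        - ∫ s in (0 : ℝ)..(stopAt (x · ω) a t),
          exp (-(l * s)) * (gen κ f (x s.toNNReal ω) - l * f (x s.toNNReal ω))) :
    Integrable W P ∧ ∫ ω, W ω ∂P = f 1 := by
  have hg := continuous_gen κ hf
  obtain ⟨B1, hB1⟩ := (isCompact_Icc (a := (-1 : ℝ)) (b := 1)).exists_bound_of_continuousOn
    hf.continuous.continuousOn
  obtain ⟨B2, hB2⟩ := (isCompact_Icc (a := (-1 : ℝ)) (b := 1)).exists_bound_of_continuousOn
    hg.continuousOn
  have hB : ∀ s ≤ t, ∀ ω, |dyn κ x a f s ω| ≤ B1 + B2 * t := by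
    intro s hs ω
    refine (abs_sub _ _).trans (add_le_add (hB1 _ (abs_le.1 (hb _ _))) ?_)
    refine (intervalIntegral.norm_integral_le_of_norm_le_const (C := B2)
      fun r _ => hB2 _ (abs_le.1 (hb _ _))).trans ?_
    have h0 : 0 ≤ B2 := (norm_nonneg _).trans (hB2 0 (by simp))
    have h1 : ((stopAt (x · ω) a s : ℝ≥0) : ℝ) ≤ t := by exact_mod_cast (stop_le s).trans hs
    rw [sub_zero, abs_of_nonneg (NNReal.coe_nonneg _)]
    gcongr
  have hcont : ∀ ω, Continuous fun t => dyn κ x a f t ω := by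
    intro ω
    have hσ := continuous_stop (a := a) (hc ω)
    have hX : Continuous fun s : ℝ => gen κ f (x s.toNNReal ω) :=
      hg.comp ((hc ω).comp continuous_real_toNNReal)
    exact (hf.continuous.comp ((hc ω).comp hσ)).sub
      ((intervalIntegral.continuous_primitive (fun _ _ => hX.intervalIntegrable _ _) 0).comp
        (NNReal.continuous_coe.comp hσ))
  have key := fubini (P := P) hcont hm t hB hE l
  have e : (fun ω => exp (-(l * t)) * dyn κ x a f t ω
      + ∫ s in (0 : ℝ)..t, l * exp (-(l * s)) * dyn κ x a f s.toNNReal ω) = W := by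
    rw [hW]
    funext ω
    exact discount (hc ω) hf.continuous hg l t (fun t => dyn κ x a f t ω) rfl
  rw [e] at key
  exact key

/-- The value process. -/
noncomputable def val (κ l : ℝ) (x : ℝ≥0 → Ω → ℝ) (a : ℝ) (t : ℝ≥0) (ω : Ω) : ℝ :=
  exp (-(l * stopAt (x · ω) a t)) *
    uu (2 * (1 - 4 / κ)) (8 * l / κ) (1 - 4 / κ + 1 / 2) (x (stopAt (x · ω) a t) ω)

lemma nu_bound {κ : ℝ} (h1 : 8 / 3 < κ) (h2 : κ < 8) : |1 - 4 / κ| < 1 / 2 := by
  have h0 : 0 < κ := by linarith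
  have h3 : 4 / κ < 3 / 2 := by rw [div_lt_iff₀ h0]; linarith
  have h4 : 1 / 2 < 4 / κ := by rw [lt_div_iff₀ h0]; linarith
  rw [abs_lt]; constructor <;> linarith

omit [MeasurableSpace Ω] in
lemma abs_val_le {κ : ℝ} (h1 : 8 / 3 < κ) (h2 : κ < 8) (hb : ∀ t ω, |x t ω| ≤ 1) (l a : ℝ)
    (t : ℝ≥0) (ω : Ω) : |val κ l x a t ω| ≤ exp (-(l * stopAt (x · ω) a t)) *
      ∑' n, |co (2 * (1 - 4 / κ)) (8 * l / κ) (1 - 4 / κ + 1 / 2) n| := by
  have hν := abs_lt.1 (nu_bound h1 h2)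
  rw [val, abs_mul, abs_exp]
  gcongr
  exact abs_uu_le (by linarith) (by linarith) (hb _ _)

lemma val_a {κ : ℝ} (h1 : 8 / 3 < κ) (h2 : κ < 8) (hc : ∀ ω, Continuous fun t => x t ω)
    (hb : ∀ t ω, |x t ω| ≤ 1) (h0 : ∀ ω, x 0 ω = 1) {a : ℝ} (ha : a ∈ Ioo (-1 : ℝ) 1)
    (hm : ∀ f, ContDiff ℝ 2 f → ∀ t, Measurable (dyn κ x a f t))
    (hE : ∀ f, ContDiff ℝ 2 f → ∀ t, ∫ ω, dyn κ x a f t ω ∂P = f 1) (l : ℝ) (t : ℝ≥0) :
    AEStronglyMeasurable (val κ l x a t) P ∧ ∫ ω, val κ l x a t ω ∂P = 1 := by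
  have hν := abs_lt.1 (nu_bound h1 h2)
  have hκ : 0 < κ := by linarith
  set c := 1 - 4 / κ + 1 / 2 with hcdef
  set p := 8 * l / κ with hp
  have hbc : 2 * (1 - 4 / κ) = 2 * c - 1 := by rw [hcdef]; ring
  have hc0 : 0 < c := by linarith
  have hb0 : 2 * c - 1 < c := by linarith
  set W : ℕ → Ω → ℝ := fun N ω =>
    exp (-(l * stopAt (x · ω) a t)) * ff (2 * c - 1) p c N (x (stopAt (x · ω) a t) ω)
      - ∫ s in (0 : ℝ)..(stopAt (x · ω) a t), exp (-(l * s)) *
        (gen κ (ff (2 * c - 1) p c N) (x s.toNNReal ω)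
          - l * ff (2 * c - 1) p c N (x s.toNNReal ω)) with hW
  have hWi : ∀ N, Integrable (W N) P ∧ ∫ ω, W N ω ∂P = 1 := by
    intro N
    have := dynkin (P := P) hc hb (contDiff_ff (2 * c - 1) p c N) (hm _ (contDiff_ff _ _ _ _))
      (hE _ (contDiff_ff _ _ _ _)) l t (W N) rfl
    rwa [ff_one] at this
  set ρ : ℕ → ℝ := fun N =>
    |co (2 * c - 1) p c N * ((N : ℝ) ^ 2 + (2 * c - 1) * N + p)| * ((1 - a) / 2) ^ N with hρ
  have hρ0 : Tendsto ρ atTop (𝓝 0) :=
    tendsto_rem hc0 hb0 (by linarith [ha.2]) (by linarith [ha.1])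
  have herr : ∀ N ω, |∫ s in (0 : ℝ)..(stopAt (x · ω) a t), exp (-(l * s)) *
      (gen κ (ff (2 * c - 1) p c N) (x s.toNNReal ω)
        - l * ff (2 * c - 1) p c N (x s.toNNReal ω))| ≤ exp (|l| * t) * (κ / 8) * t * ρ N := by
    intro N ω
    have hσt : ((stopAt (x · ω) a t : ℝ≥0) : ℝ) ≤ t := by exact_mod_cast stop_le t
    have hρn : 0 ≤ ρ N := mul_nonneg (abs_nonneg _) (pow_nonneg (by linarith [ha.2]) _)
    rw [← Real.norm_eq_abs]
    refine (intervalIntegral.norm_integral_le_of_norm_le_const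
      (C := exp (|l| * t) * (κ / 8 * ρ N)) fun s hs => ?_).trans ?_
    · rw [uIoc_of_le (NNReal.coe_nonneg _)] at hs
      have hs2 : s.toNNReal ≤ stopAt (x · ω) a t := Real.toNNReal_le_iff_le_coe.2 hs.2
      have hz : a ≤ x s.toNNReal ω :=
        le_of_le_stop (y := (x · ω)) (hc ω) (by simp only [h0]; exact ha.2.le) hs2
      have hz1 := (abs_le.1 (hb s.toNNReal ω)).2
      set z := x s.toNNReal ω
      have e : gen κ (ff (2 * c - 1) p c N) z - l * ff (2 * c - 1) p c N z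
          = κ / 8 * -(co (2 * c - 1) p c N * ((N : ℝ) ^ 2 + (2 * c - 1) * N + p)
            * ((1 - z) / 2) ^ N) := by
        rw [← ode_ff hc0, gen, hcdef, hp]
        field_simp
        ring
      rw [e, Real.norm_eq_abs, abs_mul, abs_exp, abs_mul, abs_neg, abs_mul,
        abs_of_pos (by positivity : 0 < κ / 8), abs_pow,
        abs_of_nonneg (by linarith : 0 ≤ (1 - z) / 2)]
      have := exp_le (l := l) hs.1.le (hs.2.trans hσt)
      have h5 : 0 ≤ (1 - z) / 2 := by linarith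
      simp only [hρ]
      gcongr
    · rw [sub_zero, abs_of_nonneg (NNReal.coe_nonneg _)]
      calc exp (|l| * t) * (κ / 8 * ρ N) * (stopAt (x · ω) a t : ℝ≥0)
          ≤ exp (|l| * t) * (κ / 8 * ρ N) * t := by gcongr
        _ = _ := by ring
  have hlim : ∀ ω, Tendsto (fun N => W N ω) atTop (𝓝 (val κ l x a t ω)) := by
    intro ω
    have e1 := (tendsto_ff (p := p) hc0 hb0 (hb (stopAt (x · ω) a t) ω)).const_mul
      (exp (-(l * stopAt (x · ω) a t)))
    have e2 := hρ0.const_mul (exp (|l| * t) * (κ / 8) * t)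
    rw [mul_zero] at e2
    have e3 := e1.sub (squeeze_zero_norm (fun N => herr N ω) e2)
    rw [sub_zero] at e3
    rw [val, hbc]
    exact e3
  refine ⟨aestronglyMeasurable_of_tendsto_ae atTop (fun N => (hWi N).1.aestronglyMeasurable)
    (Eventually.of_forall hlim), ?_⟩
  have hd := tendsto_integral_filter_of_dominated_convergence (μ := P) (l := atTop) (F := W)
    (f := val κ l x a t)
    (fun _ => exp (|l| * t) * ∑' n, |co (2 * c - 1) p c n| + exp (|l| * t) * (κ / 8) * t * 1)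
    (Eventually.of_forall fun N => (hWi N).1.aestronglyMeasurable) ?_ (integrable_const _)
    (Eventually.of_forall hlim)
  · simp only [fun N => (hWi N).2] at hd
    exact tendsto_nhds_unique hd tendsto_const_nhds
  · filter_upwards [hρ0.eventually (ge_mem_nhds one_pos)] with N hN
    refine Eventually.of_forall fun ω => (abs_sub _ _).trans (add_le_add ?_ ((herr N ω).trans ?_))
    · rw [abs_mul, abs_exp]
      have hσt : ((stopAt (x · ω) a t : ℝ≥0) : ℝ) ≤ t := by exact_mod_cast stop_le t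
      have := exp_le (l := l) (NNReal.coe_nonneg _) hσt
      have := abs_ff_le (p := p) hc0 hb0 (hb (stopAt (x · ω) a t) ω) N
      gcongr
    · gcongr

lemma val_end {κ : ℝ} (h1 : 8 / 3 < κ) (h2 : κ < 8) (hc : ∀ ω, Continuous fun t => x t ω)
    (hb : ∀ t ω, |x t ω| ≤ 1) (h0 : ∀ ω, x 0 ω = 1)
    (hm : ∀ a ∈ Ioo (-1 : ℝ) 1, ∀ f, ContDiff ℝ 2 f → ∀ t, Measurable (dyn κ x a f t))
    (hE : ∀ a ∈ Ioo (-1 : ℝ) 1, ∀ f, ContDiff ℝ 2 f → ∀ t, ∫ ω, dyn κ x a f t ω ∂P = f 1)
    (l : ℝ) (t : ℝ≥0) :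
    AEStronglyMeasurable (val κ l x (-1) t) P ∧ ∫ ω, val κ l x (-1) t ω ∂P = 1 := by
  have hν := abs_lt.1 (nu_bound h1 h2)
  have ha : ∀ k : ℕ, -1 + 1 / ((k : ℝ) + 1) ∈ Ioo (-1 : ℝ) 1 := by
    intro k
    have h3 : (0 : ℝ) < 1 / ((k : ℝ) + 1) := by positivity
    have h4 : 1 / ((k : ℝ) + 1) ≤ 1 := by
      rw [div_le_one (by positivity)]; linarith [(Nat.cast_nonneg k : (0 : ℝ) ≤ k)]
    constructor <;> linarith
  have hV := fun k : ℕ => val_a (P := P) h1 h2 hc hb h0 (ha k) (hm _ (ha k)) (hE _ (ha k)) l t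
  have hlim : ∀ ω, Tendsto (fun k : ℕ => val κ l x (-1 + 1 / ((k : ℝ) + 1)) t ω) atTop
      (𝓝 (val κ l x (-1) t ω)) := by
    intro ω
    have e1 := tendsto_stop (a := -1) (hc ω) t
    have e2 := ((hc ω).tendsto _).comp e1
    have e3 := (continuousOn_uu (b := 2 * (1 - 4 / κ)) (p := 8 * l / κ) (c := 1 - 4 / κ + 1 / 2)
      (by linarith) (by linarith) _ (hb (stopAt (x · ω) (-1) t) ω)).tendsto.comp
      (tendsto_nhdsWithin_iff.2 ⟨e2, Eventually.of_forall fun k => hb _ ω⟩)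
    have e4 : Continuous fun s : ℝ≥0 => exp (-(l * s)) := by fun_prop
    exact ((e4.tendsto _).comp e1).mul e3
  refine ⟨aestronglyMeasurable_of_tendsto_ae atTop (fun k => (hV k).1)
    (Eventually.of_forall hlim), ?_⟩
  have hd := tendsto_integral_of_dominated_convergence (μ := P)
    (fun _ => exp (|l| * t) * ∑' n, |co (2 * (1 - 4 / κ)) (8 * l / κ) (1 - 4 / κ + 1 / 2) n|)
    (fun k => (hV k).1) (integrable_const _) (fun k => Eventually.of_forall fun ω => ?_)
    (Eventually.of_forall hlim)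
  · simp only [fun k => (hV k).2] at hd
    exact tendsto_nhds_unique hd tendsto_const_nhds
  · refine (abs_val_le h1 h2 hb l _ t ω).trans ?_
    have hσt : ((stopAt (x · ω) (-1 + 1 / ((k : ℝ) + 1)) t : ℝ≥0) : ℝ) ≤ t := by
      exact_mod_cast stop_le t
    have := exp_le (l := l) (NNReal.coe_nonneg _) hσt
    have : 0 ≤ ∑' n, |co (2 * (1 - 4 / κ)) (8 * l / κ) (1 - 4 / κ + 1 / 2) n| :=
      tsum_nonneg fun n => abs_nonneg _
    gcongr

lemma cos_ratio_pos {ν p : ℝ} (hν : |ν| < 1 / 2) (hp' : ν ^ 2 - p < 1 / 4) :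
    0 < cos (π * √(ν ^ 2 - p)) / cos (π * ν) := by
  have hν' := abs_lt.1 hν
  have h1 : √(ν ^ 2 - p) < 1 / 2 := by
    rw [Real.sqrt_lt' (by norm_num)]; linarith
  have h2 := Real.sqrt_nonneg (ν ^ 2 - p)
  refine div_pos (Real.cos_pos_of_mem_Ioo ⟨?_, ?_⟩) (Real.cos_pos_of_mem_Ioo ⟨?_, ?_⟩) <;>
    nlinarith [Real.pi_pos]

omit [IsProbabilityMeasure P] in
lemma exp_moment {κ : ℝ} (h1 : 8 / 3 < κ) (h2 : κ < 8) (hc : ∀ ω, Continuous fun t => x t ω)
    (hx : ∀ t, Measurable (x t)) (hb : ∀ t ω, |x t ω| ≤ 1) {l : ℝ} (hl : l < 0)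
    (hl' : (1 - 4 / κ) ^ 2 - 8 * l / κ < 1 / 4)
    (hV : ∀ t, AEStronglyMeasurable (val κ l x (-1) t) P ∧ ∫ ω, val κ l x (-1) t ω ∂P = 1) :
    (∀ᵐ ω ∂P, ∃ t, x t ω ≤ -1) ∧
      Integrable (fun ω => exp (-(l * (sInf {t | x t ω ≤ -1} : ℝ≥0)))) P := by
  have hν := nu_bound h1 h2
  have hκ : 0 < κ := by linarith
  have hp : 8 * l / κ ≤ 0 := div_nonpos_of_nonpos_of_nonneg (by linarith) hκ.le
  set F := ∑' n, co (2 * (1 - 4 / κ)) (8 * l / κ) (1 - 4 / κ + 1 / 2) n with hF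
  have hF0 : 0 < F := by
    rw [hF, tsum_co hν (hp.trans (sq_nonneg _)) hl']
    exact cos_ratio_pos hν hl'
  set g : ℕ → Ω → ℝ≥0∞ := fun n ω => ENNReal.ofReal (exp (-(l * stopAt (x · ω) (-1) n))) with hg
  have hgm : ∀ n, Measurable (g n) := fun n => by
    have := measurable_stop hc hx (-1) n
    simp only [hg]
    fun_prop
  have hgb : ∀ n, ∫⁻ ω, g n ω ∂P ≤ ENNReal.ofReal F⁻¹ := by
    intro n
    have hi : Integrable (val κ l x (-1) n) P := by
      by_contra h
      have := (hV n).2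
      rw [integral_undef h] at this
      exact zero_ne_one this
    have hle : ∀ ω, exp (-(l * stopAt (x · ω) (-1) n)) ≤ F⁻¹ * val κ l x (-1) n ω := by
      intro ω
      have := le_uu hν hp hl' (hb (stopAt (x · ω) (-1) n) ω)
      rw [le_inv_mul_iff₀ hF0, val, mul_comm]
      gcongr
    calc ∫⁻ ω, g n ω ∂P ≤ ∫⁻ ω, ENNReal.ofReal (F⁻¹ * val κ l x (-1) n ω) ∂P :=
          lintegral_mono fun ω => ENNReal.ofReal_le_ofReal (hle ω)
      _ = ENNReal.ofReal (∫ ω, F⁻¹ * val κ l x (-1) n ω ∂P) :=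
          (ofReal_integral_eq_lintegral_ofReal (hi.const_mul _)
            (Eventually.of_forall fun ω => (exp_pos _).le.trans (hle ω))).symm
      _ = _ := by rw [integral_const_mul, (hV n).2, mul_one]
  have hfin : ∫⁻ ω, liminf (fun n => g n ω) atTop ∂P < ⊤ := by
    refine (lintegral_liminf_le hgm).trans_lt (lt_of_le_of_lt ?_ (ENNReal.ofReal_lt_top (r := F⁻¹)))
    exact liminf_le_of_frequently_le' (Frequently.of_forall hgb)
  have hhit : ∀ᵐ ω ∂P, ∃ t, x t ω ≤ -1 := by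
    filter_upwards [ae_lt_top (Measurable.liminf hgm) hfin.ne] with ω hω
    by_contra h
    refine hω.ne (Tendsto.liminf_eq ?_)
    simp only [hg, stop_eq_self (hc ω) h]
    refine ENNReal.tendsto_ofReal_atTop.comp (tendsto_exp_atTop.comp ?_)
    have := tendsto_natCast_atTop_atTop (R := ℝ).const_mul_atTop (neg_pos.2 hl)
    simpa using this
  refine ⟨hhit, ?_, ?_⟩
  · have := measurable_hitT hc hx (-1)
    exact Measurable.aestronglyMeasurable (by fun_prop)
  · rw [hasFiniteIntegral_iff_ofReal (Eventually.of_forall fun ω => (exp_pos _).le)]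
    refine lt_of_eq_of_lt (lintegral_congr_ae ?_) hfin
    filter_upwards [hhit] with ω hω
    refine (Tendsto.liminf_eq (tendsto_const_nhds.congr' ?_)).symm
    obtain ⟨n0, hn0⟩ := exists_nat_ge (sInf {t | x t ω ≤ -1})
    filter_upwards [eventually_ge_atTop n0] with n hn
    simp only [hg]
    rw [stop_eq_min (hc ω) hω, min_eq_right (hn0.trans (by exact_mod_cast hn))]

theorem laplace_dyn {κ : ℝ} (h1 : 8 / 3 < κ) (h2 : κ < 8) (hc : ∀ ω, Continuous fun t => x t ω)
    (hx : ∀ t, Measurable (x t)) (hb : ∀ t ω, |x t ω| ≤ 1) (h0 : ∀ ω, x 0 ω = 1)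
    (hm : ∀ a ∈ Ioo (-1 : ℝ) 1, ∀ f, ContDiff ℝ 2 f → ∀ t, Measurable (dyn κ x a f t))
    (hE : ∀ a ∈ Ioo (-1 : ℝ) 1, ∀ f, ContDiff ℝ 2 f → ∀ t, ∫ ω, dyn κ x a f t ω ∂P = f 1) :
    (∀ᵐ ω ∂P, ∃ t, x t ω ≤ -1) ∧ ∀ l : ℝ, 8 * l / κ ≤ (1 - 4 / κ) ^ 2 →
      (1 - 4 / κ) ^ 2 - 8 * l / κ < 1 / 4 →
      Integrable (fun ω => exp (-(l * (sInf {t | x t ω ≤ -1} : ℝ≥0)))) P ∧
      ∫ ω, exp (-(l * (sInf {t | x t ω ≤ -1} : ℝ≥0))) ∂P
        = cos (π * (1 - 4 / κ)) / cos (π * √((1 - 4 / κ) ^ 2 - 8 * l / κ)) := by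
  have hν := nu_bound h1 h2
  have hν' := abs_lt.1 hν
  have hκ : 0 < κ := by linarith
  have hV := val_end (P := P) h1 h2 hc hb h0 hm hE
  have hsq : (1 - 4 / κ) ^ 2 < 1 / 4 := by nlinarith
  obtain ⟨l1, hl1, hl1'⟩ : ∃ l1 < 0, (1 - 4 / κ) ^ 2 - 8 * l1 / κ < 1 / 4 := by
    refine ⟨-(κ / 16 * (1 / 4 - (1 - 4 / κ) ^ 2)), by nlinarith, ?_⟩
    have : 8 * -(κ / 16 * (1 / 4 - (1 - 4 / κ) ^ 2)) / κ = -((1 / 4 - (1 - 4 / κ) ^ 2) / 2) := by
      field_simp; ring
    rw [this]; linarith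
  have hhit := (exp_moment h1 h2 hc hx hb hl1 hl1' (hV l1)).1
  refine ⟨hhit, fun l hl hl' => ?_⟩
  have hl0 : min l l1 < 0 := (min_le_right _ _).trans_lt hl1
  have hl0' : (1 - 4 / κ) ^ 2 - 8 * min l l1 / κ < 1 / 4 := by
    rcases min_choice l l1 with h | h <;> rw [h] <;> assumption
  have hI := (exp_moment h1 h2 hc hx hb hl0 hl0' (hV _)).2
  have hcmp : ∀ s τ : ℝ≥0, s ≤ τ → exp (-(l * s)) ≤ exp (-(min l l1 * τ)) := by
    intro s τ h
    have h3 : (s : ℝ) ≤ τ := h
    have h4 := min_le_left l l1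
    have h5 : (0 : ℝ) ≤ s := s.2
    exact exp_le_exp.2 (by nlinarith)
  have hτm := measurable_hitT hc hx (-1)
  have hI2 : Integrable (fun ω => exp (-(l * (sInf {t | x t ω ≤ -1} : ℝ≥0)))) P := by
    refine hI.mono' (Measurable.aestronglyMeasurable (by fun_prop))
      (Eventually.of_forall fun ω => ?_)
    rw [Real.norm_eq_abs, abs_exp]
    exact hcmp _ _ le_rfl
  refine ⟨hI2, ?_⟩
  set F := ∑' n, co (2 * (1 - 4 / κ)) (8 * l / κ) (1 - 4 / κ + 1 / 2) n with hF
  have hFe := tsum_co hν hl hl'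
  have hF0 := cos_ratio_pos hν hl'
  set S := ∑' n, |co (2 * (1 - 4 / κ)) (8 * l / κ) (1 - 4 / κ + 1 / 2) n| with hS
  have hS0 : 0 ≤ S := tsum_nonneg fun n => abs_nonneg _
  have hd := tendsto_integral_of_dominated_convergence (μ := P)
    (F := fun n : ℕ => val κ l x (-1) n)
    (f := fun ω => exp (-(l * (sInf {t | x t ω ≤ -1} : ℝ≥0))) * F)
    (fun ω => exp (-(min l l1 * (sInf {t | x t ω ≤ -1} : ℝ≥0))) * S)
    (fun n => (hV l n).1) (hI.mul_const _) (fun n => ?_) ?_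
  · simp only [fun n : ℕ => (hV l n).2] at hd
    have h3 := tendsto_nhds_unique hd tendsto_const_nhds
    rw [integral_mul_const, hF, hFe] at h3
    rw [eq_inv_of_mul_eq_one_left h3, inv_div]
  · filter_upwards [hhit] with ω hω
    refine (abs_val_le h1 h2 hb l _ _ ω).trans ?_
    have := hcmp _ _ (stop_le_of (y := (x · ω)) (hit_mem (hc ω) hω) n)
    gcongr
  · filter_upwards [hhit] with ω hω
    refine tendsto_const_nhds.congr' ?_
    obtain ⟨n0, hn0⟩ := exists_nat_ge (sInf {t | x t ω ≤ -1})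
    filter_upwards [eventually_ge_atTop n0] with n hn
    have h3 : x (sInf {t | x t ω ≤ -1}) ω = -1 :=
      le_antisymm (hit_mem (hc ω) hω) (abs_le.1 (hb _ _)).1
    rw [val, stop_eq_min (hc ω) hω, min_eq_right (hn0.trans (by exact_mod_cast hn)), h3,
      uu_neg_one]

lemma optional_stop {Ω : Type*} {m0 : MeasurableSpace Ω} {P : Measure Ω} [IsProbabilityMeasure P]
    {ℱ : Filtration ℝ≥0 m0} {x : ℝ≥0 → Ω → ℝ} (hc : ∀ ω, Continuous fun t => x t ω)
    (hx : ∀ t, Measurable[ℱ t] (x t)) {N : ℝ≥0 → Ω → ℝ} (hN : Martingale N ℱ P)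
    (hNc : ∀ ω, Continuous fun t => N t ω) (a : ℝ) (t : ℝ≥0) {B : ℝ}
    (hB : ∀ s ≤ t, ∀ ω, |N s ω| ≤ B) :
    Measurable (fun ω => N (stopAt (x · ω) a t) ω) ∧
      ∫ ω, N (stopAt (x · ω) a t) ω ∂P = ∫ ω, N 0 ω ∂P := by
  have hA : ∀ s, MeasurableSet[ℱ s] {ω | ∃ r ≤ s, x r ω ≤ a}ᶜ := by
    intro s
    have := @measurableSet_hit Ω (ℱ s) (fun r => x (min r s))
      (fun ω => (hc ω).comp (by fun_prop))
      (fun r => (hx _).mono (ℱ.mono (min_le_right r s)) le_rfl) a s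
    refine MeasurableSet.compl ?_
    convert this using 3 with ω
    refine exists_congr fun r => and_congr_right fun hr => ?_
    rw [min_eq_left hr]
  have hNm : ∀ s, Measurable (N s) := fun s =>
    ((hN.stronglyMeasurable s).mono (ℱ.le s)).measurable
  have key : ∀ (h : ℝ≥0) (m : ℕ), ∃ R : Ω → ℝ, Measurable R ∧ Integrable R P ∧
      ∫ ω, R ω ∂P = ∫ ω, N 0 ω ∂P ∧ ∀ ω, ∃ r ≤ m * h, R ω = N r ω ∧
        stopAt (x · ω) a (m * h) ≤ r ∧ r ≤ stopAt (x · ω) a (m * h) + h := by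
    intro h m
    induction m with
    | zero =>
      refine ⟨N 0, hNm 0, hN.integrable 0, rfl, fun ω => ⟨0, zero_le, rfl, ?_, zero_le⟩⟩
      simpa using stop_le (y := (x · ω)) (a := a) 0
    | succ m ih =>
      obtain ⟨R, hR1, hR2, hR3, hR4⟩ := ih
      have hle : (m : ℝ≥0) * h ≤ ((m + 1 : ℕ) : ℝ≥0) * h := by
        push_cast; gcongr; exact le_self_add
      have hs := ℱ.le _ _ (hA (m * h))
      have hi : Integrable ({ω | ∃ r ≤ m * h, x r ω ≤ a}ᶜ.indicator
          fun ω => N (((m + 1 : ℕ) : ℝ≥0) * h) ω - N (m * h) ω) P :=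
        ((hN.integrable _).sub (hN.integrable _)).indicator hs
      refine ⟨fun ω => R ω + {ω | ∃ r ≤ m * h, x r ω ≤ a}ᶜ.indicator
          (fun ω => N (((m + 1 : ℕ) : ℝ≥0) * h) ω - N (m * h) ω) ω,
        hR1.add (((hNm _).sub (hNm _)).indicator hs), hR2.add hi, ?_, fun ω => ?_⟩
      · rw [integral_add hR2 hi, hR3, integral_indicator hs,
          integral_sub (hN.integrable _).integrableOn (hN.integrable _).integrableOn,
          hN.setIntegral_eq hle (hA _), sub_self, add_zero]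
      · obtain ⟨r, h1, h2, h3, h4⟩ := hR4 ω
        by_cases hω : ∃ r ≤ m * h, x r ω ≤ a
        · obtain ⟨r0, h5, h6⟩ := hω
          have e : stopAt (x · ω) a (m * h) = stopAt (x · ω) a (((m + 1 : ℕ) : ℝ≥0) * h) :=
            stop_of_ge (hc ω) ((stop_le_of (y := (x · ω)) h6 _).trans h5) hle
          refine ⟨r, h1.trans hle, ?_, e ▸ h3, e ▸ h4⟩
          have hn : ω ∉ {ω | ∃ r ≤ m * h, x r ω ≤ a}ᶜ := fun h7 => h7 ⟨r0, h5, h6⟩
          simp only [indicator_of_notMem hn, add_zero, h2]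
        · have e : stopAt (x · ω) a (m * h) = m * h :=
            (stop_mem (hc ω) _).resolve_right fun h5 => hω ⟨_, stop_le _, h5⟩
          have e2 : r = m * h := le_antisymm h1 (e ▸ h3)
          refine ⟨_, le_rfl, ?_, stop_le _, ?_⟩
          · have hn : ω ∈ {ω | ∃ r ≤ m * h, x r ω ≤ a}ᶜ := hω
            simp only [indicator_of_mem hn, h2, e2]
            ring
          · have h5 : (m : ℝ≥0) * h ≤ stopAt (x · ω) a (((m + 1 : ℕ) : ℝ≥0) * h) := by
              rcases stop_mem (a := a) (hc ω) (((m + 1 : ℕ) : ℝ≥0) * h) with h6 | h6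
              · rw [h6]; exact hle
              · by_contra h7
                exact hω ⟨_, (not_le.1 h7).le, h6⟩
            calc ((m + 1 : ℕ) : ℝ≥0) * h = m * h + h := by push_cast; ring
              _ ≤ _ := by gcongr
  choose R hR1 hR2 hR3 r hr1 hr2 hr3 hr4 using fun n : ℕ => key (t / ((n + 1 : ℕ) : ℝ≥0)) (n + 1)
  have e : ∀ n : ℕ, ((n + 1 : ℕ) : ℝ≥0) * (t / ((n + 1 : ℕ) : ℝ≥0)) = t := fun n =>
    mul_div_cancel₀ _ (by positivity)
  simp only [e] at hr1 hr3 hr4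
  have hlim : ∀ ω, Tendsto (fun n => R n ω) atTop (𝓝 (N (stopAt (x · ω) a t) ω)) := by
    intro ω
    simp only [hr2]
    refine ((hNc ω).tendsto _).comp ?_
    have h0 : Tendsto (fun n : ℕ => t / ((n + 1 : ℕ) : ℝ≥0)) atTop (𝓝 0) :=
      (tendsto_add_atTop_iff_nat 1).2 (tendsto_const_div_atTop_nhds_zero_nat t)
    have h1 := h0.const_add (stopAt (x · ω) a t)
    rw [add_zero] at h1
    exact tendsto_of_tendsto_of_tendsto_of_le_of_le tendsto_const_nhds h1
      (fun n => hr3 n ω) fun n => hr4 n ω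
  refine ⟨measurable_of_tendsto_metrizable hR1 (tendsto_pi_nhds.2 hlim), ?_⟩
  have hd := tendsto_integral_of_dominated_convergence (μ := P) (fun _ => B)
    (fun n => (hR2 n).aestronglyMeasurable) (integrable_const _)
    (fun n => Eventually.of_forall fun ω => by rw [hr2]; exact hB _ (hr1 n ω) ω)
    (Eventually.of_forall hlim)
  simp only [hR3] at hd
  exact tendsto_nhds_unique hd tendsto_const_nhds

end Lap

/-- Laplace transform of the hitting time of `-1` (Schramm, Sheffield, Wilson). -/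
theorem laplace {Ω : Type*} {m0 : MeasurableSpace Ω} {P : Measure Ω} [IsProbabilityMeasure P]
    {ℱ : Filtration ℝ≥0 m0} {x : ℝ≥0 → Ω → ℝ} {κ : ℝ} (h1 : 8 / 3 < κ) (h2 : κ < 8) (h4 : κ ≠ 4)
    (hc : ∀ ω, Continuous fun t => x t ω) (hx : ∀ t, Measurable[ℱ t] (x t))
    (hb : ∀ t ω, |x t ω| ≤ 1) (h0 : ∀ ω, x 0 ω = 1)
    (hm : ∀ f : ℝ → ℝ, ContDiff ℝ 2 f → Martingale (fun (t : ℝ≥0) ω => f (x t ω)
        - ∫ s in (0 : ℝ)..t, gen κ f (x s.toNNReal ω)) ℱ P) :
    Measurable (fun ω => sInf {t | x t ω ≤ -1}) ∧ (∀ᵐ ω ∂P, ∃ t, x t ω ≤ -1) ∧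
      ∀ᶠ l in 𝓝 (0 : ℝ), ∫⁻ ω, ENNReal.ofReal (exp (-(l * (sInf {t | x t ω ≤ -1} : ℝ≥0)))) ∂P
        = ENNReal.ofReal (cos (π * (1 - 4 / κ)) / cos (π * √((1 - 4 / κ) ^ 2 - 8 * l / κ))) := by
  have hx' : ∀ t, Measurable (x t) := fun t => (hx t).mono (ℱ.le t) le_rfl
  have hopt : ∀ (a : ℝ) (f : ℝ → ℝ), ContDiff ℝ 2 f → ∀ t, Measurable (Lap.dyn κ x a f t) ∧
      ∫ ω, Lap.dyn κ x a f t ω ∂P = f 1 := by
    intro a f hf t
    have hg := Lap.continuous_gen κ hf
    obtain ⟨B1, hB1⟩ := (isCompact_Icc (a := (-1 : ℝ)) (b := 1)).exists_bound_of_continuousOn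
      hf.continuous.continuousOn
    obtain ⟨B2, hB2⟩ := (isCompact_Icc (a := (-1 : ℝ)) (b := 1)).exists_bound_of_continuousOn
      hg.continuousOn
    have := Lap.optional_stop hc hx (hm f hf) (fun ω => ?_) a t (B := B1 + B2 * t)
      fun s hs ω => ?_
    · refine ⟨this.1, this.2.trans ?_⟩
      simp [h0]
    · have hX : Continuous fun s : ℝ => gen κ f (x s.toNNReal ω) :=
        hg.comp ((hc ω).comp continuous_real_toNNReal)
      exact (hf.continuous.comp (hc ω)).sub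
        ((intervalIntegral.continuous_primitive (fun _ _ => hX.intervalIntegrable _ _) 0).comp
          NNReal.continuous_coe)
    · refine (abs_sub _ _).trans (add_le_add (hB1 _ (abs_le.1 (hb _ _))) ?_)
      refine (intervalIntegral.norm_integral_le_of_norm_le_const (C := B2)
        fun r _ => hB2 _ (abs_le.1 (hb _ _))).trans ?_
      have h0 : 0 ≤ B2 := (norm_nonneg _).trans (hB2 0 (by simp))
      have h1 : (s : ℝ) ≤ t := hs
      rw [sub_zero, abs_of_nonneg (NNReal.coe_nonneg _)]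
      gcongr
  have key := Lap.laplace_dyn (P := P) h1 h2 hc hx' hb h0
    (fun a _ f hf t => (hopt a f hf t).1) (fun a _ f hf t => (hopt a f hf t).2)
  refine ⟨Lap.measurable_hitT hc hx' _, key.1, ?_⟩
  have hν := abs_lt.1 (Lap.nu_bound h1 h2)
  have hκ : 0 < κ := by linarith
  have hν0 : 1 - 4 / κ ≠ 0 := by
    intro h
    apply h4
    field_simp at h
    linarith
  have hq : 0 < (1 - 4 / κ) ^ 2 := by positivity
  have hq' : (1 - 4 / κ) ^ 2 - 1 / 4 < 0 := by nlinarith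
  have hcont : Tendsto (fun l : ℝ => 8 * l / κ) (𝓝 0) (𝓝 0) := by
    have : Continuous fun l : ℝ => 8 * l / κ := by fun_prop
    simpa using this.tendsto 0
  filter_upwards [hcont.eventually (gt_mem_nhds hq), hcont.eventually (lt_mem_nhds hq')]
    with l hl hl'
  obtain ⟨hI, hE⟩ := key.2 l hl.le (by linarith)
  rw [← hE, ofReal_integral_eq_lintegral_ofReal hI (Eventually.of_forall fun ω => (exp_pos _).le)]

end Pool.Agent.MP_ac6554_pr

end

section

set_option autoImplicit false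

open Filter Topology Set MeasureTheory
open scoped NNReal ENNReal

namespace Pool.Agent.MP_ac6554_pr

lemma hit_eq (θ : ℝ → ℝ) :
    hit θ = ((sInf {t : ℝ≥0 | Real.cos (θ t / 2) ≤ -1} : ℝ≥0) : ℝ) := by
  rw [NNReal.coe_sInf, hit]
  congr 1
  ext t
  constructor
  · rintro ⟨h0, h⟩
    exact ⟨⟨t, h0⟩, h.le, rfl⟩
  · rintro ⟨s, h, rfl⟩
    exact ⟨s.2, le_antisymm h (Real.neg_one_le_cos _)⟩

/-- The full output: measurability, almost sure finiteness, Laplace transform. -/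
theorem laplace_sle' {κ : ℝ} (h1 : 8 / 3 < κ) (h2 : κ < 8) (h4 : κ ≠ 4) {Ω : Type}
    {m : MeasurableSpace Ω} {Q : Measure Ω} {𝓕 : Filtration ℝ≥0 m} {θ : ℝ → Ω → ℝ}
    {W : ℝ → Ω → ℂ} (h : IsSLE κ Q 𝓕 θ W) :
    Measurable (fun ω => hit fun t => θ t ω) ∧
      (∀ᵐ ω ∂Q, ∃ t, 0 ≤ t ∧ Real.cos (θ t ω / 2) = -1) ∧
      ∀ᶠ l in 𝓝 (0 : ℝ), ∫⁻ ω, ENNReal.ofReal (Real.exp (-(l * hit fun t => θ t ω))) ∂Q
        = ENNReal.ofReal (Real.cos (Real.pi * (1 - 4 / κ)) /
            Real.cos (Real.pi * √((1 - 4 / κ) ^ 2 - 8 * l / κ))) := by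
  have := h.prob
  have key := laplace (P := Q) (ℱ := 𝓕) (x := fun t ω => Real.cos (θ t ω / 2)) h1 h2 h4
    (fun ω => by have := (h.cont ω).1; fun_prop)
    (fun t => Real.measurable_cos.comp ((h.adapted t).div_const 2))
    (fun t ω => Real.abs_cos_le_one _) (fun ω => by simp [h.start])
    (fun f hf => by
      convert h.mart f hf using 4 with t ω
      refine intervalIntegral.integral_congr fun s hs => ?_
      rw [uIcc_of_le (NNReal.coe_nonneg t)] at hs
      simp only [Real.coe_toNNReal s hs.1])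
  simp only [hit_eq]
  refine ⟨key.1.coe_nnreal_real, ?_, key.2.2⟩
  filter_upwards [key.2.1] with ω ⟨t, ht⟩
  exact ⟨t, t.2, le_antisymm ht (Real.neg_one_le_cos _)⟩

theorem laplace_sle {κ : ℝ} (h1 : 8 / 3 < κ) (h2 : κ < 8) (h4 : κ ≠ 4) {Ω : Type}
    {m : MeasurableSpace Ω} {Q : Measure Ω} {𝓕 : Filtration ℝ≥0 m} {θ : ℝ → Ω → ℝ}
    {W : ℝ → Ω → ℂ} (h : IsSLE κ Q 𝓕 θ W) :
    AEMeasurable (fun ω => hit fun t => θ t ω) Q ∧
      ∀ᶠ l in 𝓝 (0 : ℝ), ∫⁻ ω, ENNReal.ofReal (Real.exp (-(l * hit fun t => θ t ω))) ∂Q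
        = ENNReal.ofReal (Real.cos (Real.pi * (1 - 4 / κ)) /
            Real.cos (Real.pi * √((1 - 4 / κ) ^ 2 - 8 * l / κ))) :=
  ⟨(laplace_sle' h1 h2 h4 h).1.aemeasurable, (laplace_sle' h1 h2 h4 h).2.2⟩

end Pool.Agent.MP_ac6554_pr

end

section

set_option autoImplicit false

open MeasureTheory ProbabilityTheory TopologicalSpace Metric Set Filter Topology
open scoped NNReal ENNReal

namespace Pool.Agent.MP_ac6554_pr

namespace ChainAux

/-- Each variable independent of its past gives an independent sequence. -/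
theorem iIndep_of_past {Ω : Type} [mΩ : MeasurableSpace Ω] {P : Measure Ω} [IsProbabilityMeasure P]
    {B : ℕ → Ω → ℝ} {M : ℕ → MeasurableSpace Ω}
    (hM : ∀ m n, m ≤ n → Measurable[M n] (B m))
    (hI : ∀ n (s : Set Ω) (t : Set ℝ), MeasurableSet[M n] s → MeasurableSet t →
      P (s ∩ B (n + 1) ⁻¹' t) = P s * P (B (n + 1) ⁻¹' t)) : iIndepFun B P := by
  rw [iIndepFun_iff_measure_inter_preimage_eq_mul]
  intro S
  induction S using Finset.induction_on_max with
  | empty => intro s _; simp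
  | insert a S haS ih =>
    intro s hs
    have ha : a ∉ S := fun h => lt_irrefl _ (haS a h)
    rw [Finset.prod_insert ha, Finset.set_biInter_insert,
      ← ih fun j hj => hs j (Finset.mem_insert_of_mem hj)]
    cases a with
    | zero =>
      have : S = ∅ := Finset.eq_empty_of_forall_notMem fun j hj => Nat.not_lt_zero _ (haS j hj)
      subst this
      simp
    | succ n =>
      rw [inter_comm, mul_comm]
      refine hI n _ _ ?_ (hs _ (Finset.mem_insert_self _ _))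
      exact Finset.measurableSet_biInter (m := M n) _ fun j hj =>
        hM j n (Nat.le_of_lt_succ (haS j hj)) (hs j (Finset.mem_insert_of_mem hj))

theorem iIndep_comp_mp {Ω Ω' ι α : Type} [MeasurableSpace Ω] [MeasurableSpace Ω']
    [MeasurableSpace α] {P : Measure Ω} {Q : Measure Ω'} {R : Ω → Ω'} (hR : MeasurePreserving R P Q)
    {Y : ι → Ω' → α} (mY : ∀ n, Measurable (Y n)) (hY : iIndepFun Y Q) :
    iIndepFun (fun n ω => Y n (R ω)) P := by
  rw [iIndepFun_iff_measure_inter_preimage_eq_mul] at hY ⊢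
  intro S s hs
  have h1 : (⋂ n ∈ S, (fun ω => Y n (R ω)) ⁻¹' s n) = R ⁻¹' (⋂ n ∈ S, Y n ⁻¹' s n) := by
    ext ω; simp
  rw [h1, hR.measure_preimage
    (Finset.measurableSet_biInter _ fun n hn => mY n (hs n hn)).nullMeasurableSet, hY S hs]
  refine Finset.prod_congr rfl fun n hn => ?_
  rw [← hR.measure_preimage (mY n (hs n hn)).nullMeasurableSet]
  rfl

theorem iIndep_pair {Ω Ω' ι α β : Type} [MeasurableSpace Ω] [MeasurableSpace Ω']
    [MeasurableSpace α] [MeasurableSpace β] {P : Measure Ω} {Q : Measure Ω'}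
    [IsProbabilityMeasure P] [IsProbabilityMeasure Q] {X : ι → Ω → α} {Y : ι → Ω' → β}
    (mX : ∀ n, Measurable (X n)) (mY : ∀ n, Measurable (Y n)) (hX : iIndepFun X P)
    (hY : iIndepFun Y Q) :
    iIndepFun (fun n (p : Ω × Ω') => (X n p.1, Y n p.2)) (P.prod Q) := by
  classical
  rw [iIndepFun_iff_iIndep]
  refine iIndepSets.iIndep (fun n => Measurable.comap_le (by fun_prop))
    (fun n => preimage (fun p : Ω × Ω' => (X n p.1, Y n p.2)) ''
      image2 (· ×ˢ ·) {s : Set α | MeasurableSet s} {t : Set β | MeasurableSet t})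
    (fun n => isPiSystem_prod.comap _) (fun n => ?_) ?_
  · rw [← MeasurableSpace.comap_generateFrom, generateFrom_prod]
  rw [iIndepSets_iff]
  intro S g hg
  have hg' : ∀ n, ∃ (A : Set α) (B : Set β), n ∈ S → MeasurableSet A ∧ MeasurableSet B ∧
      g n = (X n ⁻¹' A) ×ˢ (Y n ⁻¹' B) := by
    intro n
    by_cases hn : n ∈ S
    · obtain ⟨_, ⟨A, hA, B, hB, rfl⟩, h⟩ := hg n hn
      exact ⟨A, B, fun _ => ⟨hA, hB, h ▸ rfl⟩⟩
    · exact ⟨univ, univ, fun h => absurd h hn⟩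
  choose A B hAB using hg'
  have h1 : (⋂ n ∈ S, g n) = (⋂ n ∈ S, X n ⁻¹' A n) ×ˢ (⋂ n ∈ S, Y n ⁻¹' B n) := by
    ext p
    simp only [mem_iInter, mem_prod, mem_preimage]
    constructor
    · intro h
      refine ⟨fun n hn => ?_, fun n hn => ?_⟩
      · have := h n hn
        rw [(hAB n hn).2.2] at this
        exact this.1
      · have := h n hn
        rw [(hAB n hn).2.2] at this
        exact this.2
    · intro h n hn
      rw [(hAB n hn).2.2]
      exact ⟨h.1 n hn, h.2 n hn⟩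
  rw [h1, Measure.prod_prod, hX.measure_inter_preimage_eq_mul S fun n hn => (hAB n hn).1,
    hY.measure_inter_preimage_eq_mul S fun n hn => (hAB n hn).2.1, ← Finset.prod_mul_distrib]
  refine Finset.prod_congr rfl fun n hn => ?_
  rw [(hAB n hn).2.2, Measure.prod_prod]

theorem zero_mem : (0 : ℂ) ∈ ball (0 : ℂ) 1 := mem_ball_self one_pos

theorem comp0_eq {j : ℂ → ℂ} {U : Opens ℂ} (hj : Conf j U) (h0 : j 0 = 0) : comp0 U = U := by
  apply Opens.ext
  rw [coe_comp0]
  have hc : IsPreconnected (U : Set ℂ) := by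
    rw [← hj.2.image_eq]
    exact (convex_ball 0 1).isPreconnected.image _ hj.1.continuousOn
  exact hc.connectedComponentIn (h0 ▸ hj.2.mapsTo zero_mem)

theorem conf_pull {F G : ℂ → ℂ} {D : Set ℂ} {U : Opens ℂ} (hF : Conf F D) (hF0 : F 0 = 0)
    (hU : (U : Set ℂ) ⊆ D) (hG : Conf G (comp0 U)) (hG0 : G 0 = 0) :
    ∃ g : ℂ → ℂ, Conf g (comp0 (pull F U)) ∧ g 0 = 0 ∧ deriv G 0 = deriv F 0 * deriv g 0 := by
  set φ := Function.invFunOn F (ball 0 1) with hφ
  have hD : F '' ball 0 1 = D := hF.2.image_eq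
  have hφd : DifferentiableOn ℂ φ D := hD ▸ univ_inv_diff isOpen_ball hF.1 hF.2.injOn
  have hl : ∀ z ∈ ball (0 : ℂ) 1, φ (F z) = z := fun z hz => hF.2.injOn.leftInvOn_invFunOn hz
  have hr : ∀ w ∈ D, φ w ∈ ball (0 : ℂ) 1 ∧ F (φ w) = w := fun w hw =>
    Function.invFunOn_pos (hF.2.surjOn hw)
  have hGD : MapsTo G (ball 0 1) D := fun z hz => hU (comp0_le U (hG.2.mapsTo hz))
  have hgd : DifferentiableOn ℂ (fun z => φ (G z)) (ball 0 1) := hφd.comp hG.1 hGD
  have hφ0 : φ 0 = 0 := by have := hl 0 zero_mem; rwa [hF0] at this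
  have hg0 : φ (G 0) = 0 := by rw [hG0, hφ0]
  have h0U : (0 : ℂ) ∈ (U : Set ℂ) := comp0_le U (hG0 ▸ hG.2.mapsTo zero_mem)
  have hP : (pull F U : Set ℂ) = ball 0 1 ∩ F ⁻¹' U := coe_pull hF.1.continuousOn U
  refine ⟨fun z => φ (G z), ⟨hgd, ?_, ?_, ?_⟩, hg0, ?_⟩
  · rw [coe_comp0, mapsTo_iff_image_subset]
    refine ((convex_ball 0 1).isPreconnected.image _ hgd.continuousOn).subset_connectedComponentIn
      ⟨0, zero_mem, hg0⟩ ?_
    rintro _ ⟨z, hz, rfl⟩
    rw [hP]
    refine ⟨(hr _ (hGD hz)).1, ?_⟩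
    show F (φ (G z)) ∈ (U : Set ℂ)
    rw [(hr _ (hGD hz)).2]
    exact comp0_le U (hG.2.mapsTo hz)
  · intro z hz w hw h
    refine hG.2.injOn hz hw ?_
    have := congrArg F h
    simp only at this
    rwa [(hr _ (hGD hz)).2, (hr _ (hGD hw)).2] at this
  · intro z hz
    have hsub : (comp0 (pull F U) : Set ℂ) ⊆ ball 0 1 ∩ F ⁻¹' U := hP ▸ comp0_le _
    have h0 : (0 : ℂ) ∈ (comp0 (pull F U) : Set ℂ) := by
      rw [coe_comp0]
      refine mem_connectedComponentIn ?_
      rw [hP]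
      exact ⟨zero_mem, show F 0 ∈ (U : Set ℂ) from hF0.symm ▸ h0U⟩
    have hpc : IsPreconnected (comp0 (pull F U) : Set ℂ) := by
      rw [coe_comp0]; exact isPreconnected_connectedComponentIn
    have him : F '' (comp0 (pull F U) : Set ℂ) ⊆ (comp0 U : Set ℂ) := by
      rw [coe_comp0 U]
      refine (hpc.image _ (hF.1.continuousOn.mono fun w hw => (hsub hw).1)).subset_connectedComponentIn
        ⟨0, h0, hF0⟩ ?_
      rintro _ ⟨w, hw, rfl⟩
      exact (hsub hw).2
    obtain ⟨w, hw, hwz⟩ := hG.2.surjOn (him ⟨z, hz, rfl⟩)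
    exact ⟨w, hw, by simp only [hwz]; exact hl z (hsub hz).1⟩
  · have hb : ball (0 : ℂ) 1 ∈ 𝓝 (0 : ℂ) := isOpen_ball.mem_nhds zero_mem
    have he : G =ᶠ[𝓝 0] F ∘ fun z => φ (G z) := by
      filter_upwards [hb] with z hz
      exact ((hr _ (hGD hz)).2).symm
    have h1 : DifferentiableAt ℂ F ((fun z => φ (G z)) 0) := by
      simp only [hg0]; exact hF.1.differentiableAt hb
    rw [he.deriv_eq, deriv_comp 0 h1 (hgd.differentiableAt hb)]
    simp only [hg0]

theorem pull_mono (F : ℂ → ℂ) {U W : Opens ℂ} (h : U ≤ W) : pull F U ≤ pull F W :=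
  interior_mono (inter_subset_inter_right _ (preimage_mono h))

end ChainAux

open ChainAux

variable {κ : ℝ} {Ω : Type} [MeasurableSpace Ω] {P : Measure Ω} {V : ℕ → Ω → Opens ℂ}
  {i : ℕ → Ω → ℕ} {f : ℕ → Ω → ℂ → ℂ} {e : ℕ → ℕ → Ω → ℕ}

namespace ChainAux

theorem anti (h : Sk κ P V i f e) (ω : Ω) {m n : ℕ} (hmn : m ≤ n) :
    V (i n ω) ω ≤ V (i m ω) ω :=
  antitone_nat_of_succ_le (f := fun n => V (i n ω) ω)
    (fun n => (h.isub ω n).trans (comp0_le _)) hmn

theorem deriv_ne (h : Sk κ P V i f e) (ω : Ω) (n : ℕ) : deriv (f n ω) 0 ≠ 0 :=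
  univ_deriv_ne_zero isOpen_ball (h.fconf ω n).1 (h.fconf ω n).2.injOn zero_mem

/-- The variables `Bb` are one measurable functional of the successive ensembles. -/
theorem exists_phi (h : Sk κ P V i f e) : ∃ Φ : Ens → ℝ, Measurable Φ ∧
    (∀ ω, Bb f 0 ω = Φ fun k => V k ω) ∧
    ∀ n ω, Bb f (n + 1) ω = Φ fun k => pull (f n ω) (V (e n k ω) ω) := by
  obtain ⟨cr, hm, hmono, hz, hc⟩ := exists_cr
  refine ⟨fun v => -Real.log (⨆ k, cr (v k)).toReal, ?_, fun ω => ?_, fun n ω => ?_⟩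
  · exact (Real.measurable_log.comp
      (Measurable.iSup fun k => hm.comp (measurable_pi_apply k)).ennreal_toReal).neg
  · have h1 : (⨆ k, cr (V k ω)) = ‖deriv (f 0 ω) 0‖ₑ := by
      rw [← hc _ _ (h.fconf ω 0) (h.f0 ω 0)]
      refine le_antisymm (iSup_le fun k => ?_) (le_iSup (fun k => cr (V k ω)) _)
      by_cases hk : (0 : ℂ) ∈ V k ω
      · obtain ⟨m, rfl⟩ : k ∈ range fun n => i n ω := by rw [h.irange]; exact hk
        exact hmono (anti h ω (Nat.zero_le m))
      · rw [hz _ hk]; exact zero_le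
    simp only [h1, toReal_enorm]
    rfl
  · obtain ⟨g, hg, hg0, hd⟩ := conf_pull (h.fconf ω n) (h.f0 ω n) (h.isub ω n)
      (h.fconf ω (n + 1)) (h.f0 ω (n + 1))
    have h1 : (⨆ k, cr (pull (f n ω) (V (e n k ω) ω))) = ‖deriv g 0‖ₑ := by
      rw [← hc _ _ hg hg0]
      refine le_antisymm (iSup_le fun k => ?_) ?_
      · by_cases hk : (0 : ℂ) ∈ pull (f n ω) (V (e n k ω) ω)
        · have h0 : (0 : ℂ) ∈ V (e n k ω) ω := by
            have h2 : (0 : ℂ) ∈ (pull (f n ω) (V (e n k ω) ω) : Set ℂ) := hk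
            rw [coe_pull (h.fconf ω n).1.continuousOn] at h2
            have h3 : f n ω 0 ∈ (V (e n k ω) ω : Set ℂ) := h2.2
            rwa [h.f0] at h3
          obtain ⟨m, hm⟩ : e n k ω ∈ range fun n => i n ω := by rw [h.irange]; exact h0
          have h4 : e n k ω ∈ range fun k => e n k ω := ⟨k, rfl⟩
          rw [h.erange] at h4
          have h5 : n + 1 ≤ m := by
            by_contra h6
            exact h4.2 m (by omega) hm.symm
          rw [← hm]
          exact hmono (pull_mono _ (anti h ω h5))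
        · rw [hz _ hk]; exact zero_le
      · obtain ⟨k, hk⟩ : i (n + 1) ω ∈ range fun k => e n k ω := by
          rw [h.erange]
          exact ⟨h.isub ω n, fun m hm he => by have := h.iinj ω he; omega⟩
        rw [← hk]
        exact le_iSup (fun k => cr (pull (f n ω) (V (e n k ω) ω))) k
    have h2 := deriv_ne h ω (n + 1)
    rw [hd] at h2
    simp only [h1, toReal_enorm, Bb, Tt, hd, norm_mul]
    rw [Real.log_mul (norm_ne_zero_iff.2 (left_ne_zero_of_mul h2))
      (norm_ne_zero_iff.2 (right_ne_zero_of_mul h2))]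
    ring

end ChainAux

theorem Sk.measurable_Tt_mY (h : Sk κ P V i f e) {m n : ℕ} (hmn : m ≤ n) :
    Measurable[mY f n] (Tt f m) := by
  have hd := fun ω => (h.fconf ω m).1
  clear h
  let _ : MeasurableSpace Ω := mY f n
  have h0 : Measurable fun ω (m : Iic n) => f m ω := comap_measurable _
  have h1 := (measurable_eval (g := f m) hd fun z _ =>
    (measurable_pi_apply z).comp ((measurable_pi_apply (⟨m, hmn⟩ : Iic n)).comp h0)).2
  have h2 : Measurable fun ω => deriv (f m ω) 0 := by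
    have := h1.comp (measurable_prodMk_right (y := (0 : ℂ)))
    simpa [Function.comp_def] using this
  exact (Real.measurable_log.comp h2.norm).neg

theorem Sk.measurable_Bb_mY (h : Sk κ P V i f e) {m n : ℕ} (hmn : m ≤ n) :
    Measurable[mY f n] (Bb f m) := by
  cases m with
  | zero => exact h.measurable_Tt_mY hmn
  | succ m =>
    have h1 := h.measurable_Tt_mY hmn
    have h2 := h.measurable_Tt_mY (Nat.le_of_succ_le hmn)
    clear h
    let _ : MeasurableSpace Ω := mY f n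
    exact h1.sub h2

theorem Sk.mY_le (h : Sk κ P V i f e) (n : ℕ) : mY f n ≤ ‹MeasurableSpace Ω› :=
  Measurable.comap_le (measurable_pi_lambda _ fun m => measurable_pi_lambda _ fun z => h.fmeas m z)

theorem Sk.measurable_Bb (h : Sk κ P V i f e) (n : ℕ) : Measurable (Bb f n) :=
  (h.measurable_Bb_mY le_rfl).mono (h.mY_le n) le_rfl

theorem Sk.Bb_nonneg (h : Sk κ P V i f e) (n : ℕ) (ω : Ω) : 0 ≤ Bb f n ω := by
  obtain ⟨cr, -, hmono, -, hc⟩ := exists_cr
  have hcr := fun n => hc _ _ (h.fconf ω n) (h.f0 ω n)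
  cases n with
  | zero =>
    have hid : Conf id ((⟨ball 0 1, isOpen_ball⟩ : Opens ℂ) : Set ℂ) :=
      ⟨differentiableOn_id, bijOn_id _⟩
    have h1 := hc ⟨ball 0 1, isOpen_ball⟩ id (by rwa [comp0_eq hid rfl]) rfl
    have h2 : cr (V (i 0 ω) ω) ≤ cr ⟨ball 0 1, isOpen_ball⟩ := hmono ((h.good ω).1 _).2
    rw [hcr, h1, enorm_le_iff_norm_le, deriv_id, norm_one] at h2
    exact neg_nonneg.2 (Real.log_nonpos (norm_nonneg _) h2)
  | succ n =>
    have h2 := hmono (anti h ω (Nat.le_succ n))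
    rw [hcr, hcr, enorm_le_iff_norm_le] at h2
    have h3 := Real.log_le_log (norm_pos_iff.2 (deriv_ne h ω (n + 1))) h2
    simp only [Bb, Tt]
    linarith

theorem Sk.indep_B [IsProbabilityMeasure P] (h : Sk κ P V i f e) :
    iIndepFun (Bb f) P ∧ ∀ n, P.map (Bb f n) = P.map (Bb f 0) := by
  obtain ⟨Φ, hΦ, h0, h1⟩ := exists_phi h
  refine ⟨iIndep_of_past (M := mY f) (fun m n hmn => h.measurable_Bb_mY hmn)
    fun n s t hs ht => ?_, fun n => ?_⟩
  · refine (h.indep n).meas_inter hs ⟨Φ ⁻¹' t, hΦ ht, ?_⟩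
    ext ω
    simp only [mem_preimage, h1]
  · cases n with
    | zero => rfl
    | succ n =>
      rw [funext (h1 n), funext h0]
      exact ((h.law n).comp hΦ).map_eq

theorem Sk.ssw [IsProbabilityMeasure P] (h : Sk κ P V i f e) (h1 : 8 / 3 < κ) (h2 : κ < 8)
    (h4 : κ ≠ 4) : SSW κ (P.map (Bb f 0)) := by
  obtain ⟨Ω', m, Q, 𝓕, θ, W, hS, hI⟩ := h.sle
  obtain ⟨cr, hm, -, -, hc⟩ := exists_cr
  obtain ⟨hτ, -, hL⟩ := laplace_sle' h1 h2 h4 hS
  have hΨ : Measurable fun U : Opens ℂ => -Real.log (cr U).toReal :=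
    (Real.measurable_log.comp hm.ennreal_toReal).neg
  have key : ∀ (U : Opens ℂ) (j : ℂ → ℂ), Conf j U → j 0 = 0 → (cr U).toReal = ‖deriv j 0‖ :=
    fun U j hj h0 => by rw [hc U j (by rwa [comp0_eq hj h0]) h0, toReal_enorm]
  have e1 : Bb f 0 = (fun U : Opens ℂ => -Real.log (cr U).toReal) ∘
      fun ω => comp0 (V (i 0 ω) ω) := by
    funext ω
    simp only [Function.comp, key _ _ (h.fconf ω 0) (h.f0 ω 0)]
    rfl
  have e2 : (fun ω => hit fun t => θ t ω) = (fun U : Opens ℂ => -Real.log (cr U).toReal) ∘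
      fun ω => loewner (fun t => W t ω) (hit fun t => θ t ω) := by
    funext ω
    obtain ⟨j, hj, hj0, hd⟩ := loewner_conf (fun t => W t ω) (hS.cont ω).2
      (fun t => hS.circle t ω) (t := hit fun t => θ t ω) (Real.sInf_nonneg fun t ht => ht.1)
    simp only [Function.comp, key _ _ hj hj0, hd, Real.log_exp, neg_neg]
  have e3 : P.map (Bb f 0) = Q.map fun ω => hit fun t => θ t ω := by
    rw [e1, (hI.comp hΨ).map_eq, ← e2]
  rw [e3]
  filter_upwards [hL] with l hl
  rw [lintegral_map (by fun_prop) hτ, hl]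

theorem Sk.indep_Z [IsProbabilityMeasure P] (h : Sk κ P V i f e) (μ : Measure ℝ)
    [IsProbabilityMeasure μ] :
    iIndepFun (fun n (p : Ω × (ℕ → ℝ)) => (Bb f n p.1, p.2 (i n p.1))) (PP P μ) ∧
    ∀ n, (PP P μ).map (fun p : Ω × (ℕ → ℝ) => (Bb f n p.1, p.2 (i n p.1))) =
      (P.map (Bb f 0)).prod μ := by
  have hR := relabel_mp P μ i h.imeas h.iinj
  have hB := h.measurable_Bb
  have mY : ∀ n, Measurable fun q : Ω × (ℕ → ℝ) => (Bb f n q.1, q.2 n) := fun n =>
    ((hB n).comp measurable_fst).prodMk ((measurable_pi_apply n).comp measurable_snd)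
  refine ⟨iIndep_comp_mp hR mY (iIndep_pair (Y := fun n (ξ : ℕ → ℝ) => ξ n) hB
    (fun n => measurable_pi_apply n) h.indep_B.1
    (iIndepFun_infinitePi (X := fun _ x => x) fun _ => measurable_id)), fun n => ?_⟩
  have h1 : (fun p : Ω × (ℕ → ℝ) => (Bb f n p.1, p.2 (i n p.1))) =
      Prod.map (Bb f n) (fun ξ : ℕ → ℝ => ξ n) ∘
        fun p : Ω × (ℕ → ℝ) => (p.1, fun k => p.2 (i k p.1)) := rfl
  rw [h1, ← Measure.map_map ((hB n).prodMap (measurable_pi_apply n)) hR.measurable, hR.map_eq,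
    ← Measure.map_prod_map _ _ (hB n) (measurable_pi_apply n), h.indep_B.2 n,
    Measure.infinitePi_map_eval]

end Pool.Agent.MP_ac6554_pr

end
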