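import Pool.Agent.Mg.Fac6554.Gfd1eef
import Pool.Agent.Mg.Fac6554.G0d958c
import Pool.Agent.Mg.Fac6554.Gde478f

section

set_option autoImplicit false

open MeasureTheory ProbabilityTheory TopologicalSpace Metric Set Filter Topology
open scoped NNReal ENNReal

namespace Pool.Agent.MP_ac6554_pr

namespace CoupleAux

attribute [local irreducible] nestSum err

/-- Measurable version of a map defined on the disc. -/
noncomputable def ind (F : ℂ → ℂ) : ℂ → ℂ := (ball (0 : ℂ) 1).indicator F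

theorem ind_eq {F : ℂ → ℂ} {ζ : ℂ} (h : ζ ∈ ball (0 : ℂ) 1) : ind F ζ = F ζ := indicator_of_mem h _

theorem measurable_ind {F : ℂ → ℂ} (hF : Univ F) : Measurable (ind F) :=
  (measurable_eval (Ω := Unit) (g := fun _ => F) (fun _ => hF.1)
    (fun _ _ => measurable_const)).1.comp (measurable_prodMk_left (x := ()))

/-- The pairing of the centred field with a transported bump, written on the disc. -/
noncomputable def Psi (F : ℂ → ℂ) (E : ℂ → ℝ) (φ₀ : ℂ → ℝ) (δ : ℝ) (j : ℂ → ℂ)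
    (x : Ens × (ℕ → ℝ)) : ℝ :=
  ∫ ζ in ball (0 : ℂ) 1, (nestSum F x.1 x.2 (F ζ) δ - E (F ζ)) * psi φ₀ j ζ

/-- The error functional. -/
noncomputable def Err (F : ℂ → ℂ) (a b : ℝ) (x : Ens × (ℕ → ℝ)) : ℝ≥0∞ :=
  ∫⁻ ζ in ball (0 : ℂ) (1 / 4), err F x.1 x.2 (ind F ζ) a b

theorem measurable_Psi {Y : Type} [MeasurableSpace Y] {F : ℂ → ℂ} (hF : Univ F) {E : ℂ → ℝ}
    (hE : Measurable E) {φ₀ : ℂ → ℝ} (hφ : Continuous φ₀) (δ : ℝ) {g : Y → ℂ → ℂ}
    (hd : ∀ y, DifferentiableOn ℂ (g y) (ball 0 1))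
    (hm : ∀ z ∈ ball (0 : ℂ) 1, Measurable fun y => g y z) :
    Measurable fun x : Y × (Ens × (ℕ → ℝ)) => Psi F E φ₀ δ (g x.1) x.2 := by
  obtain ⟨m1, m2⟩ := measurable_eval hd hm
  have e : (fun x : Y × (Ens × (ℕ → ℝ)) => Psi F E φ₀ δ (g x.1) x.2) = fun x =>
      ∫ ζ in ball (0 : ℂ) 1, (nestSum F x.2.1 x.2.2 (ind F ζ) δ - E (ind F ζ)) *
        (φ₀ ((ball (0 : ℂ) 1).indicator (g x.1) ζ) *
          ‖(ball (0 : ℂ) 1).indicator (deriv (g x.1)) ζ‖ ^ 2) := by
    funext x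
    refine setIntegral_congr_fun measurableSet_ball fun ζ hζ => ?_
    simp only [ind_eq hζ, indicator_of_mem hζ, psi]
  rw [e]
  have hi := measurable_ind hF
  have k : Measurable fun q : (Y × (Ens × (ℕ → ℝ))) × ℂ =>
      (nestSum F q.1.2.1 q.1.2.2 (ind F q.2) δ - E (ind F q.2)) *
        (φ₀ ((ball (0 : ℂ) 1).indicator (g q.1.1) q.2) *
          ‖(ball (0 : ℂ) 1).indicator (deriv (g q.1.1)) q.2‖ ^ 2) := by
    have a1 : Measurable fun q : (Y × (Ens × (ℕ → ℝ))) × ℂ => (q.1.2, ind F q.2) :=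
      measurable_fst.snd.prodMk (hi.comp measurable_snd)
    have a2 : Measurable fun q : (Y × (Ens × (ℕ → ℝ))) × ℂ => (q.1.1, q.2) :=
      measurable_fst.fst.prodMk measurable_snd
    exact (((measurable_nestSum hF δ).comp a1).sub (hE.comp (hi.comp measurable_snd))).mul
      ((hφ.measurable.comp (m1.comp a2)).mul ((m2.comp a2).norm.pow_const 2))
  exact (k.stronglyMeasurable.integral_prod_right').measurable

theorem measurable_errInd {F : ℂ → ℂ} (hF : Univ F) (a b : ℝ) :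
    Measurable fun q : (Ens × (ℕ → ℝ)) × ℂ => err F q.1.1 q.1.2 (ind F q.2) a b :=
  (measurable_err hF a b).comp (measurable_fst.prodMk ((measurable_ind hF).comp measurable_snd))

theorem measurable_Err {F : ℂ → ℂ} (hF : Univ F) (a b : ℝ) : Measurable (Err F a b) :=
  (measurable_errInd hF a b).lintegral_prod_right'

variable {κ : ℝ} {Ω : Type} [MeasurableSpace Ω] {P : Measure Ω} {V : ℕ → Ω → Opens ℂ}
  {i : ℕ → Ω → ℕ} {f : ℕ → Ω → ℂ → ℂ} {e : ℕ → ℕ → Ω → ℕ}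

/-- The mean of the nesting sum. -/
noncomputable def EE (P : Measure Ω) (V : ℕ → Ω → Opens ℂ) (μ : Measure ℝ) (F : ℂ → ℂ) (δ : ℝ)
    (z : ℂ) : ℝ := ∫ q, nestSum F (fun k => V k q.1) q.2 z δ ∂(PP P μ)

theorem measurable_lab (h : Sk κ P V i f e) :
    Measurable fun q : Ω × (ℕ → ℝ) => ((fun k => V k q.1 : Ens), q.2) :=
  (measurable_pi_lambda _ fun k => (h.meas k).comp measurable_fst).prodMk measurable_snd

theorem measurable_EE [IsProbabilityMeasure P] (h : Sk κ P V i f e) (μ : Measure ℝ)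
    [IsProbabilityMeasure μ] {F : ℂ → ℂ} (hF : Univ F) (δ : ℝ) : Measurable (EE P V μ F δ) := by
  have k : Measurable fun q : (Ω × (ℕ → ℝ)) × ℂ => nestSum F (fun k => V k q.1.1) q.1.2 q.2 δ :=
    (measurable_nestSum hF δ).comp (((measurable_lab h).comp measurable_fst).prodMk measurable_snd)
  exact (k.stronglyMeasurable.integral_prod_left').measurable

/-- The radii. -/
noncomputable def rad (l : ℕ) : ℝ := 1 / ((l : ℝ) + 1)

theorem rad_pos (l : ℕ) : 0 < rad l := by unfold rad; positivity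

theorem tendsto_rad {s : ℝ} (hs : 0 < s) : Tendsto (fun l => s * rad l) atTop (𝓝[>] 0) := by
  refine tendsto_nhdsWithin_iff.mpr ⟨?_, Eventually.of_forall fun l => mul_pos hs (rad_pos l)⟩
  have := (tendsto_one_div_add_atTop_nhds_zero_nat (𝕜 := ℝ)).const_mul s
  rw [mul_zero] at this
  exact this

theorem ev_rad_le {δ : ℝ} (hδ : 0 < δ) : ∀ᶠ l in atTop, rad l ≤ δ :=
  (tendsto_one_div_add_atTop_nhds_zero_nat.eventually (gt_mem_nhds hδ)).mono fun _ h => h.le

theorem err_tight [IsProbabilityMeasure P] (h : Sk κ P V i f e) (h1 : 8 / 3 < κ) (h2 : κ < 8)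
    (h4 : κ ≠ 4) {F : ℂ → ℂ} (hF : Univ F) (μ : Measure ℝ) [IsProbabilityMeasure μ]
    (hμ : MemLp id 2 μ) {c C : ℝ} (hc : 0 < c) (hcC : c ≤ C) {η : ℝ} (hη : 0 < η) :
    ∃ C₃ : ℝ, 0 ≤ C₃ ∧ PP P μ {q | ∃ L, ∀ l, L ≤ l → ENNReal.ofReal C₃ <
      Err F (c * rad l) (C * rad l) (fun k => V k q.1, q.2)} ≤ ENNReal.ofReal η := by
  obtain ⟨C₄, hC₄⟩ := h.err_bound h1 h2 h4 hF μ hμ hc hcC
  have hCpos : 0 < C := hc.trans_le hcC
  set K : ℝ≥0∞ := C₄ * volume (ball (0 : ℂ) (1 / 4)) with hK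
  have Kt : K ≠ ⊤ := ENNReal.mul_ne_top ENNReal.coe_ne_top measure_ball_lt_top.ne
  have key : ∀ δ, 0 < δ → C * δ ≤ 1 →
      ∫⁻ q, Err F (c * δ) (C * δ) (fun k => V k q.1, q.2) ∂(PP P μ) ≤ K := by
    intro δ hδ hδ1
    unfold Err
    have m : Measurable fun q : (Ω × (ℕ → ℝ)) × ℂ =>
        err F (fun k => V k q.1.1) q.1.2 (ind F q.2) (c * δ) (C * δ) :=
      Measurable.comp (g := fun q : (Ens × (ℕ → ℝ)) × ℂ =>
          err F q.1.1 q.1.2 (ind F q.2) (c * δ) (C * δ))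
        (f := fun q : (Ω × (ℕ → ℝ)) × ℂ => (((fun k => V k q.1.1 : Ens), q.1.2), q.2))
        (measurable_errInd hF (c * δ) (C * δ))
        (((measurable_lab h).comp measurable_fst).prodMk measurable_snd)
    rw [lintegral_lintegral_swap (f := fun (q : Ω × (ℕ → ℝ)) (ζ : ℂ) =>
      err F (fun k => V k q.1) q.2 (ind F ζ) (c * δ) (C * δ)) m.aemeasurable, hK,
      ← setLIntegral_const]
    refine setLIntegral_mono' measurableSet_ball fun ζ hζ => ?_
    rw [ind_eq (ball_subset_ball (by norm_num) hζ)]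
    exact hC₄ ζ (ball_subset_closedBall (ball_subset_ball (by norm_num) hζ)) δ hδ hδ1
  refine ⟨K.toReal / η + 1, by positivity, ?_⟩
  set C₃ := K.toReal / η + 1 with hC₃
  have C3pos : 0 < C₃ := by positivity
  obtain ⟨L₀, hL₀⟩ := eventually_atTop.mp (ev_rad_le (δ := 1 / C) (by positivity))
  have hU : {q : Ω × (ℕ → ℝ) | ∃ L, ∀ l, L ≤ l → ENNReal.ofReal C₃ <
      Err F (c * rad l) (C * rad l) (fun k => V k q.1, q.2)} = ⋃ L, {q | ∀ l, L ≤ l →
      ENNReal.ofReal C₃ < Err F (c * rad l) (C * rad l) (fun k => V k q.1, q.2)} := by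
    ext q; simp
  have hmono : Monotone fun L : ℕ => {q : Ω × (ℕ → ℝ) | ∀ l, L ≤ l →
      ENNReal.ofReal C₃ < Err F (c * rad l) (C * rad l) (fun k => V k q.1, q.2)} :=
    fun a b hab q hq l hl => hq l (hab.trans hl)
  rw [hU, hmono.measure_iUnion]
  refine iSup_le fun L => ?_
  set l := max L L₀
  have hl : C * rad l ≤ 1 := by
    have := hL₀ l (le_max_right _ _)
    rwa [le_div_iff₀' hCpos] at this
  have m := (measurable_Err hF (c * rad l) (C * rad l)).comp (measurable_lab h)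
  have mk := mul_meas_ge_le_lintegral₀ (μ := PP P μ) m.aemeasurable (ENNReal.ofReal C₃)
  have h3 : ENNReal.ofReal C₃ * PP P μ {q | ∀ l, L ≤ l →
      ENNReal.ofReal C₃ < Err F (c * rad l) (C * rad l) (fun k => V k q.1, q.2)} ≤
      ENNReal.ofReal C₃ * ENNReal.ofReal η := by
    refine (mul_le_mul_right (measure_mono fun q hq => (hq l (le_max_left _ _)).le) _).trans
      (mk.trans ((key _ (rad_pos l) hl).trans ?_))
    rw [← ENNReal.ofReal_mul C3pos.le, ← ENNReal.ofReal_toReal Kt]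
    refine ENNReal.ofReal_le_ofReal ?_
    rw [hC₃, add_mul, div_mul_cancel₀ _ hη.ne']
    linarith
  exact (ENNReal.mul_le_mul_iff_right (by simpa using C3pos) ENNReal.ofReal_ne_top).mp h3

theorem psi_tight [IsProbabilityMeasure P] {D : Opens ℂ} {F : ℂ → ℂ} (hF : Conf F D)
    (μ : Measure ℝ) [IsProbabilityMeasure μ] (H : Ω × (ℕ → ℝ) → Distribution D ℝ ⊤)
    (hlim : ∀ φ : TestFunction D ℝ ⊤, ∀ᵐ p ∂(PP P μ),
      Tendsto (fun ε => ∫ z, centred P V μ F p z ε * φ z) (𝓝[>] 0) (𝓝 (H p φ)))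
    (hm : ∀ φ : TestFunction D ℝ ⊤, AEMeasurable (fun p => H p φ) (PP P μ))
    {a r : ℝ} (hr : 0 < r) {φ₀ : ℂ → ℝ} (hφ : ContDiff ℝ (⊤ : ℕ∞) φ₀)
    (hs : ∀ z, r ≤ ‖z‖ → φ₀ z = 0)
    (hK : ∀ j, Univ j → j 0 = 0 → a ≤ ‖deriv j 0‖ → ball 0 (2 * r) ⊆ j '' ball 0 (1 / 4))
    (a₂ : ℝ) {η : ℝ} (hη : 0 < η) :
    ∃ C₂ : ℝ, ∀ j, Univ j → j 0 = 0 → a ≤ ‖deriv j 0‖ → ‖deriv j 0‖ ≤ a₂ →
      PP P μ {q | ∀ L, ∃ l, L ≤ l ∧
        C₂ < |Psi F (EE P V μ F (rad l)) φ₀ (rad l) j (fun k => V k q.1, q.2)|} ≤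
        ENNReal.ofReal η := by
  obtain ⟨K, M, hKD, hfam⟩ := test_family hF hr hφ hs hK a₂
  obtain ⟨C, hC⟩ := tight (PP P μ) H hm K hKD M hη
  refine ⟨C + 1, fun j hj j0 ha ha2 => ?_⟩
  obtain ⟨φ, s1, s2, s3⟩ := hfam j hj j0 ha ha2
  refine le_trans (measure_mono_ae ?_) (hC φ s1 s2)
  filter_upwards [hlim φ] with q hq hb
  have t1 := (hq.comp (tendsto_rad one_pos)).abs
  have e : ∀ l, Psi F (EE P V μ F (rad l)) φ₀ (rad l) j (fun k => V k q.1, q.2) =
      ∫ z, centred P V μ F q z (1 * rad l) * φ z := by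
    intro l
    rw [pair_test hF φ (ψ := psi φ₀ j) s3, one_mul]
    rfl
  by_contra hh
  have h2 : |H q φ| < C + 1 := by
    have : |H q φ| ≤ C := not_lt.mp hh
    linarith
  obtain ⟨L, hL⟩ := eventually_atTop.mp (t1.eventually (gt_mem_nhds h2))
  obtain ⟨l, hl, hl'⟩ := hb L
  rw [e] at hl'
  exact absurd (hL l hl) (not_lt.mpr hl'.le)

/-- The deterministic comparison at a fixed radius. -/
theorem det_bound [IsProbabilityMeasure P] (h : Sk κ P V i f e) {F : ℂ → ℂ} (hF : Univ F)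
    (μ : Measure ℝ) [IsProbabilityMeasure μ] {m C₀ : ℝ}
    (hmean : ∀ ζ ∈ closedBall (0 : ℂ) (1 / 2), ∀ δ : ℝ, 0 < δ → δ ≤ 1 →
      |EE P V μ F δ (F ζ) - m * Real.log (1 / δ)| ≤ C₀)
    {r : ℝ} (hr : 0 < r) {φ₀ : ℂ → ℝ} (hφ : Continuous φ₀) (φ0 : ∀ z, 0 ≤ φ₀ z)
    (hs : ∀ z, r ≤ ‖z‖ → φ₀ z = 0) (φ1 : ∫ z, φ₀ z = 1)
    (hKF : ball (F 0) (2 * r) ⊆ F '' ball 0 (1 / 4)) (n k : ℕ) (p : Ω × (ℕ → ℝ))
    (hKj : ball 0 (2 * r) ⊆
      resc (Real.exp k) (F 0) (fun w => F (f n p.1 w)) '' ball 0 (1 / 4))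
    {M₀ : ℝ} (hM : 0 ≤ M₀) (ψM : ∀ ζ ∈ ball (0 : ℂ) 1,
      psi φ₀ (resc (Real.exp k) (F 0) fun w => F (f n p.1 w)) ζ ≤ M₀)
    {c C δ : ℝ} (hc : 0 < c) (hc1 : c ≤ 1) (hC : 1 ≤ C) (hδ : 0 < δ) (hδ1 : δ ≤ 1) (hδr : δ ≤ r)
    (hsw : ∀ ζ ∈ ball (0 : ℂ) (1 / 4), ∀ A ⊆ ball (0 : ℂ) 1,
      (ball (F ζ) (C * δ) ⊆ F '' A →
        ball (resc (Real.exp k) (F 0) (fun w => F (f n p.1 w)) ζ) δ ⊆
          resc (Real.exp k) (F 0) (fun w => F (f n p.1 w)) '' A) ∧
      (ball (resc (Real.exp k) (F 0) (fun w => F (f n p.1 w)) ζ) δ ⊆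
          resc (Real.exp k) (F 0) (fun w => F (f n p.1 w)) '' A → ball (F ζ) (c * δ) ⊆ F '' A))
    {C₃ : ℝ} (hC₃ : 0 ≤ C₃)
    (he : Err F (c * δ) (C * δ) (fun l => pull (f n p.1) (V (e n l p.1) p.1),
      fun l => p.2 (e n l p.1)) ≤ ENNReal.ofReal C₃) :
    |(∫ z, centred P V μ F p z ((Real.exp k)⁻¹ * δ) *
        (Real.exp k ^ 2 * φ₀ ((Real.exp k : ℝ) * (z - F 0)))) -
      (∑ l ∈ Finset.range (n + 1), p.2 (i l p.1) - m * k) -
      Psi F (EE P V μ F δ) φ₀ δ (resc (Real.exp k) (F 0) fun w => F (f n p.1 w))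
        (fun l => pull (f n p.1) (V (e n l p.1) p.1), fun l => p.2 (e n l p.1))| ≤
      2 * C₀ + M₀ * C₃ := by
  set s := Real.exp k with hsdef
  have s0 : 0 < s := Real.exp_pos _
  have s1 : 1 ≤ s := Real.one_le_exp (Nat.cast_nonneg k)
  set j : ℂ → ℂ := fun w => F (f n p.1 w) with hj
  have ju : Univ j := (h.univ_comp hF n p.1).1
  have jh : Univ (resc s (F 0) j) := univ_resc s0 _ ju
  set v' : Ens := fun l => pull (f n p.1) (V (e n l p.1) p.1) with hv'
  set ξ' : ℕ → ℝ := fun l => p.2 (e n l p.1) with hξ'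
  have gv : Good v' := h.good_inner n p.1
  have C0 : 0 ≤ C₀ := (abs_nonneg _).trans (hmean 0 (by simp) 1 one_pos le_rfl)
  have sδ : 0 < s⁻¹ * δ := by positivity
  have sδ1 : s⁻¹ * δ ≤ 1 := mul_le_one₀ (inv_le_one_of_one_le₀ s1) hδ.le hδ1
  rw [pair_scaled hr s0 hs (F 0) ju hKj]
  obtain ⟨B, hB⟩ := nestSum_bdd gv ξ' hF hδ
  have aF : AEMeasurable F (volume.restrict (ball (0 : ℂ) 1)) :=
    hF.1.continuousOn.aemeasurable measurableSet_ball
  have aj : AEMeasurable j (volume.restrict (ball (0 : ℂ) 1)) :=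
    ju.1.continuousOn.aemeasurable measurableSet_ball
  have mS : ∀ (x : Ens × (ℕ → ℝ)) (t : ℝ), Measurable fun z => nestSum F x.1 x.2 z t :=
    fun x t => (measurable_nestSum hF t).comp measurable_prodMk_left
  refine pair_bound (a := fun ζ => centred P V μ F p (j ζ) (s⁻¹ * δ))
    (b := fun ζ => nestSum F v' ξ' (F ζ) δ - EE P V μ F δ (F ζ))
    (er := fun ζ => err F v' ξ' (ind F ζ) (c * δ) (C * δ)) (B := B + (|m * Real.log (1 / δ)| + C₀))
    (by positivity) hM hC₃ (aem_psi hφ jh) (fun ζ => mul_nonneg (φ0 _) (by positivity))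
    (psi_int hr hs φ1 jh hKj) ψM (fun ζ hζ hψ => (mem_quarter hr hs jh hKj hζ hψ).1) ?_ ?_ ?_ ?_ he
  · exact (((mS (fun k => V k p.1, p.2) _).sub (measurable_EE h μ hF _)).comp_aemeasurable aj)
  · exact (((mS (v', ξ') _).sub (measurable_EE h μ hF _)).comp_aemeasurable aF)
  · intro ζ hζ
    have hζ' : ζ ∈ closedBall (0 : ℂ) (1 / 2) :=
      ball_subset_closedBall (ball_subset_ball (by norm_num) hζ)
    have b1 := hB ζ hζ'
    have b2 := hmean ζ hζ' δ hδ hδ1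
    have b3 := abs_sub_abs_le_abs_sub (EE P V μ F δ (F ζ)) (m * Real.log (1 / δ))
    have b4 := abs_sub (nestSum F v' ξ' (F ζ) δ) (EE P V μ F δ (F ζ))
    linarith
  · intro ζ hζ hψ
    obtain ⟨q1, q2⟩ := mem_quarter hr hs jh hKj hζ hψ
    have hζ' : ζ ∈ closedBall (0 : ℂ) (1 / 2) :=
      ball_subset_closedBall (ball_subset_ball (by norm_num) q1)
    have hb : ball (j ζ) (s⁻¹ * δ) ⊆ j '' ball 0 1 := by
      rw [surr_resc s0 (F 0)]
      refine Subset.trans ?_ (hKj.trans (image_mono (ball_subset_ball (by norm_num))))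
      refine ball_subset_ball' ?_
      rw [dist_zero_right]
      change δ + ‖resc s (F 0) j ζ‖ ≤ 2 * r
      linarith
    have sp := h.nest_split hF n p.1 p.2 sδ hb
    have hjF : j ζ ∈ ball (F 0) (2 * r) := by
      rw [mem_ball, dist_eq_norm]
      have : ‖resc s (F 0) j ζ‖ = s * ‖j ζ - F 0‖ := by
        unfold resc
        rw [norm_mul, Complex.norm_real, Real.norm_of_nonneg s0.le]
      nlinarith [norm_nonneg (j ζ - F 0)]
    obtain ⟨ζ', hζ'1, hζ'2⟩ := hKF hjF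
    have m1 := hmean ζ' (ball_subset_closedBall (ball_subset_ball (by norm_num) hζ'1)) _ sδ sδ1
    rw [hζ'2] at m1
    have m2 := hmean ζ hζ' δ hδ hδ1
    have lg : Real.log (1 / (s⁻¹ * δ)) = k + Real.log (1 / δ) := by
      rw [one_div, mul_inv, inv_inv, Real.log_mul s0.ne' (inv_pos.mpr hδ).ne', hsdef,
        Real.log_exp, one_div]
    rw [lg] at m1
    have nd := nest_diff_le gv ξ' (j := resc s (F 0) j) hF hζ (a := c * δ) (b := δ) (c := C * δ)
      (d := δ) (by positivity) (by nlinarith) (by nlinarith) (hsw ζ q1)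
    rw [← nestSum_resc s0] at nd
    rw [ind_eq hζ]
    have eq : centred P V μ F p (j ζ) (s⁻¹ * δ) -
        (∑ l ∈ Finset.range (n + 1), p.2 (i l p.1) - m * k) -
        (nestSum F v' ξ' (F ζ) δ - EE P V μ F δ (F ζ)) =
        ((EE P V μ F δ (F ζ) - m * Real.log (1 / δ)) -
          (EE P V μ F (s⁻¹ * δ) (j ζ) - m * (k + Real.log (1 / δ)))) +
        (nestSum j v' ξ' (j ζ) (s⁻¹ * δ) - nestSum F v' ξ' (F ζ) δ) := by
      unfold centred
      rw [sp]
      unfold EE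
      ring
    rw [eq]
    refine (enorm_add_le _ _).trans (add_le_add ?_ nd)
    rw [Real.enorm_eq_ofReal_abs]
    refine ENNReal.ofReal_le_ofReal ((abs_sub _ _).trans ?_)
    linarith

end CoupleAux

end Pool.Agent.MP_ac6554_pr

end

section

set_option autoImplicit false

open MeasureTheory ProbabilityTheory TopologicalSpace Metric Set Filter Topology
open scoped NNReal ENNReal

namespace Pool.Agent.MP_ac6554_pr

attribute [local irreducible] nestSum err

variable {κ : ℝ} {Ω : Type} [MeasurableSpace Ω] {P : Measure Ω} {V : ℕ → Ω → Opens ℂ}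
  {i : ℕ → Ω → ℕ} {f : ℕ → Ω → ℂ → ℂ} {e : ℕ → ℕ → Ω → ℕ}

namespace CoupleAux

theorem exists_psi_bound {r : ℝ} (hr : 0 < r) {φ₀ : ℂ → ℝ} (hφ : Continuous φ₀)
    (hs : ∀ z, r ≤ ‖z‖ → φ₀ z = 0) (a₂ : ℝ) : ∃ M₀ : ℝ, 0 ≤ M₀ ∧ ∀ j, Univ j →
      ‖deriv j 0‖ ≤ a₂ → ball 0 (2 * r) ⊆ j '' ball 0 (1 / 4) →
      ∀ ζ ∈ ball (0 : ℂ) 1, psi φ₀ j ζ ≤ M₀ := by
  obtain ⟨C, hC1, hC⟩ := distort
  have hc : HasCompactSupport φ₀ := by
    refine HasCompactSupport.of_support_subset_isCompact (isCompact_closedBall (0 : ℂ) r) ?_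
    intro z hz
    by_contra hh
    rw [mem_closedBall_zero_iff, not_le] at hh
    exact hz (hs z hh.le)
  obtain ⟨B, hB⟩ := hφ.bounded_above_of_compact_support hc
  have B0 : 0 ≤ B := (norm_nonneg _).trans (hB 0)
  refine ⟨B * (C * a₂) ^ 2, by positivity, fun j hj ha hK ζ hζ => ?_⟩
  rcases eq_or_ne (psi φ₀ j ζ) 0 with h0 | h0
  · rw [h0]; positivity
  · obtain ⟨q1, -⟩ := mem_quarter hr hs hj hK hζ h0
    have h1 := hC j 0 1 one_pos hj.1 hj.2 ζ (by
      rw [mem_ball_zero_iff] at q1; rw [sub_zero]; linarith)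
    have h2 : ‖deriv j ζ‖ ≤ C * a₂ := h1.trans (mul_le_mul_of_nonneg_left ha (by linarith))
    exact mul_le_mul ((le_abs_self _).trans (hB _)) (pow_le_pow_left₀ (norm_nonneg _) h2 2)
      (by positivity) B0

theorem measurable_jh (h : Sk κ P V i f e) {F : ℂ → ℂ} (hF : Univ F) (n : ℕ) (s : ℝ) {z : ℂ}
    (hz : z ∈ ball (0 : ℂ) 1) :
    Measurable[mY f n] fun ω => resc s (F 0) (fun w => F (f n ω w)) z := by
  have m1 : Measurable[mY f n] fun ω => f n ω z :=
    (measurable_pi_apply z).comp ((measurable_pi_apply (⟨n, le_refl n⟩ : Iic n)).comp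
      (comap_measurable fun ω (m : Iic n) => f m ω))
  have e1 : (fun ω => resc s (F 0) (fun w => F (f n ω w)) z) =
      fun ω => (s : ℂ) * (ind F (f n ω z) - F 0) := by
    funext ω
    have : f n ω z ∈ ball (0 : ℂ) 1 :=
      ((h.good ω).1 _).2 (comp0_le _ ((h.fconf ω n).2.mapsTo hz))
    rw [ind_eq this]; rfl
  rw [e1]
  exact (((measurable_ind hF).comp m1).sub_const _).const_mul _

end CoupleAux

open CoupleAux

theorem Sk.couple [IsProbabilityMeasure P] (h : Sk κ P V i f e) (h1 : 8 / 3 < κ) (h2 : κ < 8)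
    (h4 : κ ≠ 4) {D : Opens ℂ} {F : ℂ → ℂ} (hF : Conf F D) (μ : Measure ℝ)
    [IsProbabilityMeasure μ] (hμ : MemLp id 2 μ) (H : Ω × (ℕ → ℝ) → Distribution D ℝ ⊤)
    (hlim : ∀ φ : TestFunction D ℝ ⊤, ∀ᵐ p ∂(PP P μ),
      Tendsto (fun ε => ∫ z, centred P V μ F p z ε * φ z) (𝓝[>] 0) (𝓝 (H p φ)))
    (hm : ∀ φ : TestFunction D ℝ ⊤, AEMeasurable (fun p => H p φ) (PP P μ)) :
    ∃ φ : ℕ → TestFunction D ℝ ⊤, ∀ A η : ℝ, 0 < η → ∃ C : ℝ, ∀ (n k : ℕ)
      (E : Set (Ω × (Iic n → ℝ))), MeasurableSet[(mY f n).prod MeasurableSpace.pi] E →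
      (∀ p : Ω × (ℕ → ℝ), (p.1, fun m : Iic n => p.2 (i m p.1)) ∈ E →
        k - A ≤ Tt f n p.1 ∧ Tt f n p.1 ≤ k) →
      PP P μ ({p | (p.1, fun m : Iic n => p.2 (i m p.1)) ∈ E} ∩
        {p | C < |H p (φ k) - ∑ l ∈ Finset.range (n + 1), p.2 (i l p.1) +
          (∫ x, x ∂μ) * k / ∫ b, b ∂(P.map (Bb f 0))|}) ≤
        ENNReal.ofReal η * PP P μ {p | (p.1, fun m : Iic n => p.2 (i m p.1)) ∈ E} := by
  have Fu := hF.univ
  have a0 : 0 < ‖deriv F 0‖ :=
    norm_pos_iff.mpr (univ_deriv_ne_zero isOpen_ball Fu.1 Fu.2 (mem_ball_self one_pos))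
  obtain ⟨r, φ₀, hr, hφ, φ0, hs, φ1, hK⟩ := exists_bump a0
  have hKF : ball (F 0) (2 * r) ⊆ F '' ball 0 (1 / 4) := by
    have := hK (resc 1 (F 0) F) (univ_resc one_pos _ Fu) (by simp [resc])
      (by rw [deriv_resc]; simp)
    have k := (surr_resc one_pos (F 0) F (ball 0 (1 / 4)) (F 0) (2 * r)).mpr (by simpa using this)
    simpa using k
  choose φ hφk using fun k : ℕ =>
    exists_test hF hr (Real.one_le_exp (Nat.cast_nonneg k)) hφ hs hKF
  refine ⟨φ, fun A η hη => ?_⟩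
  set m := (∫ x, x ∂μ) / ∫ b, b ∂(P.map (Bb f 0)) with hmdef
  obtain ⟨C₀, hmean⟩ := h.mean_bound h1 h2 h4 Fu μ hμ
  set a₂ := ‖deriv F 0‖ * Real.exp A with ha₂
  obtain ⟨c, C, δ₀, hc, hc1, hC, hδ₀, hCδ, hsw⟩ := sandwich Fu a0 a₂
  obtain ⟨C₂, hC₂⟩ := psi_tight hF μ H hlim hm hr hφ hs hK a₂ (half_pos hη)
  obtain ⟨C₃, C30, hC₃⟩ := err_tight h h1 h2 h4 Fu μ hμ hc (hc1.trans hC) (half_pos hη)
  obtain ⟨M₀, hM, hψ⟩ := exists_psi_bound hr hφ.continuous hs a₂
  refine ⟨2 * C₀ + M₀ * C₃ + C₂, fun n k E hE hT => ?_⟩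
  set jh : Ω → ℂ → ℂ := fun ω => resc (Real.exp k) (F 0) fun w => F (f n ω w) with hjh
  have ju : ∀ ω, Univ (jh ω) := fun ω => univ_resc (Real.exp_pos _) _ (h.univ_comp Fu n ω).1
  have j0 : ∀ ω, jh ω 0 = 0 := fun ω => by simp [hjh, resc, h.f0 ω n]
  have jd : ∀ ω, (k - A ≤ Tt f n ω ∧ Tt f n ω ≤ k) →
      ‖deriv F 0‖ ≤ ‖deriv (jh ω) 0‖ ∧ ‖deriv (jh ω) 0‖ ≤ a₂ := by
    intro ω hω
    have : ‖deriv (jh ω) 0‖ = ‖deriv F 0‖ * Real.exp (k - Tt f n ω) := by
      rw [hjh]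
      simp only
      rw [deriv_resc, norm_mul, (h.univ_comp Fu n ω).2, Complex.norm_real,
        Real.norm_of_nonneg (Real.exp_pos _).le, sub_eq_add_neg, Real.exp_add]
      ring
    rw [this]
    exact ⟨le_mul_of_one_le_right a0.le (Real.one_le_exp (by linarith [hω.2])),
      mul_le_mul_of_nonneg_left (Real.exp_le_exp.mpr (by linarith [hω.1])) a0.le⟩
  set Bad : Set ((Ω × (Iic n → ℝ)) × (Ens × (ℕ → ℝ))) := {x | x.1 ∈ E ∧
    ((∀ L, ∃ l, L ≤ l ∧ C₂ < |Psi F (EE P V μ F (rad l)) φ₀ (rad l) (jh x.1.1) x.2|) ∨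
      ∃ L, ∀ l, L ≤ l → ENNReal.ofReal C₃ < Err F (c * rad l) (C * rad l) x.2)} with hBad
  have mBad : MeasurableSet[((mY f n).prod MeasurableSpace.pi).prod inferInstance] Bad := by
    have key : ∀ l : ℕ, Measurable[((mY f n).prod MeasurableSpace.pi).prod inferInstance]
        fun x : (Ω × (Iic n → ℝ)) × (Ens × (ℕ → ℝ)) =>
          Psi F (EE P V μ F (rad l)) φ₀ (rad l) (jh x.1.1) x.2 := fun l =>
      @measurable_Psi (Ω × (Iic n → ℝ)) ((mY f n).prod MeasurableSpace.pi) F Fu _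
        (measurable_EE h μ Fu _) φ₀ hφ.continuous (rad l) (fun y => jh y.1)
        (fun y => (ju y.1).1) fun z hz =>
          (measurable_jh h Fu n _ hz).comp (@measurable_fst Ω (Iic n → ℝ) (mY f n) _)
    let _ : MeasurableSpace (Ω × (Iic n → ℝ)) := (mY f n).prod MeasurableSpace.pi
    have s1 : MeasurableSet {x : (Ω × (Iic n → ℝ)) × (Ens × (ℕ → ℝ)) | x.1 ∈ E} :=
      measurable_fst hE
    have s2 : MeasurableSet {x : (Ω × (Iic n → ℝ)) × (Ens × (ℕ → ℝ)) | ∀ L, ∃ l, L ≤ l ∧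
        C₂ < |Psi F (EE P V μ F (rad l)) φ₀ (rad l) (jh x.1.1) x.2|} := by
      simp only [ofPred_forall, ofPred_exists, ofPred_and]
      exact MeasurableSet.iInter fun L => MeasurableSet.iUnion fun l =>
        (MeasurableSet.const _).inter (measurableSet_lt measurable_const (key l).abs)
    have s3 : MeasurableSet {x : (Ω × (Iic n → ℝ)) × (Ens × (ℕ → ℝ)) | ∃ L, ∀ l, L ≤ l →
        ENNReal.ofReal C₃ < Err F (c * rad l) (C * rad l) x.2} := by
      simp only [ofPred_forall, ofPred_exists]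
      exact MeasurableSet.iUnion fun L => MeasurableSet.iInter fun l => MeasurableSet.iInter
        fun _ => measurableSet_lt measurable_const ((measurable_Err Fu _ _).comp measurable_snd)
    exact s1.inter (s2.union s3)
  have mI : Measurable[((mY f n).prod MeasurableSpace.pi).prod inferInstance]
      (Bad.indicator (1 : (Ω × (Iic n → ℝ)) × (Ens × (ℕ → ℝ)) → ℝ≥0∞)) := by
    let _ : MeasurableSpace (Ω × (Iic n → ℝ)) := (mY f n).prod MeasurableSpace.pi
    exact measurable_one.indicator mBad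
  have fr := h.freeze μ n (Bad.indicator 1) mI
  have mξ : ∀ a : Ω → ℕ, Measurable a → Measurable fun p : Ω × (ℕ → ℝ) => p.2 (a p.1) :=
    fun a ha => (measurable_from_prod_countable_left (f := fun q : (ℕ → ℝ) × ℕ => q.1 q.2)
      fun l => measurable_pi_apply l).comp (measurable_snd.prodMk (ha.comp measurable_fst))
  have mY1 : Measurable[_, (mY f n).prod MeasurableSpace.pi]
      fun p : Ω × (ℕ → ℝ) => (p.1, fun m : Iic n => p.2 (i m p.1)) :=
    (measurable_fst.prodMk (measurable_pi_lambda _ fun m : Iic n => mξ _ (h.imeas m))).mono le_rfl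
      (sup_le_sup (MeasurableSpace.comap_mono (h.mY_le n)) le_rfl)
  have mE : MeasurableSet {p : Ω × (ℕ → ℝ) | (p.1, fun m : Iic n => p.2 (i m p.1)) ∈ E} := mY1 hE
  have mB : MeasurableSet {p : Ω × (ℕ → ℝ) | ((p.1, fun m : Iic n => p.2 (i m p.1)),
      ((fun l => pull (f n p.1) (V (e n l p.1) p.1) : Ens), fun l => p.2 (e n l p.1))) ∈ Bad} := by
    let _ : MeasurableSpace (Ω × (Iic n → ℝ)) := (mY f n).prod MeasurableSpace.pi
    exact (mY1.prodMk (((h.measurable_inner n).comp measurable_fst).prodMk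
      (measurable_pi_lambda _ fun l => mξ _ (h.emeas n l)))) mBad
  calc PP P μ ({p | (p.1, fun m : Iic n => p.2 (i m p.1)) ∈ E} ∩
        {p | 2 * C₀ + M₀ * C₃ + C₂ < |H p (φ k) - ∑ l ∈ Finset.range (n + 1), p.2 (i l p.1) +
          (∫ x, x ∂μ) * k / ∫ b, b ∂(P.map (Bb f 0))|})
      ≤ PP P μ {p | ((p.1, fun m : Iic n => p.2 (i m p.1)),
          ((fun l => pull (f n p.1) (V (e n l p.1) p.1) : Ens), fun l => p.2 (e n l p.1))) ∈
            Bad} := by
        refine measure_mono_ae ?_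
        filter_upwards [hlim (φ k)] with p hp hb
        obtain ⟨hpE, hb⟩ := hb
        refine ⟨hpE, ?_⟩
        by_contra hh
        push Not at hh
        obtain ⟨⟨L, hL⟩, hE3⟩ := hh
        obtain ⟨d1, d2⟩ := jd p.1 (hT p hpE)
        have hKj := hK _ (ju p.1) (j0 p.1) d1
        have t1 := hp.comp (tendsto_rad (inv_pos.mpr (Real.exp_pos k)))
        have t2 := (t1.sub_const (∑ l ∈ Finset.range (n + 1), p.2 (i l p.1) - m * k)).abs
        have hb' : 2 * C₀ + M₀ * C₃ + C₂ <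
            |H p (φ k) - (∑ l ∈ Finset.range (n + 1), p.2 (i l p.1) - m * k)| := by
          have hb2 : 2 * C₀ + M₀ * C₃ + C₂ < |H p (φ k) -
            ∑ l ∈ Finset.range (n + 1), p.2 (i l p.1) +
              (∫ x, x ∂μ) * k / ∫ b, b ∂(P.map (Bb f 0))| := hb
          convert hb2 using 2
          rw [hmdef]; ring
        obtain ⟨L₁, hL₁⟩ := eventually_atTop.mp (((t2.eventually (lt_mem_nhds hb')).and
          (ev_rad_le hδ₀)).and (ev_rad_le hr))
        obtain ⟨l, hl, hl3⟩ := hE3 (max L L₁)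
        obtain ⟨⟨b1, b2⟩, b3⟩ := hL₁ l ((le_max_right _ _).trans hl)
        have b4 := hL l ((le_max_left _ _).trans hl)
        have b5 : rad l ≤ 1 := by nlinarith [rad_pos l]
        have db := det_bound h Fu μ (m := m) hmean hr hφ.continuous φ0 hs φ1 hKF n k p hKj hM
          (hψ _ (ju p.1) d2 hKj) hc hc1 hC (rad_pos l) b5 b3
          (fun ζ hζ => hsw _ (ju p.1) d1 d2 ζ hζ _ (rad_pos l) b2) C30 hl3
        simp only [Function.comp, hφk] at b1
        have tri := abs_sub_abs_le_abs_sub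
          ((∫ z, centred P V μ F p z ((Real.exp k)⁻¹ * rad l) *
            (Real.exp k ^ 2 * φ₀ ((Real.exp k : ℝ) * (z - F 0)))) -
            (∑ l ∈ Finset.range (n + 1), p.2 (i l p.1) - m * k))
          (Psi F (EE P V μ F (rad l)) φ₀ (rad l) (jh p.1)
            (fun l => pull (f n p.1) (V (e n l p.1) p.1), fun l => p.2 (e n l p.1)))
        linarith
    _ ≤ ∫⁻ p, Bad.indicator 1 ((p.1, fun m : Iic n => p.2 (i m p.1)),
          ((fun l => pull (f n p.1) (V (e n l p.1) p.1) : Ens), fun l => p.2 (e n l p.1)))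
          ∂(PP P μ) := (lintegral_indicator_one mB).symm.le
    _ = _ := fr
    _ ≤ ∫⁻ p, {p : Ω × (ℕ → ℝ) | (p.1, fun m : Iic n => p.2 (i m p.1)) ∈ E}.indicator
          (fun _ => ENNReal.ofReal η) p ∂(PP P μ) := by
        refine lintegral_mono fun p => ?_
        by_cases hpE : (p.1, fun m : Iic n => p.2 (i m p.1)) ∈ E
        · rw [indicator_of_mem (show p ∈ {p : Ω × (ℕ → ℝ) |
            (p.1, fun m : Iic n => p.2 (i m p.1)) ∈ E} from hpE)]
          obtain ⟨d1, d2⟩ := jd p.1 (hT p hpE)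
          refine le_trans (lintegral_indicator_one_le (μ := PP P μ)
            {q : Ω × (ℕ → ℝ) | ((p.1, fun m : Iic n => p.2 (i m p.1)),
              ((fun k => V k q.1 : Ens), q.2)) ∈ Bad}) ?_
          refine le_trans (measure_mono fun q hq => hq.2) ?_
          refine (measure_union_le _ _).trans ?_
          rw [← add_halves η, ENNReal.ofReal_add (half_pos hη).le (half_pos hη).le]
          exact add_le_add (hC₂ _ (ju p.1) (j0 p.1) d1 d2) hC₃
        · rw [indicator_of_notMem (show p ∉ {p : Ω × (ℕ → ℝ) |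
            (p.1, fun m : Iic n => p.2 (i m p.1)) ∈ E} from hpE)]
          refine le_of_eq (lintegral_eq_zero_of_ae_eq_zero (ae_of_all _ fun q => ?_))
          exact indicator_of_notMem (fun hq => hpE hq.1) _
    _ = _ := lintegral_indicator_const mE _

end Pool.Agent.MP_ac6554_pr

end

section

set_option autoImplicit false

open MeasureTheory ProbabilityTheory TopologicalSpace Metric Set Filter Topology
open scoped NNReal ENNReal

namespace Pool.Agent.MP_ac6554_pr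

attribute [local irreducible] nestSum

theorem Sk.dirac {κ : ℝ} {Ω : Type} [MeasurableSpace Ω] {P : Measure Ω} {V : ℕ → Ω → Opens ℂ}
    {i : ℕ → Ω → ℕ} {f : ℕ → Ω → ℂ → ℂ} {e : ℕ → ℕ → Ω → ℕ} [IsProbabilityMeasure P]
    (h : Sk κ P V i f e) (h1 : 8 / 3 < κ) (h2 : κ < 8)
    (h4 : κ ≠ 4) {D : Opens ℂ} {F : ℂ → ℂ} (hF : Conf F D) (μ : Measure ℝ)
    [IsProbabilityMeasure μ] (hμ : MemLp id 2 μ) (H : Ω × (ℕ → ℝ) → Distribution D ℝ ⊤)
    (hlim : ∀ φ : TestFunction D ℝ ⊤, ∀ᵐ p ∂(PP P μ),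
      Tendsto (fun ε => ∫ z, centred P V μ F p z ε * φ z) (𝓝[>] 0) (𝓝 (H p φ)))
    (hG : ∀ φ : TestFunction D ℝ ⊤, HasGaussianLaw (fun p => H p φ) (PP P μ)) :
    μ = Measure.dirac 0 := by
  obtain ⟨φ, hφ⟩ := h.couple h1 h2 h4 hF μ hμ H hlim fun φ => (hG φ).aemeasurable
  have κ0 : 0 < κ := by linarith
  have ν0 : 1 - 4 / κ ≠ 0 := by
    intro hh
    apply h4
    field_simp at hh
    linarith
  have ν1 : |1 - 4 / κ| < 1 / 2 := by
    have a1 : 4 / κ < 3 / 2 := by rw [div_lt_iff₀ κ0]; linarith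
    have a2 : 1 / 2 < 4 / κ := by rw [lt_div_iff₀ κ0]; linarith
    rw [abs_lt]; constructor <;> linarith
  have mξ : ∀ a : Ω → ℕ, Measurable a → Measurable fun p : Ω × (ℕ → ℝ) => p.2 (a p.1) :=
    fun a ha => (measurable_from_prod_countable_left (f := fun q : (ℕ → ℝ) × ℕ => q.1 q.2)
      fun l => measurable_pi_apply l).comp (measurable_snd.prodMk (ha.comp measurable_fst))
  have : IsProbabilityMeasure (P.map (Bb f 0)) :=
    Measure.isProbabilityMeasure_map (h.measurable_Bb 0).aemeasurable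
  obtain ⟨hind, hlaw⟩ := h.indep_Z μ
  let G : ℕ → MeasurableSpace (Ω × (ℕ → ℝ)) := fun n => match n with
    | 0 => ⊥
    | n + 1 => MeasurableSpace.comap (fun p => (p.1, fun m : Iic n => p.2 (i m p.1)))
        ((mY f n).prod MeasurableSpace.pi)
  refine dirac_of_coupling (P := PP P μ) (β := P.map (Bb f 0)) (B := fun n p => Bb f n p.1)
    (ξ := fun n p => p.2 (i n p.1)) (X := fun k p => H p (φ k)) κ0 ν0 ν1
    (fun n => (h.measurable_Bb n).comp measurable_fst) (fun n => mξ _ (h.imeas n)) hind hlaw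
    ((ae_map_iff (h.measurable_Bb 0).aemeasurable measurableSet_Ici).mpr
      (ae_of_all _ (h.Bb_nonneg 0))) (h.ssw h1 h2 h4) hμ (fun k => hG (φ k)) G ?_ 0 ?_
  · intro n l hl
    cases n with
    | zero => omega
    | succ n =>
      have hm : Measurable[G (n + 1), (mY f n).prod MeasurableSpace.pi]
          fun p : Ω × (ℕ → ℝ) => (p.1, fun m : Iic n => p.2 (i m p.1)) :=
        Measurable.of_comap_le le_rfl
      have hln : l ≤ n := by omega
      exact ⟨((h.measurable_Bb_mY hln).comp (@measurable_fst Ω (Iic n → ℝ) (mY f n) _)).comp hm,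
        ((measurable_pi_apply (⟨l, hln⟩ : Iic n)).comp
          (@measurable_snd Ω (Iic n → ℝ) (mY f n) _)).comp hm⟩
  · intro A η hη
    obtain ⟨C, hC⟩ := hφ A η hη
    refine ⟨C, fun n k hn _ E hE hT => ?_⟩
    cases n with
    | zero => omega
    | succ n =>
      obtain ⟨E', hE', rfl⟩ := hE
      refine hC n k E' hE' fun p hp => ?_
      have := hT p hp
      simp only [psum, sum_Bb, sub_zero] at this
      exact this

theorem main {κ : ℝ} (h1 : 8 / 3 < κ) (h2 : κ < 8) (h4 : κ ≠ 4) {Ω : Type} [MeasurableSpace Ω]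
    {P : Measure Ω} [IsProbabilityMeasure P] {V : ℕ → Ω → Opens ℂ} (hV : IsCLE κ P V)
    {D : Opens ℂ} {F : ℂ → ℂ} (hF : Conf F D) (μ : Measure ℝ) [IsProbabilityMeasure μ]
    (hμ : MemLp id 2 μ) (H : Ω × (ℕ → ℝ) → Distribution D ℝ ⊤)
    (hlim : ∀ φ : TestFunction D ℝ ⊤, ∀ᵐ p ∂(PP P μ),
      Tendsto (fun ε => ∫ z, centred P V μ F p z ε * φ z) (𝓝[>] 0) (𝓝 (H p φ)))
    (hG : ∀ φ : TestFunction D ℝ ⊤, HasGaussianLaw (fun p => H p φ) (PP P μ)) :
    μ = Measure.dirac 0 := by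
  obtain ⟨Ω₀, _, P₀, _, V₀, i, f, e, T, hS, hT, hN⟩ := reduce hV μ
  have hc : ∀ p z ε, centred P₀ V₀ μ F p z ε = centred P V μ F (T p) z ε := by
    intro p z ε
    unfold centred
    simp only [hN]
    congr 1
    have m : Measurable fun q : Ω × (ℕ → ℝ) => nestSum F (fun k => V k q.1) q.2 z ε :=
      (measurable_nestSum hF.univ ε).comp (((measurable_pi_lambda _ fun k =>
        (hV.meas k).comp measurable_fst).prodMk measurable_snd).prodMk measurable_const)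
    have := integral_map (μ := PP P₀ μ) hT.measurable.aemeasurable m.aestronglyMeasurable
    rw [hT.map_eq] at this
    exact this.symm
  refine hS.dirac h1 h2 h4 hF μ hμ (fun p => H (T p)) (fun φ => ?_) fun φ => ?_
  · simp only [hc]
    exact hT.quasiMeasurePreserving.ae (hlim φ)
  · refine ⟨?_⟩
    have := (hG φ).isGaussian_map
    have a := (hG φ).aemeasurable
    rw [← hT.map_eq] at this a
    rwa [AEMeasurable.map_map_of_aemeasurable a hT.measurable.aemeasurable] at this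

end Pool.Agent.MP_ac6554_pr

end

section

set_option autoImplicit false

open MeasureTheory ProbabilityTheory TopologicalSpace Metric Set Filter Topology
open scoped NNReal ENNReal

namespace Pool.Agent.MP_ac6554_pr

namespace ZeroAux

theorem sc_multi (i : ℕ) :
    SecondCountableTopology (ContinuousMultilinearMap ℝ (fun _ : Fin i => ℂ) ℝ) := by
  have : Module.Finite ℝ (ContinuousMultilinearMap ℝ (fun _ : Fin i => ℂ) ℝ) :=
    Module.Finite.of_injective ContinuousMultilinearMap.toMultilinearMapLinear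
      ContinuousMultilinearMap.toMultilinearMap_injective
  have := FiniteDimensional.proper_real (ContinuousMultilinearMap ℝ (fun _ : Fin i => ℂ) ℝ)
  infer_instance

/-- All derivatives, restricted to `K`. -/
noncomputable def jets (K : Compacts ℂ) (φ : ContDiffMapSupportedIn ℂ ℝ ⊤ K) (i : ℕ) :
    C(K, ContinuousMultilinearMap ℝ (fun _ : Fin i => ℂ) ℝ) :=
  ⟨fun x => iteratedFDeriv ℝ i φ x,
    (φ.contDiff.continuous_iteratedFDeriv (by exact_mod_cast le_top)).comp continuous_subtype_val⟩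

theorem exists_dense (K : Compacts ℂ) : ∃ S : Set (ContDiffMapSupportedIn ℂ ℝ ⊤ K),
    S.Countable ∧ Dense S := by
  have := sc_multi
  obtain ⟨T, hT2, hT1, hT3⟩ := (IsSeparable.of_separableSpace (range (jets K))).exists_countable_dense_subset
  choose g hg using fun t : T => hT2 t.2
  have : Countable T := hT1.to_subtype
  refine ⟨range g, countable_range g, fun φ => ?_⟩
  obtain ⟨u, hu, hu'⟩ := mem_closure_iff_seq_limit.mp (hT3 (mem_range_self φ))
  refine mem_closure_of_tendsto (f := fun n => g ⟨u n, hu n⟩) (b := atTop) ?_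
    (Eventually.of_forall fun n => mem_range_self _)
  rw [(ContDiffMapSupportedIn.withSeminorms ℝ ℂ ℝ ⊤ K).tendsto_nhds]
  intro i ε hε
  have h1 : Tendsto (fun n => ‖u n i - jets K φ i‖) atTop (𝓝 0) :=
    (tendsto_iff_norm_sub_tendsto_zero
      (E := C(K, ContinuousMultilinearMap ℝ (fun _ : Fin i => ℂ) ℝ))).mp
      (tendsto_pi_nhds.mp hu' i)
  filter_upwards [h1.eventually (gt_mem_nhds (half_pos hε))] with n hn
  refine lt_of_le_of_lt ?_ (half_lt_self hε)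
  rw [ContDiffMapSupportedIn.seminorm_top_le_iff ℝ (half_pos hε).le]
  intro x hx
  have h2 := (ContinuousMap.norm_coe_le_norm (u n i - jets K φ i) ⟨x, hx⟩).trans hn.le
  have h3 : u n = jets K (g ⟨u n, hu n⟩) := (hg ⟨u n, hu n⟩).symm
  rw [h3] at h2
  have h4 : (⇑(g ⟨u n, hu n⟩ - φ) : ℂ → ℝ) = ⇑(g ⟨u n, hu n⟩) - ⇑φ := rfl
  rw [h4, iteratedFDeriv_sub_apply
    ((g ⟨u n, hu n⟩).contDiff.of_le (by exact_mod_cast le_top)).contDiffAt
    (φ.contDiff.of_le (by exact_mod_cast le_top)).contDiffAt]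
  exact h2

theorem ae_zero {X : Type} [MeasurableSpace X] (Q : Measure X) {D : Opens ℂ}
    (H : X → Distribution D ℝ ⊤) (h : ∀ φ : TestFunction D ℝ ⊤, ∀ᵐ p ∂Q, H p φ = 0) :
    ∀ᵐ p ∂Q, H p = 0 := by
  have : LocallyCompactSpace D := D.isOpen.locallyCompactSpace
  let E := CompactExhaustion.choice D
  let K : ℕ → Compacts ℂ := fun n =>
    ⟨Subtype.val '' E n, (E.isCompact n).image continuous_subtype_val⟩
  have hK : ∀ n, (K n : Set ℂ) ⊆ D := fun n => Subtype.coe_image_subset _ _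
  choose S hS1 hS2 using fun n => exists_dense (K n)
  have h1 : ∀ᵐ p ∂Q, ∀ n, ∀ ψ ∈ S n, H p (TestFunction.ofSupportedIn (hK n) ψ) = 0 :=
    ae_all_iff.mpr fun n => (ae_ball_iff (hS1 n)).mpr fun ψ _ => h _
  filter_upwards [h1] with p hp
  ext φ
  have hc : IsCompact (Subtype.val ⁻¹' tsupport φ : Set D) :=
    Topology.IsInducing.subtypeVal.isCompact_preimage' φ.hasCompactSupport
      (by rw [Subtype.range_coe]; exact φ.tsupport_subset)
  obtain ⟨n, hn⟩ := E.exists_superset_of_isCompact hc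
  have hs : Function.support φ ⊆ K n := fun z hz =>
    ⟨⟨z, φ.tsupport_subset (subset_tsupport _ hz)⟩, hn (subset_tsupport _ hz), rfl⟩
  have e : φ = TestFunction.ofSupportedIn (hK n)
      (ContDiffMapSupportedIn.of_support_subset φ.contDiff hs) := by ext z; rfl
  have hcont : Continuous fun ψ : ContDiffMapSupportedIn ℂ ℝ ⊤ (K n) =>
      H p (TestFunction.ofSupportedIn (hK n) ψ) :=
    (H p).continuous.comp (TestFunction.continuous_ofSupportedIn (hK n))
  have := Continuous.ext_on (hS2 n) hcont continuous_const (hp n)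
  rw [e]
  exact congrFun this _

end ZeroAux

theorem zero_of_dirac {Ω : Type} [MeasurableSpace Ω] (P : Measure Ω) [IsProbabilityMeasure P]
    (V : ℕ → Ω → Opens ℂ) {D : Opens ℂ} (F : ℂ → ℂ) (H : Ω × (ℕ → ℝ) → Distribution D ℝ ⊤)
    (hlim : ∀ φ : TestFunction D ℝ ⊤, ∀ᵐ p ∂(PP P (Measure.dirac 0)),
      Tendsto (fun ε => ∫ z, centred P V (Measure.dirac 0) F p z ε * φ z) (𝓝[>] 0)
        (𝓝 (H p φ))) : ∀ᵐ p ∂(PP P (Measure.dirac 0)), H p = 0 := by
  have h0 : ∀ᵐ p ∂(PP P (Measure.dirac (0 : ℝ))), p.2 = fun _ => 0 := by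
    have : ∀ᵐ ξ ∂(Measure.infinitePi fun _ : ℕ => Measure.dirac (0 : ℝ)), ξ = fun _ => 0 := by
      rw [Measure.infinitePi_dirac]; simp
    exact Measure.quasiMeasurePreserving_snd.ae this
  have h1 : ∀ (v : Ens) z ε, nestSum F v (fun _ => 0) z ε = 0 := by
    intro v z ε; simp [nestSum]
  refine ZeroAux.ae_zero _ H fun φ => ?_
  filter_upwards [hlim φ, h0] with p hp hp0
  have h2 : ∀ z ε, centred P V (Measure.dirac 0) F p z ε = 0 := by
    intro z ε
    unfold centred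
    rw [hp0, h1, integral_eq_zero_of_ae, sub_zero]
    filter_upwards [h0] with q hq
    rw [hq, h1]; rfl
  simp only [h2, zero_mul, integral_zero] at hp
  exact tendsto_nhds_unique hp tendsto_const_nhds

end Pool.Agent.MP_ac6554_pr

end
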